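import Mathlib

/-!
# Algebraically independent `p`-adic integers with prescribed residues

PROOF. By induction on `r` (split off the last index, `Fin.snoc`). Suppose that `t₁, …, t_r` are
chosen. The subring `ℤ[t₁, …, t_r]` of `ℤ_[p]` is countable, so the set of elements of `ℤ_[p]` which
are algebraic over it is countable (`Algebraic.countable` / cardinality lemmas for algebraic
elements), while `a_{r+1} + p ℤ_[p]` is uncountable (it is a translate of the image of `ℤ_[p]` under
the injective map `x ↦ p x`, and `ℤ_[p]` is uncountable, e.g. `ℕ → Fin 2` injects into `ℤ_[p]`, or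
`ℤ_[p]` is a complete metric space without isolated points / Mathlib may know the cardinality).
Take `t_{r+1}` in it, transcendental over `ℤ[t₁, …, t_r]`, and use the lemmas on
`AlgebraicIndependent` (`AlgebraicIndependent` is by definition the injectivity of `MvPolynomial.aeval`;
see `algebraicIndependent_option`, `AlgebraicIndependent.option_iff`, `Transcendental`).
-/

set_option autoImplicit false

namespace Pool.Agent.H71.KP

/-- A residue class modulo `p` is not contained in a countable set. -/
theorem AlgInd_exists_notMem (p : ℕ) [Fact p.Prime] (C : Set ℤ_[p]) (hC : C.Countable)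
    (a : ℤ_[p]) : ∃ x : ℤ_[p], x ∉ C ∧ (p : ℤ_[p]) ∣ x - a := by
  have h1 : ((fun x : ℤ_[p] => (x : ℚ_[p])) '' C).Countable := hC.image _
  have h2 : Dense ((fun x : ℤ_[p] => (x : ℚ_[p])) '' C)ᶜ := h1.dense_compl ℚ_[p]
  obtain ⟨y, hyC, hy⟩ := Metric.dense_iff.mp h2 (a : ℚ_[p]) 1 one_pos
  have hy1 : ‖y - (a : ℚ_[p])‖ < 1 := by
    have := hyC; rwa [Metric.mem_ball, dist_eq_norm] at this
  have hz : ‖y - (a : ℚ_[p])‖ ≤ 1 := hy1.le
  set z : ℤ_[p] := ⟨y - (a : ℚ_[p]), hz⟩ with hzdef
  refine ⟨z + a, ?_, ?_⟩
  · intro hmem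
    apply hy
    refine ⟨z + a, hmem, ?_⟩
    show ((z + a : ℤ_[p]) : ℚ_[p]) = y
    rw [PadicInt.coe_add, hzdef]
    simp
  · rw [add_sub_cancel_right, ← PadicInt.norm_lt_one_iff_dvd]
    exact hy1

theorem AlgInd_aux (p : ℕ) [Fact p.Prime] : ∀ (r : ℕ) (a : Fin r → ℤ_[p]),
    ∃ t : Fin r → ℤ_[p], (∀ i, (p : ℤ_[p]) ∣ t i - a i) ∧ AlgebraicIndependent ℤ t := by
  intro r
  induction r with
  | zero =>
    intro a
    refine ⟨a, fun i => i.elim0, ?_⟩
    rw [algebraicIndependent_empty_type_iff]
    exact Int.cast_injective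
  | succ r ih =>
    intro a
    obtain ⟨t, ht, hind⟩ := ih (fun i => a i.castSucc)
    have hcount : Countable (Algebra.adjoin ℤ (Set.range t)) := by
      rw [Algebra.adjoin_range_eq_range_aeval]
      have : Countable (MvPolynomial (Fin r) ℤ) := by
        have h := MvPolynomial.cardinalMk_le_max (σ := Fin r) (R := ℤ)
        rw [← Cardinal.mk_le_aleph0_iff]
        refine h.trans ?_
        simp
      exact (Set.countable_range _).to_subtype
    have hC : {x : ℤ_[p] | IsAlgebraic (Algebra.adjoin ℤ (Set.range t)) x}.Countable :=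
      Algebraic.countable _ _
    obtain ⟨x, hx, hxa⟩ := AlgInd_exists_notMem p _ hC (a (Fin.last r))
    have hopt := (hind.option_iff_transcendental x).mpr hx
    refine ⟨fun i => (finSuccEquivLast i).elim x t, ?_, ?_⟩
    · intro i
      induction i using Fin.lastCases with
      | last => simpa using hxa
      | cast i => simpa using ht i
    · exact hopt.comp finSuccEquivLast finSuccEquivLast.injective

/-- There are algebraically independent `p`-adic integers congruent to given ones modulo `p`. -/
theorem exists_algInd (p : ℕ) [Fact p.Prime] (r : ℕ) (a : Fin r → ℤ_[p]) :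
    ∃ t : Fin r → ℤ_[p], (∀ i, (p : ℤ_[p]) ∣ t i - a i) ∧
      Function.Injective (MvPolynomial.aeval t : MvPolynomial (Fin r) ℤ →ₐ[ℤ] ℤ_[p]) := by
  obtain ⟨t, ht, hi⟩ := AlgInd_aux p r a
  exact ⟨t, ht, hi⟩

end Pool.Agent.H71.KP
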