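import Mathlib

/-!
# Finitely generated domains of characteristic zero

PROOF. Let `K` be the fraction field of `R`, a finitely generated field extension of `ℚ`, let
`a₁, …, a_m` generate the ring `R`, and choose a transcendence basis `x₁, …, x_r` of `K` over `ℚ`
among the `a_i` (or by `exists_isTranscendenceBasis`...; it may be chosen inside `R`). Then
`A = MvPolynomial (Fin r) ℤ` embeds in `R` (`X i ↦ x_i`); `K` is a finite separable extension of
`Q = Frac A` (characteristic zero), so it has a primitive element `θ`, which we may multiply by a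
nonzero element of `A` so that it is integral over `A`. As `A` is integrally closed (it is a unique
factorisation domain) the minimal polynomial `F` of `θ` over `A` is monic and is also the minimal
polynomial over `Q` (`minpoly.isIntegrallyClosed_eq_field_fractions'`). It is separable over `Q`, so
`A₀ F + B₀ F' = 1` in `Q[X]`; clearing denominators gives `A`, `B`, `D`. Every `a_j` is of the form
`P_j(θ) / h_j` with `P_j` in `A[X]` and `h_j ≠ 0` in `A`; let `h` be the product of the `h_j`.

Let now `ψ : A → T` be injective, `ψ h` a unit, `y` a root of `F^ψ`. Let `L = Frac T`. Then `ψ`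
extends to `Q → L` and, as `F` is the minimal polynomial of `θ` over `Q`, to a field homomorphism
`K = Q(θ) → L`, `θ ↦ y`. It maps `a_j` to `P_j(y) / ψ(h_j)`, which is in (the image of) `T`, since
`ψ (h_j)` divides the unit `ψ h`. So it maps `R` to `T`, injectively.
-/

set_option autoImplicit false

universe u

open Polynomial

namespace Pool.Agent.H71.KP

/-- The presentation over an integrally closed domain over which `R` is algebraic. -/
theorem FinGen_core {A' R : Type*} [CommRing A'] [IsDomain A'] [IsIntegrallyClosed A']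
    [CharZero A'] [CommRing R] [IsDomain R] [Algebra A' R] [FaithfulSMul A' R]
    [Algebra.IsAlgebraic A' R] (s : Finset R) (hs : Algebra.adjoin ℤ (s : Set R) = ⊤) :
    ∃ (h D : A') (F A B : A'[X]),
      h ≠ 0 ∧ D ≠ 0 ∧ F.Monic ∧ 0 < F.natDegree ∧ A * F + B * derivative F = C D ∧
      ∀ (T : Type) [CommRing T] [IsDomain T] (ψ : A' →+* T) (y : T),
        Function.Injective ψ → IsUnit (ψ h) → eval₂ ψ y F = 0 →
          ∃ f : R →+* T, Function.Injective f := by
  classical
  let Q := FractionRing A'
  let K := FractionRing R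
  let _ : Algebra Q K := FractionRing.liftAlgebra A' K
  have : IsScalarTower A' Q K := FractionRing.isScalarTower_liftAlgebra A' K
  have : Algebra.IsAlgebraic A' K := (IsFractionRing.isAlgebraic_iff' A' R K).1 inferInstance
  have : Algebra.IsAlgebraic Q K :=
    (IsFractionRing.comap_isAlgebraic_iff (A := A') (K := Q) (C := K)).1 inferInstance
  have : Algebra.FiniteType ℤ R := ⟨⟨s, hs⟩⟩
  have : Algebra.EssFiniteType ℤ K := Algebra.EssFiniteType.comp ℤ R K
  have : Algebra.EssFiniteType Q K := Algebra.EssFiniteType.of_comp ℤ Q K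
  have : Module.Finite Q K := Algebra.finite_of_essFiniteType_of_isAlgebraic
  obtain ⟨θ, hθ⟩ := Field.exists_primitive_element Q K
  obtain ⟨c, hc0, hc⟩ := (Algebra.IsAlgebraic.isAlgebraic (R := A') θ).exists_integral_multiple
  have hinjQ : Function.Injective (algebraMap A' Q) := IsFractionRing.injective A' Q
  have hθ' : IntermediateField.adjoin Q {c • θ} = ⊤ := by
    rw [eq_top_iff, ← hθ, IntermediateField.adjoin_simple_le_iff]
    have h1 : θ = ((algebraMap A' Q c)⁻¹ : Q) • (c • θ) := by
      rw [← algebraMap_smul Q c θ, smul_smul, inv_mul_cancel₀, one_smul]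
      intro h0
      exact hc0 (hinjQ (by rw [h0, map_zero]))
    have h2 : ((algebraMap A' Q c)⁻¹ : Q) • (c • θ) ∈ IntermediateField.adjoin Q {c • θ} :=
      IntermediateField.smul_mem (IntermediateField.adjoin Q {c • θ})
        (IntermediateField.mem_adjoin_simple_self Q (c • θ))
    rw [← h1] at h2
    exact h2
  set θ' : K := c • θ with hθdef
  have hadj : Algebra.adjoin Q {θ'} = ⊤ :=
    Algebra.adjoin_eq_top_of_primitive_element (Algebra.IsAlgebraic.isAlgebraic θ') hθ'
  set F : A'[X] := minpoly A' θ' with hFdef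
  have hF : minpoly Q θ' = F.map (algebraMap A' Q) :=
    minpoly.isIntegrallyClosed_eq_field_fractions' Q hc
  obtain ⟨a, b, hab⟩ : IsCoprime (minpoly Q θ') (derivative (minpoly Q θ')) :=
    Algebra.IsSeparable.isSeparable Q θ'
  obtain ⟨d₁, hd₁, hA0⟩ := IsLocalization.integerNormalization_spec (nonZeroDivisors A') a
  obtain ⟨d₂, hd₂, hB0⟩ := IsLocalization.integerNormalization_spec (nonZeroDivisors A') b
  have hgen : ∀ z : R, ∃ (P : A'[X]) (h₀ : A'), h₀ ≠ 0 ∧
      aeval θ' P = h₀ • algebraMap R K z := by
    intro z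
    have h1 : algebraMap R K z ∈ Algebra.adjoin Q {θ'} := by rw [hadj]; trivial
    rw [Algebra.adjoin_singleton_eq_range_aeval] at h1
    obtain ⟨P, hP⟩ := h1
    obtain ⟨d, hd, hP0⟩ := IsLocalization.integerNormalization_spec (nonZeroDivisors A') P
    refine ⟨IsLocalization.integerNormalization (nonZeroDivisors A') P, d,
      nonZeroDivisors.ne_zero hd, ?_⟩
    have hP' : aeval θ' P = algebraMap R K z := hP
    rw [← aeval_map_algebraMap Q, hP0, ← algebraMap_smul Q d P, map_smul,
      algebraMap_smul, hP']
  choose P h₀ hh₀ hP using hgen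
  refine ⟨(∏ z ∈ s, h₀ z), d₁ * d₂, F,
    C d₂ * IsLocalization.integerNormalization (nonZeroDivisors A') a,
    C d₁ * IsLocalization.integerNormalization (nonZeroDivisors A') b, Finset.prod_ne_zero_iff.2 fun z _ => hh₀ z,
    mul_ne_zero (nonZeroDivisors.ne_zero hd₁) (nonZeroDivisors.ne_zero hd₂),
    minpoly.monic hc, minpoly.natDegree_pos hc, ?_, ?_⟩
  · apply Polynomial.map_injective (algebraMap A' Q) hinjQ
    simp only [Polynomial.map_add, Polynomial.map_mul, Polynomial.map_C, hA0, hB0,
      ← Polynomial.derivative_map, ← hF]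
    rw [← algebraMap_smul Q d₁ a, ← algebraMap_smul Q d₂ b, smul_eq_C_mul, smul_eq_C_mul,
      map_mul, C_mul]
    linear_combination (C (algebraMap A' Q d₁) * C (algebraMap A' Q d₂)) * hab
  · intro T _ _ ψ y hψ hu hy
    let L := FractionRing T
    have hinjL : Function.Injective (algebraMap T L) := IsFractionRing.injective T L
    have hg0 : Function.Injective ((algebraMap T L).comp ψ) := hinjL.comp hψ
    let ψ' : Q →+* L := IsFractionRing.lift hg0
    let _ : Algebra Q L := ψ'.toAlgebra
    have hψ' : ∀ x : A', ψ' (algebraMap A' Q x) = algebraMap T L (ψ x) := fun x =>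
      IsFractionRing.lift_algebraMap hg0 x
    have hcomp : ψ'.comp (algebraMap A' Q) = (algebraMap T L).comp ψ := RingHom.ext hψ'
    let pb : PowerBasis Q K :=
      PowerBasis.ofAdjoinEqTop (Algebra.IsIntegral.isIntegral (R := Q) θ') hadj
    have hpb : pb.gen = θ' := rfl
    have hroot : aeval (algebraMap T L y) (minpoly Q pb.gen) = 0 := by
      rw [hpb, hF, aeval_def, eval₂_map]
      show eval₂ (ψ'.comp (algebraMap A' Q)) _ _ = 0
      rw [hcomp, ← Polynomial.hom_eval₂, hy, map_zero]
    let φ : K →ₐ[Q] L := pb.lift (algebraMap T L y) hroot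
    have hφθ : φ θ' = algebraMap T L y := pb.lift_gen _ hroot
    have hφA : ∀ x : A', φ (algebraMap A' K x) = algebraMap T L (ψ x) := by
      intro x
      rw [IsScalarTower.algebraMap_apply A' Q K, AlgHom.commutes]
      exact hψ' x
    have hφP : ∀ p : A'[X], φ (aeval θ' p) = algebraMap T L (eval₂ ψ y p) := by
      intro p
      rw [aeval_def, ← RingHom.coe_coe φ, Polynomial.hom_eval₂, Polynomial.hom_eval₂]
      congr 1
      exact RingHom.ext hφA
    let G : R →+* L := (φ : K →+* L).comp (algebraMap R K)
    have hGs : ∀ z ∈ s, G z ∈ (algebraMap T L).range := by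
      intro z hz
      have h1 : φ (aeval θ' (P z)) = φ (h₀ z • algebraMap R K z) := by rw [hP]
      rw [hφP, Algebra.smul_def, map_mul, hφA] at h1
      have h2 : IsUnit (ψ (h₀ z)) := by
        rw [map_prod] at hu
        exact isUnit_of_dvd_unit (Finset.dvd_prod_of_mem (fun z => ψ (h₀ z)) hz) hu
      obtain ⟨v, hv⟩ := h2
      refine ⟨↑v⁻¹ * eval₂ ψ y (P z), ?_⟩
      rw [map_mul, h1, ← mul_assoc, ← map_mul, ← hv, Units.inv_mul, map_one, one_mul]
      rfl
    have hG : ∀ z, G z ∈ (algebraMap T L).range := by
      intro z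
      have hz : z ∈ Algebra.adjoin ℤ (s : Set R) := by rw [hs]; trivial
      induction hz using Algebra.adjoin_induction with
      | mem x hx => exact hGs x hx
      | algebraMap n =>
        refine ⟨(n : T), ?_⟩
        simp
      | add x y _ _ hx hy =>
        rw [map_add]
        exact add_mem hx hy
      | mul x y _ _ hx hy =>
        rw [map_mul]
        exact mul_mem hx hy
    have hGinj : Function.Injective G :=
      (φ : K →+* L).injective.comp (IsFractionRing.injective R K)
    let e : T ≃+* (algebraMap T L).range := RingEquiv.ofBijective (algebraMap T L).rangeRestrict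
      ⟨fun x y hxy => hinjL (congrArg Subtype.val hxy), (algebraMap T L).rangeRestrict_surjective⟩
    refine ⟨(e.symm : _ →+* T).comp (G.codRestrict _ hG), ?_⟩
    refine e.symm.injective.comp fun x y hxy => hGinj ?_
    exact congrArg Subtype.val hxy

/-- A generic presentation of a finitely generated domain of characteristic zero. -/
theorem exists_presentation (R : Type u) [CommRing R] [IsDomain R] [CharZero R]
    [Algebra.FiniteType ℤ R] :
    ∃ (r : ℕ) (h D : MvPolynomial (Fin r) ℤ) (F A B : (MvPolynomial (Fin r) ℤ)[X]),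
      h ≠ 0 ∧ D ≠ 0 ∧ F.Monic ∧ 0 < F.natDegree ∧ A * F + B * derivative F = C D ∧
      ∀ (T : Type) [CommRing T] [IsDomain T] (ψ : MvPolynomial (Fin r) ℤ →+* T) (y : T),
        Function.Injective ψ → IsUnit (ψ h) → eval₂ ψ y F = 0 →
          ∃ f : R →+* T, Function.Injective f := by
  classical
  obtain ⟨s, hs⟩ := (inferInstance : Algebra.FiniteType ℤ R).out
  have : Algebra.IsAlgebraic (Algebra.adjoin ℤ (s : Set R)) R := by
    rw [hs]
    exact ⟨fun x => isAlgebraic_algebraMap (⟨x, trivial⟩ : (⊤ : Subalgebra ℤ R))⟩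
  obtain ⟨t, hts, ht⟩ := exists_isTranscendenceBasis_subset (R := ℤ) (A := R) (s : Set R)
  have : Finite t := Set.Finite.subset s.finite_toSet hts
  let e : Fin (Nat.card t) ≃ t := (Finite.equivFin t).symm
  set x : Fin (Nat.card t) → R := fun i => (e i : R) with hx
  have hxb : IsTranscendenceBasis ℤ x := (isTranscendenceBasis_equiv e).2 ht
  let _ : Algebra (MvPolynomial (Fin (Nat.card t)) ℤ) R := (MvPolynomial.aeval x).toAlgebra
  have hinj : Function.Injective (MvPolynomial.aeval x : MvPolynomial _ ℤ →ₐ[ℤ] R) := hxb.1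
  have : FaithfulSMul (MvPolynomial (Fin (Nat.card t)) ℤ) R :=
    (faithfulSMul_iff_algebraMap_injective _ _).2 hinj
  have : Algebra.IsAlgebraic (MvPolynomial (Fin (Nat.card t)) ℤ) R := by
    have h1 := hxb.isAlgebraic
    exact Algebra.IsAlgebraic.of_ringHom_of_comp_eq
      (S := Algebra.adjoin ℤ (Set.range x)) (B := R)
      (f := hxb.1.aevalEquiv) (g := RingHom.id R) hxb.1.aevalEquiv.surjective
      Function.injective_id (RingHom.ext fun p => hxb.1.algebraMap_aevalEquiv p)
  exact ⟨Nat.card t, FinGen_core s hs⟩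

end Pool.Agent.H71.KP
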