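import Pool.Agent.H71.KP.Schur
import Pool.Agent.H71.KP.AlgInd
import Pool.Agent.H71.KP.FinGen

/-!
# Embedding of finitely generated domains of characteristic zero in the `p`-adic integers (Cassels)

PROOF. Take `r, h, D, F, A, B` from `exists_presentation`. As `h * D ≠ 0` there is a point
`a : Fin r → ℤ` with `(h * D)(a) ≠ 0` (`MvPolynomial.funext` or `MvPolynomial.exists_eval_ne_zero...`).
Let `N` be the absolute value of `(h * D)(a)`. The polynomial `F_a = F.map (MvPolynomial.eval a)` in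
`ℤ[X]` is monic of positive degree, so by `exists_prime_root` there are a prime `p > N` and an
integer `b` with `p ∣ F_a.eval b`. By `exists_algInd` there is `t : Fin r → ℤ_[p]`, `t ≡ a` modulo
`p`, with `ψ = MvPolynomial.aeval t` injective. Then `ψ h ≡ h(a)` is not divisible by `p`, hence a
unit of `ℤ_[p]`, and in the same way `ψ D` is a unit. For `F_t = F.map ψ` we have
`F_t.eval b ≡ F_a.eval b ≡ 0` modulo `p`, and `F_t.derivative.eval b` is a unit by
`A F + B F' = C D`. By Hensel's lemma (`hensels_lemma`, with coefficients in `ℤ_[p]`, or the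
Henselian local ring instance) `F_t` has a root `y` in `ℤ_[p]`. Now apply the last property of
`exists_presentation`.
-/

set_option autoImplicit false

universe u

open Polynomial

namespace Pool.Agent.H71.KP

/-- **Cassels embedding theorem.** Every finitely generated domain of characteristic zero embeds in
`ℤ_[p]` for some prime `p`. -/
theorem exists_padic_embedding (R : Type u) [CommRing R] [IsDomain R] [CharZero R]
    [Algebra.FiniteType ℤ R] :
    ∃ (p : ℕ) (_ : Fact p.Prime) (f : R →+* ℤ_[p]), Function.Injective f := by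
  obtain ⟨r, h, D, F, A, B, hh, hD, hmon, hdeg, hAB, hlast⟩ := exists_presentation R
  have hhD : h * D ≠ 0 := mul_ne_zero hh hD
  obtain ⟨a, ha⟩ : ∃ a : Fin r → ℤ, MvPolynomial.eval a (h * D) ≠ 0 := by
    by_contra hcon
    push Not at hcon
    exact hhD (MvPolynomial.funext fun x => by rw [hcon x, map_zero])
  set N := (MvPolynomial.eval a (h * D)).natAbs with hN
  set Fa : ℤ[X] := F.map (MvPolynomial.eval a) with hFa
  have hFadeg : 0 < Fa.natDegree := by
    rw [hFa, hmon.natDegree_map]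
    exact hdeg
  obtain ⟨p, hp, hNp, b, hb⟩ := exists_prime_root Fa hFadeg N
  have hpf : Fact p.Prime := ⟨hp⟩
  obtain ⟨t, ht, hinj⟩ := exists_algInd p r (fun i => (a i : ℤ_[p]))
  set ψ : MvPolynomial (Fin r) ℤ →+* ℤ_[p] :=
    (MvPolynomial.aeval t : MvPolynomial (Fin r) ℤ →ₐ[ℤ] ℤ_[p]).toRingHom with hψ
  set I : Ideal ℤ_[p] := Ideal.span {(p : ℤ_[p])} with hI
  set mk : ℤ_[p] →+* ℤ_[p] ⧸ I := Ideal.Quotient.mk I with hmk
  have hcomp : mk.comp ψ = (mk.comp (Int.castRingHom ℤ_[p])).comp (MvPolynomial.eval a) := by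
    refine MvPolynomial.ringHom_ext (fun n => ?_) (fun i => ?_)
    · simp [hψ]
    · have e1 : ψ (MvPolynomial.X i) = t i := by simp [hψ]
      have e2 : MvPolynomial.eval a (MvPolynomial.X i) = a i := MvPolynomial.eval_X i
      rw [RingHom.comp_apply, RingHom.comp_apply, RingHom.comp_apply, e1, e2]
      change Ideal.Quotient.mk I (t i) = Ideal.Quotient.mk I ((a i : ℤ) : ℤ_[p])
      rw [Ideal.Quotient.eq, hI, Ideal.mem_span_singleton]
      exact ht i
  have hdvd : ∀ x : ℤ_[p], mk x = 0 ↔ (p : ℤ_[p]) ∣ x := by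
    intro x
    rw [hmk, Ideal.Quotient.eq_zero_iff_mem, hI, Ideal.mem_span_singleton]
  have hunit : ∀ x : ℤ_[p], ¬ (p : ℤ_[p]) ∣ x → ‖x‖ = 1 := by
    intro x hx
    rcases (PadicInt.norm_le_one x).lt_or_eq with h1 | h1
    · exact absurd ((PadicInt.norm_lt_one_iff_dvd x).1 h1) hx
    · exact h1
  have hint : ∀ k : ℤ, (p : ℤ_[p]) ∣ (k : ℤ_[p]) ↔ (p : ℤ) ∣ k := by
    intro k
    rw [← PadicInt.norm_lt_one_iff_dvd, PadicInt.norm_int_lt_one_iff_dvd]
  have hprod : ¬ (p : ℤ) ∣ MvPolynomial.eval a (h * D) := by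
    intro hd
    have h1 := Int.natAbs_dvd_natAbs.2 hd
    rw [Int.natAbs_natCast] at h1
    have h2 := Nat.le_of_dvd (Int.natAbs_pos.2 ha) h1
    omega
  have hψP : ∀ P : MvPolynomial (Fin r) ℤ, ¬ (p : ℤ) ∣ MvPolynomial.eval a P →
      ¬ (p : ℤ_[p]) ∣ ψ P := by
    intro P hP hd
    apply hP
    rw [← hint, ← hdvd]
    rw [← hdvd] at hd
    have h1 : mk (ψ P) = mk ((MvPolynomial.eval a P : ℤ) : ℤ_[p]) := RingHom.congr_fun hcomp P
    rw [← h1]
    exact hd
  have hψh : ¬ (p : ℤ_[p]) ∣ ψ h := hψP h fun hd => hprod (by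
    rw [map_mul]
    exact dvd_mul_of_dvd_left hd _)
  have hψD : ¬ (p : ℤ_[p]) ∣ ψ D := hψP D fun hd => hprod (by
    rw [map_mul]
    exact dvd_mul_of_dvd_right hd _)
  set Ft : ℤ_[p][X] := F.map ψ with hFt
  have hroot : (p : ℤ_[p]) ∣ Ft.eval (b : ℤ_[p]) := by
    have e1 : mk (Ft.eval (b : ℤ_[p])) = mk ((Fa.eval b : ℤ) : ℤ_[p]) := by
      have e2 : mk ((Fa.eval b : ℤ) : ℤ_[p]) =
          (mk.comp (Int.castRingHom ℤ_[p])) (eval₂ (MvPolynomial.eval a) b F) := by
        rw [hFa, eval_map]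
        rfl
      rw [e2, hom_eval₂, ← hcomp, hFt, eval_map, hom_eval₂]
      rfl
    rw [← hdvd, e1, hdvd, hint]
    exact hb
  have hder : ¬ (p : ℤ_[p]) ∣ (derivative Ft).eval (b : ℤ_[p]) := by
    intro hd
    apply hψD
    have h1 := congrArg (fun G => eval (b : ℤ_[p]) (G.map ψ)) hAB
    simp only [Polynomial.map_add, Polynomial.map_mul, eval_add, eval_mul, map_C, eval_C] at h1
    rw [← h1]
    refine dvd_add (dvd_mul_of_dvd_right hroot _) (dvd_mul_of_dvd_right ?_ _)
    rw [← derivative_map]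
    exact hd
  obtain ⟨y, hy, _⟩ := hensels_lemma (F := Ft) (a := (b : ℤ_[p])) (by
    simp only [coe_aeval_eq_eval]
    rw [hunit _ hder, one_pow]
    exact (PadicInt.norm_lt_one_iff_dvd _).2 hroot)
  have hy2 : eval₂ ψ y F = 0 := by
    rw [← eval_map]
    simpa [coe_aeval_eq_eval] using hy
  obtain ⟨f, hf⟩ := hlast ℤ_[p] ψ y hinj (PadicInt.isUnit_iff.2 (hunit _ hψh)) hy2
  exact ⟨p, hpf, f, hf⟩

end Pool.Agent.H71.KP
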