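import Pool.Agent.H71.KP.SysP

/-!
# The kernel of the assembly map is torsion for domains of characteristic `p`
-/

set_option autoImplicit false
set_option linter.unusedSectionVars false
set_option linter.unusedSimpArgs false

open Matrix HahnSeries Filter
open scoped Classical

universe u v w t

namespace Pool.Agent.H71.KP

open Pool.Agent.H71.WH (Sat mem_Sat Sat_of_smul CycSub conjHom)

variable {p : ℕ} [hp : Fact p.Prime] {R : Type u} [CommRing R]

theorem charP_ga [CharP R p] (H : Type v) [Group H] : CharP (MonoidAlgebra R H) p := by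
  have hinj : Function.Injective (MonoidAlgebra.singleOneRingHom : R →+* MonoidAlgebra R H) := by
    intro a b h
    have h1 := congrArg (fun z : MonoidAlgebra R H => z.coeff 1) h
    simpa using h1
  exact charP_of_injective_ringHom hinj p

theorem pow_mem_range [CharP R p] {H : Type v} [Group H] (hc : ∀ a b : H, a * b = b * a)
    (S : Subgroup H) (a : ℕ) (hS : ∀ h : H, h ^ p ^ a ∈ S) (x : MonoidAlgebra R H) :
    x ^ p ^ a ∈ (MonoidAlgebra.mapDomainRingHom R S.subtype).range := by
  have := charP_ga (p := p) (R := R) H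
  have hcomm : ∀ x y : MonoidAlgebra R H, Commute x y := by
    intro x y
    induction x using MonoidAlgebra.induction_linear with
    | zero => exact Commute.zero_left _
    | add x x' hx hx' => exact hx.add_left hx'
    | single g b =>
      induction y using MonoidAlgebra.induction_linear with
      | zero => exact Commute.zero_right _
      | add y y' hy hy' => exact hy.add_right hy'
      | single h c =>
        rw [Commute, SemiconjBy, MonoidAlgebra.single_mul_single, MonoidAlgebra.single_mul_single,
          hc, mul_comm b c]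
  induction x using MonoidAlgebra.induction_linear with
  | zero =>
    rw [zero_pow (pow_ne_zero _ hp.out.ne_zero)]
    exact Subring.zero_mem _
  | add x y hx hy =>
    rw [add_pow_char_pow_of_commute p a (hcomm x y)]
    exact Subring.add_mem _ hx hy
  | single h r =>
    rw [MonoidAlgebra.single_pow]
    refine ⟨MonoidAlgebra.single ⟨h ^ p ^ a, hS h⟩ (r ^ p ^ a), ?_⟩
    change MonoidAlgebra.mapDomain S.subtype _ = _
    rw [MonoidAlgebra.mapDomain_single]
    rfl

theorem mapDomainRingHom_injective {H : Type v} {H' : Type w} [Group H] [Group H'] (ψ : H →* H')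
    (hψ : Function.Injective ψ) : Function.Injective (MonoidAlgebra.mapDomainRingHom R ψ) :=
  MonoidAlgebra.mapDomain_injective hψ

theorem unit_pow_mem [CharP R p] {H : Type v} [Group H] (hc : ∀ a b : H, a * b = b * a)
    (S : Subgroup H) (a : ℕ) (hS : ∀ h : H, h ^ p ^ a ∈ S) (x : (MonoidAlgebra R H)ˣ) :
    ∃ y : (MonoidAlgebra R S)ˣ, unitsMap S.subtype y = x ^ p ^ a := by
  refine exists_unit_lift _ (mapDomainRingHom_injective S.subtype S.subtype_injective) _ ?_ ?_
  · rw [Units.val_pow_eq_pow_val]
    exact pow_mem_range hc S a hS _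
  · rw [← inv_pow, Units.val_pow_eq_pow_val]
    exact pow_mem_range hc S a hS _

/-- the subgroup of order prime to `p` -/
theorem exists_coprime_part (H : Type v) [Group H] [Finite H] [IsCyclic H] :
    ∃ (S : Subgroup H) (a : ℕ), (∀ h : H, h ^ p ^ a ∈ S) ∧ ¬ p ∣ Nat.card S := by
  obtain ⟨g, hg⟩ := IsCyclic.exists_generator (α := H)
  obtain ⟨a, m, hm, hcard⟩ := Nat.exists_eq_pow_mul_and_not_dvd (Nat.card_pos (α := H)).ne' p
    hp.out.ne_one
  refine ⟨Subgroup.zpowers (g ^ p ^ a), a, ?_, ?_⟩
  · intro h
    obtain ⟨k, rfl⟩ := Subgroup.mem_zpowers_iff.1 (hg h)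
    refine Subgroup.mem_zpowers_iff.2 ⟨k, ?_⟩
    rw [← _root_.zpow_natCast, ← _root_.zpow_natCast, ← _root_.zpow_mul, ← _root_.zpow_mul,
      mul_comm]
  · rw [Nat.card_zpowers, orderOf_pow, orderOf_eq_card_of_forall_mem_zpowers hg, hcard,
      Nat.gcd_eq_right (Dvd.intro _ rfl), Nat.mul_div_cancel_left _ (pow_pos hp.out.pos _)]
    exact hm

variable [IsDomain R] [CharP R p] [Algebra.FiniteType ℤ R] {G : Type v} [Group G]

theorem mem_sat_good (z : ColimU R G) :
    z ∈ Sat (AddSubgroup.closure ((logSysP.{u, v} p R).GoodSet G)) := by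
  induction z using colim_induction with
  | h0 => exact AddSubgroup.zero_mem _
  | h2 a b ha hb => exact AddSubgroup.add_mem _ ha hb
  | h1 C x =>
    have := C.2.1
    have := C.2.2
    obtain ⟨S, a, hS, hS'⟩ := exists_coprime_part (p := p) C.1
    obtain ⟨y, hy⟩ := unit_pow_mem cyc_comm S a hS x
    have h1 : ((p ^ a : ℕ) : ℤ) • cl C x = clh (C.1.subtype.comp S.subtype) y := by
      rw [natCast_zsmul, ← cl_pow, ← hy, ← clh_subtype]
      exact clh_map (C.1.subtype.comp S.subtype) C.1.subtype S.subtype (fun _ => rfl) y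
    refine Sat_of_smul (m := ((p ^ a : ℕ) : ℤ)) ?_ ?_
    · exact_mod_cast pow_ne_zero _ hp.out.ne_zero
    · rw [h1]
      apply mem_Sat
      apply AddSubgroup.subset_closure
      refine ⟨rangeSub (C.1.subtype.comp S.subtype),
        unitsMap (toRange (C.1.subtype.comp S.subtype)) y, ?_, rfl⟩
      have hinj : Function.Injective (C.1.subtype.comp S.subtype) :=
        C.1.subtype_injective.comp S.subtype_injective
      have h2 : Nat.card (rangeSub (C.1.subtype.comp S.subtype)).1 = Nat.card S :=
        (Nat.card_congr (MonoidHom.ofInjective hinj).toEquiv).symm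
      change ¬ p ∣ _
      rw [h2]
      exact hS'

/-- the indicator function of the conjugacy class of `c` -/
noncomputable def ResDat.cfd {k : Type u} [CommRing k] (d : ResDat p k) (c h : G) : d.B :=
  if IsConj c h then 1 else 0

omit [IsDomain R] [CharP R p] [Algebra.FiniteType ℤ R] in
theorem ResDat.cfd_comm {k : Type u} [CommRing k] (d : ResDat p k) (c x y : G) :
    d.cfd c (x * y) = d.cfd c (y * x) := by
  have h : IsConj (x * y) (y * x) := isConj_iff.2 ⟨x⁻¹, by group⟩
  unfold ResDat.cfd
  by_cases h1 : IsConj c (x * y)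
  · rw [if_pos h1, if_pos (h1.trans h)]
  · rw [if_neg h1, if_neg (fun h2 => h1 (h2.trans h.symm))]

omit [IsDomain R] [CharP R p] [Algebra.FiniteType ℤ R] in
/-- the functional on the Whitehead group -/
theorem exists_V (c : G) : ∃ V : Wh R G →+ PV p R, ∀ (D : CycSub G) (_ : Finite D.1)
    (_ : IsCyclic D.1) (y : (MonoidAlgebra R D.1)ˣ) (P : Pl p R) (n : ℕ),
    V (incWh D y) P n = letI := Fintype.ofFinite D.1
      ∑ d ∈ Finset.univ.filter (fun d : D.1 => IsConj c (d : G)),
      (P.dat n).elp ((P.dat n).del d) (fun a b => by rw [cyc_comm]) (uMap P.φ D.1 y) := by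
  refine ⟨AddMonoidHom.mk' (fun z => fun P n =>
    (P.dat n).lamWh ((P.dat n).cfd c) ((P.dat n).cfd_comm c) (whMap P.φ G z)) ?_, ?_⟩
  · intro a b
    funext P n
    rw [map_add, map_add]
    rfl
  · intro D _ _ y P n
    letI := Fintype.ofFinite D.1
    change (P.dat n).lamWh ((P.dat n).cfd c) ((P.dat n).cfd_comm c) (whMap P.φ G (incWh D y)) = _
    rw [whMap_incWh]
    change (P.dat n).lamWh _ _ (Wh.unit (unitsMap D.1.subtype (uMap P.φ D.1 y))) = _
    rw [ResDat.lamWh_unit, ResDat.elp_map (P.dat n) D.1.subtype _ _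
      (fun a : D.1 => (P.dat n).cfd c (a : G)) (fun a b => by rw [cyc_comm]) (fun a => rfl),
      (P.dat n).elp_del cyc_comm, Finset.sum_filter]
    apply Finset.sum_congr rfl
    intro d _
    unfold ResDat.cfd
    split_ifs
    · rw [one_mul]
    · rw [zero_mul]

/-- The kernel of the assembly map is a torsion group, for finitely generated domains of
characteristic `p`. -/
theorem kernel_torsion_fg (p : ℕ) [hp : Fact p.Prime] (R : Type u) [CommRing R] [IsDomain R]
    [CharP R p] [Algebra.FiniteType ℤ R] {G : Type v} [Group G] (z : ColimU R G) (M : ℤ)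
    (hM : M ≠ 0) (h : M • assembly R G z = 0) : ∃ m : ℤ, m ≠ 0 ∧ m • z = 0 := by
  choose V hV using fun c : G => exists_V (p := p) (R := R) c
  refine (logSysP.{u, v} p R).torsion_of_V (fun c => (V c).comp (assembly R G)) ?_ z
    (mem_sat_good z) M hM ?_
  · intro c D i1 i2 y _
    funext P n
    change V c (assembly R G (cl D y)) P n = _
    rw [assembly_cl, hV c D i1 i2 y P n, LogSys.val, Finset.sum_apply, Finset.sum_apply]
    rfl
  · intro c
    change V c (assembly R G (M • z)) = 0
    rw [map_zsmul, h, map_zero]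

end Pool.Agent.H71.KP
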