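import Pool.Agent.H71.KP.Main0
import Pool.Agent.H71.KP.MainP

/-!
# Rational injectivity of the assembly map for domains
-/

set_option autoImplicit false

open Matrix Filter

universe u v w

namespace Pool.Agent.H71.KP

/-- **The kernel of the assembly map is a torsion group** for all domains. -/
theorem kernel_torsion_domain {R : Type u} [CommRing R] [IsDomain R] {G : Type v} [Group G]
    (z : ColimU R G) (M : ℤ) (hM : M ≠ 0) (h : M • assembly R G z = 0) :
    ∃ m : ℤ, m ≠ 0 ∧ m • z = 0 := by
  obtain ⟨p, hp⟩ := CharP.exists R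
  rcases CharP.char_is_prime_or_zero R p with h1 | h1
  · have : Fact p.Prime := ⟨h1⟩
    obtain ⟨s, z', hz, h'⟩ := (eventually_kernel z M h).exists
    have : CharP (sub s) p := (RingHom.charP (incl s) (incl_injective s) p)
    have := finiteType_sub s
    obtain ⟨m, hm, h1⟩ := kernel_torsion_fg p (sub s) z' M hM h'
    exact ⟨m, hm, by rw [← hz, ← map_zsmul, h1, map_zero]⟩
  · subst h1
    have : CharZero R := CharP.charP_to_charZero R
    exact kernel_torsion z M hM h

/-- **Rational injectivity of the assembly map** for all domains. -/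
theorem assembly_injective (R : Type u) [CommRing R] [IsDomain R] (G : Type v) [Group G] :
    Function.Injective (LinearMap.lTensor ℚ (assembly R G).toIntLinearMap) := by
  rw [injective_iff_map_eq_zero]
  intro y hy
  obtain ⟨⟨z, m⟩, hz⟩ := IsLocalizedModule.surj (nonZeroDivisors ℤ)
    (TensorProduct.mk ℤ ℚ (ColimU R G) 1) y
  have h1 : TensorProduct.mk ℤ ℚ (Wh R G) 1 (assembly R G z) = 0 := by
    have h2 : LinearMap.lTensor ℚ (assembly R G).toIntLinearMap
        (TensorProduct.mk ℤ ℚ (ColimU R G) 1 z) = 0 := by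
      have h3 := congrArg (LinearMap.lTensor ℚ (assembly R G).toIntLinearMap) hz
      rw [Submonoid.smul_def, map_smul, hy, smul_zero] at h3
      exact h3.symm
    exact h2
  obtain ⟨M, hM⟩ := (IsLocalizedModule.eq_zero_iff (nonZeroDivisors ℤ)
    (TensorProduct.mk ℤ ℚ (Wh R G) 1)).1 h1
  obtain ⟨m', hm', h4⟩ := kernel_torsion_domain z M (nonZeroDivisors.coe_ne_zero M) hM
  have h5 : TensorProduct.mk ℤ ℚ (ColimU R G) 1 z = 0 :=
    (IsLocalizedModule.eq_zero_iff (nonZeroDivisors ℤ)
      (TensorProduct.mk ℤ ℚ (ColimU R G) 1)).2 ⟨⟨m', mem_nonZeroDivisors_of_ne_zero hm'⟩, h4⟩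
  have h6 : m • y = m • 0 := by rw [hz, h5, smul_zero]
  exact IsLocalizedModule.smul_injective (TensorProduct.mk ℤ ℚ (ColimU R G) 1) m h6

end Pool.Agent.H71.KP
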