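import Pool.Agent.H71.KP.Stab

/-!
# Change of rings for the colimit and the Whitehead groups
-/

set_option autoImplicit false
set_option linter.unusedSectionVars false

open Matrix

universe u v w t

namespace Pool.Agent.H71.KP

open Pool.Agent.H71.WH (K1 K1.mk K1.unit CycSub conjHom)

theorem cyc_comm {D : Type w} [Group D] [IsCyclic D] (a b : D) : a * b = b * a := by
  obtain ⟨g, hg⟩ := IsCyclic.exists_generator (α := D)
  obtain ⟨m, rfl⟩ := Subgroup.mem_zpowers_iff.1 (hg a)
  obtain ⟨n, rfl⟩ := Subgroup.mem_zpowers_iff.1 (hg b)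
  rw [← _root_.zpow_add, ← _root_.zpow_add, add_comm]

section Cl

variable {R : Type u} [CommRing R] {G : Type v} [Group G]

/-- the quotient map -/
def toColim (R : Type u) [CommRing R] (G : Type v) [Group G] :
    FreeAbelianGroup (CycUnit R G) →+ ColimU R G :=
  QuotientAddGroup.mk' (colimRel R G)

/-- the class of a unit -/
def cl (C : CycSub G) (x : (MonoidAlgebra R C.1)ˣ) : ColimU R G :=
  toColim R G (gen C x)

theorem cl_mul (C : CycSub G) (x y : (MonoidAlgebra R C.1)ˣ) :
    cl C (x * y) = cl C x + cl C y := by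
  rw [cl, cl, cl, ← sub_eq_zero, ← map_add, ← map_sub]
  exact (QuotientAddGroup.eq_zero_iff _).2 (AddSubgroup.subset_closure (Or.inl ⟨C, x, y, rfl⟩))

theorem cl_conj (C C' : CycSub G) (g : G) (h : ∀ a ∈ C.1, g * a * g⁻¹ ∈ C'.1)
    (x : (MonoidAlgebra R C.1)ˣ) : cl C' (unitsMap (conjHom g C.1 C'.1 h) x) = cl C x := by
  rw [cl, cl, ← sub_eq_zero, ← map_sub]
  exact (QuotientAddGroup.eq_zero_iff _).2
    (AddSubgroup.subset_closure (Or.inr ⟨C, C', g, h, x, rfl⟩))

/-- the class as a homomorphism -/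
noncomputable def clM (C : CycSub G) : (MonoidAlgebra R C.1)ˣ →* Multiplicative (ColimU R G) :=
  MonoidHom.mk' (fun x => Multiplicative.ofAdd (cl C x)) (cl_mul C)

theorem cl_one (C : CycSub G) : cl C (1 : (MonoidAlgebra R C.1)ˣ) = 0 := map_one (clM C)

theorem cl_pow (C : CycSub G) (x : (MonoidAlgebra R C.1)ˣ) (n : ℕ) :
    cl C (x ^ n) = n • cl C x := map_pow (clM C) x n

theorem cl_zpow (C : CycSub G) (x : (MonoidAlgebra R C.1)ˣ) (n : ℤ) :
    cl C (x ^ n) = n • cl C x := map_zpow (clM C) x n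

theorem cl_inv (C : CycSub G) (x : (MonoidAlgebra R C.1)ˣ) :
    cl C x⁻¹ = -cl C x := map_inv (clM C) x

theorem cl_list (C : CycSub G) (l : List (MonoidAlgebra R C.1)ˣ) :
    cl C l.prod = (l.map (cl C)).sum := by
  induction l with
  | nil => exact cl_one C
  | cons a l ih => rw [List.prod_cons, cl_mul, ih, List.map_cons, List.sum_cons]

theorem assembly_cl (C : CycSub G) (x : (MonoidAlgebra R C.1)ˣ) :
    assembly R G (cl C x) = incWh C x := FreeAbelianGroup.lift_apply_of _ _

theorem colim_induction {P : ColimU R G → Prop} (h0 : P 0)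
    (h1 : ∀ (C : CycSub G) (x : (MonoidAlgebra R C.1)ˣ), P (cl C x))
    (h2 : ∀ a b, P a → P b → P (a + b)) (z : ColimU R G) : P z := by
  obtain ⟨y, rfl⟩ : ∃ y, toColim R G y = z := QuotientAddGroup.mk_surjective z
  induction y using FreeAbelianGroup.induction_on with
  | zero => rw [map_zero]; exact h0
  | of x => exact h1 x.C x.x
  | neg x _ =>
    rw [map_neg]
    change P (-cl x.C x.x)
    rw [← cl_inv]
    exact h1 _ _
  | add x y hx hy => rw [map_add]; exact h2 _ _ hx hy

end Cl

section Lift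

variable {R : Type u} [CommRing R] {G : Type v} [Group G] {A : Type w} [AddCommGroup A]

/-- Homomorphisms from the colimit. -/
theorem exists_lift (e : ∀ C : CycSub G, (MonoidAlgebra R C.1)ˣ → A)
    (hm : ∀ C x y, e C (x * y) = e C x + e C y)
    (hc : ∀ (C C' : CycSub G) (g : G) (h : ∀ a ∈ C.1, g * a * g⁻¹ ∈ C'.1) x,
      e C' (unitsMap (conjHom g C.1 C'.1 h) x) = e C x) :
    ∃ F : ColimU R G →+ A, ∀ C x, F (cl C x) = e C x := by
  let E : FreeAbelianGroup (CycUnit R G) →+ A := FreeAbelianGroup.lift fun a => e a.C a.x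
  have hE : colimRel R G ≤ E.ker := by
    rw [colimRel, AddSubgroup.closure_le]
    rintro z (⟨C, x, y, rfl⟩ | ⟨C, C', g, h, x, rfl⟩)
    · change E (gen C (x * y) - (gen C x + gen C y)) = 0
      rw [map_sub, map_add, gen, gen, gen, FreeAbelianGroup.lift_apply_of,
        FreeAbelianGroup.lift_apply_of, FreeAbelianGroup.lift_apply_of]
      exact sub_eq_zero.2 (hm C x y)
    · change E (gen C' (unitsMap (conjHom g C.1 C'.1 h) x) - gen C x) = 0
      rw [map_sub, gen, gen, FreeAbelianGroup.lift_apply_of, FreeAbelianGroup.lift_apply_of]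
      exact sub_eq_zero.2 (hc C C' g h x)
  exact ⟨QuotientAddGroup.lift (colimRel R G) E hE,
    fun C x => FreeAbelianGroup.lift_apply_of _ _⟩

end Lift

section Ring

variable {R : Type u} [CommRing R] {S : Type t} [CommRing S] (φ : R →+* S)

/-- change of rings for units of group rings -/
noncomputable def uMap (H : Type v) [Group H] : (MonoidAlgebra R H)ˣ →* (MonoidAlgebra S H)ˣ :=
  Units.map (MonoidAlgebra.mapRingHom H φ).toMonoidHom

theorem uMap_val (H : Type v) [Group H] (x : (MonoidAlgebra R H)ˣ) :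
    (uMap φ H x : MonoidAlgebra S H) = MonoidAlgebra.mapRingHom H φ (x : MonoidAlgebra R H) := rfl

theorem uMap_unitsMap {F : Type v} {F' : Type w} [Group F] [Group F'] (ψ : F →* F')
    (x : (MonoidAlgebra R F)ˣ) : uMap φ F' (unitsMap ψ x) = unitsMap ψ (uMap φ F x) := by
  apply Units.ext
  exact congrArg (fun g : MonoidAlgebra R F →+* MonoidAlgebra S F' => g x)
    (MonoidAlgebra.mapRingHom_comp_mapDomainRingHom φ ψ)

variable (G : Type v) [Group G]

theorem exists_ringMap : ∃ F : ColimU R G →+ ColimU S G,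
    ∀ C x, F (cl C x) = cl C (uMap φ C.1 x) := by
  refine exists_lift (fun C x => cl C (uMap φ C.1 x)) ?_ ?_
  · intro C x y
    rw [map_mul, cl_mul]
  · intro C C' g h x
    rw [uMap_unitsMap, cl_conj]

/-- change of rings for the colimit -/
noncomputable def colimMap : ColimU R G →+ ColimU S G := (exists_ringMap φ G).choose

theorem colimMap_cl (C : CycSub G) (x : (MonoidAlgebra R C.1)ˣ) :
    colimMap φ G (cl C x) = cl C (uMap φ C.1 x) := (exists_ringMap φ G).choose_spec C x

theorem K1map_trivial :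
    trivialK1 R G ≤ (trivialK1 S G).comap (K1map (MonoidAlgebra.mapRingHom G φ)) := by
  rw [trivialK1, AddSubgroup.closure_le]
  rintro z ⟨x, ⟨g, e, he, hx⟩, rfl⟩
  refine AddSubgroup.subset_closure ⟨uMap φ G x, ⟨g, φ e, ?_, ?_⟩, ?_⟩
  · rcases he with rfl | rfl
    · exact Or.inl (map_one φ)
    · exact Or.inr (by rw [map_neg, map_one])
  · rw [uMap_val, hx, MonoidAlgebra.mapRingHom_single]
  · exact (K1map_unit _ x).symm

/-- change of rings for `Wh` -/
noncomputable def whMap : Wh R G →+ Wh S G :=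
  QuotientAddGroup.map (trivialK1 R G) (trivialK1 S G) (K1map (MonoidAlgebra.mapRingHom G φ))
    (K1map_trivial φ G)

theorem whMap_unit (x : (MonoidAlgebra R G)ˣ) : whMap φ G (Wh.unit x) = Wh.unit (uMap φ G x) := by
  change (QuotientAddGroup.mk (K1map (MonoidAlgebra.mapRingHom G φ) (K1.unit x)) : Wh S G) = _
  rw [K1map_unit]
  rfl

theorem whMap_incWh (C : CycSub G) (x : (MonoidAlgebra R C.1)ˣ) :
    whMap φ G (incWh C x) = incWh C (uMap φ C.1 x) := by
  rw [incWh, whMap_unit, uMap_unitsMap]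
  rfl

theorem whMap_assembly (z : ColimU R G) :
    whMap φ G (assembly R G z) = assembly S G (colimMap φ G z) := by
  induction z using colim_induction with
  | h0 => rw [map_zero, map_zero, map_zero, map_zero]
  | h1 C x => rw [assembly_cl, whMap_incWh, colimMap_cl, assembly_cl]
  | h2 a b ha hb => rw [map_add, map_add, ha, hb, map_add, map_add]

end Ring

end Pool.Agent.H71.KP
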