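import Pool.Agent.H71.KP.Fun
import Pool.Agent.H71.KP.Ring

/-!
# The functionals on the colimit vanish on the kernel of the assembly map
-/

set_option autoImplicit false
set_option linter.unusedSectionVars false
set_option linter.unusedSimpArgs false

open Matrix Filter
open scoped Classical

universe u v w

namespace Pool.Agent.H71.KP

open Pool.Agent.H71.WH (K1 K1.mk K1.unit CycSub conjHom)

variable {p : ℕ} [hp : Fact p.Prime] {G : Type v} [Group G]

/-- class functions supported at the elements of finite order -/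
def CF (p : ℕ) [Fact p.Prime] (G : Type v) [Group G] : Type v :=
  {f : G → ℤ_[p] // (∀ x y, f (x * y) = f (y * x)) ∧ ∀ g, f g ≠ 0 → IsOfFinOrder g}

theorem exists_LUc (f : CF p G) : ∃ F : ColimU ℤ_[p] G →+ ℚ_[p], ∀ (C : CycSub G) (_ : Finite C.1)
    (x : (MonoidAlgebra ℤ_[p] C.1)ˣ), F (cl C x) = LU (fun a : C.1 => f.1 a) x := by
  obtain ⟨F, hF⟩ := exists_lift (R := ℤ_[p]) (G := G)
    (fun C x => letI : Finite C.1 := C.2.1; LU (fun a : C.1 => f.1 a) x) (by
      intro C x y
      have := C.2.1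
      have := C.2.2
      exact LU_mul cyc_comm _ x y) (by
      intro C C' g h x
      have := C.2.1
      have := C'.2.1
      have h1 := LU_map (conjHom g C.1 C'.1 h) (fun x : C'.1 => f.1 x) (fun x y => f.2.1 x y) x
      refine h1.trans ?_
      congr 1
      funext a
      change f.1 (g * a * g⁻¹) = f.1 a
      rw [f.2.1]
      exact congrArg f.1 (by group))
  exact ⟨F, fun C _ x => hF C x⟩

/-- the functional on the colimit -/
noncomputable def LUc (f : CF p G) : ColimU ℤ_[p] G →+ ℚ_[p] := (exists_LUc f).choose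

theorem LUc_cl (f : CF p G) (C : CycSub G) [h : Finite C.1] (x : (MonoidAlgebra ℤ_[p] C.1)ˣ) :
    LUc f (cl C x) = LU (fun a : C.1 => f.1 a) x := (exists_LUc f).choose_spec C h x

theorem class_pow (f : CF p G) (x y : G) : f.1 ((x * y) ^ p) = f.1 ((y * x) ^ p) := by
  have h1 : (x * y) ^ p = x * (y * x) ^ p * x⁻¹ := by
    have h2 : x * y = x * (y * x) * x⁻¹ := by group
    rw [h2, conj_pow]
  rw [h1, f.2.1]
  exact congrArg f.1 (by group)

/-- composition with the `p`-th power -/
def CF.fr (f : CF p G) : CF p G := ⟨fun x => f.1 (x ^ p), class_pow f, fun g hg =>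
  (isOfFinOrder_pow.1 (f.2.2 _ hg)).resolve_right hp.out.ne_zero⟩

theorem CF.fr_iter (f : CF p G) (k : ℕ) (x : G) : (CF.fr^[k] f).1 x = f.1 (x ^ p ^ k) := by
  induction k generalizing f with
  | zero => simp
  | succ k ih =>
    rw [Function.iterate_succ_apply, ih]
    change f.1 ((x ^ p ^ k) ^ p) = _
    rw [← pow_mul, pow_succ]

/-- the constant germ -/
noncomputable def cst (p : ℕ) [Fact p.Prime] : ℚ_[p] →+ Germ (atTop : Filter ℕ) ℚ_[p] where
  toFun a := (a : Germ (atTop : Filter ℕ) ℚ_[p])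
  map_zero' := rfl
  map_add' _ _ := rfl

theorem cst_injective : Function.Injective (cst p) := fun a b h => by
  have h' : (a : Germ (atTop : Filter ℕ) ℚ_[p]) = b := h
  exact Germ.const_inj.1 h'

theorem GamWh_assembly (f : CF p G) (z : ColimU ℤ_[p] G) :
    GamWh f.1 f.2.1 f.2.2 (assembly ℤ_[p] G z) =
      cst p (LUc f z - (p : ℚ_[p])⁻¹ * LUc f.fr z) := by
  induction z using colim_induction with
  | h0 => simp
  | h1 C x =>
    have := C.2.1
    rw [assembly_cl, LUc_cl, LUc_cl]
    exact GamWh_incWh f.1 f.2.1 f.2.2 C x _ (fun _ => rfl)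
  | h2 a b ha hb =>
    rw [map_add, map_add, ha, hb, ← map_add, map_add (LUc f), map_add (LUc f.fr)]
    congr 1
    ring

theorem LUc_half (f : CF p G) {z : ColimU ℤ_[p] G} {M : ℤ} (hM : M ≠ 0)
    (h : M • assembly ℤ_[p] G z = 0) : LUc f z = (p : ℚ_[p])⁻¹ * LUc f.fr z := by
  have h1 := congrArg (GamWh f.1 f.2.1 f.2.2) h
  rw [map_zsmul, map_zero, GamWh_assembly, ← map_zsmul, ← map_zero (cst p)] at h1
  have h2 := cst_injective h1
  rw [zsmul_eq_mul] at h2
  rcases mul_eq_zero.1 h2 with h2 | h2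
  · exact absurd (by exact_mod_cast h2) hM
  · exact sub_eq_zero.1 h2

theorem LUc_iter (f : CF p G) {z : ColimU ℤ_[p] G} {M : ℤ} (hM : M ≠ 0)
    (h : M • assembly ℤ_[p] G z = 0) (n : ℕ) :
    LUc f z = (p : ℚ_[p])⁻¹ ^ n * LUc (CF.fr^[n] f) z := by
  induction n generalizing f with
  | zero => simp
  | succ n ih =>
    rw [LUc_half f hM h, ih f.fr, Function.iterate_succ_apply, pow_succ]
    ring

/-- Eventual periodicity. -/
def Per (z : ColimU ℤ_[p] G) (k d : ℕ) : Prop :=
  ∀ f : CF p G, LUc (CF.fr^[k + d] f) z = LUc (CF.fr^[k] f) z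

theorem Per.mul {z : ColimU ℤ_[p] G} {k d : ℕ} (h : Per z k d) (m : ℕ) : Per z k (m * d) := by
  induction m with
  | zero => intro f; rw [zero_mul, add_zero]
  | succ m ih =>
    intro f
    rw [← ih f]
    have h1 := h (CF.fr^[m * d] f)
    rw [← Function.iterate_add_apply, ← Function.iterate_add_apply] at h1
    have e1 : k + (m + 1) * d = k + d + m * d := by ring
    rw [e1]
    exact h1

theorem Per.add {z : ColimU ℤ_[p] G} {k d : ℕ} (h : Per z k d) (j : ℕ) : Per z (k + j) d := by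
  intro f
  have h1 := h (CF.fr^[j] f)
  rw [← Function.iterate_add_apply, ← Function.iterate_add_apply] at h1
  have e1 : k + j + d = k + d + j := by ring
  rw [e1]
  exact h1

theorem exists_per (z : ColimU ℤ_[p] G) : ∃ k d, 0 < d ∧ Per z k d := by
  induction z using colim_induction with
  | h0 => exact ⟨0, 1, one_pos, fun f => by rw [map_zero, map_zero]⟩
  | h1 C x =>
    have := C.2.1
    obtain ⟨a, b, hab, h⟩ := Finite.exists_ne_map_eq_of_infinite
      (fun (k : ℕ) (c : C.1) => c ^ p ^ k)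
    wlog hlt : a < b generalizing a b
    · exact this b a (Ne.symm hab) h.symm (lt_of_le_of_ne (not_lt.1 hlt) (Ne.symm hab))
    refine ⟨a, b - a, Nat.sub_pos_of_lt hlt, ?_⟩
    intro f
    rw [Nat.add_sub_cancel' hlt.le, LUc_cl, LUc_cl]
    congr 1
    funext c
    rw [CF.fr_iter, CF.fr_iter]
    have h1 : c ^ p ^ a = c ^ p ^ b := congrFun h c
    have h2 : (c : G) ^ p ^ a = (c : G) ^ p ^ b := by
      rw [← Subgroup.coe_pow, h1, Subgroup.coe_pow]
    rw [h2]
  | h2 x y hx hy =>
    obtain ⟨k, d, hd, h⟩ := hx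
    obtain ⟨k', d', hd', h'⟩ := hy
    refine ⟨k + k', d' * d, Nat.mul_pos hd' hd, ?_⟩
    intro f
    have e1 := (h.mul d').add k' f
    have e2 := (h'.mul d).add k f
    rw [mul_comm d d', add_comm k' k] at e2
    rw [map_add, map_add, e1, e2]

/-- The functionals vanish on the kernel of the assembly map. -/
theorem LUc_eq_zero (f : CF p G) {z : ColimU ℤ_[p] G} {M : ℤ} (hM : M ≠ 0)
    (h : M • assembly ℤ_[p] G z = 0) : LUc f z = 0 := by
  obtain ⟨k, d, hd, hp'⟩ := exists_per z
  have h1 := LUc_iter f hM h k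
  have h2 := LUc_iter f hM h (k + d)
  rw [hp' f] at h2
  rw [pow_add] at h2
  have h3 : LUc f z = (p : ℚ_[p])⁻¹ ^ d * LUc f z := by
    conv_rhs => rw [h1]
    rw [h2]
    ring
  have h4 : ((p : ℚ_[p])⁻¹) ^ d ≠ 1 := by
    intro h5
    have h6 : ((p : ℚ_[p])) ^ d = 1 := by
      rw [inv_pow] at h5
      exact inv_eq_one.1 h5
    have h7 : p ^ d = 1 := by exact_mod_cast h6
    have h8 := Nat.one_lt_pow hd.ne' hp.out.one_lt
    omega
  have h5 : (1 - (p : ℚ_[p])⁻¹ ^ d) * LUc f z = 0 := by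
    linear_combination h3
  rcases mul_eq_zero.1 h5 with h6 | h6
  · exact absurd (sub_eq_zero.1 h6).symm h4
  · exact h6

end Pool.Agent.H71.KP
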