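import Pool.Agent.H71.WH.Defs

/-!
# The assembly map for units of group rings of finite cyclic subgroups

For a commutative ring `R` let `ColimU R G` be the colimit of the groups of units `R[C]ˣ` over the
finite cyclic subgroups `C` of `G`, the morphisms `C → C'` being the restrictions of the conjugations
`x ↦ g x g⁻¹` with `g C g⁻¹ ⊆ C'`. Let `Wh R G` be the quotient of `K₁(R[G])` by the classes of the
units `± g`, and `assembly R G : ColimU R G → Wh R G` the natural map.
-/

set_option autoImplicit false

open Matrix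

universe u v w t

namespace Pool.Agent.H71.KP

open Pool.Agent.H71.WH (InvMat K1 K1.mk K1.unit K1Rel genK1 oneByOne addOne CycSub conjHom
  K1.mk_mul K1.unit_mul)

/-- The units `± g` of `R[G]`. -/
def trivialUnits (R : Type u) [CommRing R] (G : Type v) [Group G] : Set (MonoidAlgebra R G)ˣ :=
  {x | ∃ (g : G) (e : R), (e = 1 ∨ e = -1) ∧ (x : MonoidAlgebra R G) = MonoidAlgebra.single g e}

/-- The subgroup of `K₁(R[G])` generated by the classes of the units `± g`. -/
noncomputable def trivialK1 (R : Type u) [CommRing R] (G : Type v) [Group G] :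
    AddSubgroup (K1 (MonoidAlgebra R G)) :=
  AddSubgroup.closure (K1.unit '' trivialUnits R G)

/-- The quotient of `K₁(R[G])` by the classes of the units `± g`. -/
def Wh (R : Type u) [CommRing R] (G : Type v) [Group G] : Type (max u v) :=
  K1 (MonoidAlgebra R G) ⧸ trivialK1 R G

noncomputable instance instWh (R : Type u) [CommRing R] (G : Type v) [Group G] :
    AddCommGroup (Wh R G) :=
  QuotientAddGroup.Quotient.addCommGroup (trivialK1 R G)

/-- The homomorphism `R[F]ˣ → R[F']ˣ` induced by a group homomorphism `F → F'`. -/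
noncomputable def unitsMap {R : Type u} [CommRing R] {F : Type v} {F' : Type w} [Group F]
    [Group F'] (φ : F →* F') : (MonoidAlgebra R F)ˣ →* (MonoidAlgebra R F')ˣ :=
  Units.map (MonoidAlgebra.mapDomainRingHom R φ).toMonoidHom

/-- A finite cyclic subgroup `C` and a unit of `R[C]`. -/
structure CycUnit (R : Type u) [CommRing R] (G : Type v) [Group G] where
  /-- the subgroup -/
  C : CycSub G
  /-- the unit -/
  x : (MonoidAlgebra R C.1)ˣ

/-- The generator of a pair. -/
def gen {R : Type u} [CommRing R] {G : Type v} [Group G] (C : CycSub G)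
    (x : (MonoidAlgebra R C.1)ˣ) : FreeAbelianGroup (CycUnit R G) := FreeAbelianGroup.of ⟨C, x⟩

/-- The relation `[C, x y] - ([C, x] + [C, y])`. -/
noncomputable def mulRel {R : Type u} [CommRing R] {G : Type v} [Group G] (C : CycSub G)
    (x y : (MonoidAlgebra R C.1)ˣ) : FreeAbelianGroup (CycUnit R G) :=
  gen C (x * y) - (gen C x + gen C y)

/-- The relation `[C', g x g⁻¹] - [C, x]`. -/
noncomputable def conjRel {R : Type u} [CommRing R] {G : Type v} [Group G] (C C' : CycSub G)
    (g : G) (h : ∀ a ∈ C.1, g * a * g⁻¹ ∈ C'.1) (x : (MonoidAlgebra R C.1)ˣ) :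
    FreeAbelianGroup (CycUnit R G) := gen C' (unitsMap (conjHom g C.1 C'.1 h) x) - gen C x

/-- The relations of the colimit: `[C, x y] = [C, x] + [C, y]` and `[C', g x g⁻¹] = [C, x]`. -/
def colimRel (R : Type u) [CommRing R] (G : Type v) [Group G] :
    AddSubgroup (FreeAbelianGroup (CycUnit R G)) :=
  AddSubgroup.closure
    ({z | ∃ C x y, z = mulRel C x y} ∪ {z | ∃ C C' g h x, z = conjRel C C' g h x})

/-- The colimit of `R[C]ˣ` over the finite cyclic subgroups `C` of `G`. -/
def ColimU (R : Type u) [CommRing R] (G : Type v) [Group G] : Type (max u v) :=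
  FreeAbelianGroup (CycUnit R G) ⧸ colimRel R G

instance instColimU (R : Type u) [CommRing R] (G : Type v) [Group G] :
    AddCommGroup (ColimU R G) := QuotientAddGroup.Quotient.addCommGroup (colimRel R G)

/-- The class in `Wh R G` of a unit of `R[G]`. -/
noncomputable def Wh.unit {R : Type u} [CommRing R] {G : Type v} [Group G]
    (x : (MonoidAlgebra R G)ˣ) : Wh R G := QuotientAddGroup.mk (K1.unit x)

/-- The class in `Wh R G` of a unit of `R[C]`. -/
noncomputable def incWh {R : Type u} [CommRing R] {G : Type v} [Group G] (C : CycSub G)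
    (x : (MonoidAlgebra R C.1)ˣ) : Wh R G := Wh.unit (unitsMap C.1.subtype x)

/-- The class in `Wh R G` of a pair. -/
noncomputable def toWh {R : Type u} [CommRing R] {G : Type v} [Group G] (a : CycUnit R G) :
    Wh R G := incWh a.C a.x

/-- The map on the free abelian group. -/
noncomputable def assemblyFree (R : Type u) [CommRing R] (G : Type v) [Group G] :
    FreeAbelianGroup (CycUnit R G) →+ Wh R G := FreeAbelianGroup.lift toWh

theorem Wh.unit_mul {R : Type u} [CommRing R] {G : Type v} [Group G]
    (x y : (MonoidAlgebra R G)ˣ) : Wh.unit (x * y) = Wh.unit x + Wh.unit y := by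
  rw [Wh.unit, K1.unit_mul]
  rfl

theorem incWh_mul {R : Type u} [CommRing R] {G : Type v} [Group G] (C : CycSub G)
    (x y : (MonoidAlgebra R C.1)ˣ) : incWh C (x * y) = incWh C x + incWh C y := by
  rw [incWh, map_mul, Wh.unit_mul]
  rfl

/-- The unit `g` of `R[G]`. -/
noncomputable def gUnit {R : Type u} [CommRing R] {G : Type v} [Group G] (g : G) :
    (MonoidAlgebra R G)ˣ := Units.map (MonoidAlgebra.of R G) (toUnits g)

theorem unitsMap_conj {R : Type u} [CommRing R] {G : Type v} [Group G] (g : G)
    (F F' : Subgroup G) (h : ∀ x ∈ F, g * x * g⁻¹ ∈ F') (x : (MonoidAlgebra R F)ˣ) :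
    unitsMap F'.subtype (unitsMap (conjHom g F F' h) x) =
      gUnit g * unitsMap F.subtype x * gUnit g⁻¹ := by
  have key : ∀ r : MonoidAlgebra R F, MonoidAlgebra.mapDomainRingHom R F'.subtype
      (MonoidAlgebra.mapDomainRingHom R (conjHom g F F' h) r) =
      MonoidAlgebra.single g 1 * MonoidAlgebra.mapDomainRingHom R F.subtype r *
        MonoidAlgebra.single g⁻¹ 1 := by
    intro r
    induction r using MonoidAlgebra.induction_linear with
    | zero => simp
    | add a b ha hb => rw [map_add, map_add, ha, hb, map_add, mul_add, add_mul]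
    | single s t =>
      change MonoidAlgebra.mapDomain F'.subtype (MonoidAlgebra.mapDomain (conjHom g F F' h)
        (MonoidAlgebra.single s t)) = MonoidAlgebra.single g 1 *
          MonoidAlgebra.mapDomain F.subtype (MonoidAlgebra.single s t) *
          MonoidAlgebra.single g⁻¹ 1
      rw [MonoidAlgebra.mapDomain_single, MonoidAlgebra.mapDomain_single,
        MonoidAlgebra.mapDomain_single, MonoidAlgebra.single_mul_single,
        MonoidAlgebra.single_mul_single, one_mul, mul_one]
      rfl
  exact Units.ext (key x)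

theorem incWh_conj {R : Type u} [CommRing R] {G : Type v} [Group G] (C C' : CycSub G) (g : G)
    (h : ∀ a ∈ C.1, g * a * g⁻¹ ∈ C'.1) (x : (MonoidAlgebra R C.1)ˣ) :
    incWh C' (unitsMap (conjHom g C.1 C'.1 h) x) = incWh C x := by
  have h2 : gUnit g * gUnit g⁻¹ = (1 : (MonoidAlgebra R G)ˣ) := by
    rw [gUnit, gUnit, ← map_mul, ← map_mul, mul_inv_cancel, map_one, map_one]
  have h3 : Wh.unit (gUnit g : (MonoidAlgebra R G)ˣ) + Wh.unit (gUnit g⁻¹) = 0 := by
    have h4 := Wh.unit_mul (1 : (MonoidAlgebra R G)ˣ) 1
    rw [mul_one] at h4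
    rw [← Wh.unit_mul, h2]
    exact (add_eq_left.1 h4.symm)
  rw [incWh, unitsMap_conj, Wh.unit_mul, Wh.unit_mul, add_right_comm, h3, zero_add]
  rfl

theorem colimRel_le (R : Type u) [CommRing R] (G : Type v) [Group G] :
    colimRel R G ≤ (assemblyFree R G).ker := by
  rw [colimRel, AddSubgroup.closure_le]
  rintro z (⟨C, x, y, rfl⟩ | ⟨C, C', g, h, x, rfl⟩)
  · change assemblyFree R G (gen C (x * y) - (gen C x + gen C y)) = 0
    rw [assemblyFree, map_sub, map_add, gen, gen, gen, FreeAbelianGroup.lift_apply_of,
      FreeAbelianGroup.lift_apply_of, FreeAbelianGroup.lift_apply_of]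
    exact sub_eq_zero.2 (incWh_mul C x y)
  · change assemblyFree R G (gen C' (unitsMap (conjHom g C.1 C'.1 h) x) - gen C x) = 0
    rw [assemblyFree, map_sub, gen, gen, FreeAbelianGroup.lift_apply_of,
      FreeAbelianGroup.lift_apply_of]
    exact sub_eq_zero.2 (incWh_conj C C' g h x)

/-- The assembly map for units of finite cyclic subgroups. -/
noncomputable def assembly (R : Type u) [CommRing R] (G : Type v) [Group G] :
    ColimU R G →+ Wh R G :=
  QuotientAddGroup.lift (colimRel R G) (assemblyFree R G) (colimRel_le R G)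

end Pool.Agent.H71.KP
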