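import Mathlib

/-!
# Logarithmic derivatives and traces
-/

set_option autoImplicit false

universe u v w t

namespace Pool.Agent.H71.KP

/-- A derivation `D` of a ring `M` and a trace `τ` vanishing on the image of `D`. -/
structure DT (M : Type u) [Ring M] (B : Type v) [AddCommGroup B] where
  /-- the derivation -/
  D : M →+ M
  leib : ∀ x y, D (x * y) = D x * y + x * D y
  /-- the trace -/
  τ : M →+ B
  comm : ∀ x y, τ (x * y) = τ (y * x)
  τD : ∀ x, τ (D x) = 0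

namespace DT

variable {M : Type u} [Ring M] {B : Type v} [AddCommGroup B] (t : DT M B)

/-- the logarithmic derivative -/
def dlog (u : Mˣ) : B := t.τ (((u⁻¹ : Mˣ) : M) * t.D (u : M))

theorem dlog_mul (u v : Mˣ) : t.dlog (u * v) = t.dlog u + t.dlog v := by
  rw [dlog, dlog, dlog, Units.val_mul, t.leib, mul_inv_rev, Units.val_mul]
  have h1 : ((v⁻¹ : Mˣ) : M) * ((u⁻¹ : Mˣ) : M) * (t.D (u : M) * v + u * t.D (v : M)) =
      ((v⁻¹ : Mˣ) : M) * (((u⁻¹ : Mˣ) : M) * t.D (u : M) * v) +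
        ((v⁻¹ : Mˣ) : M) * ((((u⁻¹ : Mˣ) : M) * u) * t.D (v : M)) := by
    noncomm_ring
  rw [h1, Units.inv_mul, one_mul, map_add, t.comm, mul_assoc, Units.mul_inv, mul_one]

theorem D_one : t.D 1 = 0 := by
  have h := t.leib 1 1
  rw [mul_one, one_mul, mul_one] at h
  exact add_eq_left.1 h.symm

theorem dlog_one : t.dlog 1 = 0 := by
  rw [dlog, Units.val_one, t.D_one, mul_zero, map_zero]

theorem τ_pow (a : M) (k j : ℕ) :
    t.τ (a ^ j * t.D (a ^ (k + 1))) = (k + 1) • t.τ (a ^ (j + k) * t.D a) := by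
  induction k generalizing j with
  | zero => simp
  | succ k ih =>
    rw [pow_succ a (k + 1), t.leib, mul_add, map_add, ← mul_assoc, t.comm, ← mul_assoc, ← pow_succ',
      ih, ← mul_assoc, ← pow_add, add_smul, one_smul, add_smul, one_smul]
    have e1 : j + 1 + k = j + (k + 1) := by ring
    rw [e1, add_smul, one_smul]

theorem succ_smul (a : M) (k : ℕ) : (k + 1) • t.τ (a ^ k * t.D a) = 0 := by
  have h := t.τ_pow a k 0
  rw [pow_zero, one_mul, t.τD, zero_add] at h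
  exact h.symm

variable {p : ℕ} [hp : Fact p.Prime]

theorem pow_smul_eq_zero {n : ℕ} (hB : ∀ b : B, p ^ n • b = 0) (a : M) (k : ℕ) :
    p ^ (k + 1) • t.τ (a ^ k * t.D a) = 0 := by
  have h1 : addOrderOf (t.τ (a ^ k * t.D a)) ∣ p ^ n := addOrderOf_dvd_of_nsmul_eq_zero (hB _)
  have h2 : addOrderOf (t.τ (a ^ k * t.D a)) ∣ k + 1 :=
    addOrderOf_dvd_of_nsmul_eq_zero (t.succ_smul a k)
  obtain ⟨j, _, hj⟩ := (Nat.dvd_prime_pow hp.out).1 h1
  rw [hj] at h2
  have h3 : j < p ^ j := Nat.lt_pow_self hp.out.one_lt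
  have h4 : p ^ j ≤ k + 1 := Nat.le_of_dvd (Nat.succ_pos k) h2
  apply addOrderOf_dvd_iff_nsmul_eq_zero.1
  rw [hj]
  exact pow_dvd_pow p (by omega)

/-- The logarithmic derivative of units congruent to `1` modulo `p` vanishes. -/
theorem dlog_eq_zero {n : ℕ} (hB : ∀ b : B, p ^ n • b = 0) (hM : (p : M) ^ n = 0) (u : Mˣ) (a : M)
    (hu : (u : M) = 1 + (p : M) * a) : t.dlog u = 0 := by
  have hcomm : ∀ (x : M) (i : ℕ), x * (p : M) ^ i = (p : M) ^ i * x := fun x i =>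
    ((Nat.cast_commute p x).symm.pow_right i).eq
  have hpow : ∀ k, (-((p : M) * a)) ^ k = (-1) ^ k * ((p : M) ^ k * a ^ k) := by
    intro k
    rw [neg_pow, (Nat.cast_commute p a).mul_pow]
  have hinv : ((u⁻¹ : Mˣ) : M) = ∑ k ∈ Finset.range n, (-((p : M) * a)) ^ k := by
    have h1 : (u : M) * ∑ k ∈ Finset.range n, (-((p : M) * a)) ^ k = 1 := by
      have h2 := mul_neg_geom_sum (-((p : M) * a)) n
      rw [sub_neg_eq_add] at h2
      rw [hu, h2, hpow, hM, zero_mul, mul_zero, sub_zero]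
    calc ((u⁻¹ : Mˣ) : M) = ((u⁻¹ : Mˣ) : M) *
          ((u : M) * ∑ k ∈ Finset.range n, (-((p : M) * a)) ^ k) := by rw [h1, mul_one]
      _ = _ := by rw [← mul_assoc, Units.inv_mul, one_mul]
  have hD : t.D (u : M) = (p : M) * t.D a := by
    rw [hu, map_add, t.D_one, zero_add, ← nsmul_eq_mul, map_nsmul, nsmul_eq_mul]
  rw [dlog, hinv, hD, Finset.sum_mul, map_sum]
  apply Finset.sum_eq_zero
  intro k _
  have h3 : (-((p : M) * a)) ^ k * ((p : M) * t.D a) =
      ((-1) ^ k : ℤ) • (p ^ (k + 1) • (a ^ k * t.D a)) := by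
    rw [hpow, nsmul_eq_mul, zsmul_eq_mul]
    push_cast
    rw [pow_succ (p : M) k, mul_assoc ((-1) ^ k), mul_assoc ((p : M) ^ k), mul_assoc ((p : M) ^ k),
      ← mul_assoc (a ^ k), ← mul_assoc (p : M)]
    congr 3
    have := hcomm (a ^ k) 1
    rwa [pow_one] at this
  rw [h3, map_zsmul, map_nsmul, t.pow_smul_eq_zero hB, smul_zero]

end DT

/-- Naturality of the logarithmic derivative. -/
theorem dlog_map {M : Type u} [Ring M] {M' : Type w} [Ring M'] {B : Type v} [AddCommGroup B]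
    {B' : Type t} [AddCommGroup B'] (s : DT M B) (s' : DT M' B') (φ : M →+* M') (β : B →+ B')
    (hD : ∀ x, s'.D (φ x) = φ (s.D x)) (hτ : ∀ x, s'.τ (φ x) = β (s.τ x)) (u : Mˣ) :
    s'.dlog (Units.map φ.toMonoidHom u) = β (s.dlog u) := by
  rw [DT.dlog, DT.dlog, ← hτ, map_mul φ, ← hD, ← map_inv]
  rfl

end Pool.Agent.H71.KP
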