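import Mathlib

/-!
# Discrete valuations of function fields in one variable

PROOF. `x` is not algebraic over `E` (which is algebraically closed), so `x ≠ 0`. Let `B` be the
integral closure of `E[y]` in `K` and `B'` the integral closure of `E[1/y]` in `K`. Both are
Dedekind domains with fraction field `K` (`integralClosure.isDedekindDomain`: `K` is finite separable
over `E(y) = Frac E[y]`, and `E[y]` is a polynomial ring over a field). Suppose that `x` is a unit of
both. Then the coefficients of the minimal polynomial of `x` over `E(y)` are in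
`E[y] ∩ E[1/y] = E` (`E[y]` and `E[1/y]` are integrally closed), so `x` is algebraic over `E`,
contradiction. So for one of them, say `B`, `x` or `x⁻¹` is not in `B`, or `x` is in `B` but not a
unit. Hence there is a maximal ideal `P` of `B` with `v_P(x) ≠ 0` (an element of `K` with
`v_P(x) ≥ 0` for all `P` is in `B`; and a nonunit is in some maximal ideal). Let `O` be the valuation
ring of `v_P` (the localisation of `B` at `P`), a discrete valuation ring. Its residue field is
`B / P`, which is finite over `E[y] / (P ∩ E[y])` (`B` is a finite `E[y]`-module, `K` being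
separable), and this is finite over `E` (`P ∩ E[y]` is a nonzero prime ideal), hence equal to `E`.

(The two cases are symmetric under `y ↦ y⁻¹`: it is convenient to prove a lemma for `B` alone and to
apply it to `y` and `y⁻¹`.)
-/

set_option autoImplicit false

universe u v

namespace Pool.Agent.H71.KP

open Polynomial IntermediateField

private theorem Dvr_mem_range {E : Type u} [Field E] [IsAlgClosed E] {K : Type v} [Field K]
    [Algebra E K] {b : K} (hb : IsAlgebraic E b) : b ∈ (algebraMap E K).range := by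
  have h1 := IsAlgClosed.degree_eq_one_of_irreducible E (minpoly.irreducible hb.isIntegral)
  exact minpoly.mem_range_of_degree_eq_one E b h1

/-- The field is finite over the field generated by any transcendental element. -/
private theorem Dvr_fin {F : Type u} [Field F] {K : Type v} [Field K] [Algebra F K]
    (x : K) (hx : Transcendental F x) [FiniteDimensional F⟮x⟯ K] (y : K)
    (hy : Transcendental F y) : FiniteDimensional F⟮y⟯ K := by
  have halg : Algebra.IsAlgebraic F⟮x⟯ K := inferInstance
  have hxy : IsAlgebraic F⟮y⟯ x :=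
    isAlgebraic_adjoin_iff.mpr (.adjoin_singleton hx hy
      (isAlgebraic_adjoin_iff.mp (Algebra.IsAlgebraic.isAlgebraic y)))
  let Fyx := restrictScalars F F⟮y⟯⟮x⟯
  let Fxy := restrictScalars F F⟮x⟯⟮y⟯
  let : Algebra F⟮y⟯ Fyx := F⟮y⟯⟮x⟯.algebra
  let : Module F⟮y⟯ Fyx := Algebra.toModule
  let : SMul F⟮y⟯ Fyx := Algebra.toSMul
  let : Algebra F⟮x⟯ Fxy := F⟮x⟯⟮y⟯.algebra
  let : Module F⟮x⟯ Fxy := Algebra.toModule
  let : SMul F⟮x⟯ Fxy := Algebra.toSMul
  have : FiniteDimensional F⟮y⟯ Fyx :=
    adjoin.finiteDimensional (isAlgebraic_iff_isIntegral.mp hxy)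
  have : FiniteDimensional Fyx K := by
    unfold Fyx
    rw [adjoin_simple_comm]
    have : IsScalarTower F⟮x⟯ Fxy K := isScalarTower_mid' F⟮x⟯⟮y⟯
    exact .right F⟮x⟯ Fxy K
  have : IsScalarTower F⟮y⟯ Fyx K := isScalarTower_mid' F⟮y⟯⟮x⟯
  exact .trans F⟮y⟯ Fyx K

/-- A polynomial relation can be normalised. -/
private theorem Dvr_descend {F : Type u} [Field F] {K : Type v} [Field K] [Algebra F K]
    {b : K} (hb : b ≠ 0) {ι : Type} [Fintype ι] (v : ι → K) : ∀ (n : ℕ) (φ : ι → F[X]),
    ∑ i, (φ i).natDegree = n → (∃ i, φ i ≠ 0) → ∑ i, aeval b (φ i) * v i = 0 →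
    ∃ ψ : ι → F[X], ∑ i, aeval b (ψ i) * v i = 0 ∧ ∃ i, (ψ i).coeff 0 ≠ 0 := by
  intro n
  induction n using Nat.strong_induction_on with
  | _ n ih =>
    intro φ hn hne hsum
    by_cases h0 : ∃ i, (φ i).coeff 0 ≠ 0
    · exact ⟨φ, hsum, h0⟩
    · push Not at h0
      have hX : ∀ i, φ i = (φ i).divX * X := by
        intro i
        have := divX_mul_X_add (φ i)
        rw [h0 i, C_0, add_zero] at this
        exact this.symm
      have hdeg : ∀ i, (φ i).divX.natDegree = (φ i).natDegree - 1 := fun i =>
        natDegree_divX_eq_natDegree_tsub_one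
      obtain ⟨i0, hi0⟩ := hne
      have hpos : 0 < (φ i0).natDegree := by
        by_contra hcon
        have h1 : (φ i0).natDegree = 0 := by omega
        rw [natDegree_eq_zero] at h1
        obtain ⟨c, hc⟩ := h1
        have h2 := h0 i0
        rw [← hc, coeff_C_zero] at h2
        rw [← hc, h2, C_0] at hi0
        exact hi0 rfl
      refine ih (∑ i, ((φ i).divX).natDegree) ?_ (fun i => (φ i).divX) rfl ⟨i0, ?_⟩ ?_
      · rw [← hn]
        refine Finset.sum_lt_sum (fun i _ => ?_) ⟨i0, Finset.mem_univ _, ?_⟩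
        · rw [hdeg]
          omega
        · rw [hdeg]
          omega
      · intro h
        apply hi0
        rw [hX i0, h, zero_mul]
      · have h1 : b * ∑ i, aeval b ((φ i).divX) * v i = 0 := by
          rw [Finset.mul_sum, ← hsum]
          refine Finset.sum_congr rfl fun i _ => ?_
          conv_rhs => rw [hX i]
          rw [map_mul, aeval_X]
          ring
        exact (mul_eq_zero.1 h1).resolve_left hb

open scoped algebraAdjoinAdjoin in
/-- Linearly dependent families satisfy a normalised polynomial relation. -/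
private theorem Dvr_rel {F : Type u} [Field F] {K : Type v} [Field K] [Algebra F K]
    {b : K} (hb : b ≠ 0) {ι : Type} [Fintype ι] (v : ι → K)
    (hv : ¬ LinearIndependent F⟮b⟯ v) :
    ∃ ψ : ι → F[X], ∑ i, aeval b (ψ i) * v i = 0 ∧ ∃ i, (ψ i).coeff 0 ≠ 0 := by
  have h1 : ¬ LinearIndependent (Algebra.adjoin F {b}) v := by
    intro h
    exact hv ((LinearIndependent.iff_fractionRing (Algebra.adjoin F {b}) F⟮b⟯).1 h)
  rw [Fintype.not_linearIndependent_iff] at h1
  obtain ⟨g, hg, i0, hi0⟩ := h1
  have h2 : ∀ i, ∃ φ : F[X], aeval b φ = (g i : K) := by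
    intro i
    have h3 : ∀ z : K, z ∈ Algebra.adjoin F {b} → ∃ φ : F[X], aeval b φ = z := by
      intro z hz
      rw [Algebra.adjoin_singleton_eq_range_aeval] at hz
      exact hz
    exact h3 _ (g i).2
  choose φ hφ using h2
  refine Dvr_descend hb v _ φ rfl ⟨i0, ?_⟩ ?_
  · intro h
    apply hi0
    have := hφ i0
    rw [h, map_zero] at this
    exact Subtype.ext this.symm
  · rw [← hg]
    refine Finset.sum_congr rfl fun i _ => ?_
    rw [hφ i]
    rfl

section place

variable {F : Type u} [Field F] {K : Type v} [Field K] [Algebra F K]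
  (V : ValuationSubring K) (hV : ∀ e : F, algebraMap F K e ∈ V)

private def Dvr_i : F →+* V := (algebraMap F K).codRestrict V.toSubring hV

private theorem Dvr_i_coe (e : F) : (Dvr_i V hV e : K) = algebraMap F K e := rfl

private theorem Dvr_eval (b : V) (φ : F[X]) :
    ((eval₂ (Dvr_i V hV) b φ : V) : K) = aeval (b : K) φ := by
  have h := Polynomial.hom_eval₂ φ (Dvr_i V hV) V.subtype b
  rw [aeval_def]
  exact h

/-- reduction of the value of a polynomial at an element of the maximal ideal -/
private theorem Dvr_eval_sub {b : V} (hb : b ∈ IsLocalRing.maximalIdeal V) (φ : F[X]) :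
    eval₂ (Dvr_i V hV) b φ - Dvr_i V hV (φ.coeff 0) ∈ IsLocalRing.maximalIdeal V := by
  have h := congrArg (eval₂ (Dvr_i V hV) b) (divX_mul_X_add φ)
  rw [eval₂_add, eval₂_mul, eval₂_X, eval₂_C] at h
  rw [← h, add_sub_cancel_right]
  exact Ideal.mul_mem_left _ _ hb

include hV in
private theorem Dvr_trans [IsAlgClosed F] {b : V} (hb0 : b ≠ 0)
    (hb : b ∈ IsLocalRing.maximalIdeal V) : Transcendental F (b : K) := by
  intro halg
  obtain ⟨e, he⟩ := Dvr_mem_range halg
  have he0 : e ≠ 0 := by
    rintro rfl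
    rw [map_zero] at he
    exact hb0 (Subtype.ext he.symm)
  rw [IsLocalRing.mem_maximalIdeal] at hb
  apply hb
  have : b = Dvr_i V hV e := Subtype.ext he.symm
  rw [this]
  exact (isUnit_iff_ne_zero.2 he0).map (Dvr_i V hV)

include hV in
/-- No strictly ascending chain of principal ideals. -/
private theorem Dvr_chain [IsAlgClosed F]
    (hfin : ∀ b : K, Transcendental F b → FiniteDimensional F⟮b⟯ K) (f : ℕ → V)
    (hf : ∀ n, DvdNotUnit (f (n + 1)) (f n)) : False := by
  have hf0 : ∀ n, f (n + 1) ≠ 0 := fun n => (hf n).1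
  have hm : ∀ n, f n ∈ IsLocalRing.maximalIdeal V := by
    intro n
    obtain ⟨-, u, hu, he⟩ := hf n
    rw [he]
    exact Ideal.mul_mem_left _ _ hu
  have hdvd : ∀ n k, f (n + k) ∣ f n := by
    intro n k
    induction k with
    | zero => exact dvd_rfl
    | succ k ih =>
      obtain ⟨-, u, -, he⟩ := hf (n + k)
      exact (Dvd.intro u he.symm).trans ih
  have hb := Dvr_trans V hV (hf0 0) (hm 1)
  have hbK : ((f 1 : V) : K) ≠ 0 := fun h => hf0 0 (Subtype.ext h)
  have := hfin _ hb
  set N := Module.finrank F⟮((f 1 : V) : K)⟯ K with hN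
  have hdep : ¬ LinearIndependent F⟮((f 1 : V) : K)⟯
      (fun i : Fin (N + 1) => ((f (1 + i) : V) : K)) := by
    intro h
    have := h.fintype_card_le_finrank
    rw [Fintype.card_fin] at this
    omega
  obtain ⟨ψ, hψ, i0, hi0⟩ := Dvr_rel hbK _ hdep
  classical
  -- the last index with nonzero constant coefficient
  obtain ⟨j, hj, hmax⟩ := (Finset.univ.filter fun i => (ψ i).coeff 0 ≠ 0).exists_maximal
    ⟨i0, by simpa using hi0⟩
  rw [Finset.mem_filter] at hj
  have hmax' : ∀ i, j < i → (ψ i).coeff 0 = 0 := by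
    intro i hi
    by_contra hcon
    have := hmax (y := i) (by simpa using hcon) hi.le
    exact absurd hi (not_lt.2 this)
  -- the relation in `V`
  set E : Fin (N + 1) → V := fun i => eval₂ (Dvr_i V hV) (f 1) (ψ i) with hE
  have hrel : ∑ i, E i * f (1 + i) = 0 := by
    apply Subtype.ext
    have h1 : ((∑ i, E i * f (1 + i) : V) : K) = ∑ i, (E i : K) * (f (1 + i) : K) := by
      rw [← ValuationSubring.subtype_apply, map_sum]
      rfl
    rw [h1]
    have h2 : ∀ i, (E i : K) = aeval ((f 1 : V) : K) (ψ i) := fun i => Dvr_eval V hV (f 1) (ψ i)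
    simp only [h2]
    exact hψ
  set I : Ideal V := Ideal.span {f (1 + j)} * IsLocalRing.maximalIdeal V with hI
  have hterm : ∀ i, i ≠ j → E i * f (1 + i) ∈ I := by
    intro i hij
    rcases lt_or_gt_of_ne hij with h | h
    · -- a proper multiple
      have h3 : f (1 + j) ∣ f (1 + i + 1) := by
        obtain ⟨k, hk⟩ : ∃ k, (1 + (j : ℕ)) = (1 + i + 1) + k :=
          ⟨(j : ℕ) - i - 1, by have : (i : ℕ) < j := h; omega⟩
        rw [hk]
        exact hdvd _ _
      obtain ⟨w, hw⟩ := h3
      obtain ⟨-, u, hu, he⟩ := hf (1 + i)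
      refine Ideal.mul_mem_left _ _ ?_
      rw [he, hw, mul_assoc]
      exact Ideal.mul_mem_mul (Ideal.mem_span_singleton_self _) (Ideal.mul_mem_left _ _ hu)
    · have h4 : E i = f 1 * eval₂ (Dvr_i V hV) (f 1) (ψ i).divX := by
        have h5 := congrArg (eval₂ (Dvr_i V hV) (f 1)) (divX_mul_X_add (ψ i))
        rw [eval₂_add, eval₂_mul, eval₂_X, eval₂_C, hmax' i h, map_zero, add_zero] at h5
        rw [hE]
        simp only
        rw [← h5, mul_comm]
      obtain ⟨w, hw⟩ := hdvd 1 j
      rw [h4, mul_assoc, hw, mul_assoc]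
      refine Ideal.mul_mem_mul (Ideal.mem_span_singleton_self _) ?_
      refine Ideal.mul_mem_left _ _ (Ideal.mul_mem_left _ _ (hm _))
  have hjmem : E j * f (1 + j) ∈ I := by
    have h6 : E j * f (1 + j) = - ∑ i ∈ Finset.univ.erase j, E i * f (1 + i) := by
      rw [eq_neg_iff_add_eq_zero]
      exact (Finset.add_sum_erase Finset.univ (fun i : Fin (N + 1) => E i * f (1 + (i : ℕ)))
        (Finset.mem_univ j)).trans hrel
    rw [h6]
    refine neg_mem (sum_mem fun i hi => hterm i (Finset.ne_of_mem_erase hi))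
  rw [hI, Ideal.mem_span_singleton_mul] at hjmem
  obtain ⟨z, hz, hz'⟩ := hjmem
  have hfj : f (1 + j) ≠ 0 := by
    rw [add_comm]
    exact hf0 j
  have hEj : E j = z := by
    rw [mul_comm] at hz'
    exact (mul_right_cancel₀ hfj hz').symm
  have h7 := Dvr_eval_sub V hV (hm 1) (ψ j)
  have h8 : Dvr_i V hV ((ψ j).coeff 0) ∈ IsLocalRing.maximalIdeal V := by
    have := sub_mem (hEj ▸ hz : E j ∈ IsLocalRing.maximalIdeal V) h7
    rwa [sub_sub_cancel] at this
  rw [IsLocalRing.mem_maximalIdeal] at h8
  exact h8 ((isUnit_iff_ne_zero.2 hj.2).map (Dvr_i V hV))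

/-- The residue field is the constant field. -/
private theorem Dvr_residue [IsAlgClosed F]
    (hfin : ∀ b : K, Transcendental F b → FiniteDimensional F⟮b⟯ K) {x : V} (hx0 : x ≠ 0)
    (hx : x ∈ IsLocalRing.maximalIdeal V) :
    Function.Surjective ((IsLocalRing.residue V).comp (Dvr_i V hV)) := by
  let _ : Algebra F (IsLocalRing.ResidueField V) :=
    ((IsLocalRing.residue V).comp (Dvr_i V hV)).toAlgebra
  have hb := Dvr_trans V hV hx0 hx
  have hxK : (x : K) ≠ 0 := fun h => hx0 (Subtype.ext h)
  have := hfin _ hb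
  have : Algebra.IsIntegral F (IsLocalRing.ResidueField V) := by
    refine ⟨fun y => ?_⟩
    obtain ⟨a, rfl⟩ := IsLocalRing.residue_surjective y
    set N := Module.finrank F⟮(x : K)⟯ K with hN
    have hdep : ¬ LinearIndependent F⟮(x : K)⟯ (fun i : Fin (N + 1) => (a : K) ^ (i : ℕ)) := by
      intro h
      have := h.fintype_card_le_finrank
      rw [Fintype.card_fin] at this
      omega
    obtain ⟨ψ, hψ, i0, hi0⟩ := Dvr_rel hxK _ hdep
    have hrel : ∑ i : Fin (N + 1), eval₂ (Dvr_i V hV) x (ψ i) * a ^ (i : ℕ) = 0 := by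
      apply Subtype.ext
      have h1 : ((∑ i : Fin (N + 1), eval₂ (Dvr_i V hV) x (ψ i) * a ^ (i : ℕ) : V) : K) =
          ∑ i : Fin (N + 1), ((eval₂ (Dvr_i V hV) x (ψ i) : V) : K) * (a : K) ^ (i : ℕ) := by
        rw [← ValuationSubring.subtype_apply, map_sum]
        rfl
      rw [h1]
      simp only [Dvr_eval]
      exact hψ
    rw [← isAlgebraic_iff_isIntegral]
    refine ⟨∑ i : Fin (N + 1), C ((ψ i).coeff 0) * X ^ (i : ℕ), ?_, ?_⟩
    · intro h0
      have h2 := congrArg (fun p => coeff p (i0 : ℕ)) h0
      simp only [finsetSum_coeff, coeff_C_mul, coeff_X_pow, coeff_zero] at h2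
      rw [Finset.sum_eq_single i0] at h2
      · simp only [if_true, mul_one] at h2
        exact hi0 h2
      · intro i _ hi
        rw [if_neg fun e => hi (Fin.ext e.symm), mul_zero]
      · intro h
        exact absurd (Finset.mem_univ _) h
    · rw [map_sum]
      have h3 := congrArg (IsLocalRing.residue V) hrel
      rw [map_sum, map_zero] at h3
      rw [← h3]
      refine Finset.sum_congr rfl fun i _ => ?_
      rw [map_mul, map_mul, map_pow, map_pow, aeval_X, aeval_C]
      congr 1
      have h4 := Dvr_eval_sub V hV hx (ψ i)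
      have h5 := (IsLocalRing.residue_eq_zero_iff _).2 h4
      rw [map_sub, sub_eq_zero] at h5
      exact h5.symm
  exact (IsAlgClosed.algebraMap_bijective_of_isIntegral (k := F)
    (K := IsLocalRing.ResidueField V)).2

end place

/-- In a function field in one variable over an algebraically closed field every nonconstant
element has nonzero valuation at some place, and the residue field is the constant field. -/
theorem exists_dvr {E : Type u} [Field E] [IsAlgClosed E] {K : Type v} [Field K] [Algebra E K]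
    (y : K) (hy : Transcendental E y)
    [FiniteDimensional (IntermediateField.adjoin E {y}) K]
    [Algebra.IsSeparable (IntermediateField.adjoin E {y}) K] (x : K)
    (hx : x ∉ (algebraMap E K).range) :
    ∃ (O : ValuationSubring K) (_ : IsDiscreteValuationRing O) (i : E →+* O),
      Function.Surjective ((IsLocalRing.residue O).comp i) ∧
      ∃ a : O, a ∈ IsLocalRing.maximalIdeal O ∧ ((a : K) = x ∨ (a : K) = x⁻¹) := by
  have hfin : ∀ b : K, Transcendental E b → FiniteDimensional E⟮b⟯ K := fun b hb =>
    Dvr_fin y hy b hb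
  have hx0 : x ≠ 0 := by
    rintro rfl
    exact hx ⟨0, map_zero _⟩
  have hxi : x⁻¹ ∉ (algebraMap E K).range := by
    rintro ⟨e, he⟩
    exact hx ⟨e⁻¹, by rw [map_inv₀, he, inv_inv]⟩
  have : IsIntegrallyClosedIn (algebraMap E K).range K := by
    rw [Subring.isIntegrallyClosedIn_iff]
    intro z hz
    apply Dvr_mem_range
    rw [isAlgebraic_iff_isIntegral]
    let _ : Algebra E (algebraMap E K).range := (algebraMap E K).rangeRestrict.toAlgebra
    have : IsScalarTower E (algebraMap E K).range K := IsScalarTower.of_algebraMap_eq fun _ => rfl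
    have : Algebra.IsIntegral E (algebraMap E K).range :=
      Algebra.isIntegral_of_surjective (algebraMap E K).rangeRestrict_surjective
    exact isIntegral_trans z hz
  obtain ⟨V, hV, hxV⟩ := Subring.exists_le_valuationSubring_of_isIntegrallyClosedIn hxi
  have hV' : ∀ e : E, algebraMap E K e ∈ V := fun e => hV ⟨e, rfl⟩
  have hxV' : x ∈ V := (V.mem_or_inv_mem x).resolve_right hxV
  have hmax : (⟨x, hxV'⟩ : V) ∈ IsLocalRing.maximalIdeal V := by
    rw [IsLocalRing.mem_maximalIdeal]
    intro hu
    obtain ⟨w, hw⟩ := hu.exists_right_inv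
    have h1 : x * (w : K) = 1 := congrArg Subtype.val hw
    have h2 : (w : K) = x⁻¹ := eq_inv_of_mul_eq_one_right h1
    rw [← h2] at hxV
    exact hxV w.2
  have hne : (⟨x, hxV'⟩ : V) ≠ 0 := fun h => hx0 (congrArg Subtype.val h)
  have hwf : WfDvdMonoid V := by
    refine ⟨?_⟩
    rw [wellFounded_iff_isEmpty_descending_chain]
    exact ⟨fun g => Dvr_chain V hV' hfin g.1 g.2⟩
  have hpid : IsPrincipalIdealRing V := ((IsBezout.TFAE (R := V)).out 3 1).1 hwf
  refine ⟨V, ?_, Dvr_i V hV', Dvr_residue V hV' hfin hne hmax, ⟨x, hxV'⟩, hmax, Or.inl rfl⟩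
  refine { not_a_field' := ?_ }
  intro h
  rw [h] at hmax
  exact hne hmax

end Pool.Agent.H71.KP
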