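import Mathlib

/-!
# Power series expansions in a discrete valuation ring with a field of representatives

PROOF. Let `s` be a uniformizer of `O`. Every `a : O` has a unique expansion: `a = i c₀ + s a₁`
with `c₀` in `E` (`hi`), and so on; put `c_n(a)` for the coefficients, so
`a ≡ ∑_{n < N} i (c_n(a)) s^n` modulo `s^N` for all `N`, and the `c_n(a)` are uniquely determined by
these congruences (the residue map is injective on `i E`, a field; `s` is a nonzero divisor).
Therefore `a ↦ ∑ c_n(a) X^n` is a ring homomorphism `O → E⟦X⟧` (compare expansions of sums and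
products modulo `s^N`; the polynomial ring map `E[X] → O`, `X ↦ s`, is useful:
`a ≡ P(s)` and `b ≡ Q(s)` modulo `s^N` imply `a b ≡ (P Q)(s)`, and `P(s) ≡ 0` modulo `s^N` if and
only if `X^N ∣ P`). It is injective since the intersection of the `s^N O` is zero, so it extends to
`K → LaurentSeries E`. If `a ∈ 𝔪`, `a ≠ 0`, then `c₀(a) = 0`, and the order is positive.
-/

set_option autoImplicit false

universe u v w

namespace Pool.Agent.H71.KP

section Expand_aux

variable {E : Type u} [Field E] {O : Type v} [CommRing O] [IsDomain O]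
    [IsDiscreteValuationRing O]

theorem Expand_surj (i : E →+* O) (hi : Function.Surjective ((IsLocalRing.residue O).comp i))
    (s : O) (hs : Irreducible s) (a : O) (N : ℕ) :
    ∃ P : Polynomial E, s ^ N ∣ a - Polynomial.eval₂ i s P := by
  induction N with
  | zero => exact ⟨0, by simp⟩
  | succ N ih =>
    obtain ⟨P, b, hb⟩ := ih
    obtain ⟨e, he⟩ := hi (IsLocalRing.residue O b)
    rw [RingHom.comp_apply] at he
    have h1 : b - i e ∈ IsLocalRing.maximalIdeal O := by
      rw [← IsLocalRing.residue_eq_zero_iff, map_sub, he, sub_self]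
    rw [hs.maximalIdeal_eq, Ideal.mem_span_singleton] at h1
    obtain ⟨b', hb'⟩ := h1
    refine ⟨P + Polynomial.C e * Polynomial.X ^ N, b', ?_⟩
    rw [Polynomial.eval₂_add, Polynomial.eval₂_mul, Polynomial.eval₂_C, Polynomial.eval₂_X_pow]
    have e1 : b = i e + s * b' := by rw [← hb']; ring
    calc a - (Polynomial.eval₂ i s P + i e * s ^ N)
        = (a - Polynomial.eval₂ i s P) - i e * s ^ N := by ring
      _ = s ^ N * b - i e * s ^ N := by rw [hb]
      _ = s ^ N * (i e + s * b') - i e * s ^ N := by rw [← e1]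
      _ = s ^ (N + 1) * b' := by ring

omit [IsDiscreteValuationRing O] in
theorem Expand_inj (i : E →+* O) (s : O) (hs : Irreducible s) (N : ℕ) (P : Polynomial E)
    (h : s ^ N ∣ Polynomial.eval₂ i s P) : Polynomial.X ^ N ∣ P := by
  induction N with
  | zero => simp
  | succ N ih =>
    obtain ⟨R, hR⟩ := ih (dvd_trans (pow_dvd_pow s (Nat.le_succ N)) h)
    have h1 : s ∣ Polynomial.eval₂ i s R := by
      rw [hR, Polynomial.eval₂_mul, Polynomial.eval₂_X_pow, pow_succ] at h
      exact (mul_dvd_mul_iff_left (pow_ne_zero N hs.ne_zero)).1 h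
    have h2 : Polynomial.X ∣ R := by
      rw [Polynomial.X_dvd_iff]
      by_contra hne
      have h3 : s ∣ i (R.coeff 0) := by
        have h4 : R = Polynomial.X * R.divX + Polynomial.C (R.coeff 0) :=
          (Polynomial.X_mul_divX_add R).symm
        have h5 : Polynomial.eval₂ i s R = s * Polynomial.eval₂ i s R.divX + i (R.coeff 0) := by
          conv_lhs => rw [h4]
          rw [Polynomial.eval₂_add, Polynomial.eval₂_mul, Polynomial.eval₂_X, Polynomial.eval₂_C]
        rw [h5] at h1
        exact (dvd_add_right (dvd_mul_right s _)).1 h1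
      have h6 : IsUnit (i (R.coeff 0)) := (IsUnit.mk0 _ hne).map i
      exact hs.not_isUnit (isUnit_of_dvd_unit h3 h6)
    rw [hR, pow_succ]
    exact mul_dvd_mul_left _ h2

/-- The coefficients of the expansion. -/
noncomputable def Expand_c (i : E →+* O)
    (hi : Function.Surjective ((IsLocalRing.residue O).comp i)) (s : O) (hs : Irreducible s)
    (a : O) : PowerSeries E :=
  PowerSeries.mk fun n => ((Expand_surj i hi s hs a (n + 1)).choose).coeff n

theorem Expand_coeff (i : E →+* O) (hi : Function.Surjective ((IsLocalRing.residue O).comp i))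
    (s : O) (hs : Irreducible s) (a : O) (N : ℕ) (Q : Polynomial E)
    (h : s ^ N ∣ a - Polynomial.eval₂ i s Q) (n : ℕ) (hn : n < N) :
    PowerSeries.coeff n (Expand_c i hi s hs a) = Q.coeff n := by
  rw [Expand_c, PowerSeries.coeff_mk]
  have h1 := (Expand_surj i hi s hs a (n + 1)).choose_spec
  set P := (Expand_surj i hi s hs a (n + 1)).choose
  have h2 : s ^ (n + 1) ∣ Polynomial.eval₂ i s (P - Q) := by
    rw [Polynomial.eval₂_sub]
    have h3 := dvd_sub (dvd_trans (pow_dvd_pow s hn) h) h1
    have e : a - Polynomial.eval₂ i s Q - (a - Polynomial.eval₂ i s P) =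
        Polynomial.eval₂ i s P - Polynomial.eval₂ i s Q := by ring
    rwa [e] at h3
  have h4 := Polynomial.X_pow_dvd_iff.1 (Expand_inj i s hs (n + 1) _ h2) n (Nat.lt_succ_self n)
  rw [Polynomial.coeff_sub] at h4
  exact sub_eq_zero.1 h4

/-- The expansion as a ring homomorphism. -/
noncomputable def Expand_hom (i : E →+* O)
    (hi : Function.Surjective ((IsLocalRing.residue O).comp i)) (s : O) (hs : Irreducible s) :
    O →+* PowerSeries E where
  toFun := Expand_c i hi s hs
  map_one' := by
    ext n
    rw [Expand_coeff i hi s hs 1 (n + 1) 1 (by simp) n (Nat.lt_succ_self n),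
      Polynomial.coeff_one, PowerSeries.coeff_one]
  map_zero' := by
    ext n
    rw [Expand_coeff i hi s hs 0 (n + 1) 0 (by simp) n (Nat.lt_succ_self n)]
    simp
  map_add' a b := by
    ext n
    obtain ⟨P, hP⟩ := Expand_surj i hi s hs a (n + 1)
    obtain ⟨Q, hQ⟩ := Expand_surj i hi s hs b (n + 1)
    have h1 : s ^ (n + 1) ∣ a + b - Polynomial.eval₂ i s (P + Q) := by
      rw [Polynomial.eval₂_add]
      have h2 := dvd_add hP hQ
      have e : a - Polynomial.eval₂ i s P + (b - Polynomial.eval₂ i s Q) =
        a + b - (Polynomial.eval₂ i s P + Polynomial.eval₂ i s Q) := by ring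
      rwa [e] at h2
    rw [map_add, Expand_coeff i hi s hs _ _ _ h1 n (Nat.lt_succ_self n),
      Expand_coeff i hi s hs _ _ _ hP n (Nat.lt_succ_self n),
      Expand_coeff i hi s hs _ _ _ hQ n (Nat.lt_succ_self n), Polynomial.coeff_add]
  map_mul' a b := by
    ext n
    obtain ⟨P, hP⟩ := Expand_surj i hi s hs a (n + 1)
    obtain ⟨Q, hQ⟩ := Expand_surj i hi s hs b (n + 1)
    have h1 : s ^ (n + 1) ∣ a * b - Polynomial.eval₂ i s (P * Q) := by
      rw [Polynomial.eval₂_mul]
      have h2 := dvd_add (dvd_mul_of_dvd_right hQ a)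
        (dvd_mul_of_dvd_left hP (Polynomial.eval₂ i s Q))
      have e : a * (b - Polynomial.eval₂ i s Q) +
          (a - Polynomial.eval₂ i s P) * Polynomial.eval₂ i s Q =
        a * b - Polynomial.eval₂ i s P * Polynomial.eval₂ i s Q := by ring
      rwa [e] at h2
    rw [Expand_coeff i hi s hs _ _ _ h1 n (Nat.lt_succ_self n), PowerSeries.coeff_mul,
      Polynomial.coeff_mul]
    refine Finset.sum_congr rfl fun p hp => ?_
    rw [Finset.HasAntidiagonal.mem_antidiagonal] at hp
    rw [Expand_coeff i hi s hs _ _ _ hP p.1 (by omega),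
      Expand_coeff i hi s hs _ _ _ hQ p.2 (by omega)]

theorem Expand_hom_inj (i : E →+* O)
    (hi : Function.Surjective ((IsLocalRing.residue O).comp i)) (s : O) (hs : Irreducible s) :
    Function.Injective (Expand_hom i hi s hs) := by
  rw [injective_iff_map_eq_zero]
  intro a ha
  by_contra hne
  obtain ⟨n, u, hu⟩ := IsDiscreteValuationRing.eq_unit_mul_pow_irreducible hne hs
  obtain ⟨P, hP⟩ := Expand_surj i hi s hs a (n + 1)
  have h1 : Polynomial.X ^ (n + 1) ∣ P := by
    rw [Polynomial.X_pow_dvd_iff]
    intro d hd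
    rw [← Expand_coeff i hi s hs a (n + 1) P hP d hd]
    have h2 : Expand_c i hi s hs a = 0 := ha
    rw [h2, map_zero]
  obtain ⟨R, hR⟩ := h1
  have h3 : s ^ (n + 1) ∣ a := by
    have h4 : s ^ (n + 1) ∣ Polynomial.eval₂ i s P := by
      rw [hR, Polynomial.eval₂_mul, Polynomial.eval₂_X_pow]
      exact dvd_mul_right _ _
    have h5 := dvd_add hP h4
    rwa [sub_add_cancel] at h5
  rw [hu, mul_comm, pow_succ, mul_dvd_mul_iff_left (pow_ne_zero n hs.ne_zero)] at h3
  exact hs.not_isUnit (isUnit_of_dvd_unit h3 u.isUnit)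

end Expand_aux

/-- Laurent expansions at a discrete valuation with a field of representatives. -/
theorem exists_laurent_of_dvr {E : Type u} [Field E] {O : Type v} [CommRing O] [IsDomain O]
    [IsDiscreteValuationRing O] (K : Type w) [Field K] [Algebra O K] [IsFractionRing O K]
    (i : E →+* O) (hi : Function.Surjective ((IsLocalRing.residue O).comp i)) :
    ∃ φ : K →+* LaurentSeries E, ∀ a : O, a ≠ 0 → a ∈ IsLocalRing.maximalIdeal O →
      0 < (φ (algebraMap O K a)).order := by
  obtain ⟨s, hs⟩ := IsDiscreteValuationRing.exists_irreducible O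
  set g : O →+* LaurentSeries E :=
    (HahnSeries.ofPowerSeries ℤ E).comp (Expand_hom i hi s hs) with hg
  have hinj : Function.Injective g := by
    rw [hg, RingHom.coe_comp]
    exact HahnSeries.ofPowerSeries_injective.comp (Expand_hom_inj i hi s hs)
  refine ⟨IsFractionRing.lift hinj, ?_⟩
  intro a ha ham
  rw [IsFractionRing.lift_algebraMap]
  have hga : g a ≠ 0 := fun h => ha (hinj (by rw [h, map_zero]))
  by_contra hle
  push Not at hle
  have h1 : (g a).coeff (g a).order ≠ 0 := fun h => hga (HahnSeries.coeff_order_eq_zero.1 h)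
  apply h1
  have h2 : ∀ z : ℤ, z ≤ 0 → (g a).coeff z = 0 := by
    intro z hz
    have h3 : (g a).coeff z = ((Expand_hom i hi s hs a : PowerSeries E) : LaurentSeries E).coeff z :=
      rfl
    rw [h3, PowerSeries.coeff_coe]
    split_ifs with h
    · rfl
    · have h4 : z = 0 := by omega
      subst h4
      have h5 : s ∣ a := by
        rwa [hs.maximalIdeal_eq, Ideal.mem_span_singleton] at ham
      have h6 := Expand_coeff i hi s hs a 1 0 (by simpa using h5) 0 Nat.zero_lt_one
      rw [Polynomial.coeff_zero] at h6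
      exact h6
  exact h2 _ hle

end Pool.Agent.H71.KP
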