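import Pool.Agent.H71.WH.Formal

/-!
# The formal identity behind the additivity of the trace of the logarithm (field valued traces)
-/

set_option autoImplicit false

open Polynomial
open Pool.Agent.H71.WH (Van geo van_pow van_geo_mul van_mul_geo derivative_pow_nc)

universe u v

namespace Pool.Agent.H71.KP

variable {R : Type u} [Ring R] {A : Type v} [Field A]

theorem coeff_trace (τ : R →+ A) (hτ : ∀ a b, τ (a * b) = τ (b * a)) (P Q : R[X]) (n : ℕ) :
    τ ((P * Q).coeff n) = τ ((Q * P).coeff n) := by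
  rw [coeff_mul, coeff_mul, map_sum, map_sum,
    ← Finset.Nat.sum_antidiagonal_swap (f := fun p => τ (Q.coeff p.1 * P.coeff p.2))]
  apply Finset.sum_congr rfl
  intro p _
  exact hτ _ _

theorem trace_derivative_pow (τ : R →+ A) (hτ : ∀ a b, τ (a * b) = τ (b * a)) (B : R[X])
    (k n : ℕ) : τ ((derivative (B ^ (k + 1))).coeff n) =
      (k + 1) * τ ((B ^ k * derivative B).coeff n) := by
  rw [derivative_pow_nc, finsetSum_coeff, map_sum]
  have : ∀ i ∈ Finset.range (k + 1), τ ((B ^ i * derivative B * B ^ (k - i)).coeff n) =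
      τ ((B ^ k * derivative B).coeff n) := by
    intro i hi
    have hik : i ≤ k := Nat.lt_succ_iff.1 (Finset.mem_range.1 hi)
    rw [coeff_trace τ hτ, ← mul_assoc, ← pow_add]
    congr 4
    omega
  rw [Finset.sum_congr rfl this, Finset.sum_const, Finset.card_range, nsmul_eq_mul]
  push_cast
  ring

theorem formal_aux (τ : R →+ A) (hτ : ∀ a b, τ (a * b) = τ (b * a)) (x y : R) (n : ℕ) :
    ∑ j ∈ Finset.range (n + 1), (-1) ^ j *
      τ (((C x * X + C y * X + C (x * y) * X ^ 2) ^ j *
        derivative (C x * X + C y * X + C (x * y) * X ^ 2)).coeff n) =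
    (-1) ^ n * (τ (x ^ (n + 1)) + τ (y ^ (n + 1))) := by
  set B : R[X] := C x * X + C y * X + C (x * y) * X ^ 2 with hA
  set P : R[X] := C x * X with hP
  set Q : R[X] := C y * X with hQ
  have hX : ∀ p : R[X], X * p = p * X := fun p => X_mul
  have hPQ : 1 + B = (1 + P) * (1 + Q) := by
    rw [hA, hP, hQ, mul_add, add_mul, add_mul, one_mul, one_mul, mul_one]
    have : C x * X * (C y * X) = C (x * y) * X ^ 2 := by
      rw [mul_assoc, ← mul_assoc X (C y) X, hX (C y), C_mul, pow_two]
      simp only [mul_assoc]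
    rw [this]
    abel
  have hDA : derivative B = C x * (1 + Q) + (1 + P) * C y := by
    rw [hA, hQ, hP, derivative_add, derivative_add, derivative_C_mul, derivative_C_mul,
      derivative_C_mul, derivative_X, derivative_X_pow, mul_add, add_mul, mul_one, one_mul]
    have h1 : C x * X * C y = C (x * y) * X := by
      rw [mul_assoc, hX (C y), C_mul, mul_assoc]
    have h2 : C x * (C y * X) = C (x * y) * X := by rw [C_mul, mul_assoc]
    rw [h1, h2]
    simp only [Nat.cast_ofNat, Nat.add_one_sub_one, pow_one, mul_one]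
    have h3 : C (x * y) * (C (2 : R) * X) = C (x * y) * X + C (x * y) * X := by
      rw [← mul_assoc, ← C_mul, mul_two, C_add, add_mul]
    rw [h3]
    abel
  have hP0 : P.coeff 0 = 0 := by simp [hP]
  have hQ0 : Q.coeff 0 = 0 := by simp [hQ]
  have hA0 : B.coeff 0 = 0 := by simp [hA, hP0, hQ0]
  have hsum : ∑ j ∈ Finset.range (n + 1), (-1) ^ j * τ ((B ^ j * derivative B).coeff n) =
      τ ((geo n B * derivative B).coeff n) := by
    rw [geo, Finset.sum_mul, finsetSum_coeff, map_sum]
    apply Finset.sum_congr rfl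
    intro j _
    rcases Nat.even_or_odd j with hj | hj
    · rw [hj.neg_one_pow, hj.neg_one_pow, one_mul, one_mul]
    · rw [hj.neg_one_pow, hj.neg_one_pow, neg_one_mul, neg_one_mul, neg_mul, coeff_neg, map_neg]
  rw [hsum]
  -- `geo n B` agrees with `geo n Q * geo n P` up to degree `n`
  have hW : Van n (geo n B - geo n Q * geo n P) := by
    have e1 : Van n ((geo n B * (1 + B) - 1) * (geo n Q * geo n P)) :=
      (van_geo_mul n hA0).mul_right _
    have e2 : Van n (geo n B * ((1 + P) * ((1 + Q) * geo n Q - 1) * geo n P +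
        ((1 + P) * geo n P - 1))) :=
      ((((van_mul_geo n hQ0).mul_left _).mul_right _).add (van_mul_geo n hP0)).mul_left _
    have e3 := e1.sub e2
    have e4 : (geo n B * (1 + B) - 1) * (geo n Q * geo n P) -
        geo n B * ((1 + P) * ((1 + Q) * geo n Q - 1) * geo n P + ((1 + P) * geo n P - 1)) =
        geo n B - geo n Q * geo n P := by
      rw [hPQ]
      noncomm_ring
    rwa [e4] at e3
  have h1 : τ ((geo n B * derivative B).coeff n) =
      τ ((geo n Q * geo n P * derivative B).coeff n) := by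
    have := (hW.mul_right (derivative B)) n le_rfl
    rw [sub_mul, coeff_sub, sub_eq_zero] at this
    rw [this]
  have h2 : τ ((geo n Q * geo n P * derivative B).coeff n) =
      τ ((geo n P * C x).coeff n) + τ ((geo n Q * C y).coeff n) := by
    rw [hDA, mul_add, coeff_add, map_add]
    congr 1
    · rw [← mul_assoc, mul_assoc (geo n Q) (geo n P) (C x), mul_assoc (geo n Q),
        coeff_trace τ hτ, mul_assoc]
      have := ((van_mul_geo n hQ0).mul_left (geo n P * C x)) n le_rfl
      rw [mul_sub, mul_one, coeff_sub, sub_eq_zero] at this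
      rw [this]
    · have := ((van_geo_mul n hP0).mul_left (geo n Q)).mul_right (C y) n le_rfl
      rw [mul_sub, mul_one, sub_mul, coeff_sub, sub_eq_zero] at this
      rw [← this]
      simp only [mul_assoc]
  have h3 : ∀ z : R, (geo n (C z * X) * C z).coeff n = (-1) ^ n * z ^ (n + 1) := by
    intro z
    have hz : ∀ j : ℕ, (C z * X) ^ j = C (z ^ j) * X ^ j := by
      intro j
      rw [(Polynomial.commute_X (C z)).symm.mul_pow, C_pow]
    have : geo n (C z * X) * C z = ∑ j ∈ Finset.range (n + 1),
        C ((-1) ^ j * z ^ (j + 1)) * X ^ j := by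
      rw [geo, Finset.sum_mul]
      apply Finset.sum_congr rfl
      intro j _
      have hC : (C ((-1 : R) ^ j) : R[X]) = (-1) ^ j := by rw [C_pow, C_neg, C_1]
      rw [hz, mul_assoc, mul_assoc, X_pow_mul_C, pow_succ, C_mul, C_mul, hC]
      simp only [mul_assoc]
    rw [this, finsetSum_coeff, Finset.sum_eq_single n]
    · rw [coeff_C_mul, coeff_X_pow, if_pos rfl, mul_one]
    · intro j _ hj
      rw [coeff_C_mul, coeff_X_pow, if_neg (Ne.symm hj), mul_zero]
    · intro h
      exact absurd (Finset.mem_range.2 (Nat.lt_succ_self n)) h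
  have h4 : ∀ z : R, τ ((-1) ^ n * z ^ (n + 1)) = (-1) ^ n * τ (z ^ (n + 1)) := by
    intro z
    rcases Nat.even_or_odd n with hj | hj
    · rw [hj.neg_one_pow, hj.neg_one_pow, one_mul, one_mul]
    · rw [hj.neg_one_pow, hj.neg_one_pow, neg_one_mul, neg_one_mul, map_neg]
  rw [h1, h2, hP, hQ, h3, h3, h4, h4, mul_add]

/-- the formal identity -/
theorem formal_identity [CharZero A] (τ : R →+ A) (hτ : ∀ a b, τ (a * b) = τ (b * a)) (x y : R)
    (n : ℕ) :
    ∑ j ∈ Finset.range (n + 1), (-1 : A) ^ j *
      τ (((C x * X + C y * X + C (x * y) * X ^ 2) ^ (j + 1)).coeff (n + 1)) / (j + 1) =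
    (-1) ^ n * (τ (x ^ (n + 1)) + τ (y ^ (n + 1))) / (n + 1) := by
  have h := formal_aux τ hτ x y n
  have hn : ((n : A) + 1) ≠ 0 := by exact_mod_cast Nat.succ_ne_zero n
  rw [eq_div_iff hn, Finset.sum_mul]
  rw [← h]
  apply Finset.sum_congr rfl
  intro j _
  have h1 := trace_derivative_pow τ hτ (C x * X + C y * X + C (x * y) * X ^ 2) j n
  rw [coeff_derivative] at h1
  have h2 : ∀ z : R, τ (z * ((n : R) + 1)) = (n + 1) * τ z := by
    intro z
    have : z * ((n : R) + 1) = (n + 1) • z := by
      rw [nsmul_eq_mul, Nat.cast_add, Nat.cast_one]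
      exact (((Nat.cast_commute n z).add_left (Commute.one_left z)).eq).symm
    rw [this, map_nsmul, nsmul_eq_mul]
    push_cast
    ring
  rw [h2] at h1
  have hj : ((j : A) + 1) ≠ 0 := by exact_mod_cast Nat.succ_ne_zero j
  rw [div_mul_eq_mul_div, div_eq_iff hj, mul_assoc, mul_comm _ ((n : A) + 1), h1]
  ring

end Pool.Agent.H71.KP
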