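import Pool.Agent.H71.KP.Gam

/-!
# The integral logarithm of matrices over `ℤ_[p][G]`
-/

set_option autoImplicit false
set_option linter.unusedSectionVars false

open scoped TensorProduct

universe u v w

namespace Pool.Agent.H71.KP

variable (p : ℕ) [hp : Fact p.Prime]

section Fn

variable {G : Type u} [Group G]

variable {p}

/-- The functional `∑ a_g g ↦ ∑ a_g f(g)` on a group ring. -/
noncomputable def fn (f : G → ℤ_[p]) : MonoidAlgebra ℤ_[p] G →ₗ[ℤ_[p]] ℤ_[p] where
  toFun a := a.coeff.sum fun g b => b * f g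
  map_add' x y := by
    classical
    rw [MonoidAlgebra.coeff_add, Finsupp.sum_add_index'] <;> simp [add_mul]
  map_smul' r x := by
    classical
    rw [MonoidAlgebra.coeff_smul, Finsupp.sum_smul_index' (by simp), RingHom.id_apply,
      smul_eq_mul, Finsupp.mul_sum]
    apply Finsupp.sum_congr
    intro g _
    rw [smul_eq_mul, mul_assoc]

omit [Group G] in
theorem fn_single (f : G → ℤ_[p]) (g : G) (b : ℤ_[p]) :
    fn f (MonoidAlgebra.single g b) = b * f g := by
  change (MonoidAlgebra.single g b).coeff.sum (fun g b => b * f g) = _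
  rw [MonoidAlgebra.coeff_single, Finsupp.sum_single_index (by simp)]

theorem fn_comm (f : G → ℤ_[p]) (hf : ∀ x y, f (x * y) = f (y * x))
    (x y : MonoidAlgebra ℤ_[p] G) : fn f (x * y) = fn f (y * x) := by
  induction x using MonoidAlgebra.induction_linear with
  | zero => rw [zero_mul, mul_zero]
  | add x x' hx hx' => rw [add_mul, mul_add, map_add, map_add, hx, hx']
  | single g b =>
    induction y using MonoidAlgebra.induction_linear with
    | zero => rw [zero_mul, mul_zero]
    | add y y' hy hy' => rw [add_mul, mul_add, map_add, map_add, hy, hy']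
    | single h c =>
      rw [MonoidAlgebra.single_mul_single, MonoidAlgebra.single_mul_single, fn_single,
        fn_single, hf, mul_comm b c]

end Fn

section Mat

variable (G : Type u) [Group G] (n : ℕ)

/-- matrices over the group ring -/
abbrev MG : Type u := Matrix (Fin n) (Fin n) (MonoidAlgebra ℤ_[p] G)

variable {G n}

/-- basis elements -/
noncomputable def EE (i k : Fin n) (g : G) : MG p G n :=
  Matrix.single i k (MonoidAlgebra.single g 1)

theorem EE_mul (i k l m : Fin n) (g h : G) :
    EE p i k g * EE p l m h = if k = l then EE p i m (g * h) else 0 := by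
  split_ifs with hk
  · subst hk
    rw [EE, EE, Matrix.single_mul_single_same, MonoidAlgebra.single_mul_single, one_mul]
    rfl
  · rw [EE, EE, Matrix.single_mul_single_of_ne _ _ _ _ hk]

/-- the diagonal tensors -/
noncomputable def DD (i k : Fin n) (g : G) : TP p (MG p G n) := TT p (EE p i k g)

theorem TT_zero {A : Type u} [Ring A] [Algebra ℤ_[p] A] : TT p (0 : A) = 0 :=
  (PiTensorProduct.tprod ℤ_[p] (s := fun _ : ZMod p => A)).map_coord_zero 0 rfl

theorem DD_mul (i k l m : Fin n) (g h : G) :
    DD p i k g * DD p l m h = if k = l then DD p i m (g * h) else 0 := by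
  rw [DD, DD, ← TT_mul, EE_mul]
  split_ifs
  · rfl
  · exact TT_zero p

/-- the components of `Psi` -/
noncomputable def psiE (i k : Fin n) : MonoidAlgebra ℤ_[p] G →+ TP p (MG p G n) where
  toFun a := a.coeff.sum fun g r => r • DD p i k g
  map_zero' := by simp
  map_add' x y := by
    classical
    rw [MonoidAlgebra.coeff_add, Finsupp.sum_add_index'] <;> simp [add_smul]

theorem psiE_single (i k : Fin n) (g : G) (r : ℤ_[p]) :
    psiE p i k (MonoidAlgebra.single g r) = r • DD p i k g := by
  change (MonoidAlgebra.single g r).coeff.sum (fun g r => r • DD p i k g) = _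
  rw [MonoidAlgebra.coeff_single, Finsupp.sum_single_index (by simp)]

theorem psiE_mul (i k l m : Fin n) (a b : MonoidAlgebra ℤ_[p] G) :
    psiE p i k a * psiE p l m b = if k = l then psiE p i m (a * b) else 0 := by
  induction a using MonoidAlgebra.induction_linear with
  | zero => simp
  | add x y hx hy =>
    rw [map_add, add_mul, hx, hy]
    split_ifs
    · rw [add_mul, map_add]
    · rw [add_zero]
  | single g r =>
    induction b using MonoidAlgebra.induction_linear with
    | zero => simp
    | add x y hx hy =>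
      rw [map_add, mul_add, hx, hy]
      split_ifs
      · rw [mul_add, map_add]
      · rw [add_zero]
    | single h s =>
      rw [psiE_single, psiE_single, smul_mul_smul_comm, DD_mul]
      split_ifs
      · rw [MonoidAlgebra.single_mul_single, psiE_single]
      · rw [smul_zero]

/-- the map `Psi` -/
noncomputable def Psi (G : Type u) [Group G] (n : ℕ) : MG p G n →ₙ+* TP p (MG p G n) where
  toFun w := ∑ i, ∑ k, psiE p i k (w i k)
  map_zero' := by simp
  map_add' w w' := by simp [Finset.sum_add_distrib]
  map_mul' w w' := by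
    have h1 : ∀ i k, psiE p i k (w i k) * ∑ l, ∑ m, psiE p l m (w' l m) =
        ∑ m, psiE p i m (w i k * w' k m) := by
      intro i k
      rw [Finset.mul_sum, Finset.sum_eq_single k]
      · rw [Finset.mul_sum]
        apply Finset.sum_congr rfl
        intro m _
        rw [psiE_mul, if_pos rfl]
      · intro l _ hl
        rw [Finset.mul_sum]
        apply Finset.sum_eq_zero
        intro m _
        rw [psiE_mul, if_neg (Ne.symm hl)]
      · intro h
        exact absurd (Finset.mem_univ _) h
    rw [Finset.sum_mul]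
    apply Finset.sum_congr rfl
    intro i _
    rw [Finset.sum_mul]
    simp only [h1, Matrix.mul_apply, map_sum]
    exact Finset.sum_comm

theorem Psi_apply (w : MG p G n) : Psi p G n w = ∑ i, ∑ k, psiE p i k (w i k) := rfl

theorem Psi_single (i k : Fin n) (x : MonoidAlgebra ℤ_[p] G) :
    Psi p G n (Matrix.single i k x) = psiE p i k x := by
  rw [Psi_apply, Finset.sum_eq_single i]
  · rw [Finset.sum_eq_single k]
    · rw [Matrix.single_apply_same]
    · intro l _ hl
      rw [Matrix.single_apply_of_ne _ _ _ _ _ (by simp [Ne.symm hl]), map_zero]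
    · intro h
      exact absurd (Finset.mem_univ _) h
  · intro l _ hl
    apply Finset.sum_eq_zero
    intro m _
    rw [Matrix.single_apply_of_ne _ _ _ _ _ (by simp [Ne.symm hl]), map_zero]
  · intro h
    exact absurd (Finset.mem_univ _) h

/-- induction on matrices over the group ring -/
theorem MG_induction {P : MG p G n → Prop} (h0 : P 0) (ha : ∀ x y, P x → P y → P (x + y))
    (h1 : ∀ (r : ℤ_[p]) (i k : Fin n) (g : G), P (r • EE p i k g)) (w : MG p G n) : P w := by
  induction w using Matrix.induction_on' with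
  | h_zero => exact h0
  | h_add x y hx hy => exact ha x y hx hy
  | h_std_basis i k x =>
    induction x using MonoidAlgebra.induction_linear with
    | zero => rwa [Matrix.single_zero]
    | add x y hx hy =>
      rw [Matrix.single_add]
      exact ha _ _ hx hy
    | single g r =>
      have := h1 r i k g
      rwa [EE, Matrix.smul_single, MonoidAlgebra.smul_single, smul_eq_mul, mul_one] at this

theorem Psi_smul_EE (r : ℤ_[p]) (i k : Fin n) (g : G) :
    Psi p G n (r • EE p i k g) = r • DD p i k g := by
  rw [EE, Matrix.smul_single, MonoidAlgebra.smul_single, smul_eq_mul, mul_one, Psi_single,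
    psiE_single]

/-- the structure -/
noncomputable def PA (G : Type u) [Group G] (n : ℕ) : PowAlg p (MG p G n) where
  Ψ := Psi p G n
  fix := by
    intro i a
    induction a using MG_induction with
    | h0 => rw [map_zero, map_zero]
    | ha x y hx hy => rw [map_add, map_add, hx, hy]
    | h1 r j k g => rw [Psi_smul_EE, map_smul, DD, sh_TT]
  cond := by
    intro a
    induction a using MG_induction with
    | h0 => exact ⟨0, by simp [TT_zero]⟩
    | ha x y hx hy =>
      obtain ⟨z, hz⟩ := hx
      obtain ⟨z', hz'⟩ := hy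
      obtain ⟨z'', hz''⟩ := TT_add p (0 : MG p G n →ₗ[ℤ_[p]] ℤ_[p]) (fun _ _ => rfl) x y
      refine ⟨z'' + z + z', ?_⟩
      have e : ∀ y, (tG p (0 : MG p G n →ₗ[ℤ_[p]] ℤ_[p]) (fun _ _ => rfl)).tr y =
        ∑ i, sh p i y := fun _ => rfl
      rw [e] at hz''
      simp only [map_add, Finset.sum_add_distrib]
      rw [← hz'', ← hz, ← hz']
      abel
    | h1 r i k g =>
      obtain ⟨z, hz⟩ := TT_smul_sub p (0 : MG p G n →ₗ[ℤ_[p]] ℤ_[p]) (fun _ _ => rfl) r
        (EE p i k g)
      refine ⟨z, ?_⟩
      rw [Psi_smul_EE]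
      exact hz

/-- the trace followed by the functional of `f` -/
noncomputable def trf (f : G → ℤ_[p]) (n : ℕ) : MG p G n →ₗ[ℤ_[p]] ℤ_[p] :=
  (fn f).comp (Matrix.traceLinearMap (Fin n) ℤ_[p] (MonoidAlgebra ℤ_[p] G))

theorem trf_apply (f : G → ℤ_[p]) (w : MG p G n) : trf p f n w = ∑ i, fn f (w i i) := by
  change fn f (Matrix.trace w) = _
  rw [Matrix.trace, map_sum]
  rfl

theorem trf_comm (f : G → ℤ_[p]) (hf : ∀ x y, f (x * y) = f (y * x)) (a b : MG p G n) :
    trf p f n (a * b) = trf p f n (b * a) := by
  rw [trf_apply, trf_apply]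
  simp only [Matrix.mul_apply, map_sum]
  rw [Finset.sum_comm]
  apply Finset.sum_congr rfl
  intro i _
  apply Finset.sum_congr rfl
  intro k _
  rw [fn_comm f hf]

theorem trf_EE (f : G → ℤ_[p]) (i k : Fin n) (g : G) :
    trf p f n (EE p i k g) = if i = k then f g else 0 := by
  rw [trf_apply, EE]
  split_ifs with h
  · subst h
    rw [Finset.sum_eq_single i]
    · rw [Matrix.single_apply_same, fn_single, one_mul]
    · intro l _ hl
      rw [Matrix.single_apply_of_ne _ _ _ _ _ (by simp [Ne.symm hl]), map_zero]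
    · intro h
      exact absurd (Finset.mem_univ _) h
  · apply Finset.sum_eq_zero
    intro l _
    rw [Matrix.single_apply_of_ne, map_zero]
    rintro ⟨rfl, h2⟩
    exact h h2.symm

theorem EE_pow (i k : Fin n) (g : G) (m : ℕ) :
    EE p i k g ^ (m + 1) = if i = k ∨ m = 0 then EE p i k (g ^ (m + 1)) else 0 := by
  induction m with
  | zero => simp
  | succ m ih =>
    rw [pow_succ, ih]
    by_cases h : i = k
    · subst h
      rw [if_pos (Or.inl rfl), if_pos (Or.inl rfl), EE_mul, if_pos rfl, ← pow_succ]
    · have h2 : ¬ (i = k ∨ m + 1 = 0) := by simp [h]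
      rw [if_neg h2]
      split_ifs
      · rw [EE_mul, if_neg (Ne.symm h)]
      · rw [zero_mul]

theorem frob_eq (f : G → ℤ_[p]) (w : MG p G n) :
    (PA p G n).frob (trf p f n) w = trf p (fun g => f (g ^ p)) n w := by
  have hp1 := hp.out.one_lt
  induction w using MG_induction with
  | h0 => rw [map_zero, map_zero]
  | ha x y hx hy => rw [map_add, map_add, hx, hy]
  | h1 r i k g =>
    rw [PowAlg.frob_apply, (trf p (fun g => f (g ^ p)) n).map_smul, trf_EE]
    change kap p _ (Psi p G n (r • EE p i k g)) = _
    rw [Psi_smul_EE, map_smul, DD, TT, kap_tp, oprod_const]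
    obtain ⟨q, hq⟩ : ∃ q, p = q + 1 := ⟨p - 1, by omega⟩
    have hq0 : q ≠ 0 := by omega
    congr 1
    conv_lhs => rw [show (EE p i k g) ^ p = (EE p i k g) ^ (q + 1) by rw [← hq]]
    rw [EE_pow]
    by_cases h : i = k
    · rw [if_pos (Or.inl h), trf_EE, if_pos h, if_pos h, ← hq]
    · rw [if_neg (by simp [h, hq0]), if_neg h, map_zero]

variable (f : G → ℤ_[p]) (hf : ∀ x y, f (x * y) = f (y * x))

/-- the integral logarithm on `GL_n(ℤ_[p][G])` -/
noncomputable def Gam (n : ℕ) (u : (MG p G n)ˣ) : ℚ_[p] :=
  (PA p G n).Gam (trf p f n) (trf_comm p f hf) u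

theorem Gam_mul (u w : (MG p G n)ˣ) : Gam p f hf n (u * w) = Gam p f hf n u + Gam p f hf n w :=
  PowAlg.Gam_mul _ _ _ _ _

theorem Gam_pow (u : (MG p G n)ˣ) (k : ℕ) : Gam p f hf n (u ^ k) = k * Gam p f hf n u :=
  PowAlg.Gam_pow _ _ _ _ _

/-- `trf` as an additive map -/
noncomputable def trA (f : G → ℤ_[p]) (n : ℕ) : MG p G n →+ ℤ_[p] := (trf p f n).toAddMonoidHom

theorem Gam_sq {u : (MG p G n)ˣ} {x : MG p G n}
    (hu : (u : MG p G n) = 1 + ((p ^ 2 : ℕ) : MG p G n) * x) :
    p * Gam p f hf n u = p * L (trA p f n) (u : MG p G n) -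
      L (trA p (fun g => f (g ^ p)) n) (u : MG p G n) := by
  rw [Gam, PowAlg.Gam_sq _ _ _ hu]
  congr 1
  exact L_congr_fun (fun r => frob_eq p f r) _

end Mat

section Nat

variable {G : Type u} [Group G] {H : Type v} [Group H] (φ : G →* H) (n : ℕ)

/-- the induced map on matrices -/
noncomputable def glA : MG p G n →ₐ[ℤ_[p]] MG p H n :=
  (MonoidAlgebra.mapDomainAlgHom ℤ_[p] ℤ_[p] φ).mapMatrix

theorem glA_EE (r : ℤ_[p]) (i k : Fin n) (g : G) :
    glA p φ n (r • EE p i k g) = r • EE p i k (φ g) := by
  rw [map_smul]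
  congr 1
  refine Matrix.ext fun a b => ?_
  change MonoidAlgebra.mapDomain φ ((EE p i k g) a b) = (EE p i k (φ g)) a b
  rw [EE, EE, Matrix.single_apply, Matrix.single_apply]
  split_ifs
  · rw [MonoidAlgebra.mapDomain_single]
  · simp

theorem Gam_map (f : H → ℤ_[p]) (hf : ∀ x y, f (x * y) = f (y * x)) (f' : G → ℤ_[p])
    (hf' : ∀ x y, f' (x * y) = f' (y * x)) (h : ∀ x, f (φ x) = f' x) (u : (MG p G n)ˣ) :
    Gam p f hf n (Units.map (glA p φ n : MG p G n →* MG p H n) u) = Gam p f' hf' n u := by
  apply PowAlg.Gam_map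
  · intro a
    induction a using MG_induction with
    | h0 => rw [map_zero, map_zero, map_zero, map_zero]
    | ha x y hx hy =>
      rw [map_add (glA p φ n), map_add, hx, hy, map_add (PA p G n).Ψ, map_add]
    | h1 r i k g =>
      rw [glA_EE]
      change Psi p H n _ = tpMap _ (Psi p G n _)
      rw [Psi_smul_EE, Psi_smul_EE, map_smul, DD, DD, TT, TT, tpMap_tp]
      have := glA_EE p φ n 1 i k g
      rw [one_smul, one_smul] at this
      rw [this]
  · intro a
    induction a using MG_induction with
    | h0 => rw [map_zero, map_zero, map_zero]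
    | ha x y hx hy => rw [map_add, map_add, hx, hy, map_add]
    | h1 r i k g =>
      rw [glA_EE, map_smul, map_smul, trf_EE, trf_EE, h]

end Nat

end Pool.Agent.H71.KP
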