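import Pool.Agent.H71.KP.Orb
import Pool.Agent.H71.WH.Mat

/-!
# The integral logarithm
-/

set_option autoImplicit false
set_option linter.unusedSectionVars false

open scoped TensorProduct
open Pool.Agent.H71.WH (unitExt unitExt_val)

universe u v w

namespace Pool.Agent.H71.KP

theorem grp_aux {H : Type u} [Group H] (a b c d : H) :
    (a * b)⁻¹ * (c * d) = (b⁻¹ * (a⁻¹ * c) * b) * (b⁻¹ * d) := by group

namespace TwTr

variable {p : ℕ} [hp : Fact p.Prime] {M : Type u} [Ring M] (t : TwTr p M) {M' : Type v} [Ring M']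
  (t' : TwTr p M') (j : M →+* M') (hact : ∀ i x, j (t.act i x) = t'.act i (j x))

/-- the induced map of skew rings -/
def skMap {A : Type} [AddCommGroup A] [Fintype A] [DecidableEq A] (π : A →+ ZMod p) :
    t.sk π →+* t'.sk π where
  toFun V := ⟨V.1.map j, by
    intro a b l
    change j (V.1 (a + l) (b + l)) = t'.act (π l) (j (V.1 a b))
    rw [V.2, hact]⟩
  map_one' := Subtype.ext (by
    change (1 : Matrix A A M).map j = 1
    rw [Matrix.map_one _ (map_zero j) (map_one j)])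
  map_zero' := Subtype.ext (by
    change (0 : Matrix A A M).map j = 0
    rw [Matrix.map_zero _ (map_zero j)])
  map_add' V W := Subtype.ext (Matrix.map_add j (map_add j) V.1 W.1)
  map_mul' V W := Subtype.ext (Matrix.map_mul (f := j))

theorem skMap_apply {A : Type} [AddCommGroup A] [Fintype A] [DecidableEq A] (π : A →+ ZMod p)
    (V : t.sk π) (a b : A) : (t.skMap t' j hact π V).1 a b = j (V.1 a b) := rfl

include hact in
theorem lam_map (hκ : ∀ x, t'.κ (j x) = t.κ x) (v : t.Sˣ) :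
    t'.lam (Units.map (t.skMap t' j hact _).toMonoidHom v) = t.lam v := by
  let JB : t.B →+* t'.B := t.skMap t' j hact _
  have h1 : ∀ V : t.S, t'.ι (t.skMap t' j hact _ V) = JB (t.ι V) := by
    intro V
    apply Subtype.ext
    ext a b
    rw [skMap_apply, ι_apply, ι_apply, skMap_apply]
    split_ifs
    · rfl
    · rw [map_zero]
  have h2 : ∀ V : t.S, t'.θ (t.skMap t' j hact _ V) = JB (t.θ V) := by
    intro V
    apply Subtype.ext
    ext a b
    rw [skMap_apply, θ_apply, θ_apply, skMap_apply]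
    split_ifs
    · rfl
    · rw [map_zero]
  have h3 : Units.map t'.ι.toMonoidHom (Units.map (t.skMap t' j hact _).toMonoidHom v) =
      Units.map JB.toMonoidHom (Units.map t.ι.toMonoidHom v) := Units.ext (h1 v)
  rw [lam, lam, h3, ← map_inv]
  have h4 : ((Units.map JB.toMonoidHom (Units.map t.ι.toMonoidHom v)⁻¹ : t'.Bˣ) : t'.B) *
      t'.θ (Units.map (t.skMap t' j hact _).toMonoidHom v : t'.Sˣ) =
      JB (((Units.map t.ι.toMonoidHom v)⁻¹ : t.Bˣ) * t.θ v) := by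
    rw [map_mul, ← h2]
    rfl
  rw [h4, L_map]
  apply L_congr_fun
  intro r
  change t'.κ (j (r.1 0 (1, 1))) = t.κ (r.1 0 (1, 1))
  rw [hκ]

include hact in
theorem Lam_map (hκ : ∀ x, t'.κ (j x) = t.κ x) {g : Mˣ} (hg : t.Adm g) :
    t'.Lam (Units.map j.toMonoidHom g) = t.Lam g := by
  obtain ⟨z, hz⟩ := hg
  have hz' : ((Units.map j.toMonoidHom g : M'ˣ) : M') = 1 + t'.tr (j z) := by
    change j g = _
    rw [hz, map_add, map_one, tr_apply, tr_apply, map_sum]
    simp only [hact]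
  rw [t'.Lam_eq hz', t.Lam_eq hz, ← t.lam_map t' j hact hκ]
  congr 1
  apply Units.ext
  apply Subtype.ext
  ext a b
  change (1 : Matrix (ZMod p) (ZMod p) M') a b + t'.act a (j z) =
    j ((1 : Matrix (ZMod p) (ZMod p) M) a b + t.act a z)
  rw [map_add, hact, Matrix.one_apply, Matrix.one_apply]
  split_ifs <;> simp

/-- the fixed subring -/
def fixSub : Subring M where
  carrier := {x | t.Fix x}
  mul_mem' hx hy := hx.mul t hy
  one_mem' := Fix.one t
  add_mem' hx hy := hx.add t hy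
  zero_mem' := fun i => map_zero _
  neg_mem' := by
    intro x hx i
    rw [map_neg, hx i]

theorem mem_fixSub {x : M} : x ∈ t.fixSub ↔ t.Fix x := Iff.rfl

theorem κ_fix_comm : ∀ a ∈ t.fixSub, ∀ b ∈ t.fixSub, t.κ (a * b) = t.κ (b * a) := by
  intro a ha b _
  rw [t.tw, ha 1]

end TwTr

/-- An algebra with a multiplicative lift of the diagonal power to the tensor power. -/
structure PowAlg (p : ℕ) [Fact p.Prime] (A : Type u) [Ring A] [Algebra ℤ_[p] A] where
  /-- the map -/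
  Ψ : A →ₙ+* TP p A
  fix : ∀ i a, sh p i (Ψ a) = Ψ a
  cond : ∀ a, ∃ z, TT p a - Ψ a = ∑ i, sh p i z

section

variable {p : ℕ} [hp : Fact p.Prime] {A : Type u} [Ring A] [Algebra ℤ_[p] A] (P : PowAlg p A)
  (τ : A →ₗ[ℤ_[p]] ℤ_[p]) (hτ : ∀ a b, τ (a * b) = τ (b * a))

/-- the extension to units -/
noncomputable def PowAlg.U : Aˣ →* (TP p A)ˣ := unitExt P.Ψ

theorem PowAlg.U_val (u : Aˣ) : (P.U u : TP p A) = P.Ψ u + (1 - P.Ψ 1) := rfl

/-- the quotient -/
noncomputable def PowAlg.gg (u : Aˣ) : (TP p A)ˣ := (P.U u)⁻¹ * TU p u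

theorem PowAlg.gg_mul (u w : Aˣ) : P.gg (u * w) = ((P.U w)⁻¹ * P.gg u * P.U w) * P.gg w := by
  rw [gg, gg, gg, map_mul, map_mul]
  exact grp_aux _ _ _ _

theorem PowAlg.fix_U (u : Aˣ) : (tG p τ hτ).Fix (P.U u : TP p A) := by
  intro i
  rw [P.U_val, map_add, map_sub, map_one, tG_act, tG_act, P.fix, P.fix]

theorem fix_TT (a : A) : (tG p τ hτ).Fix (TT p a) := fun i => sh_TT p i a

theorem PowAlg.gg_adm (u : Aˣ) : (tG p τ hτ).Adm (P.gg u) := by
  obtain ⟨z, hz⟩ := P.cond u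
  obtain ⟨y, hy⟩ := P.cond 1
  refine ⟨((P.U u)⁻¹ : (TP p A)ˣ) * (z - y), ?_⟩
  have h1 : (tG p τ hτ).tr (z - y) = TT p (u : A) - P.U u := by
    have e1 : (tG p τ hτ).tr z = TT p (u : A) - P.Ψ u := hz.symm
    have e2 : (tG p τ hτ).tr y = 1 - P.Ψ 1 := by rw [← TT_one p]; exact hy.symm
    rw [map_sub, e1, e2, P.U_val]
    abel
  rw [TwTr.tr_fix_mul _ _ (TwTr.Fix.inv _ (P.fix_U τ hτ u)), h1, mul_sub, Units.inv_mul,
    PowAlg.gg, Units.val_mul, TU_val]
  abel

/-- **The integral logarithm.** -/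
noncomputable def PowAlg.Gam (u : Aˣ) : ℚ_[p] := (tG p τ hτ).Lam (P.gg u)

theorem PowAlg.Gam_mul (u w : Aˣ) : P.Gam τ hτ (u * w) = P.Gam τ hτ u + P.Gam τ hτ w := by
  rw [Gam, P.gg_mul, TwTr.Lam_mul _ (TwTr.Adm.conj _ (P.gg_adm τ hτ u) (P.fix_U τ hτ w))
    (P.gg_adm τ hτ w), TwTr.Lam_conj _ (P.gg_adm τ hτ u) (P.fix_U τ hτ w)]
  rfl

theorem PowAlg.Gam_one : P.Gam τ hτ 1 = 0 := by
  have := P.Gam_mul τ hτ 1 1
  rw [mul_one] at this
  exact (add_eq_left.1 this.symm)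

theorem PowAlg.Gam_pow (u : Aˣ) (k : ℕ) : P.Gam τ hτ (u ^ k) = k * P.Gam τ hτ u := by
  induction k with
  | zero => rw [pow_zero, P.Gam_one]; simp
  | succ k ih => rw [pow_succ, P.Gam_mul, ih]; push_cast; ring

theorem exists_TT_eq (n : ℕ) (x : A) : ∃ Y : TP p A, TT p (1 + (n : A) * x) = 1 + (n : TP p A) * Y := by
  classical
  have h1 : TT p (1 + (n : A) * x) = ∑ s, mx p ((n : A) * x) 1 s := by
    rw [add_comm]
    exact (PiTensorProduct.tprod ℤ_[p] (s := fun _ : ZMod p => A)).map_add_univ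
      (fun _ => (n : A) * x) (fun _ => 1)
  have h2 : ∀ s : Finset (ZMod p), mx p ((n : A) * x) 1 s = (n : ℤ_[p]) ^ s.card • mx p x 1 s := by
    intro s
    have h := (PiTensorProduct.tprod ℤ_[p] (s := fun _ : ZMod p => A)).map_piecewise_smul
      (fun _ => (n : ℤ_[p])) (s.piecewise (fun _ => x) (fun _ => 1)) s
    rw [Finset.prod_const] at h
    rw [mx, mx, ← h]
    congr 1
    funext l
    by_cases hl : l ∈ s
    · rw [Finset.piecewise_eq_of_mem _ _ _ hl, Finset.piecewise_eq_of_mem _ _ _ hl,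
        Finset.piecewise_eq_of_mem _ _ _ hl, Nat.cast_smul_eq_nsmul, nsmul_eq_mul]
    · rw [Finset.piecewise_eq_of_notMem _ _ _ hl, Finset.piecewise_eq_of_notMem _ _ _ hl,
        Finset.piecewise_eq_of_notMem _ _ _ hl]
  refine ⟨∑ s ∈ Finset.univ.erase ∅, (n : ℤ_[p]) ^ (s.card - 1) • mx p x 1 s, ?_⟩
  have he : mx p ((n : A) * x) 1 ∅ = 1 := by
    rw [mx, Finset.piecewise_empty]
    rfl
  rw [h1, ← Finset.add_sum_erase _ _ (Finset.mem_univ ∅), he, Finset.mul_sum]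
  refine congrArg (fun z => 1 + z) ?_
  apply Finset.sum_congr rfl
  intro s hs
  have hs' : 0 < s.card := Finset.card_pos.2
    (Finset.nonempty_iff_ne_empty.2 (Finset.mem_erase.1 hs).1)
  rw [h2, ← nsmul_eq_mul, ← Nat.cast_smul_eq_nsmul ℤ_[p], smul_smul, ← pow_succ']
  congr 2
  omega

/-- the functional `kap ∘ Ψ` -/
noncomputable def PowAlg.frob : A →+ ℤ_[p] := (kap p τ).toAddMonoidHom.comp P.Ψ.toAddMonoidHom

theorem PowAlg.frob_apply (a : A) : P.frob τ a = kap p τ (P.Ψ a) := rfl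

theorem PowAlg.map_nat_mul (n : ℕ) (x : A) : P.Ψ ((n : A) * x) = (n : TP p A) * P.Ψ x := by
  rw [← nsmul_eq_mul, ← nsmul_eq_mul]
  exact map_nsmul P.Ψ.toAddMonoidHom n x

/-- The value of the integral logarithm on units congruent to `1` modulo `p ^ 2`. -/
theorem PowAlg.Gam_sq [Module.Free ℤ_[p] A] {u : Aˣ} {x : A}
    (hu : (u : A) = 1 + ((p ^ 2 : ℕ) : A) * x) :
    p * P.Gam τ hτ u = p * L (tauA p τ) (u : A) - L (P.frob τ) (u : A) := by
  set t := tG p τ hτ with ht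
  have hp0 : p ≠ 0 := hp.out.ne_zero
  have hp2 : p ^ 2 ≠ 0 := pow_ne_zero _ hp0
  have hκ : t.κ = kapA p τ := rfl
  obtain ⟨Y, hY⟩ := exists_TT_eq (p := p) (p ^ 2) x
  have hU : (P.U u : TP p A) = 1 + ((p ^ 2 : ℕ) : TP p A) * P.Ψ x := by
    rw [P.U_val, hu, map_add, P.map_nat_mul]
    abel
  set Q := (((P.U u)⁻¹ : (TP p A)ˣ) : TP p A) with hQ
  have hQU : Q * (P.U u : TP p A) = 1 := by rw [hQ, Units.inv_mul]
  have fU : t.Fix (P.U u : TP p A) := P.fix_U τ hτ u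
  have fQ : t.Fix Q := TwTr.Fix.inv _ fU
  have hg : (P.gg u : TP p A) = Q * TT p (u : A) := by
    rw [PowAlg.gg, Units.val_mul, TU_val]
  have fT : t.Fix (TT p (u : A)) := fix_TT τ hτ _
  have hg2 : (P.gg u : TP p A) = 1 + (p : TP p A) ^ 2 * (Q * (Y - P.Ψ x)) := by
    have e1 : TT p (u : A) = P.U u + ((p ^ 2 : ℕ) : TP p A) * (Y - P.Ψ x) := by
      rw [hu, hY, hU, mul_sub]
      abel
    rw [hg, e1, mul_add, hQU, ← mul_assoc, ← (Nat.cast_commute (p ^ 2) Q).eq, mul_assoc,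
      Nat.cast_pow]
  have fX : t.Fix (Q * (Y - P.Ψ x)) := by
    apply fix_of_mul p t hp2
    have e1 : ((p ^ 2 : ℕ) : TP p A) * (Q * (Y - P.Ψ x)) = (P.gg u : TP p A) - 1 := by
      rw [hg2, Nat.cast_pow]
      abel
    rw [e1]
    exact TwTr.Fix.sub _ (by rw [hg]; exact TwTr.Fix.mul _ fQ fT) (TwTr.Fix.one _)
  have h1 := t.Lam_sq fX hg2
  have h2 : L t.κ (P.gg u : TP p A) = L t.κ Q + L t.κ (TT p (u : A)) ∧
      L t.κ Q + L t.κ (P.U u : TP p A) = 0 := by
    have eT : TT p (u : A) = 1 + (p : TP p A) * ((p : TP p A) * Y) := by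
      rw [hu, hY, Nat.cast_pow, pow_two, mul_assoc]
    have fY : t.Fix ((p : TP p A) * Y) := by
      apply fix_of_mul p t hp0
      have : (p : TP p A) * ((p : TP p A) * Y) = TT p (u : A) - 1 := by rw [eT]; abel
      rw [this]
      exact TwTr.Fix.sub _ fT (TwTr.Fix.one _)
    have eU : (P.U u : TP p A) = 1 + (p : TP p A) * ((p : TP p A) * P.Ψ x) := by
      rw [hU, Nat.cast_pow, pow_two, mul_assoc]
    have fPsi : t.Fix ((p : TP p A) * P.Ψ x) :=
      TwTr.Fix.mul _ (TwTr.Fix.natCast _ p) (fun i => P.fix i x)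
    have eQ : Q = 1 + (p : TP p A) * (-(Q * ((p : TP p A) * P.Ψ x))) := by
      have e2 : Q * (1 + (p : TP p A) * ((p : TP p A) * P.Ψ x)) = 1 := by rw [← eU, hQU]
      rw [mul_add, mul_one, ← mul_assoc Q, ← p_comm Q, mul_assoc] at e2
      rw [mul_neg, ← sub_eq_add_neg]
      exact eq_sub_of_add_eq e2
    have fq : t.Fix (-(Q * ((p : TP p A) * P.Ψ x))) := by
      intro i
      rw [map_neg, map_mul, fQ i, fPsi i]
    have m1 := L_mul_sub t.κ t.fixSub t.κ_fix_comm (x := -(Q * ((p : TP p A) * P.Ψ x)))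
      (y := (p : TP p A) * Y) fq fY
    have m2 := L_mul_sub t.κ t.fixSub t.κ_fix_comm (x := -(Q * ((p : TP p A) * P.Ψ x)))
      (y := (p : TP p A) * P.Ψ x) fq fPsi
    rw [← eQ, ← eT] at m1
    rw [← eQ, ← eU, hQU, L_one] at m2
    exact ⟨by rw [hg]; exact m1, m2.symm⟩
  have h3 : L t.κ (TT p (u : A)) = p * L (tauA p τ) (u : A) := by
    have e1 : (u : A) = 1 + (p : A) * ((p : A) * x) := by
      rw [hu, Nat.cast_pow, pow_two, mul_assoc]
    rw [hκ, e1]
    exact L_TT p τ hτ _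
  have h4 : L t.κ (P.U u : TP p A) = L (P.frob τ) (u : A) := by
    have e1 : (P.U u : TP p A) = 1 + P.Ψ (((p ^ 2 : ℕ) : A) * x) := by
      rw [hU, P.map_nat_mul]
    rw [e1, hu, L_one_add, L_one_add, hκ]
    exact tl_nonUnital P.Ψ (P.frob τ) (kapA p τ) (fun a => rfl) _
  have h5 : p * P.Gam τ hτ u = L t.κ (P.gg u : TP p A) := h1
  rw [h5, h2.1, h3, ← h4]
  linear_combination h2.2

section Nat

variable {A' : Type v} [Ring A'] [Algebra ℤ_[p] A'] (P' : PowAlg p A')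
  (τ' : A' →ₗ[ℤ_[p]] ℤ_[p]) (hτ' : ∀ a b, τ' (a * b) = τ' (b * a)) (φ : A →ₐ[ℤ_[p]] A')

/-- the induced map of tensor powers -/
noncomputable def tpMap : TP p A →ₐ[ℤ_[p]] TP p A' :=
  PiTensorProduct.liftAlgHom
    ((PiTensorProduct.tprod ℤ_[p] (s := fun _ : ZMod p => A')).compLinearMap
      (fun _ => φ.toLinearMap))
    (by
      change tp p (fun _ => φ 1) = 1
      rw [map_one]
      rfl) (by
      intro x y
      change tp p (fun j => φ (x j * y j)) = tp p (fun j => φ (x j)) * tp p (fun j => φ (y j))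
      rw [tp_mul]
      simp only [map_mul])

theorem tpMap_tp (m : ZMod p → A) : tpMap φ (tp p m) = tp p (fun j => φ (m j)) := by
  change PiTensorProduct.lift _ (PiTensorProduct.tprod ℤ_[p] m) = _
  rw [PiTensorProduct.lift.tprod]
  rfl

theorem tpMap_sh (i : ZMod p) (x : TP p A) : tpMap φ (sh p i x) = sh p i (tpMap φ x) := by
  induction x using tp_induction with
  | h1 r m => rw [map_smul, map_smul, map_smul, map_smul, sh_tp, tpMap_tp, tpMap_tp, sh_tp]
  | h2 x y hx hy => rw [map_add, map_add, map_add, map_add, hx, hy]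

theorem oprod_map (φ : A →ₐ[ℤ_[p]] A') (f : ℕ → A) (n : ℕ) :
    φ (oprod f n) = oprod (fun i => φ (f i)) n := by
  induction n with
  | zero => rw [oprod_zero, oprod_zero, map_one]
  | succ n ih => rw [oprod_succ, oprod_succ, map_mul, ih]

theorem kap_tpMap (h : ∀ a, τ' (φ a) = τ a) (x : TP p A) : kap p τ' (tpMap φ x) = kap p τ x := by
  induction x using tp_induction with
  | h1 r m =>
    rw [map_smul, map_smul, map_smul, tpMap_tp, kap_tp, kap_tp, ← h, oprod_map]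
  | h2 x y hx hy => rw [map_add, map_add, map_add, hx, hy]

theorem PowAlg.Gam_map (hΨ : ∀ a, P'.Ψ (φ a) = tpMap φ (P.Ψ a)) (h : ∀ a, τ' (φ a) = τ a)
    (u : Aˣ) : P'.Gam τ' hτ' (Units.map (φ : A →* A') u) = P.Gam τ hτ u := by
  have h1 : P'.gg (Units.map (φ : A →* A') u) =
      Units.map (tpMap φ : TP p A →+* TP p A').toMonoidHom (P.gg u) := by
    rw [PowAlg.gg, PowAlg.gg, map_mul, map_inv]
    congr 2
    · apply Units.ext
      change P'.Ψ (φ u) + (1 - P'.Ψ 1) = tpMap φ (P.Ψ u + (1 - P.Ψ 1))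
      have e1 : tpMap φ (P.Ψ 1) = P'.Ψ 1 := by rw [← hΨ, map_one φ]
      rw [hΨ, map_add, map_sub, e1, map_one (tpMap φ)]
    · apply Units.ext
      change TT p (φ u) = tpMap φ (TT p (u : A))
      rw [TT, TT, tpMap_tp]
  rw [PowAlg.Gam, PowAlg.Gam, h1]
  exact (tG p τ hτ).Lam_map (tG p τ' hτ') _ (fun i x => tpMap_sh φ i x)
    (fun x => kap_tpMap τ τ' φ h x) (P.gg_adm τ hτ u)

end Nat

end

end Pool.Agent.H71.KP
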