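import Pool.Agent.H71.KP.ResK

/-!
# Jacobi's formula and the residue functional of the restriction
-/

set_option autoImplicit false
set_option linter.unusedSectionVars false
set_option linter.unusedSimpArgs false

open Matrix
open scoped Classical

universe u v w t

namespace Pool.Agent.H71.KP

open TrivSqZeroExt in
/-- The homomorphism to the dual numbers of a derivation. -/
noncomputable def toDual {C : Type u} [CommRing C] (D : C →+ C)
    (leib : ∀ x y, D (x * y) = D x * y + x * D y) : C →+* TrivSqZeroExt C C where
  toFun c := inl c + inr (D c)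
  map_one' := by
    have h := leib 1 1
    rw [mul_one, one_mul, mul_one] at h
    rw [add_eq_left.1 h.symm, inr_zero, add_zero, inl_one]
  map_zero' := by rw [map_zero, inl_zero, inr_zero, add_zero]
  map_add' a b := by rw [map_add, inl_add, inr_add]; abel
  map_mul' a b := by
    ext
    · simp
    · simp [leib, mul_comm, add_comm]

open TrivSqZeroExt in
/-- **Jacobi's formula** for derivations. -/
theorem D_det {C : Type u} [CommRing C] {ι : Type v} [Fintype ι] [DecidableEq ι] (D : C →+ C)
    (leib : ∀ x y, D (x * y) = D x * y + x * D y) (W V : Matrix ι ι C) (hV : W * V = 1) :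
    D (det W) = det W * trace (V * W.map D) := by
  set E := toDual D leib with hE
  let ε : TrivSqZeroExt C C := inr 1
  have hε : ε ^ 2 = 0 := by rw [pow_two]; exact inr_mul_inr _ _ _
  have h1 : W.map E = (W.map (inlHom C C)) * (1 + ε • (V * W.map D).map (inlHom C C)) := by
    have h2 : (W.map (inlHom C C)) * ((V * W.map D).map (inlHom C C)) =
        (W.map D).map (inlHom C C) := by
      rw [← Matrix.map_mul, ← mul_assoc, hV, one_mul]
    rw [mul_add, mul_one, Matrix.mul_smul, h2]
    refine Matrix.ext fun i j => ?_
    rw [Matrix.map_apply, Matrix.add_apply, Matrix.map_apply, Matrix.smul_apply, Matrix.map_apply,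
      Matrix.map_apply]
    change inl (W i j) + inr (D (W i j)) = inl (W i j) + inr 1 * inl (D (W i j))
    congr 1
    rw [inr_mul_inl]
    simp
  have h3 : E (det W) = det (W.map E) := RingHom.map_det E W
  have h4 : det (W.map (inlHom C C)) = inlHom C C (det W) := (RingHom.map_det _ W).symm
  have h5 : trace ((V * W.map D).map (inlHom C C)) = inlHom C C (trace (V * W.map D)) :=
    (AddMonoidHom.map_trace (inlHom C C).toAddMonoidHom _).symm
  rw [h1, det_mul, det_one_add_smul, hε, mul_zero, add_zero, h4, h5] at h3
  have h6 := congrArg snd h3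
  have h7 : snd (E (det W)) = D (det W) := by
    change snd (inl (det W) + inr (D (det W))) = _
    simp
  rw [h7] at h6
  rw [h6]
  change snd (inl (det W) * (1 + inl (trace (V * W.map D)) * inr 1)) = _
  simp

variable {M : Type u} [CommRing M] {B : Type v} [AddCommGroup B] (t : DT M B)

/-- The logarithmic derivative of the determinant. -/
theorem dlog_det {ι : Type w} [Fintype ι] [DecidableEq ι] (u : (Matrix ι ι M)ˣ) :
    t.dlog (Units.map (detMonoidHom : Matrix ι ι M →* M) u) = (t.mat ι).dlog u := by
  have h1 := D_det t.D t.leib (u : Matrix ι ι M) ((u⁻¹ : (Matrix ι ι M)ˣ) : Matrix ι ι M)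
    (Units.mul_inv u)
  rw [DT.dlog, DT.dlog, t.mat_τ, t.mat_D]
  have h2 : t.D ((Units.map (detMonoidHom : Matrix ι ι M →* M) u : Mˣ) : M) =
      ((Units.map (detMonoidHom : Matrix ι ι M →* M) u : Mˣ) : M) *
        trace (((u⁻¹ : (Matrix ι ι M)ˣ) : Matrix ι ι M) * (u : Matrix ι ι M).map t.D) := h1
  rw [h2, ← mul_assoc, Units.inv_mul, one_mul, trace, map_sum]
  rfl

namespace ResDat

variable {p : ℕ} [hp : Fact p.Prime] {k : Type u} [CommRing k] (d : ResDat p k)

/-- the delta function -/
noncomputable def del {H : Type v} (d : ResDat p k) (c : H) : H → d.B :=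
  fun a => if a = c then 1 else 0

variable {H : Type v} [CommGroup H]

theorem gD_resR (E : Subgroup H) [Fintype (H ⧸ E)] (x : MonoidAlgebra d.A H) :
    (resR d.A E x).map (d.gD E) = resR d.A E (d.gD H x) := by
  induction x using MonoidAlgebra.induction_linear with
  | zero => rw [map_zero, map_zero, map_zero]; exact Matrix.map_zero _ (map_zero _)
  | add x y hx hy => rw [map_add, map_add, map_add, ← hx, ← hy, Matrix.map_add _ (map_add _)]
  | single h a =>
    refine Matrix.ext fun i j => ?_
    rw [gD_single, Matrix.map_apply]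
    change d.gD E (resA d.A E (MonoidAlgebra.single h a) i j) =
      resA d.A E (MonoidAlgebra.single h (d.θ a)) i j
    rw [resA_single, resA_single]
    split_ifs
    · rw [gD_single]
    · rw [map_zero]

theorem gf_resR (E : Subgroup H) [Fintype (H ⧸ E)] (c : E) (x : MonoidAlgebra d.A H) :
    ∑ i, d.gf (d.del c) (resR d.A E x i i) =
      (Nat.card (H ⧸ E) : ℤ) • d.gf (d.del (c : H)) x := by
  induction x using MonoidAlgebra.induction_linear with
  | zero => simp
  | add x y hx hy =>
    rw [map_add, map_add, smul_add, ← hx, ← hy, ← Finset.sum_add_distrib]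
    exact Finset.sum_congr rfl fun i _ => by rw [Matrix.add_apply, map_add]
  | single h a =>
    rw [gf_single]
    have h1 : ∀ q : H ⧸ E, d.gf (d.del c) (resR d.A E (MonoidAlgebra.single h a) q q) =
        d.del (c : H) h * d.res a := by
      intro q
      change d.gf (d.del c) (resA d.A E (MonoidAlgebra.single h a) q q) = _
      rw [resA_single]
      have h2 : q.out⁻¹ * h * q.out = h := by
        rw [mul_comm, ← mul_assoc, mul_inv_cancel, one_mul]
      by_cases hh : q.out⁻¹ * h * q.out ∈ E
      · rw [dif_pos hh, gf_single]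
        congr 1
        unfold del
        congr 1
        rw [Subtype.ext_iff]
        change (q.out⁻¹ * h * q.out = (c : H)) = (h = (c : H))
        rw [h2]
      · rw [dif_neg hh, map_zero, del, if_neg, zero_mul]
        intro h3
        apply hh
        rw [h2, h3]
        exact c.2
    rw [Finset.sum_congr rfl (fun q _ => h1 q), Finset.sum_const, Finset.card_univ,
      Nat.card_eq_fintype_card, natCast_zsmul]

theorem elp_res (E : Subgroup H) [Fintype (H ⧸ E)] (c : E) (x : (MonoidAlgebra k H)ˣ) :
    d.elp (d.del c) (fun a b => by rw [mul_comm]) (resU E x) =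
      (Nat.card (H ⧸ E) : ℤ) • d.elp (d.del (c : H)) (fun a b => by rw [mul_comm]) x := by
  obtain ⟨x, rfl⟩ := d.exists_lift_unit x
  rw [← uMap_resU, elp_eq, elp_eq]
  change DT.dlog _ (Units.map (detMonoidHom : Matrix (H ⧸ E) (H ⧸ E) (MonoidAlgebra d.A E) →*
    MonoidAlgebra d.A E) (Units.map (resR d.A E).toMonoidHom x)) = _
  rw [dlog_det]
  refine dlog_map (d.grp (d.del (c : H)) (fun a b => by rw [mul_comm]))
    ((d.grp (d.del c) (fun a b => by rw [mul_comm])).mat (H ⧸ E)) (resR d.A E)
    (zsmulAddGroupHom (Nat.card (H ⧸ E) : ℤ)) ?_ ?_ x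
  · exact fun x => d.gD_resR E x
  · exact fun x => d.gf_resR E c x

end ResDat

end Pool.Agent.H71.KP
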