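import Pool.Agent.H71.KP.Jac

/-!
# Residue data for fields of Laurent series
-/

set_option autoImplicit false
set_option linter.unusedSectionVars false
set_option linter.unusedSimpArgs false

open Matrix HahnSeries
open scoped Classical

universe u v w t

namespace Pool.Agent.H71.KP

section Map

variable {B : Type u} [CommRing B] {F : Type u} [CommRing F] (π : B →+* F)

/-- the coefficientwise map of Laurent series -/
noncomputable def mapL : LaurentSeries B →+* LaurentSeries F where
  toFun x := HahnSeries.map x π
  map_zero' := by ext; simp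
  map_one' := by
    ext a
    rw [HahnSeries.map_coeff, HahnSeries.coeff_one, HahnSeries.coeff_one]
    split_ifs
    · exact map_one π
    · exact map_zero π
  map_add' x y := by ext; simp
  map_mul' x y := HahnSeries.map_mul (π : B →ₙ+* F)

theorem mapL_coeff (x : LaurentSeries B) (a : ℤ) : (mapL π x).coeff a = π (x.coeff a) := rfl

theorem mapL_surjective (h : Function.Surjective π) : Function.Surjective (mapL π) := by
  intro x
  choose g hg using h
  refine ⟨⟨fun a => if x.coeff a = 0 then 0 else g (x.coeff a), x.isPWO_support.mono ?_⟩, ?_⟩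
  · intro a ha hx
    exact ha (if_pos hx)
  · ext a
    rw [mapL_coeff]
    change π (if x.coeff a = 0 then 0 else g (x.coeff a)) = _
    split_ifs with h0
    · rw [map_zero, h0]
    · exact hg _

theorem natCast_mul_coeff (p : ℕ) (x : LaurentSeries B) (a : ℤ) :
    ((p : LaurentSeries B) * x).coeff a = (p : B) * x.coeff a := by
  rw [← nsmul_eq_mul, HahnSeries.coeff_smul, nsmul_eq_mul]

theorem mapL_ker (p : ℕ) (h : ∀ b, π b = 0 → ∃ c, b = (p : B) * c) (x : LaurentSeries B)
    (hx : mapL π x = 0) : ∃ y, x = (p : LaurentSeries B) * y := by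
  have h1 : ∀ a, π (x.coeff a) = 0 := by
    intro a
    rw [← mapL_coeff, hx]
    rfl
  choose g hg using fun a => h _ (h1 a)
  refine ⟨⟨fun a => if x.coeff a = 0 then 0 else g a, x.isPWO_support.mono ?_⟩, ?_⟩
  · intro a ha hx
    exact ha (if_pos hx)
  · ext a
    rw [natCast_mul_coeff]
    change x.coeff a = (p : B) * (if x.coeff a = 0 then 0 else g a)
    split_ifs with h0
    · rw [mul_zero, h0]
    · exact hg a

end Map

section Theta

variable {B : Type u} [CommRing B]

/-- the derivation `t d/dt` -/
noncomputable def theta (B : Type u) [CommRing B] : LaurentSeries B →+ LaurentSeries B where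
  toFun x := ⟨fun a => (a : B) * x.coeff a, x.isPWO_support.mono fun a ha hx => ha (by
    change (a : B) * x.coeff a = 0
    have hx' : x.coeff a = 0 := hx
    rw [hx', mul_zero])⟩
  map_zero' := by
    ext a
    change (a : B) * (0 : LaurentSeries B).coeff a = 0
    rw [HahnSeries.coeff_zero, mul_zero]
  map_add' x y := by
    ext a
    change (a : B) * (x + y).coeff a = (a : B) * x.coeff a + (a : B) * y.coeff a
    rw [HahnSeries.coeff_add, mul_add]

theorem theta_coeff (x : LaurentSeries B) (a : ℤ) : (theta B x).coeff a = (a : B) * x.coeff a := rfl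

theorem theta_support (x : LaurentSeries B) : (theta B x).support ⊆ x.support := by
  intro a ha hx
  apply ha
  change (theta B x).coeff a = 0
  have hx' : x.coeff a = 0 := hx
  rw [theta_coeff, hx', mul_zero]

theorem theta_leib (x y : LaurentSeries B) :
    theta B (x * y) = theta B x * y + x * theta B y := by
  ext a
  rw [theta_coeff, HahnSeries.coeff_add, HahnSeries.coeff_mul,
    HahnSeries.coeff_mul_left' x.isPWO_support (theta_support x),
    HahnSeries.coeff_mul_right' y.isPWO_support (theta_support y), ← Finset.sum_add_distrib,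
    Finset.mul_sum]
  apply Finset.sum_congr rfl
  intro ij hij
  have h1 : ij.1 + ij.2 = a := by
    simp only [Finset.mem_antidiagonal, Finset.mem_addAntidiagonal] at hij
    exact hij.2.2
  rw [theta_coeff, theta_coeff, ← h1]
  push_cast
  ring

theorem theta_C (b : B) : theta B (HahnSeries.C b) = 0 := by
  ext a
  rw [theta_coeff, HahnSeries.coeff_zero, HahnSeries.C_apply, HahnSeries.coeff_single]
  split_ifs with h
  · rw [h, Int.cast_zero, zero_mul]
  · rw [mul_zero]

end Theta

/-- Residue data for Laurent series. -/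
noncomputable def laurDat (p : ℕ) {B : Type u} [CommRing B] {F : Type u} [CommRing F]
    (π : B →+* F) (hs : Function.Surjective π) (hk : ∀ b, π b = 0 → ∃ c, b = (p : B) * c) (n : ℕ)
    (hn : (p : B) ^ n = 0) : ResDat p (LaurentSeries F) where
  A := LaurentSeries B
  instA := inferInstance
  B := B
  instB := inferInstance
  π := mapL π
  surj := mapL_surjective π hs
  ker x hx := mapL_ker π p hk x hx
  n := n
  nilA := by
    have h : (p : LaurentSeries B) = HahnSeries.C (p : B) := (map_natCast _ _).symm
    rw [h, ← map_pow, hn, map_zero]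
  nilB b := by
    rw [nsmul_eq_mul, Nat.cast_pow, hn, zero_mul]
  θ := theta B
  leib := theta_leib
  ι := HahnSeries.C
  θι := theta_C
  res :=
    { toFun := fun x => x.coeff 0
      map_zero' := rfl
      map_add' := fun x y => HahnSeries.coeff_add }
  res_θ x := by
    change (theta B x).coeff 0 = 0
    rw [theta_coeff, Int.cast_zero, zero_mul]
  res_ι b x := by
    change (HahnSeries.C b * x).coeff 0 = b * x.coeff 0
    rw [HahnSeries.C_mul_eq_smul, HahnSeries.coeff_smul, smul_eq_mul]

/-- the structure on the lift -/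
noncomputable def ResDat.base {p : ℕ} {k : Type u} [CommRing k] (d : ResDat p k) : DT d.A d.B where
  D := d.θ
  leib := d.leib
  τ := d.res
  comm x y := by rw [mul_comm]
  τD := d.res_θ

section Value

variable (p : ℕ) [hp : Fact p.Prime] {B : Type u} [CommRing B] {F : Type u} [Field F]
  (π : B →+* F) (hs : Function.Surjective π) (hk : ∀ b, π b = 0 → ∃ c, b = (p : B) * c) (n : ℕ)
  (hn : (p : B) ^ n = 0)

include hs hk hn in
theorem isUnit_of_map_ne_zero (b : B) (hb : π b ≠ 0) : IsUnit b := by
  obtain ⟨c, hc⟩ := hs (π b)⁻¹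
  have h1 : π (b * c - 1) = 0 := by
    rw [map_sub, map_mul, hc, mul_inv_cancel₀ hb, map_one, sub_self]
  obtain ⟨y, hy⟩ := hk _ h1
  have h2 : IsNilpotent (b * c - 1) := ⟨n, by rw [hy, mul_pow, hn, zero_mul]⟩
  have h3 := h2.isUnit_one_add
  rw [add_sub_cancel] at h3
  exact isUnit_of_mul_isUnit_left h3

theorem coeff_ofPS {R : Type u} [CommRing R] (x : PowerSeries R) (a : ℤ) :
    (HahnSeries.ofPowerSeries ℤ R x).coeff a =
      if a < 0 then 0 else PowerSeries.coeff a.natAbs x := PowerSeries.coeff_coe x a

omit hp in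
theorem theta_ofPS (β : PowerSeries B) : theta B (HahnSeries.ofPowerSeries ℤ B β) =
    HahnSeries.ofPowerSeries ℤ B (PowerSeries.mk fun i => (i : B) * PowerSeries.coeff i β) := by
  ext a
  rw [theta_coeff, coeff_ofPS, coeff_ofPS]
  split_ifs with h
  · rw [mul_zero]
  · rw [PowerSeries.coeff_mk]
    congr 1
    have h1 : (a.natAbs : ℤ) = a := by omega
    rw [← Int.cast_natCast, h1]

theorem mapL_ofPowerSeries (β : PowerSeries B) :
    mapL π (HahnSeries.ofPowerSeries ℤ B β) = HahnSeries.ofPowerSeries ℤ F (β.map π) := by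
  ext a
  rw [mapL_coeff, coeff_ofPS, coeff_ofPS]
  split_ifs
  · exact map_zero π
  · rw [PowerSeries.coeff_map]

/-- The logarithmic derivative has residue the valuation. -/
theorem base_dlog (a : (LaurentSeries B)ˣ) :
    (laurDat p π hs hk n hn).base.dlog a = ((mapL π (a : LaurentSeries B)).order : B) := by
  set d := laurDat p π hs hk n hn with hd
  set x : LaurentSeries F := mapL π (a : LaurentSeries B) with hx
  have hx0 : x ≠ 0 := by
    intro h0
    have h1 : mapL π (a : LaurentSeries B) * mapL π ((a⁻¹ : (LaurentSeries B)ˣ) :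
      LaurentSeries B) = 1 := by rw [← map_mul, Units.mul_inv, map_one]
    rw [← hx, h0, zero_mul] at h1
    exact zero_ne_one h1
  set v : ℤ := x.order with hv
  obtain ⟨g, hg⟩ : ∃ g : F → B, ∀ x, π (g x) = x := ⟨fun x => (hs x).choose,
    fun x => (hs x).choose_spec⟩
  let β : PowerSeries B := PowerSeries.mk fun i => g (PowerSeries.coeff i x.powerSeriesPart)
  have hβ : β.map π = x.powerSeriesPart := by
    ext i
    rw [PowerSeries.coeff_map, PowerSeries.coeff_mk, hg]
  have hβ0 : IsUnit β := by
    rw [PowerSeries.isUnit_iff_constantCoeff]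
    apply isUnit_of_map_ne_zero p π hs hk n hn
    rw [← PowerSeries.coeff_zero_eq_constantCoeff_apply, PowerSeries.coeff_mk, hg,
      LaurentSeries.powerSeriesPart_coeff]
    intro h0
    rw [Nat.cast_zero, add_zero] at h0
    exact hx0 (HahnSeries.coeff_order_eq_zero.1 h0)
  let γ : (PowerSeries B)ˣ := hβ0.unit
  have hγ : (γ : PowerSeries B) = β := rfl
  let T : (LaurentSeries B)ˣ := ⟨HahnSeries.single v 1, HahnSeries.single (-v) 1,
    by rw [HahnSeries.single_mul_single, add_neg_cancel, one_mul]; rfl,
    by rw [HahnSeries.single_mul_single, neg_add_cancel, one_mul]; rfl⟩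
  let P : (LaurentSeries B)ˣ := Units.map (HahnSeries.ofPowerSeries ℤ B).toMonoidHom γ
  have hT : mapL π (T : LaurentSeries B) = HahnSeries.single v 1 := by
    ext i
    rw [mapL_coeff]
    change π ((HahnSeries.single v (1 : B)).coeff i) = _
    rw [HahnSeries.coeff_single, HahnSeries.coeff_single]
    split_ifs
    · exact map_one π
    · exact map_zero π
  have hP : mapL π (P : LaurentSeries B) = HahnSeries.ofPowerSeries ℤ F x.powerSeriesPart := by
    change mapL π (HahnSeries.ofPowerSeries ℤ B β) = _
    rw [mapL_ofPowerSeries, hβ]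
  have hTP : mapL π ((T * P : (LaurentSeries B)ˣ) : LaurentSeries B) = x := by
    rw [Units.val_mul, map_mul, hT, hP, hv]
    exact LaurentSeries.single_order_mul_powerSeriesPart x
  have h1 : d.base.dlog (a * (T * P)⁻¹) = 0 := by
    have h2 : mapL π (((a * (T * P)⁻¹ : (LaurentSeries B)ˣ) : LaurentSeries B) - 1) = 0 := by
      have h3 : mapL π ((((T * P)⁻¹ : (LaurentSeries B)ˣ) : LaurentSeries B)) * x = 1 := by
        rw [← hTP, ← map_mul, Units.inv_mul, map_one]
      rw [map_sub, Units.val_mul, map_mul, ← hx, mul_comm, h3, map_one, sub_self]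
    obtain ⟨y, hy⟩ := d.ker _ h2
    exact DT.dlog_eq_zero (p := p) d.base d.nilB d.nilA _ y (by
      rw [← hy]
      exact (add_sub_cancel _ _).symm)
  have h2 : d.base.dlog a = d.base.dlog (T * P) := by
    have h3 := d.base.dlog_mul (a * (T * P)⁻¹) (T * P)
    rw [h1, zero_add] at h3
    rw [← h3]
    congr 1
    exact (inv_mul_cancel_right a (T * P)).symm
  have h3 : d.base.dlog T = (v : B) := by
    change (HahnSeries.single (-v) (1 : B) * theta B (HahnSeries.single v 1)).coeff 0 = _
    have h4 : theta B (HahnSeries.single v 1) = HahnSeries.single v (v : B) := by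
      ext i
      rw [theta_coeff, HahnSeries.coeff_single, HahnSeries.coeff_single]
      split_ifs with h
      · rw [h, mul_one]
      · rw [mul_zero]
    rw [h4, HahnSeries.single_mul_single, neg_add_cancel, one_mul, HahnSeries.coeff_single_same]
  have h4 : d.base.dlog P = 0 := by
    change (((P⁻¹ : (LaurentSeries B)ˣ) : LaurentSeries B) *
      theta B (HahnSeries.ofPowerSeries ℤ B β)).coeff 0 = _
    have h5 : ((P⁻¹ : (LaurentSeries B)ˣ) : LaurentSeries B) =
        HahnSeries.ofPowerSeries ℤ B ((γ⁻¹ : (PowerSeries B)ˣ) : PowerSeries B) := rfl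
    rw [h5, theta_ofPS, ← map_mul, coeff_ofPS, if_neg (lt_irrefl _), Int.natAbs_zero,
      PowerSeries.coeff_zero_eq_constantCoeff_apply, map_mul,
      ← PowerSeries.coeff_zero_eq_constantCoeff_apply (PowerSeries.mk _), PowerSeries.coeff_mk,
      Nat.cast_zero, zero_mul, mul_zero]
    rfl
  have h5 := d.base.dlog_mul T P
  rw [h3, h4, add_zero] at h5
  exact h2.trans h5

end Value

end Pool.Agent.H71.KP
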