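import Pool.Agent.H71.KP.Formal
import Pool.Agent.H71.WH.Log

/-!
# The trace of the `p`-adic logarithm

Let `c` be a central element of a ring `R` such that `c ^ (k + 1)` is a multiple of
`p ^ (k / (p - 1))` for all `k`. For a homomorphism `τ : R → ℤ_[p]` and `x ∈ c R` let
`tl τ x = ∑ (-1)^k τ(x^(k+1)) / (k+1)`, the value of `τ` on `log (1 + x)`. If `τ` is a trace then
`tl τ (x + y + x y) = tl τ x + tl τ y`.
-/

set_option autoImplicit false
set_option linter.unusedSectionVars false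

open Polynomial
open Pool.Agent.H71.WH (Van van_pow poly poly_zero)

universe u v

namespace Pool.Agent.H71.KP

variable {p : ℕ} [hp : Fact p.Prime]

theorem norm_inv_le (k : ℕ) : ‖((k : ℚ_[p]) + 1)⁻¹‖ ≤ p * ((k : ℝ) + 1) := by
  have hp1 := hp.out.one_lt
  have hp0 : (0 : ℝ) < p := by exact_mod_cast hp.out.pos
  have h0 : ((k : ℚ_[p]) + 1) ≠ 0 := by exact_mod_cast Nat.succ_ne_zero k
  rw [norm_inv]
  have hlt : ((p : ℝ) ^ (Nat.log p (k + 1) + 1))⁻¹ < ‖((k : ℚ_[p]) + 1)‖ := by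
    by_contra hcon
    push Not at hcon
    have h1 : ‖(((k + 1 : ℕ) : ℤ) : ℚ_[p])‖ ≤ (p : ℝ) ^ (-((Nat.log p (k + 1) + 1 : ℕ) : ℤ)) := by
      rw [zpow_neg, zpow_natCast]
      push_cast
      exact hcon
    rw [Padic.norm_int_le_pow_iff_dvd] at h1
    have h2 : (p ^ (Nat.log p (k + 1) + 1) : ℕ) ∣ (k + 1) := by exact_mod_cast h1
    have h3 := Nat.le_of_dvd (Nat.succ_pos k) h2
    have h4 := Nat.lt_pow_succ_log_self (b := p) hp1 (k + 1)
    rw [Nat.succ_eq_add_one] at h4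
    omega
  have hpos : (0 : ℝ) < ((p : ℝ) ^ (Nat.log p (k + 1) + 1))⁻¹ := by positivity
  have h5 : ‖((k : ℚ_[p]) + 1)‖⁻¹ ≤ (p : ℝ) ^ (Nat.log p (k + 1) + 1) := by
    rw [inv_le_comm₀ (lt_trans hpos hlt) (by positivity)]
    exact hlt.le
  refine h5.trans ?_
  rw [pow_succ, mul_comm]
  have h6 : p ^ (Nat.log p (k + 1)) ≤ k + 1 := Nat.pow_log_le_self p (Nat.succ_ne_zero k)
  have h7 : ((p : ℝ) ^ (Nat.log p (k + 1))) ≤ (k : ℝ) + 1 := by exact_mod_cast h6
  exact mul_le_mul_of_nonneg_left h7 hp0.le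

theorem norm_le_of_dvd {m : ℕ} {z : ℤ_[p]} (h : (p : ℤ_[p]) ^ m ∣ z) :
    ‖(z : ℚ_[p])‖ ≤ ((p : ℝ) ^ m)⁻¹ := by
  obtain ⟨w, rfl⟩ := h
  rw [PadicInt.coe_mul, PadicInt.coe_pow, PadicInt.coe_natCast, norm_mul, norm_pow,
    Padic.norm_p, inv_pow]
  have h1 : ‖(w : ℚ_[p])‖ ≤ 1 := w.2
  have h2 : (0 : ℝ) ≤ ((p : ℝ) ^ m)⁻¹ := by positivity
  calc ((p : ℝ) ^ m)⁻¹ * ‖(w : ℚ_[p])‖ ≤ ((p : ℝ) ^ m)⁻¹ * 1 := mul_le_mul_of_nonneg_left h1 h2
    _ = _ := mul_one _

theorem norm_term_le {z : ℤ_[p]} {m k : ℕ} (h : (p : ℤ_[p]) ^ m ∣ z) :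
    ‖(-1 : ℚ_[p]) ^ k * (z : ℚ_[p]) / (k + 1)‖ ≤ ((p : ℝ) ^ m)⁻¹ * (p * (k + 1)) := by
  rw [div_eq_mul_inv, norm_mul, norm_mul, norm_pow, norm_neg, norm_one, one_pow, one_mul]
  exact mul_le_mul (norm_le_of_dvd h) (norm_inv_le k) (norm_nonneg _) (by positivity)

section Real

theorem exists_root (q : ℕ) (hq : 0 < q) : ∃ r : ℝ, 0 < r ∧ r < 1 ∧ r ^ (2 * q) = 1 / 2 := by
  refine ⟨(1 / 2 : ℝ) ^ ((1 : ℝ) / (2 * q : ℕ)), by positivity, ?_, ?_⟩
  · apply Real.rpow_lt_one (by norm_num) (by norm_num)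
    have : (0 : ℝ) < ((2 * q : ℕ) : ℝ) := by exact_mod_cast (by omega : 0 < 2 * q)
    positivity
  · rw [← Real.rpow_natCast, ← Real.rpow_mul (by norm_num)]
    have : ((2 * q : ℕ) : ℝ) ≠ 0 := by exact_mod_cast (by omega : 2 * q ≠ 0)
    rw [one_div_mul_cancel this, Real.rpow_one]

theorem pow_bound {q : ℕ} (hq : 0 < q) {r : ℝ} (h0 : 0 < r) (h1 : r < 1)
    (h : r ^ (2 * q) = 1 / 2) {b : ℝ} (hb : 2 ≤ b) (m : ℕ) :
    (b ^ (m / q))⁻¹ ≤ 2 * r ^ (2 * m) := by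
  have e1 : (b ^ (m / q))⁻¹ ≤ ((2 : ℝ) ^ (m / q))⁻¹ := by
    apply inv_anti₀ (by positivity)
    exact pow_le_pow_left₀ (by norm_num) hb _
  refine e1.trans ?_
  have e2 : ((2 : ℝ) ^ (m / q))⁻¹ = r ^ (2 * (q * (m / q))) := by
    rw [← mul_assoc, pow_mul, h, one_div, inv_pow]
  have e3 : 2 * r ^ (2 * m) = r ^ (2 * (q * (m / q))) * (2 * r ^ (2 * (m % q))) := by
    rw [mul_left_comm, ← pow_add, ← mul_add, Nat.div_add_mod]
  have e4 : (1 : ℝ) ≤ 2 * r ^ (2 * (m % q)) := by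
    have : r ^ (2 * q) ≤ r ^ (2 * (m % q)) :=
      pow_le_pow_of_le_one h0.le h1.le (Nat.mul_le_mul_left 2 (Nat.mod_lt m hq).le)
    rw [h] at this
    linarith
  rw [e2, e3]
  exact le_mul_of_one_le_right (by positivity) e4

theorem summable_succ {r : ℝ} (h0 : 0 < r) (h1 : r < 1) :
    Summable fun k : ℕ => ((k : ℝ) + 1) * r ^ k := by
  have hr : ‖r‖ < 1 := by rw [Real.norm_of_nonneg h0.le]; exact h1
  have s1 := summable_pow_mul_geometric_of_norm_lt_one (R := ℝ) 1 hr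
  have s2 := summable_pow_mul_geometric_of_norm_lt_one (R := ℝ) 0 hr
  refine (s1.add s2).congr ?_
  intro k
  ring

end Real

variable {R : Type u} [Ring R]

/-- Central elements whose powers are highly divisible by `p`. -/
structure Cen (p : ℕ) (c : R) : Prop where
  comm : ∀ x, c * x = x * c
  pow : ∀ k, ∃ d, c ^ (k + 1) = (p : R) ^ (k / (p - 1)) * d

/-- a term of the series of the logarithm -/
noncomputable def tlTerm (τ : R →+ ℤ_[p]) (x : R) (k : ℕ) : ℚ_[p] :=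
  (-1) ^ k * (τ (x ^ (k + 1)) : ℚ_[p]) / (k + 1)

/-- `τ (log (1 + x))` -/
noncomputable def tl (τ : R →+ ℤ_[p]) (x : R) : ℚ_[p] := ∑' k, tlTerm τ x k

omit hp in
theorem p_comm (x : R) : (p : R) * x = x * p := (Nat.cast_commute p x).eq

omit hp in
theorem p_pow_comm (n : ℕ) (x : R) : (p : R) ^ n * x = x * (p : R) ^ n :=
  ((Nat.cast_commute p x).pow_left n).eq

theorem map_p_pow_mul (τ : R →+ ℤ_[p]) (n : ℕ) (x : R) :
    τ ((p : R) ^ n * x) = (p : ℤ_[p]) ^ n * τ x := by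
  have : (p : R) ^ n * x = (p ^ n : ℕ) • x := by
    rw [nsmul_eq_mul]
    push_cast
    rfl
  rw [this, map_nsmul, nsmul_eq_mul]
  push_cast
  rfl

theorem map_p_mul (τ : R →+ ℤ_[p]) (x : R) : τ ((p : R) * x) = (p : ℤ_[p]) * τ x := by
  have := map_p_pow_mul τ 1 x
  rwa [pow_one, pow_one] at this

theorem Cen.mul_pow {c : R} (hc : Cen p c) (x : R) (k : ℕ) : (c * x) ^ k = c ^ k * x ^ k :=
  (show Commute c x from hc.comm x).mul_pow k

theorem Cen.pow_comm {c : R} (hc : Cen p c) (x : R) (k : ℕ) : c ^ k * x = x * c ^ k :=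
  ((show Commute c x from hc.comm x).pow_left k).eq

theorem Cen.dvd {c : R} (hc : Cen p c) (τ : R →+ ℤ_[p]) (k : ℕ) (x : R) :
    (p : ℤ_[p]) ^ (k / (p - 1)) ∣ τ (c ^ (k + 1) * x) := by
  obtain ⟨d, hd⟩ := hc.pow k
  rw [hd, mul_assoc, map_p_pow_mul]
  exact dvd_mul_right _ _

/-- the number `p` itself -/
theorem cen_p : Cen p (p : R) where
  comm := p_comm
  pow k := by
    have h1 := hp.out.two_le
    have h : k / (p - 1) ≤ k + 1 := by
      calc k / (p - 1) ≤ k := Nat.div_le_self _ _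
        _ ≤ k + 1 := Nat.le_succ k
    exact ⟨(p : R) ^ (k + 1 - k / (p - 1)), by rw [← pow_add, Nat.add_sub_cancel' h]⟩

theorem tl_summable (τ : R →+ ℤ_[p]) {c : R} (hc : Cen p c) (x : R) :
    Summable (tlTerm τ (c * x)) := by
  have hp2 : (2 : ℝ) ≤ p := by exact_mod_cast hp.out.two_le
  have hq : 0 < p - 1 := Nat.sub_pos_of_lt hp.out.one_lt
  obtain ⟨r, h0, h1, hr⟩ := exists_root (p - 1) hq
  have hs : Summable fun k : ℕ => (2 * p : ℝ) * (((k : ℝ) + 1) * r ^ k) :=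
    (summable_succ h0 h1).mul_left _
  refine Summable.of_norm_bounded hs ?_
  intro k
  have e1 : ‖tlTerm τ (c * x) k‖ ≤ ((p : ℝ) ^ (k / (p - 1)))⁻¹ * (p * (k + 1)) := by
    apply norm_term_le
    rw [hc.mul_pow]
    exact hc.dvd τ k _
  refine e1.trans ?_
  have e2 := pow_bound hq h0 h1 hr hp2 k
  have e3 : r ^ (2 * k) ≤ r ^ k := pow_le_pow_of_le_one h0.le h1.le (by omega)
  calc ((p : ℝ) ^ (k / (p - 1)))⁻¹ * (p * (k + 1)) ≤ (2 * r ^ k) * (p * (k + 1)) := by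
        apply mul_le_mul_of_nonneg_right _ (by positivity)
        linarith
    _ = _ := by ring

/-- the double family -/
noncomputable def dbl (τ : R →+ ℤ_[p]) (c : R) (A : R[X]) (m : ℕ × ℕ) : ℚ_[p] :=
  (-1) ^ m.2 * (τ (c ^ (m.1 + 1) * (A ^ (m.2 + 1)).coeff (m.1 + 1)) : ℚ_[p]) / (m.2 + 1)

theorem dbl_zero (τ : R →+ ℤ_[p]) (c : R) {A : R[X]} (h : A.coeff 0 = 0) (m k : ℕ) (hk : m < k) :
    dbl τ c A (m, k) = 0 := by
  have : (A ^ (k + 1)).coeff (m + 1) = 0 := van_pow (n := k) h (m + 1) (by omega)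
  simp [dbl, this]

theorem summable_dbl (τ : R →+ ℤ_[p]) {c : R} (hc : Cen p c) {A : R[X]} (h : A.coeff 0 = 0) :
    Summable (dbl τ c A) := by
  have hp2 : (2 : ℝ) ≤ p := by exact_mod_cast hp.out.two_le
  have hq : 0 < p - 1 := Nat.sub_pos_of_lt hp.out.one_lt
  obtain ⟨r, h0, h1, hr⟩ := exists_root (p - 1) hq
  have h2 : Summable fun k : ℕ => r ^ k := summable_geometric_of_lt_one h0.le h1
  have h3 := ((summable_succ h0 h1).mul_left (2 * p : ℝ)).mul_of_nonneg h2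
    (fun k => by positivity) (fun k => by positivity)
  refine Summable.of_norm_bounded h3 ?_
  rintro ⟨m, k⟩
  by_cases hk : m < k
  · rw [dbl_zero τ c h m k hk, norm_zero]
    positivity
  · push Not at hk
    have hle := norm_term_le (z := τ (c ^ (m + 1) * (A ^ (k + 1)).coeff (m + 1)))
      (m := m / (p - 1)) (k := k) (hc.dvd τ m _)
    refine hle.trans ?_
    have e2 := pow_bound hq h0 h1 hr hp2 m
    have e3 : r ^ m ≤ r ^ k := pow_le_pow_of_le_one h0.le h1.le hk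
    have e4 : ((k : ℝ) + 1) ≤ (m : ℝ) + 1 := by
      have : (k : ℝ) ≤ m := by exact_mod_cast hk
      linarith
    have e5 : r ^ (2 * m) ≤ r ^ m * r ^ k := by
      rw [two_mul, pow_add]
      exact mul_le_mul_of_nonneg_left e3 (by positivity)
    calc ((p : ℝ) ^ (m / (p - 1)))⁻¹ * (p * (k + 1))
        ≤ (2 * (r ^ m * r ^ k)) * (p * (m + 1)) := by
          apply mul_le_mul _ _ (by positivity) (by positivity)
          · exact e2.trans (mul_le_mul_of_nonneg_left e5 (by norm_num))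
          · exact mul_le_mul_of_nonneg_left e4 (by positivity)
      _ = 2 * p * (((m : ℝ) + 1) * r ^ m) * r ^ k := by ring

/-- evaluation at a central element -/
noncomputable def ev {c : R} (hc : Cen p c) : R[X] →+* R :=
  eval₂RingHom' (RingHom.id R) c (fun a => (show Commute c a from hc.comm a).symm)

theorem ev_mul_pow {c : R} (hc : Cen p c) (z : R) (j : ℕ) : ev hc (C z * X ^ j) = z * c ^ j := by
  change eval₂ (RingHom.id R) c (C z * X ^ j) = _
  rw [eval₂_mul_noncomm, eval₂_C, eval₂_X_pow]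
  · rfl
  · intro k
    exact (show Commute c _ from hc.comm _).symm

theorem ev_poly {c : R} (hc : Cen p c) (x y : R) :
    ev hc (poly x y) = c * x + c * y + c * x * (c * y) := by
  have e2 := ev_mul_pow hc x 1
  have e3 := ev_mul_pow hc y 1
  have e4 := ev_mul_pow hc (x * y) 2
  simp only [pow_one] at e2 e3
  rw [poly, map_add, map_add, e2, e3, e4, ← hc.comm x, ← hc.comm y]
  have c3 : x * y * c ^ 2 = c * x * (c * y) := by
    rw [← hc.pow_comm, pow_two, mul_assoc, ← mul_assoc c x y, hc.comm x, mul_assoc x c y,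
      ← mul_assoc c x, hc.comm x]
  rw [c3]

theorem inner_sum (τ : R →+ ℤ_[p]) {c : R} (hc : Cen p c) (x y : R) (k : ℕ) :
    ∑' m, dbl τ c (poly x y) (m, k) = tlTerm τ (c * x + c * y + c * x * (c * y)) k := by
  rw [tlTerm, ← ev_poly hc, ← map_pow]
  have e1 : ev hc (poly x y ^ (k + 1)) =
      ∑ i ∈ Finset.range ((poly x y ^ (k + 1)).natDegree + 1),
        (poly x y ^ (k + 1)).coeff i * c ^ i := eval₂_eq_sum_range (RingHom.id R) c
  rw [Finset.sum_range_succ'] at e1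
  have e2 : (poly x y ^ (k + 1)).coeff 0 = 0 := van_pow (n := k) (poly_zero x y) 0 (Nat.zero_le _)
  rw [e2, zero_mul, add_zero] at e1
  rw [e1, map_sum]
  rw [tsum_eq_sum (s := Finset.range (poly x y ^ (k + 1)).natDegree)]
  · rw [PadicInt.coe_sum, Finset.mul_sum, Finset.sum_div]
    apply Finset.sum_congr rfl
    intro i _
    simp only [dbl]
    rw [hc.pow_comm]
  · intro m hm
    have : (poly x y ^ (k + 1)).coeff (m + 1) = 0 := by
      apply coeff_eq_zero_of_natDegree_lt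
      have : ¬ m < (poly x y ^ (k + 1)).natDegree := fun h => hm (Finset.mem_range.2 h)
      omega
    simp [dbl, this]

/-- the functional `a ↦ τ (c ^ n a)` -/
noncomputable def twist (τ : R →+ ℤ_[p]) (c : R) (n : ℕ) : R →+ ℚ_[p] where
  toFun a := (τ (c ^ n * a) : ℚ_[p])
  map_zero' := by simp
  map_add' a b := by rw [mul_add, map_add, PadicInt.coe_add]

theorem outer_sum (τ : R →+ ℤ_[p]) (hτ : ∀ a b, τ (a * b) = τ (b * a)) {c : R} (hc : Cen p c)
    (x y : R) (m : ℕ) :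
    ∑' k, dbl τ c (poly x y) (m, k) = tlTerm τ (c * x) m + tlTerm τ (c * y) m := by
  rw [tsum_eq_sum (s := Finset.range (m + 1))]
  · have h := formal_identity (twist τ c (m + 1)) (by
      intro a b
      change ((τ (c ^ (m + 1) * (a * b)) : ℤ_[p]) : ℚ_[p]) = (τ (c ^ (m + 1) * (b * a)) : ℚ_[p])
      rw [← mul_assoc, hτ, ← mul_assoc, ← hc.pow_comm, mul_assoc]) x y m
    have e1 : ∑ k ∈ Finset.range (m + 1), dbl τ c (poly x y) (m, k) =
        ∑ j ∈ Finset.range (m + 1), (-1 : ℚ_[p]) ^ j *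
          twist τ c (m + 1) (((C x * X + C y * X + C (x * y) * X ^ 2) ^ (j + 1)).coeff (m + 1)) /
            (j + 1) := rfl
    rw [e1, h, tlTerm, tlTerm, hc.mul_pow, hc.mul_pow]
    change (-1) ^ m * ((τ (c ^ (m + 1) * x ^ (m + 1)) : ℚ_[p]) +
      (τ (c ^ (m + 1) * y ^ (m + 1)) : ℚ_[p])) / (m + 1) = _
    ring
  · intro k hk
    apply dbl_zero τ c (poly_zero x y)
    have : ¬ k < m + 1 := fun h => hk (Finset.mem_range.2 h)
    omega

theorem tl_mul' (τ : R →+ ℤ_[p]) (hτ : ∀ a b, τ (a * b) = τ (b * a)) {c : R} (hc : Cen p c)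
    (x y : R) : tl τ (c * x + c * y + c * x * (c * y)) = tl τ (c * x) + tl τ (c * y) := by
  have hs := summable_dbl τ hc (poly_zero x y)
  have hcomm : ∑' (k) (m), dbl τ c (poly x y) (m, k) = ∑' (m) (k), dbl τ c (poly x y) (m, k) :=
    hs.tsum_comm' (f := fun m k => dbl τ c (poly x y) (m, k))
      (fun b => hs.comp_injective (Prod.mk_right_injective b))
      (fun c => hs.comp_injective (Prod.mk_left_injective c))
  simp only [inner_sum τ hc, outer_sum τ hτ hc] at hcomm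
  rw [tl, tl, tl, hcomm, (tl_summable τ hc x).tsum_add (tl_summable τ hc y)]

end Pool.Agent.H71.KP
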