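import Pool.Agent.H71.KP.Log

/-!
# Further properties of the trace of the logarithm
-/

set_option autoImplicit false
set_option linter.unusedSectionVars false

universe u v

namespace Pool.Agent.H71.KP

variable {p : ℕ} [hp : Fact p.Prime] {R : Type u} [Ring R]

/-- `w` is congruent to `1` modulo `c` -/
def Cong (c w : R) : Prop := ∃ x : R, w = 1 + c * x

theorem Cong.one (c : R) : Cong c (1 : R) := ⟨0, by simp⟩

theorem Cong.mul {c w w' : R} (h : Cong c w) (h' : Cong c w') : Cong c (w * w') := by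
  obtain ⟨x, rfl⟩ := h
  obtain ⟨y, rfl⟩ := h'
  refine ⟨x + y + x * (c * y), ?_⟩
  noncomm_ring

theorem Cong.of_mul_eq_one {c w w' : R} (hc : Cen p c) (h : Cong c w) (h' : w' * w = 1) :
    Cong c w' := by
  obtain ⟨x, rfl⟩ := h
  refine ⟨-(w' * x), ?_⟩
  have : w' * (1 + c * x) = w' + c * (w' * x) := by
    rw [mul_add, mul_one, ← mul_assoc, ← hc.comm, mul_assoc]
  rw [this] at h'
  rw [mul_neg, ← h']
  abel

theorem Cong.conj {c w : R} (hc : Cen p c) (h : Cong c w) (g : Rˣ) :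
    Cong c ((g⁻¹ : Rˣ) * w * g) := by
  obtain ⟨x, rfl⟩ := h
  refine ⟨(g⁻¹ : Rˣ) * x * g, ?_⟩
  have : ((g⁻¹ : Rˣ) : R) * (1 + c * x) * g = (g⁻¹ : Rˣ) * g + c * ((g⁻¹ : Rˣ) * x * g) := by
    rw [mul_add, mul_one, add_mul, ← mul_assoc, ← hc.comm]
    simp only [mul_assoc]
  rw [this, Units.inv_mul]

/-- `τ (log w)` -/
noncomputable def L (τ : R →+ ℤ_[p]) (w : R) : ℚ_[p] := tl τ (w - 1)

theorem L_one_add (τ : R →+ ℤ_[p]) (x : R) : L τ (1 + x) = tl τ x := by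
  rw [L, add_sub_cancel_left]

theorem L_mul (τ : R →+ ℤ_[p]) (hτ : ∀ a b, τ (a * b) = τ (b * a)) {c : R} (hc : Cen p c)
    {w w' : R} (h : Cong c w) (h' : Cong c w') : L τ (w * w') = L τ w + L τ w' := by
  obtain ⟨x, rfl⟩ := h
  obtain ⟨y, rfl⟩ := h'
  have e1 : (1 + c * x) * (1 + c * y) - 1 = c * x + c * y + c * x * (c * y) := by noncomm_ring
  rw [L, L, L, e1, add_sub_cancel_left, add_sub_cancel_left, tl_mul' τ hτ hc]

theorem tl_zero (τ : R →+ ℤ_[p]) : tl τ 0 = 0 := by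
  have : tlTerm τ (0 : R) = fun _ => 0 := by
    funext k
    simp [tlTerm]
  rw [tl, this, tsum_zero]

theorem L_one (τ : R →+ ℤ_[p]) : L τ 1 = 0 := by rw [L, sub_self, tl_zero]

theorem L_inv (τ : R →+ ℤ_[p]) (hτ : ∀ a b, τ (a * b) = τ (b * a)) {c : R} (hc : Cen p c)
    {w w' : R} (h : Cong c w) (h1 : w' * w = 1) : L τ w' = -L τ w := by
  have := L_mul τ hτ hc (h.of_mul_eq_one hc h1) h
  rw [h1, L_one] at this
  exact (neg_eq_of_add_eq_zero_left this.symm).symm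

theorem tl_congr {S : Type v} [Ring S] {τ : R →+ ℤ_[p]} {τ' : S →+ ℤ_[p]} {x : R} {x' : S}
    (h : ∀ k, τ (x ^ (k + 1)) = τ' (x' ^ (k + 1))) : tl τ x = tl τ' x' := by
  have : tlTerm τ x = tlTerm τ' x' := by
    funext k
    rw [tlTerm, tlTerm, h]
  rw [tl, tl, this]

theorem L_conj (τ : R →+ ℤ_[p]) (hτ : ∀ a b, τ (a * b) = τ (b * a)) (w : R) (g : Rˣ) :
    L τ ((g⁻¹ : Rˣ) * w * g) = L τ w := by
  have e1 : ((g⁻¹ : Rˣ) : R) * w * g - 1 = (g⁻¹ : Rˣ) * (w - 1) * g := by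
    rw [mul_sub, sub_mul, mul_one, Units.inv_mul]
  have e2 : ∀ k : ℕ, (((g⁻¹ : Rˣ) : R) * (w - 1) * g) ^ k = (g⁻¹ : Rˣ) * (w - 1) ^ k * g := by
    intro k
    induction k with
    | zero => simp
    | succ k ih =>
      rw [pow_succ, ih, pow_succ]
      calc ((g⁻¹ : Rˣ) : R) * (w - 1) ^ k * g * ((g⁻¹ : Rˣ) * (w - 1) * g)
          = (g⁻¹ : Rˣ) * (w - 1) ^ k * (g * (g⁻¹ : Rˣ)) * (w - 1) * g := by
            simp only [mul_assoc]
        _ = _ := by rw [Units.mul_inv, mul_one]; simp only [mul_assoc]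
  rw [L, L, e1]
  apply tl_congr
  intro k
  rw [e2, mul_assoc, hτ, mul_assoc, Units.mul_inv, mul_one]

theorem tl_mul_fun (τ τ' : R →+ ℤ_[p]) (x : R) (n : ℤ_[p]) (h : ∀ r, τ' r = n * τ r) :
    tl τ' x = n * tl τ x := by
  have : tlTerm τ' x = fun k => (n : ℚ_[p]) * tlTerm τ x k := by
    funext k
    simp only [tlTerm, h, PadicInt.coe_mul]
    ring
  rw [tl, tl, this, tsum_mul_left]

/-- Restriction of additive functions along a ring homomorphism. -/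
noncomputable def pull {S : Type v} [Ring S] (φ : R →+* S) (τ : S →+ ℤ_[p]) : R →+ ℤ_[p] :=
  τ.comp φ.toAddMonoidHom

theorem pull_apply {S : Type v} [Ring S] (φ : R →+* S) (τ : S →+ ℤ_[p]) (r : R) :
    pull φ τ r = τ (φ r) := rfl

theorem L_map {S : Type v} [Ring S] (φ : R →+* S) (τ : S →+ ℤ_[p]) (w : R) :
    L τ (φ w) = L (pull φ τ) w := by
  rw [L, L]
  apply tl_congr
  intro k
  rw [pull_apply, map_pow φ, map_sub φ, map_one φ]

theorem L_congr_fun {τ τ' : R →+ ℤ_[p]} (h : ∀ r, τ r = τ' r) (w : R) : L τ w = L τ' w := by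
  rw [L, L]
  apply tl_congr
  intro k
  rw [h]

theorem Cong.map {S : Type v} [Ring S] (φ : R →+* S) {c w : R} (h : Cong c w) :
    Cong (φ c) (φ w) := by
  obtain ⟨x, rfl⟩ := h
  refine ⟨φ x, ?_⟩
  rw [map_add, map_mul, map_one]

theorem nonUnital_pow {S : Type v} [Ring S] (J : R →ₙ+* S) (x : R) (k : ℕ) :
    J x ^ (k + 1) = J (x ^ (k + 1)) := by
  induction k with
  | zero => simp
  | succ k ih => rw [pow_succ, ih, pow_succ x (k + 1), map_mul]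

theorem tl_nonUnital {S : Type v} [Ring S] (J : R →ₙ+* S) (τ : R →+ ℤ_[p])
    (τ' : S →+ ℤ_[p]) (h : ∀ x, τ' (J x) = τ x) (x : R) : tl τ' (J x) = tl τ x := by
  apply tl_congr
  intro k
  rw [nonUnital_pow, h]

/-- additivity for elements of a subring on which the functional is a trace -/
theorem L_mul_sub (τ : R →+ ℤ_[p]) (S : Subring R) (hS : ∀ a ∈ S, ∀ b ∈ S, τ (a * b) = τ (b * a))
    {x y : R} (hx : x ∈ S) (hy : y ∈ S) :
    L τ ((1 + (p : R) * x) * (1 + (p : R) * y)) =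
      L τ (1 + (p : R) * x) + L τ (1 + (p : R) * y) := by
  have key := L_mul (pull S.subtype τ) (fun a b => hS _ a.2 _ b.2) (cen_p (p := p) (R := S))
    (w := 1 + (p : S) * ⟨x, hx⟩) (w' := 1 + (p : S) * ⟨y, hy⟩) ⟨_, rfl⟩ ⟨_, rfl⟩
  rw [← L_map, ← L_map, ← L_map] at key
  simpa using key

theorem succ_le_pow (j : ℕ) : j + 2 ≤ p ^ (j + 1) := by
  have h1 := Nat.lt_two_pow_self (n := j + 1)
  have h2 : 2 ^ (j + 1) ≤ p ^ (j + 1) := Nat.pow_le_pow_left hp.out.two_le _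
  omega

theorem term_le_aux (τ : R →+ ℤ_[p]) (r : R) (n j : ℕ) :
    ‖tlTerm τ ((p : R) ^ (n + 1) * r) (j + 1)‖ ≤ ((p : ℝ) ^ (2 * n))⁻¹ := by
  have hp0 : (0 : ℝ) < p := by exact_mod_cast hp.out.pos
  have h0 : τ (((p : R) ^ (n + 1) * r) ^ (j + 1 + 1)) =
      (p : ℤ_[p]) ^ ((n + 1) * (j + 2)) * τ (r ^ (j + 2)) := by
    rw [((Nat.cast_commute p r).pow_left (n + 1)).mul_pow, ← pow_mul, map_p_pow_mul]
  have h1 := norm_term_le (z := τ (((p : R) ^ (n + 1) * r) ^ (j + 1 + 1)))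
    (m := (n + 1) * (j + 2)) (k := j + 1) (by rw [h0]; exact dvd_mul_right _ _)
  refine h1.trans ?_
  have h2 : p * (j + 2) * p ^ (2 * n) ≤ p ^ ((n + 1) * (j + 2)) := by
    calc p * (j + 2) * p ^ (2 * n) ≤ p * p ^ (j + 1) * p ^ (2 * n) :=
          Nat.mul_le_mul_right _ (Nat.mul_le_mul_left _ (succ_le_pow j))
      _ = p ^ (j + 2 + 2 * n) := by rw [← pow_succ', ← pow_add]
      _ ≤ p ^ ((n + 1) * (j + 2)) := by
          apply Nat.pow_le_pow_right hp.out.pos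
          nlinarith [Nat.zero_le (n * j)]
  have h3 : (p * ((j : ℝ) + 2)) * p ^ (2 * n) ≤ (p : ℝ) ^ ((n + 1) * (j + 2)) := by
    exact_mod_cast h2
  rw [← div_eq_inv_mul, div_le_iff₀ (by positivity), ← div_eq_inv_mul, le_div_iff₀ (by positivity)]
  push_cast
  linarith

theorem tlTerm_zero (τ : R →+ ℤ_[p]) (r : R) (n : ℕ) :
    tlTerm τ ((p : R) ^ n * r) 0 = ((p ^ n * τ r : ℤ_[p]) : ℚ_[p]) := by
  rw [tlTerm, zero_add, pow_one, map_p_pow_mul]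
  simp

theorem tl_summable_pow (τ : R →+ ℤ_[p]) (r : R) (n : ℕ) :
    Summable (tlTerm τ ((p : R) ^ (n + 1) * r)) := by
  have : (p : R) ^ (n + 1) * r = (p : R) * ((p : R) ^ n * r) := by rw [pow_succ', mul_assoc]
  rw [this]
  exact tl_summable τ cen_p _

theorem norm_tl_sub_le (τ : R →+ ℤ_[p]) (r : R) (n : ℕ) :
    ‖tl τ ((p : R) ^ (n + 1) * r) - ((p ^ (n + 1) * τ r : ℤ_[p]) : ℚ_[p])‖ ≤
      ((p : ℝ) ^ (2 * n))⁻¹ := by
  rw [tl, (tl_summable_pow τ r n).tsum_eq_zero_add, tlTerm_zero, add_sub_cancel_left]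
  exact IsUltrametricDist.norm_tsum_le_of_forall_le (fun j => term_le_aux τ r n j)

theorem dvd_of_norm_le {z : ℤ_[p]} {m : ℕ} (h : ‖(z : ℚ_[p])‖ ≤ ((p : ℝ) ^ m)⁻¹) :
    (p : ℤ_[p]) ^ m ∣ z := by
  have h1 : ‖z‖ ≤ (p : ℝ) ^ (-(m : ℤ)) := by
    rw [zpow_neg, zpow_natCast]
    exact h
  rw [PadicInt.norm_le_pow_iff_mem_span_pow, Ideal.mem_span_singleton] at h1
  exact h1

theorem tl_ne_zero (τ : R →+ ℤ_[p]) (r : R) (a : ℕ) (ha : 3 ≤ a) (h : ¬ (p : ℤ_[p]) ∣ τ r) :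
    tl τ ((p : R) ^ a * r) ≠ 0 := by
  obtain ⟨n, rfl⟩ : ∃ n, a = n + 1 := ⟨a - 1, by omega⟩
  intro h0
  have h1 := norm_tl_sub_le τ r n
  rw [h0, zero_sub, norm_neg] at h1
  have h3 := dvd_of_norm_le h1
  have h4 : (p : ℤ_[p]) ^ (n + 1 + 1) ∣ p ^ (n + 1) * τ r :=
    dvd_trans (pow_dvd_pow _ (by omega)) h3
  rw [pow_succ] at h4
  have hp0 : (p : ℤ_[p]) ≠ 0 := by exact_mod_cast hp.out.ne_zero
  exact h ((mul_dvd_mul_iff_left (pow_ne_zero _ hp0)).1 h4)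

end Pool.Agent.H71.KP
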