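import Pool.Agent.H71.KP.Log2

/-!
# The logarithm of the determinant
-/

set_option autoImplicit false
set_option linter.unusedSectionVars false

open Matrix

universe u v

namespace Pool.Agent.H71.KP

variable {p : ℕ} [hp : Fact p.Prime]

section

variable {B : Type u} [CommRing B] {ι : Type v} [Fintype ι] [DecidableEq ι] (τ : B →+ ℤ_[p])

/-- `τ ∘ tr` -/
noncomputable def ttr (τ : B →+ ℤ_[p]) (ι : Type v) [Fintype ι] : Matrix ι ι B →+ ℤ_[p] :=
  τ.comp (Matrix.traceAddMonoidHom ι B)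

theorem ttr_apply (W : Matrix ι ι B) : ttr τ ι W = τ (trace W) := rfl

theorem ttr_comm (V W : Matrix ι ι B) : ttr τ ι (V * W) = ttr τ ι (W * V) := by
  rw [ttr_apply, ttr_apply, trace_mul_comm]

omit hp in
theorem natCast_mul_eq_smul (n : ℕ) (X : Matrix ι ι B) : (n : Matrix ι ι B) * X = (n : B) • X := by
  rw [← nsmul_eq_mul, Nat.cast_smul_eq_nsmul]

omit hp in
theorem det_one_add_nat (n : ℕ) (X : Matrix ι ι B) :
    ∃ y : B, det (1 + (n : Matrix ι ι B) * X) = 1 + (n : B) * (trace X + (n : B) * y) := by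
  have h := det_one_add_smul (n : B) X
  rw [natCast_mul_eq_smul]
  exact ⟨(det (1 + (Polynomial.X : Polynomial B) • X.map Polynomial.C)).divX.divX.eval (n : B),
    by rw [h]; ring⟩

omit hp in
theorem det_cong_nat (n : ℕ) {W : Matrix ι ι B} (h : Cong (n : Matrix ι ι B) W) :
    Cong (n : B) (det W) := by
  obtain ⟨X, rfl⟩ := h
  obtain ⟨y, hy⟩ := det_one_add_nat n X
  exact ⟨_, hy⟩

/-- the defect -/
noncomputable def dd (W : Matrix ι ι B) : ℚ_[p] := L (ttr τ ι) W - L τ (det W)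

theorem dd_mul {V W : Matrix ι ι B} (hV : Cong (p : Matrix ι ι B) V)
    (hW : Cong (p : Matrix ι ι B) W) : dd τ (V * W) = dd τ V + dd τ W := by
  rw [dd, dd, dd, det_mul, L_mul (ttr τ ι) (ttr_comm τ) cen_p hV hW,
    L_mul τ (fun a b => by rw [mul_comm]) cen_p (det_cong_nat p hV) (det_cong_nat p hW)]
  ring

theorem dd_one : dd τ (1 : Matrix ι ι B) = 0 := by
  rw [dd, det_one, L_one, L_one, sub_zero]

theorem dd_pow {W : Matrix ι ι B} (hW : Cong (p : Matrix ι ι B) W) (k : ℕ) :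
    Cong (p : Matrix ι ι B) (W ^ k) ∧ dd τ (W ^ k) = k * dd τ W := by
  induction k with
  | zero => exact ⟨by rw [pow_zero]; exact Cong.one _, by simp [dd_one]⟩
  | succ k ih =>
    rw [pow_succ]
    refine ⟨ih.1.mul hW, ?_⟩
    rw [dd_mul τ ih.1 hW, ih.2]
    push_cast
    ring

end

theorem pow_form {R : Type u} [Ring R] (x : R) (k : ℕ) :
    ∃ y : R, (1 + (p : R) * x) ^ p ^ k = 1 + (p : R) ^ (k + 1) * y := by
  induction k with
  | zero => exact ⟨x, by simp⟩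
  | succ k ih =>
    obtain ⟨y, hy⟩ := ih
    obtain ⟨r, hr⟩ := Commute.exists_add_pow_prime_eq hp.out
      (show Commute (1 : R) ((p : R) ^ (k + 1) * y) from Commute.one_left _)
    have e1 : ((p : R) ^ (k + 1) * y) ^ p = (p : R) ^ (k + 1 + 1) *
        ((p : R) ^ ((k + 1) * p - (k + 1 + 1)) * y ^ p) := by
      have h2 := hp.out.two_le
      have h3 : k + 1 + 1 ≤ (k + 1) * p := by nlinarith
      rw [((Nat.cast_commute p y).pow_left (k + 1)).mul_pow, ← pow_mul, ← mul_assoc, ← pow_add,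
        Nat.add_sub_cancel' h3]
    refine ⟨(p : R) ^ ((k + 1) * p - (k + 1 + 1)) * y ^ p + y * r, ?_⟩
    rw [pow_succ, pow_mul, hy, hr, one_pow, e1, mul_one, mul_add, pow_succ' (p : R) (k + 1),
      add_assoc]
    simp only [mul_assoc]

section

variable {B : Type u} [CommRing B] {ι : Type v} [Fintype ι] [DecidableEq ι] (τ : B →+ ℤ_[p])

theorem norm_sub_max (a b : ℚ_[p]) : ‖a - b‖ ≤ max ‖a‖ ‖b‖ := by
  rw [sub_eq_add_neg, ← norm_neg b]
  exact IsUltrametricDist.norm_add_le_max _ _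

theorem norm_dd_le (k : ℕ) (Y : Matrix ι ι B) :
    ‖dd τ (1 + (p : Matrix ι ι B) ^ (k + 1) * Y)‖ ≤ ((p : ℝ) ^ (2 * k))⁻¹ := by
  obtain ⟨y, hy⟩ := det_one_add_nat (p ^ (k + 1)) Y
  rw [Nat.cast_pow, Nat.cast_pow] at hy
  rw [dd, hy, L_one_add, L_one_add]
  have h1 := norm_tl_sub_le (ttr τ ι) Y k
  have h2 := norm_tl_sub_le τ (trace Y + (p : B) ^ (k + 1) * y) k
  have h3 : ‖((p ^ (2 * k) * (p ^ 2 * τ y) : ℤ_[p]) : ℚ_[p])‖ ≤ ((p : ℝ) ^ (2 * k))⁻¹ :=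
    norm_le_of_dvd (dvd_mul_right _ _)
  have e : tl (ttr τ ι) ((p : Matrix ι ι B) ^ (k + 1) * Y) -
      tl τ ((p : B) ^ (k + 1) * (trace Y + (p : B) ^ (k + 1) * y)) =
      ((tl (ttr τ ι) ((p : Matrix ι ι B) ^ (k + 1) * Y) -
        ((p ^ (k + 1) * ttr τ ι Y : ℤ_[p]) : ℚ_[p])) -
      (tl τ ((p : B) ^ (k + 1) * (trace Y + (p : B) ^ (k + 1) * y)) -
        ((p ^ (k + 1) * τ (trace Y + (p : B) ^ (k + 1) * y) : ℤ_[p]) : ℚ_[p]))) -
      ((p ^ (2 * k) * (p ^ 2 * τ y) : ℤ_[p]) : ℚ_[p]) := by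
    rw [map_add, map_p_pow_mul, ttr_apply]
    push_cast
    ring
  rw [e]
  refine (norm_sub_max _ _).trans (max_le ?_ h3)
  exact (norm_sub_max _ _).trans (max_le h1 h2)

theorem norm_p_pow (k : ℕ) : ‖(p : ℚ_[p]) ^ k‖ = ((p : ℝ) ^ k)⁻¹ := by
  rw [norm_pow, Padic.norm_p, inv_pow]

/-- `tr log = log det` -/
theorem dd_eq_zero {W : Matrix ι ι B} (hW : Cong (p : Matrix ι ι B) W) : dd τ W = 0 := by
  have hp2 : (2 : ℝ) ≤ p := by exact_mod_cast hp.out.two_le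
  have hp0 : (0 : ℝ) < p := by linarith
  rw [← norm_eq_zero]
  by_contra hne
  have hpos : 0 < ‖dd τ W‖ := lt_of_le_of_ne (norm_nonneg _) (Ne.symm hne)
  have h1 : ∀ k : ℕ, ‖dd τ W‖ ≤ ((1 : ℝ) / 2) ^ k := by
    intro k
    have h2 := (dd_pow τ hW (p ^ k)).2
    obtain ⟨X, rfl⟩ := hW
    obtain ⟨Y, hY⟩ := pow_form (p := p) X k
    have h3 := norm_dd_le τ k Y
    rw [← hY, h2, norm_mul, Nat.cast_pow, norm_p_pow] at h3
    have hp' : (0 : ℝ) < (p : ℝ) ^ k := by positivity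
    have h4 : ((p : ℝ) ^ k) * (((p : ℝ) ^ k)⁻¹ * ‖dd τ (1 + (p : Matrix ι ι B) * X)‖) ≤
        (p : ℝ) ^ k * (((p : ℝ) ^ (2 * k))⁻¹) := mul_le_mul_of_nonneg_left h3 hp'.le
    rw [← mul_assoc, mul_inv_cancel₀ hp'.ne', one_mul] at h4
    refine h4.trans ?_
    have e : (p : ℝ) ^ (2 * k) = p ^ k * p ^ k := by rw [two_mul, pow_add]
    rw [e, mul_inv, ← mul_assoc, mul_inv_cancel₀ hp'.ne', one_mul, one_div, inv_pow]
    exact inv_anti₀ (by positivity) (pow_le_pow_left₀ (by norm_num) hp2 k)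
  obtain ⟨k, hk⟩ := exists_pow_lt_of_lt_one hpos (show (1 : ℝ) / 2 < 1 by norm_num)
  have := h1 k
  linarith

theorem L_det {W : Matrix ι ι B} (hW : Cong (p : Matrix ι ι B) W) :
    L τ (det W) = L (ttr τ ι) W := by
  have := dd_eq_zero τ hW
  rw [dd] at this
  exact (sub_eq_zero.1 this).symm

end

end Pool.Agent.H71.KP
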