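import Pool.Agent.H71.KP.GL
import Pool.Agent.H71.KP.LogDet

/-!
# The logarithm on units of `ℤ_[p][H]` for finite groups `H`
-/

set_option autoImplicit false
set_option linter.unusedSectionVars false
set_option linter.unusedSimpArgs false

open Matrix
open scoped Classical

universe u v w

namespace Pool.Agent.H71.KP

variable {p : ℕ} [hp : Fact p.Prime]

section C3

variable {R : Type u} [Ring R]

/-- `w` is congruent to `1` modulo `p ^ 3` -/
def C3 (p : ℕ) (w : R) : Prop := Cong ((p ^ 3 : ℕ) : R) w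

theorem C3.cong {w : R} (h : C3 p w) : Cong (p : R) w := by
  obtain ⟨x, rfl⟩ := h
  exact ⟨(p : R) ^ 2 * x, by rw [← mul_assoc, ← pow_succ', Nat.cast_pow]⟩

theorem C3.sq {w : R} (h : C3 p w) : ∃ x, w = 1 + ((p ^ 2 : ℕ) : R) * x := by
  obtain ⟨x, rfl⟩ := h
  refine ⟨(p : R) * x, ?_⟩
  rw [← mul_assoc]
  congr 2
  push_cast
  rw [← pow_succ]

theorem C3.map {S : Type v} [Ring S] (φ : R →+* S) {w : R} (h : C3 p w) : C3 p (φ w) := by
  have := Cong.map φ h
  rwa [map_natCast] at this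

end C3

section Div

variable {C : Type u} [Group C]

/-- the coefficient at `c` -/
noncomputable def dlt (p : ℕ) [Fact p.Prime] (c g : C) : ℤ_[p] := if g = c then 1 else 0

theorem fn_dlt (c : C) (x : MonoidAlgebra ℤ_[p] C) : fn (dlt p c) x = x.coeff c := by
  induction x using MonoidAlgebra.induction_linear with
  | zero => simp
  | add x y hx hy => rw [map_add, hx, hy, MonoidAlgebra.coeff_add, Finsupp.add_apply]
  | single g n =>
    rw [fn_single, MonoidAlgebra.coeff_single, Finsupp.single_apply, dlt]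
    split_ifs <;> simp

theorem exists_eq_mul (n : ℤ_[p]) (x : MonoidAlgebra ℤ_[p] C) (h : ∀ c, n ∣ x.coeff c) :
    ∃ y : MonoidAlgebra ℤ_[p] C, x = n • y := by
  choose g hg using h
  refine ⟨MonoidAlgebra.ofCoeff (Finsupp.onFinset x.coeff.support
    (fun c => if x.coeff c = 0 then 0 else g c) ?_), ?_⟩
  · intro c hc
    rw [Finsupp.mem_support_iff]
    intro h0
    exact hc (if_pos h0)
  · ext c
    rw [MonoidAlgebra.coeff_smul, Finsupp.smul_apply, MonoidAlgebra.coeff_ofCoeff,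
      Finsupp.onFinset_apply, smul_eq_mul]
    split_ifs with h0
    · rw [h0, mul_zero]
    · exact hg c

/-- extraction of the power of `p` -/
theorem exists_p_pow {x : MonoidAlgebra ℤ_[p] C} (hx : x ≠ 0) :
    ∃ (m : ℕ) (r : MonoidAlgebra ℤ_[p] C) (c : C), x = (p : ℤ_[p]) ^ m • r ∧
      ¬ (p : ℤ_[p]) ∣ r.coeff c := by
  have hpp : Prime (p : ℤ_[p]) := PadicInt.prime_p
  obtain ⟨c0, hc0⟩ : ∃ c, x.coeff c ≠ 0 := by
    by_contra hcon
    push Not at hcon
    apply hx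
    ext c
    rw [hcon c]
    simp
  have hbd : ∃ m : ℕ, ¬ ∃ y : MonoidAlgebra ℤ_[p] C, x = (p : ℤ_[p]) ^ m • y := by
    obtain ⟨m, hm⟩ := (FiniteMultiplicity.of_not_isUnit hpp.not_isUnit hc0 :
      FiniteMultiplicity (p : ℤ_[p]) (x.coeff c0))
    refine ⟨m + 1, ?_⟩
    rintro ⟨y, hy⟩
    apply hm
    have h1 := congrArg (fun z : MonoidAlgebra ℤ_[p] C => z.coeff c0) hy
    simp only [MonoidAlgebra.coeff_smul, Finsupp.smul_apply, smul_eq_mul] at h1
    exact ⟨_, h1⟩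
  have h0 : Nat.find hbd ≠ 0 := by
    intro h
    have := Nat.find_spec hbd
    rw [h] at this
    exact this ⟨x, by rw [pow_zero, one_smul]⟩
  obtain ⟨m, hm⟩ := Nat.exists_eq_succ_of_ne_zero h0
  have h1 : ∃ y : MonoidAlgebra ℤ_[p] C, x = (p : ℤ_[p]) ^ m • y := by
    by_contra hcon
    have := Nat.find_min' hbd hcon
    omega
  obtain ⟨r, hr⟩ := h1
  have h2 : ¬ ∃ y : MonoidAlgebra ℤ_[p] C, x = (p : ℤ_[p]) ^ (m + 1) • y := by
    have := Nat.find_spec hbd
    rwa [hm] at this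
  by_contra hcon
  push Not at hcon
  obtain ⟨y, hy⟩ := exists_eq_mul (p : ℤ_[p]) r (fun c => hcon m r c hr)
  apply h2
  refine ⟨y, ?_⟩
  rw [hr, hy, pow_succ, mul_smul]

/-- the functional as an additive map -/
noncomputable def fnA (f : C → ℤ_[p]) : MonoidAlgebra ℤ_[p] C →+ ℤ_[p] := (fn f).toAddMonoidHom

theorem fnA_apply (f : C → ℤ_[p]) (x : MonoidAlgebra ℤ_[p] C) : fnA f x = fn f x := rfl

theorem fnA_comm (f : C → ℤ_[p]) (hf : ∀ x y, f (x * y) = f (y * x))
    (x y : MonoidAlgebra ℤ_[p] C) : fnA f (x * y) = fnA f (y * x) := fn_comm f hf x y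

theorem pow_smul_eq {A : Type u} [Ring A] [Algebra ℤ_[p] A] (m : ℕ) (x : A) :
    (p : ℤ_[p]) ^ m • x = (p : A) ^ m * x := by
  rw [← Nat.cast_pow, Nat.cast_smul_eq_nsmul, nsmul_eq_mul, Nat.cast_pow]

/-- A unit congruent to `1` modulo `p ^ 3` with vanishing logarithm is `1`. -/
theorem eq_one_of_L {w : MonoidAlgebra ℤ_[p] C} (hw : C3 p w)
    (h : ∀ c, L (fnA (dlt p c)) w = 0) : w = 1 := by
  obtain ⟨x, rfl⟩ := hw
  by_cases hx : x = 0
  · rw [hx, mul_zero, add_zero]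
  exfalso
  obtain ⟨m, r, c, hr, hc⟩ := exists_p_pow hx
  have h1 := h c
  rw [L_one_add, hr, pow_smul_eq, Nat.cast_pow, ← mul_assoc, ← pow_add] at h1
  refine tl_ne_zero _ r (3 + m) (by omega) ?_ h1
  rw [fnA_apply, fn_dlt]
  exact hc

end Div

section Pow

variable {C : Type u} [Group C]

/-- reduction modulo `p ^ 3` -/
noncomputable abbrev red3 (p : ℕ) [Fact p.Prime] (C : Type u) [Group C] :
    MonoidAlgebra ℤ_[p] C →+* MonoidAlgebra (ZMod (p ^ 3)) C :=
  MonoidAlgebra.mapRingHom C (PadicInt.toZModPow 3)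

theorem C3_of_red {w : MonoidAlgebra ℤ_[p] C} (h : red3 p C w = 1) : C3 p w := by
  obtain ⟨y, hy⟩ := exists_eq_mul ((p : ℤ_[p]) ^ 3) (w - 1) (fun c => by
    have h1 : red3 p C (w - 1) = 0 := by rw [map_sub, map_one, h, sub_self]
    have h2 : (red3 p C (w - 1)).coeff c = PadicInt.toZModPow 3 ((w - 1).coeff c) := by
      rfl
    rw [h1] at h2
    have h3 : (w - 1).coeff c ∈ RingHom.ker (PadicInt.toZModPow (p := p) 3) := h2.symm
    rw [PadicInt.ker_toZModPow, Ideal.mem_span_singleton] at h3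
    exact h3)
  refine ⟨y, ?_⟩
  have h3 : w = 1 + (w - 1) := by abel
  rw [h3, hy, pow_smul_eq, Nat.cast_pow]

variable [Finite C]

theorem finite_red : Finite (MonoidAlgebra (ZMod (p ^ 3)) C) := by
  have : NeZero (p ^ 3) := ⟨pow_ne_zero _ hp.out.ne_zero⟩
  apply Finite.of_injective (fun (x : MonoidAlgebra (ZMod (p ^ 3)) C) (c : C) => x.coeff c)
  intro x y h
  ext c
  exact congrFun h c

/-- an exponent for the units modulo `p ^ 3` -/
noncomputable def NP (p : ℕ) (C : Type u) [Group C] : ℕ :=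
  Nat.card (MonoidAlgebra (ZMod (p ^ 3)) C)ˣ

theorem NP_ne_zero : NP p C ≠ 0 := by
  have := finite_red (p := p) (C := C)
  have : Finite (MonoidAlgebra (ZMod (p ^ 3)) C)ˣ := inferInstance
  exact Nat.card_pos.ne'

theorem C3_pow_NP (δ : (MonoidAlgebra ℤ_[p] C)ˣ) :
    C3 p ((δ ^ NP p C : (MonoidAlgebra ℤ_[p] C)ˣ) : MonoidAlgebra ℤ_[p] C) := by
  have := finite_red (p := p) (C := C)
  apply C3_of_red
  have h1 : Units.map (red3 p C).toMonoidHom δ ^ NP p C = 1 := pow_card_eq_one'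
  rw [← map_pow] at h1
  exact congrArg Units.val h1

end Pow

theorem L_pow {R : Type u} [Ring R] (τ : R →+ ℤ_[p]) (hτ : ∀ a b, τ (a * b) = τ (b * a)) {w : R}
    (h : Cong (p : R) w) (n : ℕ) : Cong (p : R) (w ^ n) ∧ L τ (w ^ n) = n * L τ w := by
  induction n with
  | zero =>
    rw [pow_zero, L_one]
    exact ⟨Cong.one _, by simp⟩
  | succ n ih =>
    rw [pow_succ]
    refine ⟨ih.1.mul h, ?_⟩
    rw [L_mul τ hτ cen_p ih.1 h, ih.2]
    push_cast
    ring

section LU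

variable {H : Type u} [Group H]

theorem ga_comm {R : Type v} [CommRing R] (hc : ∀ a b : H, a * b = b * a)
    (x y : MonoidAlgebra R H) : x * y = y * x := by
  induction x using MonoidAlgebra.induction_linear with
  | zero => rw [zero_mul, mul_zero]
  | add x x' hx hx' => rw [add_mul, mul_add, hx, hx']
  | single g b =>
    induction y using MonoidAlgebra.induction_linear with
    | zero => rw [zero_mul, mul_zero]
    | add y y' hy hy' => rw [add_mul, mul_add, hy, hy']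
    | single h c =>
      rw [MonoidAlgebra.single_mul_single, MonoidAlgebra.single_mul_single, hc, mul_comm b c]

theorem fn_sum [Fintype H] (f : H → ℤ_[p]) (y : MonoidAlgebra ℤ_[p] H) :
    fn f y = ∑ c, f c * fn (dlt p c) y := by
  induction y using MonoidAlgebra.induction_linear with
  | zero => simp
  | add x y hx hy =>
    rw [map_add, hx, hy, ← Finset.sum_add_distrib]
    apply Finset.sum_congr rfl
    intro c _
    rw [map_add, mul_add]
  | single g n =>
    rw [fn_single, Finset.sum_eq_single g]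
    · rw [fn_single, dlt, if_pos rfl]
      ring
    · intro c _ hc
      rw [fn_single, dlt, if_neg (Ne.symm hc)]
      ring
    · intro h
      exact absurd (Finset.mem_univ _) h

theorem L_sum [Fintype H] (f : H → ℤ_[p]) {w : MonoidAlgebra ℤ_[p] H}
    (h : Cong (p : MonoidAlgebra ℤ_[p] H) w) :
    L (fnA f) w = ∑ c, (f c : ℚ_[p]) * L (fnA (dlt p c)) w := by
  obtain ⟨x, hx⟩ := h
  have h1 : ∀ τ : MonoidAlgebra ℤ_[p] H →+ ℤ_[p], L τ w = tl τ ((p : MonoidAlgebra ℤ_[p] H) * x) := by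
    intro τ
    rw [hx, L_one_add]
  have h2 : tlTerm (fnA f) ((p : MonoidAlgebra ℤ_[p] H) * x) =
      fun k => ∑ c, (f c : ℚ_[p]) * tlTerm (fnA (dlt p c)) ((p : MonoidAlgebra ℤ_[p] H) * x) k := by
    funext k
    simp only [tlTerm, fnA_apply]
    rw [fn_sum f]
    rw [PadicInt.coe_sum, Finset.mul_sum, Finset.sum_div]
    apply Finset.sum_congr rfl
    intro c _
    rw [PadicInt.coe_mul]
    ring
  have h3 : ∀ c ∈ (Finset.univ : Finset H), Summable (fun k =>
      (f c : ℚ_[p]) * tlTerm (fnA (dlt p c)) ((p : MonoidAlgebra ℤ_[p] H) * x) k) := by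
    intro c _
    exact (tl_summable _ cen_p x).mul_left _
  rw [h1, tl, h2, Summable.tsum_finsetSum h3]
  apply Finset.sum_congr rfl
  intro c _
  rw [tsum_mul_left, h1, tl]

variable [Finite H]

/-- The logarithmic functional of `f` on units of `ℤ_[p][H]`. -/
noncomputable def LU (f : H → ℤ_[p]) (δ : (MonoidAlgebra ℤ_[p] H)ˣ) : ℚ_[p] :=
  (NP p H : ℚ_[p])⁻¹ * L (fnA f) ((δ ^ NP p H : (MonoidAlgebra ℤ_[p] H)ˣ) : MonoidAlgebra ℤ_[p] H)

theorem LU_eq (f : H → ℤ_[p]) (hf : ∀ x y, f (x * y) = f (y * x))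
    (δ : (MonoidAlgebra ℤ_[p] H)ˣ) (m : ℕ) (hm : m ≠ 0)
    (h : C3 p ((δ ^ m : (MonoidAlgebra ℤ_[p] H)ˣ) : MonoidAlgebra ℤ_[p] H)) :
    LU f δ = (m : ℚ_[p])⁻¹ *
      L (fnA f) ((δ ^ m : (MonoidAlgebra ℤ_[p] H)ˣ) : MonoidAlgebra ℤ_[p] H) := by
  have h1 := (L_pow (fnA f) (fnA_comm f hf) h.cong (NP p H)).2
  have h2 := (L_pow (fnA f) (fnA_comm f hf) (C3_pow_NP δ).cong m).2
  have h3 : ((δ ^ m : (MonoidAlgebra ℤ_[p] H)ˣ) : MonoidAlgebra ℤ_[p] H) ^ NP p H =
      ((δ ^ NP p H : (MonoidAlgebra ℤ_[p] H)ˣ) : MonoidAlgebra ℤ_[p] H) ^ m := by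
    rw [← Units.val_pow_eq_pow_val, ← Units.val_pow_eq_pow_val, ← pow_mul, ← pow_mul, mul_comm]
  rw [h3, h2] at h1
  have hN : (NP p H : ℚ_[p]) ≠ 0 := by exact_mod_cast NP_ne_zero (p := p) (C := H)
  have hm' : (m : ℚ_[p]) ≠ 0 := by exact_mod_cast hm
  rw [LU]
  field_simp
  linear_combination h1

theorem LU_mul (hc : ∀ a b : H, a * b = b * a) (f : H → ℤ_[p])
    (δ δ' : (MonoidAlgebra ℤ_[p] H)ˣ) : LU f (δ * δ') = LU f δ + LU f δ' := by
  have hcm : Commute δ δ' := Units.ext (ga_comm hc _ _)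
  rw [LU, LU, LU, hcm.mul_pow, Units.val_mul,
    L_mul (fnA f) (fnA_comm f (fun x y => by rw [hc])) cen_p (C3_pow_NP δ).cong
      (C3_pow_NP δ').cong]
  ring

theorem fn_gr {G : Type u} [Group G] {H' : Type v} [Group H'] (φ : G →* H') (f : H' → ℤ_[p])
    (a : MonoidAlgebra ℤ_[p] G) :
    fn f (MonoidAlgebra.mapDomainRingHom ℤ_[p] φ a) = fn (fun g => f (φ g)) a := by
  induction a using MonoidAlgebra.induction_linear with
  | zero => simp
  | add x y hx hy => rw [map_add, map_add, map_add, hx, hy]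
  | single g n =>
    change fn f (MonoidAlgebra.mapDomain φ (MonoidAlgebra.single g n)) = _
    rw [MonoidAlgebra.mapDomain_single, fn_single, fn_single]

theorem LU_map {H' : Type v} [Group H'] [Finite H'] (φ : H →* H') (f : H' → ℤ_[p])
    (hf : ∀ x y, f (x * y) = f (y * x)) (δ : (MonoidAlgebra ℤ_[p] H)ˣ) :
    LU f (Units.map (MonoidAlgebra.mapDomainRingHom ℤ_[p] φ).toMonoidHom δ) =
      LU (fun x => f (φ x)) δ := by
  have h1 : ((Units.map (MonoidAlgebra.mapDomainRingHom ℤ_[p] φ).toMonoidHom δ ^ NP p H :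
      (MonoidAlgebra ℤ_[p] H')ˣ) : MonoidAlgebra ℤ_[p] H') =
      MonoidAlgebra.mapDomainRingHom ℤ_[p] φ
        ((δ ^ NP p H : (MonoidAlgebra ℤ_[p] H)ˣ) : MonoidAlgebra ℤ_[p] H) := by
    rw [← map_pow]
    rfl
  rw [LU_eq f hf _ (NP p H) NP_ne_zero (by rw [h1]; exact (C3_pow_NP δ).map _), h1, LU, L_map]
  congr 1
  exact L_congr_fun (fun x => fn_gr φ f x) _

theorem LU_sum [Fintype H] (f : H → ℤ_[p]) (δ : (MonoidAlgebra ℤ_[p] H)ˣ) :
    LU f δ = ∑ c, (f c : ℚ_[p]) * LU (dlt p c) δ := by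
  rw [LU, L_sum f (C3_pow_NP δ).cong, Finset.mul_sum]
  apply Finset.sum_congr rfl
  intro c _
  rw [LU]
  ring

/-- Units with vanishing logarithm have finite order. -/
theorem LU_detect {x : (MonoidAlgebra ℤ_[p] H)ˣ} (h : ∀ c, LU (dlt p c) x = 0) :
    x ^ NP p H = 1 := by
  apply Units.ext
  rw [Units.val_one]
  apply eq_one_of_L (C3_pow_NP x)
  intro c
  have h1 := h c
  rw [LU] at h1
  rcases mul_eq_zero.1 h1 with h2 | h2
  · exact absurd (inv_eq_zero.1 h2) (by exact_mod_cast NP_ne_zero (p := p) (C := H))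
  · exact h2

end LU

end Pool.Agent.H71.KP
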