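import Pool.Agent.H71.KP.Desc
import Pool.Agent.H71.KP.Sys0
import Pool.Agent.H71.KP.Cassels

/-!
# The kernel of the assembly map is torsion for domains of characteristic zero
-/

set_option autoImplicit false

open Matrix Filter

universe u v w

namespace Pool.Agent.H71.KP

theorem finiteType_sub {R : Type u} [CommRing R] (s : Finset R) :
    Algebra.FiniteType ℤ (sub s) := by
  have h1 : Algebra.FiniteType ℤ (Algebra.adjoin ℤ (s : Set R)) :=
    (Subalgebra.fg_iff_finiteType _).1 (Subalgebra.fg_adjoin_finset s)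
  have h2 : ∀ x : R, x ∈ Algebra.adjoin ℤ (s : Set R) ↔ x ∈ sub s := by
    intro x
    rw [Algebra.adjoin_int]
    exact Iff.rfl
  let f : Algebra.adjoin ℤ (s : Set R) →+* sub s :=
    { toFun := fun x => ⟨x.1, (h2 x.1).1 x.2⟩
      map_one' := rfl
      map_mul' := fun _ _ => rfl
      map_zero' := rfl
      map_add' := fun _ _ => rfl }
  exact Algebra.FiniteType.of_surjective f.toIntAlgHom
    (fun x => ⟨⟨x.1, (h2 x.1).2 x.2⟩, rfl⟩)

/-- **The kernel of the assembly map is a torsion group** for domains of characteristic zero. -/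
theorem kernel_torsion {R : Type u} [CommRing R] [IsDomain R] [CharZero R] {G : Type v} [Group G]
    (z : ColimU R G) (M : ℤ) (hM : M ≠ 0) (h : M • assembly R G z = 0) :
    ∃ m : ℤ, m ≠ 0 ∧ m • z = 0 := by
  obtain ⟨s, z', hz, h'⟩ := (eventually_kernel z M h).exists
  have : CharZero (sub s) := ⟨fun a b hab => by
    have h1 := congrArg (incl s) hab
    rw [map_natCast, map_natCast] at h1
    exact Nat.cast_injective h1⟩
  have := finiteType_sub s
  obtain ⟨p, hp, ρ, hρ⟩ := exists_padic_embedding (sub s)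
  obtain ⟨m, hm, h1⟩ := kernel_torsion_of_padic ρ hρ z' M hM h'
  exact ⟨m, hm, by rw [← hz, ← map_zsmul, h1, map_zero]⟩

end Pool.Agent.H71.KP
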