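import Pool.Agent.H71.KP.Ten

/-!
# The diagonal power is additive modulo norms; its logarithm
-/

set_option autoImplicit false
set_option linter.unusedSectionVars false

open scoped TensorProduct

universe u v

namespace Pool.Agent.H71.KP

section Orbit

variable {p : ℕ} [hp : Fact p.Prime] {M : Type u} [Ring M] (t : TwTr p M)

theorem orbit_inj {X : Type v} (σ : ZMod p → X → X) (h0 : ∀ x, σ 0 x = x)
    (hadd : ∀ i j x, σ (i + j) x = σ i (σ j x)) {x : X} (hx : σ 1 x ≠ x) :
    Function.Injective (fun i => σ i x) := by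
  intro i j hij
  by_contra hne
  apply hx
  have hk : i - j ≠ 0 := sub_ne_zero.2 hne
  have h1 : σ (i - j) x = x := by
    have e1 : i - j = -j + i := by ring
    rw [e1, hadd]
    change σ (-j) ((fun i => σ i x) i) = x
    rw [hij]
    change σ (-j) (σ j x) = x
    rw [← hadd, neg_add_cancel, h0]
  have h2 : ∀ n : ℕ, σ ((n : ZMod p) * (i - j)) x = x := by
    intro n
    induction n with
    | zero => rw [Nat.cast_zero, zero_mul, h0]
    | succ n ih => rw [Nat.cast_succ, add_mul, one_mul, hadd, h1, ih]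
  have h3 := h2 ((i - j)⁻¹ : ZMod p).val
  rwa [ZMod.natCast_zmod_val, inv_mul_cancel₀ hk] at h3

theorem orbit_sum {X : Type v} [DecidableEq X] (σ : ZMod p → X → X) (h0 : ∀ x, σ 0 x = x)
    (hadd : ∀ i j x, σ (i + j) x = σ i (σ j x)) (f : X → M)
    (hf : ∀ i x, f (σ i x) = t.act i (f x)) (U : Finset X) :
    (∀ x ∈ U, ∀ i, σ i x ∈ U) → (∀ x ∈ U, σ 1 x ≠ x) → ∃ z, ∑ x ∈ U, f x = t.tr z := by
  induction U using Finset.strongInduction with
  | H U ih =>
    intro hU hne
    by_cases hemp : U = ∅
    · subst hemp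
      exact ⟨0, by simp⟩
    obtain ⟨x, hx⟩ := Finset.nonempty_iff_ne_empty.2 hemp
    let O : Finset X := Finset.univ.image (fun i => σ i x)
    have hinj := orbit_inj σ h0 hadd (hne x hx)
    have hO : O ⊆ U := by
      intro y hy
      obtain ⟨i, _, rfl⟩ := Finset.mem_image.1 hy
      exact hU x hx i
    have hxO : x ∈ O := Finset.mem_image.2 ⟨0, Finset.mem_univ _, h0 x⟩
    have hss : U \ O ⊂ U := by
      refine ⟨Finset.sdiff_subset, fun h => ?_⟩
      have := h hx
      rw [Finset.mem_sdiff] at this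
      exact this.2 hxO
    obtain ⟨z, hz⟩ := ih (U \ O) hss (by
      intro y hy i
      rw [Finset.mem_sdiff] at hy ⊢
      refine ⟨hU y hy.1 i, fun h => hy.2 ?_⟩
      obtain ⟨j, _, hj⟩ := Finset.mem_image.1 h
      refine Finset.mem_image.2 ⟨-i + j, Finset.mem_univ _, ?_⟩
      rw [hadd, show σ j x = σ i y from hj, ← hadd, neg_add_cancel, h0]) (by
      intro y hy
      exact hne y (Finset.mem_sdiff.1 hy).1)
    refine ⟨z + f x, ?_⟩
    rw [map_add, ← hz, ← Finset.sum_sdiff hO]
    congr 1
    rw [Finset.sum_image (fun i _ j _ h => hinj h)]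
    rw [TwTr.tr_apply]
    exact Finset.sum_congr rfl fun i _ => hf i x

end Orbit

variable (p : ℕ) [hp : Fact p.Prime] {A : Type u} [Ring A] [Algebra ℤ_[p] A]
  (τ : A →ₗ[ℤ_[p]] ℤ_[p]) (hτ : ∀ a b, τ (a * b) = τ (b * a))

/-- translation of subsets -/
def trans (i : ZMod p) (s : Finset (ZMod p)) : Finset (ZMod p) :=
  Finset.univ.filter (fun j => j + i ∈ s)

theorem mem_trans {i j : ZMod p} {s : Finset (ZMod p)} : j ∈ trans p i s ↔ j + i ∈ s := by
  simp [trans]

theorem trans_zero (s : Finset (ZMod p)) : trans p 0 s = s := by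
  ext j
  rw [mem_trans, add_zero]

theorem trans_add (i j : ZMod p) (s : Finset (ZMod p)) :
    trans p (i + j) s = trans p i (trans p j s) := by
  ext l
  rw [mem_trans, mem_trans, mem_trans, add_assoc]

theorem trans_fix {s : Finset (ZMod p)} (h : trans p 1 s = s) : s = ∅ ∨ s = Finset.univ := by
  rw [or_iff_not_imp_left]
  intro hs
  obtain ⟨x, hx⟩ := Finset.nonempty_iff_ne_empty.2 hs
  have h1 : ∀ j, j ∈ s → j + 1 ∈ s := by
    intro j hj
    rw [← h] at hj
    exact (mem_trans p).1 hj
  have h2 : ∀ n : ℕ, x + n ∈ s := by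
    intro n
    induction n with
    | zero => rwa [Nat.cast_zero, add_zero]
    | succ n ih => rw [Nat.cast_succ, ← add_assoc]; exact h1 _ ih
  rw [Finset.eq_univ_iff_forall]
  intro y
  have h3 := h2 (y - x).val
  rwa [ZMod.natCast_zmod_val, add_sub_cancel] at h3

/-- the mixed tensors -/
noncomputable def mx (a b : A) (s : Finset (ZMod p)) : TP p A :=
  tp p (s.piecewise (fun _ => a) (fun _ => b))

theorem mx_trans (a b : A) (i : ZMod p) (s : Finset (ZMod p)) :
    mx p a b (trans p i s) = sh p i (mx p a b s) := by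
  rw [mx, mx, sh_tp]
  congr 1
  funext j
  by_cases h : j + i ∈ s
  · rw [Finset.piecewise_eq_of_mem _ _ _ ((mem_trans p).2 h), Finset.piecewise_eq_of_mem _ _ _ h]
  · rw [Finset.piecewise_eq_of_notMem _ _ _ (fun h' => h ((mem_trans p).1 h')),
      Finset.piecewise_eq_of_notMem _ _ _ h]

theorem TT_add (a b : A) : ∃ z, TT p (a + b) - (TT p a + TT p b) = (tG p τ hτ).tr z := by
  classical
  have h1 : TT p (a + b) = ∑ s, mx p a b s := by
    have := (PiTensorProduct.tprod ℤ_[p] (s := fun _ : ZMod p => A)).map_add_univ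
      (fun _ => a) (fun _ => b)
    exact this
  obtain ⟨z, hz⟩ := orbit_sum (tG p τ hτ) (trans p) (trans_zero p) (trans_add p) (mx p a b)
    (fun i s => by rw [tG_act]; exact mx_trans p a b i s)
    (Finset.univ.filter (fun s => trans p 1 s ≠ s)) (by
      intro s hs i
      rw [Finset.mem_filter] at hs ⊢
      refine ⟨Finset.mem_univ _, fun h => hs.2 ?_⟩
      rw [← trans_add, add_comm, trans_add] at h
      have h3 := congrArg (trans p (-i)) h
      rw [← trans_add p (-i) i, ← trans_add p (-i) i, neg_add_cancel, trans_zero, trans_zero] at h3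
      exact h3) (by
      intro s hs
      exact (Finset.mem_filter.1 hs).2)
  refine ⟨z, ?_⟩
  have h2 : (Finset.univ.filter (fun s : Finset (ZMod p) => ¬ (trans p 1 s ≠ s))) =
      {∅, Finset.univ} := by
    ext s
    rw [Finset.mem_filter, not_not, Finset.mem_insert, Finset.mem_singleton]
    constructor
    · rintro ⟨_, h⟩
      exact trans_fix p h
    · rintro (rfl | rfl)
      · refine ⟨Finset.mem_univ _, ?_⟩
        ext j
        simp [mem_trans]
      · refine ⟨Finset.mem_univ _, ?_⟩
        ext j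
        simp [mem_trans]
  have h3 : (∅ : Finset (ZMod p)) ≠ Finset.univ := by
    intro h
    have := Finset.mem_univ (0 : ZMod p)
    rw [← h] at this
    exact absurd this (Finset.notMem_empty _)
  rw [h1, ← Finset.sum_filter_add_sum_filter_not Finset.univ (fun s => trans p 1 s ≠ s), h2,
    Finset.sum_pair h3, hz]
  have h4 : mx p a b ∅ = TT p b := by rw [mx, Finset.piecewise_empty]; rfl
  have h5 : mx p a b Finset.univ = TT p a := by rw [mx, Finset.piecewise_univ]; rfl
  rw [h4, h5]
  abel

theorem dvd_pow_sub (r : ℤ_[p]) : (p : ℤ_[p]) ∣ r ^ p - r := by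
  have h : PadicInt.toZMod (r ^ p - r) = 0 := by
    rw [map_sub, map_pow, ZMod.pow_card, sub_self]
  have h1 : r ^ p - r ∈ RingHom.ker (PadicInt.toZMod (p := p)) := h
  rw [PadicInt.ker_toZMod, PadicInt.maximalIdeal_eq_span_p, Ideal.mem_span_singleton] at h1
  exact h1

theorem tr_smul (t : TwTr p (TP p A)) (ht : ∀ i x, t.act i x = sh p i x) (r : ℤ_[p])
    (x : TP p A) : t.tr (r • x) = r • t.tr x := by
  rw [TwTr.tr_apply, TwTr.tr_apply, Finset.smul_sum]
  apply Finset.sum_congr rfl
  intro i _
  rw [ht, ht, map_smul]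

theorem TT_smul_sub (r : ℤ_[p]) (a : A) :
    ∃ z, TT p (r • a) - r • TT p a = (tG p τ hτ).tr z := by
  obtain ⟨s, hs⟩ := dvd_pow_sub p r
  refine ⟨s • TT p a, ?_⟩
  rw [tr_smul p _ (fun _ _ => rfl), (tG p τ hτ).tr_fix (fun i => sh_TT p i a), TT_smul,
    ← sub_smul, hs, mul_comm (p : ℤ_[p]) s, mul_smul]
  congr 1
  rw [← nsmul_eq_mul, Nat.cast_smul_eq_nsmul]

/-- the inclusion of the `j`-th factor -/
noncomputable def kk (j : ZMod p) : A →+* TP p A :=
  (PiTensorProduct.singleAlgHom (R := ℤ_[p]) (A := fun _ : ZMod p => A) j).toRingHom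

theorem kk_apply (j : ZMod p) (a : A) : kk p j a = tp p (Pi.mulSingle j a) := rfl

theorem kk_comm (i j : ZMod p) {a b : A} (h : a * b = b * a) : kk p i a * kk p j b = kk p j b * kk p i a := by
  by_cases hij : i = j
  · subst hij
    rw [← map_mul, ← map_mul, h]
  · rw [kk_apply, kk_apply, tp_mul, tp_mul]
    congr 1
    funext l
    by_cases h1 : l = i
    · subst h1
      rw [Pi.mulSingle_eq_same, Pi.mulSingle_eq_of_ne hij, mul_one, one_mul]
    · rw [Pi.mulSingle_eq_of_ne h1, mul_one, one_mul]

include hτ in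
theorem kap_sh (i : ZMod p) (x : TP p A) : kap p τ (sh p i x) = kap p τ x :=
  (tG p τ hτ).κ_act i x

include hτ in
theorem kap_kk (j : ZMod p) (a : A) : kap p τ (kk p j a) = τ a := by
  have h1 : sh p j (kk p j a) = kk p 0 a := by
    rw [kk_apply, kk_apply, sh_tp]
    congr 1
    funext l
    by_cases h : l = 0
    · subst h
      rw [zero_add, Pi.mulSingle_eq_same, Pi.mulSingle_eq_same]
    · rw [Pi.mulSingle_eq_of_ne h, Pi.mulSingle_eq_of_ne (fun h' => h (by simpa using h'))]
  rw [← kap_sh p τ hτ j, h1, kk_apply, kap_tp]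
  congr 1
  have h2 : ∀ n : ℕ, n < p → oprod (fun n => (Pi.mulSingle (0 : ZMod p) a : ZMod p → A) n)
      (n + 1) = a := by
    intro n
    induction n with
    | zero =>
      intro _
      rw [oprod_succ, oprod_zero, one_mul, Nat.cast_zero, Pi.mulSingle_eq_same]
    | succ n ih =>
      intro hn
      rw [oprod_succ, ih (by omega), Pi.mulSingle_eq_of_ne, mul_one]
      intro h
      rw [ZMod.natCast_eq_zero_iff] at h
      exact absurd (Nat.le_of_dvd (Nat.succ_pos n) h) (by omega)
  have h3 := h2 (p - 1) (by have := hp.out.pos; omega)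
  rwa [Nat.sub_add_cancel hp.out.pos] at h3

/-- `kap τ` as an additive map -/
noncomputable def kapA : TP p A →+ ℤ_[p] := (kap p τ).toAddMonoidHom

/-- `τ` as an additive map -/
noncomputable def tauA : A →+ ℤ_[p] := τ.toAddMonoidHom

include hτ in
theorem L_TT (x : A) : L (kapA p τ) (TT p (1 + (p : A) * x)) =
    p * L (tauA p τ) (1 + (p : A) * x) := by
  classical
  set u := 1 + (p : A) * x with hu
  have hcl : ∀ y ∈ Set.range (fun j => kk p j x), ∀ z ∈ Set.range (fun j => kk p j x),
      y * z = z * y := by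
    rintro _ ⟨i, rfl⟩ _ ⟨j, rfl⟩
    exact kk_comm p i j rfl
  let S : Subring (TP p A) := Subring.closure (Set.range (fun j => kk p j x))
  have hS : ∀ a ∈ S, ∀ b ∈ S, a * b = b * a := by
    intro a ha b hb
    have := (Subring.isMulCommutative_closure hcl).is_comm.comm (⟨a, ha⟩ : S) ⟨b, hb⟩
    exact congrArg Subtype.val this
  have hk : ∀ j, kk p j u = 1 + (p : TP p A) * kk p j x := by
    intro j
    rw [hu, map_add, map_one, map_mul, map_natCast]
  have hL : ∀ j, L (kapA p τ) (kk p j u) = L (tauA p τ) u := by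
    intro j
    rw [L_map]
    apply L_congr_fun
    intro a
    exact kap_kk p τ hτ j a
  have key : ∀ s : Finset (ZMod p), (∃ y ∈ S, mx p u 1 s = 1 + (p : TP p A) * y) ∧
      L (kapA p τ) (mx p u 1 s) = s.card * L (tauA p τ) u := by
    intro s
    induction s using Finset.induction_on with
    | empty =>
      have h0 : mx p u 1 ∅ = 1 := by rw [mx, Finset.piecewise_empty]; rfl
      refine ⟨⟨0, S.zero_mem, ?_⟩, ?_⟩
      · rw [h0]; simp
      · rw [h0, L_one]; simp
    | insert j s hj ih =>
      obtain ⟨⟨y, hy, hy'⟩, ih2⟩ := ih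
      have e1 : mx p u 1 (insert j s) = kk p j u * mx p u 1 s := by
        rw [mx, mx, kk_apply, tp_mul]
        congr 1
        funext l
        by_cases h : l = j
        · subst h
          rw [Finset.piecewise_eq_of_mem _ _ _ (Finset.mem_insert_self _ _),
            Pi.mulSingle_eq_same, Finset.piecewise_eq_of_notMem _ _ _ hj, mul_one]
        · rw [Pi.mulSingle_eq_of_ne h, one_mul]
          by_cases h2 : l ∈ s
          · rw [Finset.piecewise_eq_of_mem _ _ _ (Finset.mem_insert_of_mem h2),
              Finset.piecewise_eq_of_mem _ _ _ h2]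
          · rw [Finset.piecewise_eq_of_notMem _ _ _ (fun h3 => by
              rcases Finset.mem_insert.1 h3 with h4 | h4
              · exact h h4
              · exact h2 h4), Finset.piecewise_eq_of_notMem _ _ _ h2]
      have hx : kk p j x ∈ S := Subring.subset_closure ⟨j, rfl⟩
      refine ⟨⟨kk p j x + y + (p : TP p A) * (kk p j x * y), ?_, ?_⟩, ?_⟩
      · exact S.add_mem (S.add_mem hx hy) (S.mul_mem (natCast_mem S p) (S.mul_mem hx hy))
      · rw [e1, hk, hy', add_mul, one_mul, mul_add, mul_one, mul_add, mul_add,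
          mul_assoc (p : TP p A) (kk p j x), ← mul_assoc (kk p j x), ← p_comm (kk p j x)]
        simp only [mul_assoc]
        abel
      · rw [e1, hk, hy', L_mul_sub (kapA p τ) S (fun a ha b hb => by rw [hS a ha b hb]) hx hy,
          ← hk, ← hy', ih2, hL, Finset.card_insert_of_notMem hj]
        push_cast
        ring
  have h1 := (key Finset.univ).2
  have h2 : mx p u 1 Finset.univ = TT p u := by rw [mx, Finset.piecewise_univ]; rfl
  rw [h2, Finset.card_univ, ZMod.card] at h1
  exact h1

section Free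

variable [Module.Free ℤ_[p] A]

theorem smul_inj {n : ℕ} (hn : n ≠ 0) {x y : TP p A} (h : (n : TP p A) * x = (n : TP p A) * y) :
    x = y := by
  let b := Module.Free.chooseBasis ℤ_[p] A
  let B := Basis.piTensorProduct (fun _ : ZMod p => b)
  apply B.repr.injective
  ext i
  have h1 := congrArg (fun z => B.repr z i) h
  have h2 : ∀ z : TP p A, B.repr ((n : TP p A) * z) i = n * B.repr z i := by
    intro z
    rw [← nsmul_eq_mul, map_nsmul, Finsupp.smul_apply, nsmul_eq_mul]
  simp only [h2] at h1
  have hn0 : (n : ℤ_[p]) ≠ 0 := by exact_mod_cast hn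
  exact mul_left_cancel₀ hn0 h1

theorem fix_of_mul (t : TwTr p (TP p A)) {n : ℕ} (hn : n ≠ 0) {x : TP p A}
    (h : t.Fix ((n : TP p A) * x)) : t.Fix x := by
  intro i
  apply smul_inj p hn
  have := h i
  rwa [map_mul, map_natCast] at this

end Free

end Pool.Agent.H71.KP
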