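import Pool.Agent.H71.KP.Expand
import Pool.Agent.H71.KP.Dvr

/-!
# Embeddings of finitely generated fields of characteristic `p` in fields of Laurent series

PROOF. Let `Ω` be an algebraic closure of `k`. Extend `x` to a transcendence basis `{x} ∪ B'` of `k`
over `ZMod p` (`x ∉ B'`), and let `E` be the algebraic closure of `(ZMod p)(B')` in `Ω`
(`algebraicClosure`, an intermediate field; it is algebraically closed since `Ω` is), and
`K = E k` the subfield of `Ω` generated by `E` and `k` (`IntermediateField.adjoin E`). Then `x` is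
transcendental over `E`, `K` is algebraic over `E(x)` and essentially of finite type over `E`. As `E`
is perfect there is a separating transcendence basis `s` of `K` over `E`
(`exists_isTranscendenceBasis_and_isSeparable_of_perfectField`), which has one element `y`, since
`{x}` is also a transcendence basis. `K` is finite over `E(y)`. Apply `exists_dvr` to `x`, then
`exists_laurent_of_dvr` to the discrete valuation ring, and restrict to `k`. Note that
`order (φ (x⁻¹)) = - order (φ x)`.
-/

set_option autoImplicit false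

universe u v

namespace Pool.Agent.H71.KP

open IntermediateField

theorem Place_trdeg_simple {E Ω : Type u} [Field E] [Field Ω] [Algebra E Ω] (x' : Ω) :
    Algebra.trdeg E (IntermediateField.adjoin E {x'}) ≤ 1 := by
  open scoped algebraAdjoinAdjoin in
  have alg : Algebra.IsAlgebraic (Algebra.adjoin E {AdjoinSimple.gen E x'})
      (IntermediateField.adjoin E {x'}) := by
    let v : IntermediateField.adjoin E {x'} →ₐ[E] Ω := (IntermediateField.adjoin E {x'}).val
    have hmap : (Algebra.adjoin E {AdjoinSimple.gen E x'}).map v = Algebra.adjoin E {x'} := by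
      rw [AlgHom.map_adjoin]
      simp [v]
    have hmem : ∀ w : Algebra.adjoin E {AdjoinSimple.gen E x'},
        v (w : IntermediateField.adjoin E {x'}) ∈ Algebra.adjoin E {x'} := by
      intro w
      rw [← hmap]
      exact ⟨w, w.2, rfl⟩
    let f : Algebra.adjoin E {AdjoinSimple.gen E x'} →+* Algebra.adjoin E {x'} :=
      { toFun := fun w => ⟨v w, hmem w⟩
        map_one' := by ext; simp
        map_mul' := by intro a b; ext; simp
        map_zero' := by ext; simp
        map_add' := by intro a b; ext; simp }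
    refine Algebra.IsAlgebraic.of_ringHom_of_comp_eq (S := Algebra.adjoin E {x'})
      (B := IntermediateField.adjoin E {x'}) f
      (RingHom.id (IntermediateField.adjoin E {x'})) ?_ Function.injective_id ?_
    · rintro ⟨w, hw⟩
      rw [← hmap] at hw
      obtain ⟨z, hz, rfl⟩ := hw
      exact ⟨⟨z, hz⟩, rfl⟩
    · ext w
      rfl
  refine le_trans (Algebra.IsAlgebraic.trdeg_le_cardinalMk E {AdjoinSimple.gen E x'}) ?_
  simp

theorem Place_alg {R : Type v} {k Ω : Type u} [Field R] [Field k] [Field Ω] [Algebra R k] [Algebra R Ω]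
    [Algebra k Ω] [IsScalarTower R k Ω] {t : Set k}
    (ht : IsTranscendenceBasis R ((↑) : t → k)) (x : k)
    {E : Type u} [Field E] [Algebra E Ω] [Algebra R E] [IsScalarTower R E Ω]
    (hE : ∀ y ∈ t, y ≠ x → algebraMap k Ω y ∈ (algebraMap E Ω).range) (z : k) :
    IsAlgebraic (IntermediateField.adjoin E {algebraMap k Ω x}) (algebraMap k Ω z) := by
  have h1 := ht.isAlgebraic_field
  have h2 := h1.isAlgebraic z
  set L := IntermediateField.adjoin E {algebraMap k Ω x} with hL
  have hle : IntermediateField.adjoin R (Set.range ((↑) : t → k)) ≤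
      (L.restrictScalars R).comap (IsScalarTower.toAlgHom R k Ω) := by
    rw [IntermediateField.adjoin_le_iff]
    rintro _ ⟨y, rfl⟩
    show algebraMap k Ω (y : k) ∈ L
    by_cases hyx : (y : k) = x
    · rw [hyx]
      exact IntermediateField.mem_adjoin_simple_self E _
    · obtain ⟨e, he⟩ := hE y y.2 hyx
      rw [← he]
      exact L.algebraMap_mem e
  have hmem : ∀ w : IntermediateField.adjoin R (Set.range ((↑) : t → k)),
      algebraMap k Ω (w : k) ∈ L := fun w => hle w.2
  let f : IntermediateField.adjoin R (Set.range ((↑) : t → k)) →+* L :=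
    { toFun := fun w => ⟨algebraMap k Ω (w : k), hmem w⟩
      map_one' := by ext; simp
      map_mul' := by intro a b; ext; simp
      map_zero' := by ext; simp
      map_add' := by intro a b; ext; simp }
  refine h2.ringHom_of_comp_eq f (algebraMap k Ω) f.injective ?_
  ext w
  rfl

theorem Place_tr {R : Type v} {k Ω : Type u} [Field R] [Field k] [Field Ω] [Algebra R k] [Algebra R Ω]
    [Algebra k Ω] [IsScalarTower R k Ω] {t : Set k}
    (ht : IsTranscendenceBasis R ((↑) : t → k)) (x : k) (hx : x ∈ t) :
    Transcendental (IntermediateField.adjoin R ((algebraMap k Ω) '' (t \ {x})))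
      (algebraMap k Ω x) := by
  have h1 : AlgebraicIndependent R ((IsScalarTower.toAlgHom R k Ω) ∘ ((↑) : t → k)) :=
    ht.1.map' (f := IsScalarTower.toAlgHom R k Ω) (algebraMap k Ω).injective
  have h2 := h1.transcendental_adjoin (s := {i : t | (i : k) ≠ x}) (i := ⟨x, hx⟩) (by simp)
  have hset : ((IsScalarTower.toAlgHom R k Ω) ∘ ((↑) : t → k)) '' {i : t | (i : k) ≠ x}
      = (algebraMap k Ω) '' (t \ {x}) := by
    ext w
    constructor
    · rintro ⟨i, hi, rfl⟩
      exact ⟨i, ⟨i.2, hi⟩, rfl⟩
    · rintro ⟨i, ⟨hi1, hi2⟩, rfl⟩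
      exact ⟨⟨i, hi1⟩, hi2, rfl⟩
  rw [hset] at h2
  open scoped algebraAdjoinAdjoin in
  exact h2.extendScalars (S := IntermediateField.adjoin R ((algebraMap k Ω) '' (t \ {x})))

theorem Place_exE {R : Type v} {k Ω : Type u} [Field R] [Field k] [Field Ω] [Algebra R k] [Algebra R Ω]
    [Algebra k Ω] [IsScalarTower R k Ω] [IsAlgClosed Ω] (x : k) {t : Set k}
    (ht : IsTranscendenceBasis R ((↑) : t → k)) (hxt : x ∈ t) (F0 : IntermediateField R Ω)
    (hF0 : F0 = IntermediateField.adjoin R ((algebraMap k Ω) '' (t \ {x}))) :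
    ∃ (E : Type u) (_ : Field E) (_ : IsAlgClosed E) (_ : Algebra E Ω),
      (∀ r : R, algebraMap R Ω r ∈ (algebraMap E Ω).range) ∧
      Transcendental E (algebraMap k Ω x) ∧
      ∀ z : k, IsAlgebraic (IntermediateField.adjoin E {algebraMap k Ω x}) (algebraMap k Ω z) := by
  have htr0 : Transcendental F0 (algebraMap k Ω x) := by
    subst hF0
    exact Place_tr ht x hxt
  have hE : IsAlgClosed (algebraicClosure F0 Ω) :=
    (IsAlgClosed.algebraicClosure_eq_bot_iff (algebraicClosure F0 Ω) Ω).mp
      (algebraicClosure.algebraicClosure_eq_bot F0 Ω)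
  have htow : IsScalarTower R (algebraicClosure F0 Ω) Ω :=
    IsScalarTower.of_algebraMap_eq (fun r => rfl)
  refine ⟨algebraicClosure F0 Ω, inferInstance, hE, inferInstance,
    fun r => ⟨algebraMap R (algebraicClosure F0 Ω) r, rfl⟩, htr0.algebraicClosure, ?_⟩
  intro z
  refine Place_alg (R := R) (E := algebraicClosure F0 Ω) ht x ?_ z
  intro y hy hyx
  have h1 : algebraMap k Ω y ∈ F0 := by
    rw [hF0]
    exact IntermediateField.subset_adjoin _ _ ⟨y, ⟨hy, hyx⟩, rfl⟩
  have h2 : algebraMap k Ω y ∈ algebraicClosure F0 Ω :=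
    (algebraicClosure F0 Ω).algebraMap_mem (⟨_, h1⟩ : F0)
  exact ⟨⟨_, h2⟩, rfl⟩

theorem Place_finK {R : Type v} {k Ω L : Type u} [Field R] [Field k] [Field Ω] [Field L] [Algebra R k]
    [Algebra R Ω] [Algebra k Ω] [IsScalarTower R k Ω] [Algebra L Ω]
    (hR : ∀ r : R, algebraMap R Ω r ∈ (algebraMap L Ω).range) [Algebra.EssFiniteType R k] :
    Algebra.EssFiniteType L (IntermediateField.adjoin L (Set.range (algebraMap k Ω))) := by
  classical
  obtain ⟨s, hs⟩ := IntermediateField.fg_top R k
  rw [IntermediateField.essFiniteType_iff]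
  refine ⟨s.image (algebraMap k Ω), ?_⟩
  apply le_antisymm
  · rw [IntermediateField.adjoin_le_iff]
    intro w hw
    simp only [Finset.coe_image, Set.mem_image] at hw
    obtain ⟨z, hz, rfl⟩ := hw
    exact IntermediateField.subset_adjoin _ _ ⟨z, rfl⟩
  · rw [IntermediateField.adjoin_le_iff]
    rintro _ ⟨z, rfl⟩
    have hle : IntermediateField.adjoin R (s : Set k) ≤
        (((IntermediateField.adjoin L ((s.image (algebraMap k Ω) : Finset Ω) : Set Ω)).toSubfield).comap
          (algebraMap k Ω)).toIntermediateField (by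
            intro r
            show algebraMap k Ω (algebraMap R k r) ∈
              IntermediateField.adjoin L ((s.image (algebraMap k Ω) : Finset Ω) : Set Ω)
            rw [← IsScalarTower.algebraMap_apply R k Ω]
            obtain ⟨l, hl⟩ := hR r
            rw [← hl]
            exact IntermediateField.algebraMap_mem _ l) := by
      rw [IntermediateField.adjoin_le_iff]
      intro y hy
      show algebraMap k Ω y ∈
        IntermediateField.adjoin L ((s.image (algebraMap k Ω) : Finset Ω) : Set Ω)
      refine IntermediateField.subset_adjoin _ _ ?_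
      rw [Finset.coe_image]
      exact ⟨y, hy, rfl⟩
    have hz : z ∈ IntermediateField.adjoin R (s : Set k) := by
      rw [hs]
      exact IntermediateField.mem_top
    exact hle hz

theorem Place_card {E K : Type u} [Field E] [Field K] [Algebra E K] (s : Finset K)
    (hs : IsTranscendenceBasis E ((↑) : s → K)) (h1 : Algebra.trdeg E K ≤ 1)
    (h0 : ¬ Algebra.IsAlgebraic E K) : ∃ y : K, s = {y} := by
  have h2 := hs.cardinalMk_eq_trdeg
  rw [← h2] at h1
  simp only [Cardinal.mk_coe_finset] at h1
  have h3 : s.card ≤ 1 := by exact_mod_cast h1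
  have h4 : s.card ≠ 0 := by
    intro h5
    rw [Finset.card_eq_zero] at h5
    subst h5
    apply h0
    rw [← hs.isEmpty_iff_isAlgebraic]
    infer_instance
  exact Finset.card_eq_one.1 (by omega)

theorem Place_core {R : Type v} {k Ω E : Type u} [Field R] [Field k] [Field Ω] [Field E] [IsAlgClosed E]
    [Algebra R k] [Algebra R Ω] [Algebra k Ω] [IsScalarTower R k Ω] [Algebra E Ω]
    [Algebra.EssFiniteType R k] (x : k)
    (hR : ∀ r : R, algebraMap R Ω r ∈ (algebraMap E Ω).range)
    (htr : Transcendental E (algebraMap k Ω x))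
    (L : IntermediateField E Ω) (hL : L = IntermediateField.adjoin E {algebraMap k Ω x})
    (halg : ∀ z : k, IsAlgebraic L (algebraMap k Ω z))
    (K : IntermediateField L Ω) (hK : K = IntermediateField.adjoin L (Set.range (algebraMap k Ω))) :
    ∃ φ : k →+* LaurentSeries E, (φ x).order ≠ 0 := by
  have hKalg : Algebra.IsAlgebraic L K := by
    rw [hK, IntermediateField.isAlgebraic_adjoin_iff_isAlgebraic]
    rintro _ ⟨z, rfl⟩
    exact halg z
  have hKfin : Algebra.EssFiniteType L K := by
    rw [hK]
    refine Place_finK (R := R) (k := k) ?_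
    intro r
    obtain ⟨e, he⟩ := hR r
    refine ⟨algebraMap E L e, ?_⟩
    rw [← he]
    rfl
  have hLfin : Algebra.EssFiniteType E L := by
    rw [IntermediateField.essFiniteType_iff, hL]
    exact ⟨{algebraMap k Ω x}, by simp⟩
  have htow : IsScalarTower E L K := IsScalarTower.of_algebraMap_eq (fun e => rfl)
  have hEK : Algebra.EssFiniteType E K := Algebra.EssFiniteType.comp E L K
  have hxK : algebraMap k Ω x ∈ K := by
    rw [hK]
    exact IntermediateField.subset_adjoin _ _ ⟨x, rfl⟩
  have hnalg : ¬ Algebra.IsAlgebraic E K := by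
    intro h
    have h1 := h.isAlgebraic ⟨_, hxK⟩
    apply htr
    have htow2 : IsScalarTower E K Ω := IsScalarTower.of_algebraMap_eq (fun e => rfl)
    have h2 : IsAlgebraic E (algebraMap K Ω ⟨_, hxK⟩) := h1.algebraMap
    exact h2
  have htrdeg : Algebra.trdeg E K ≤ 1 := by
    have hf1 : FaithfulSMul L K :=
      (faithfulSMul_iff_algebraMap_injective L K).mpr (algebraMap L K).injective
    have hf2 : FaithfulSMul E L :=
      (faithfulSMul_iff_algebraMap_injective E L).mpr (algebraMap E L).injective
    rw [← trdeg_add_eq E L (A := K), trdeg_eq_zero (R := L) (A := K), add_zero, hL]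
    exact Place_trdeg_simple _
  obtain ⟨s, hs1, hs2⟩ := exists_isTranscendenceBasis_and_isSeparable_of_perfectField E K
  obtain ⟨y, rfl⟩ := Place_card s hs1 htrdeg hnalg
  have hsep : Algebra.IsSeparable (IntermediateField.adjoin E {y}) K := by
    have h1 : ((({y} : Finset K) : Set K)) = {y} := Finset.coe_singleton y
    rw [h1] at hs2
    exact hs2
  have hfd : FiniteDimensional (IntermediateField.adjoin E {y}) K := by
    have h1 : Algebra.EssFiniteType (IntermediateField.adjoin E {y}) K :=
      Algebra.EssFiniteType.of_comp E (IntermediateField.adjoin E {y}) K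
    exact Algebra.finite_of_essFiniteType_of_isAlgebraic
  have hytr : Transcendental E y := by
    have h1 := hs1.1
    exact (algebraicIndependent_singleton_iff (x := ((↑) : ({y} : Finset K) → K))
      ⟨y, Finset.mem_singleton_self y⟩).1 h1
  have hxr : (⟨_, hxK⟩ : K) ∉ (algebraMap E K).range := by
    rintro ⟨e, he⟩
    apply htr
    have h1 : algebraMap E Ω e = algebraMap k Ω x := congrArg (fun w : K => (w : Ω)) he
    rw [← h1]
    exact isAlgebraic_algebraMap e
  obtain ⟨O, hO, i, hi, a, ha, hax⟩ := exists_dvr y hytr (⟨_, hxK⟩ : K) hxr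
  obtain ⟨φ, hφ⟩ := exists_laurent_of_dvr K i hi
  have hmemK : ∀ z : k, algebraMap k Ω z ∈ K := by
    intro z
    rw [hK]
    exact IntermediateField.subset_adjoin _ _ ⟨z, rfl⟩
  let ψ : k →+* K :=
    { toFun := fun w => ⟨algebraMap k Ω w, hmemK w⟩
      map_one' := by ext; simp
      map_mul' := by intro a b; ext; simp
      map_zero' := by ext; simp
      map_add' := by intro a b; ext; simp }
  have hx0 : x ≠ 0 := by
    rintro rfl
    apply htr
    rw [map_zero]
    exact isAlgebraic_zero
  refine ⟨φ.comp ψ, ?_⟩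
  rcases hax with hax | hax
  · have ha0 : a ≠ 0 := by
      rintro rfl
      apply hx0
      have h1 : ψ x = 0 := by
        show (⟨_, hxK⟩ : K) = 0
        rw [← hax]
        rfl
      exact (map_eq_zero ψ).1 h1
    have h1 := hφ a ha0 ha
    have h2 : algebraMap O K a = ψ x := hax
    rw [h2] at h1
    exact ne_of_gt h1
  · have hψ : ψ (x⁻¹) = (⟨_, hxK⟩ : K)⁻¹ := by
      rw [map_inv₀]
      rfl
    have ha0 : a ≠ 0 := by
      rintro rfl
      apply inv_ne_zero hx0
      have h1 : ψ (x⁻¹) = 0 := by
        rw [hψ, ← hax]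
        rfl
      exact (map_eq_zero ψ).1 h1
    have h1 := hφ a ha0 ha
    have h2 : algebraMap O K a = ψ (x⁻¹) := by
      rw [hψ]
      exact hax
    rw [h2] at h1
    intro h3
    have h4 : (φ.comp ψ) x * (φ.comp ψ) (x⁻¹) = 1 := by
      rw [← map_mul, mul_inv_cancel₀ hx0, map_one]
    have h5 : (φ.comp ψ) x ≠ 0 := by
      rw [Ne, map_eq_zero]
      exact hx0
    have h6 : (φ.comp ψ) (x⁻¹) ≠ 0 := by
      rw [Ne, map_eq_zero]
      exact inv_ne_zero hx0
    have h7 := HahnSeries.order_mul h5 h6
    rw [h4, h3, zero_add, HahnSeries.order_one] at h7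
    have h8 : (0 : ℤ) < ((φ.comp ψ) (x⁻¹)).order := h1
    omega

/-- An element of a finitely generated field of characteristic `p` which is transcendental over the
prime field has nonzero order in some field of Laurent series over an algebraically closed field. -/
theorem exists_place (p : ℕ) [Fact p.Prime] (k : Type u) [Field k] [Algebra (ZMod p) k]
    [Algebra.EssFiniteType (ZMod p) k] (x : k) (hx : Transcendental (ZMod p) x) :
    ∃ (F : Type u) (_ : Field F) (_ : IsAlgClosed F) (φ : k →+* LaurentSeries F),
      (φ x).order ≠ 0 := by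
  have hind : AlgebraicIndepOn (ZMod p) id {x} := by
    have h1 : AlgebraicIndependent (ZMod p) (fun i : ({x} : Set k) => (i : k)) :=
      (algebraicIndependent_singleton_iff ⟨x, rfl⟩).2 hx
    exact h1
  obtain ⟨t, hxt, ht⟩ := exists_isTranscendenceBasis_superset hind
  obtain ⟨E, hE1, hE2, hE3, hR, htr, halg⟩ :=
    Place_exE (R := ZMod p) (Ω := AlgebraicClosure k) x ht (hxt rfl) _ rfl
  obtain ⟨φ, hφ⟩ := Place_core (R := ZMod p) (k := k) (Ω := AlgebraicClosure k) x hR htr _ rfl
    halg _ rfl
  exact ⟨E, hE1, hE2, φ, hφ⟩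

end Pool.Agent.H71.KP
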