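import Pool.Agent.H71.KP.Ring

/-!
# Restriction of units to subgroups
-/

set_option autoImplicit false
set_option linter.unusedSectionVars false
set_option linter.unusedSimpArgs false

open Matrix
open scoped Classical

universe u v w t

namespace Pool.Agent.H71.KP

theorem out_mem_iff {F : Type v} [Group F] (D : Subgroup F) (h : F) (x y : F ⧸ D) :
    x.out⁻¹ * h * y.out ∈ D ↔ x = h • y := by
  have h1 : h • y = ((h * y.out : F) : F ⧸ D) := by
    conv_lhs => rw [← QuotientGroup.out_eq' y]
    rfl
  rw [h1]
  conv_rhs => rw [← QuotientGroup.out_eq' x]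
  rw [QuotientGroup.eq, mul_assoc]

section Lam

variable (R : Type u) [CommRing R] {F : Type v} [Group F]

/-- The monomial matrix over `R[D]` of left multiplication by `h` on the free right `R[D]`-module
`R[F]`. -/
noncomputable def resMat (D : Subgroup F) (h : F) :
    Matrix (F ⧸ D) (F ⧸ D) (MonoidAlgebra R D) :=
  Matrix.of fun x y => if hh : x.out⁻¹ * h * y.out ∈ D then
    MonoidAlgebra.single (⟨x.out⁻¹ * h * y.out, hh⟩ : D) 1 else 0

/-- The restriction homomorphism `R[F] → Mat_{F/D}(R[D])`. -/
noncomputable def resA (D : Subgroup F) [Fintype (F ⧸ D)] :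
    MonoidAlgebra R F →ₐ[R] Matrix (F ⧸ D) (F ⧸ D) (MonoidAlgebra R D) :=
  MonoidAlgebra.lift R _ F
    { toFun := resMat R D
      map_one' := by
        refine Matrix.ext fun x y => ?_
        rw [resMat, of_apply, Matrix.one_apply]
        by_cases hxy : x = y
        · subst hxy
          have : x.out⁻¹ * 1 * x.out ∈ D := by simp
          rw [dif_pos this, if_pos rfl, MonoidAlgebra.one_def]
          refine congrArg (fun g : D => MonoidAlgebra.single g (1 : R)) (Subtype.ext ?_)
          simp
        · rw [dif_neg, if_neg hxy]
          rw [out_mem_iff, one_smul]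
          exact hxy
      map_mul' := by
        intro h h'
        refine Matrix.ext fun x z => ?_
        rw [Matrix.mul_apply, Finset.sum_eq_single (h' • z)]
        · simp only [resMat, of_apply]
          have h1 : (h' • z).out⁻¹ * h' * z.out ∈ D := (out_mem_iff D h' _ z).2 rfl
          rw [dif_pos h1]
          by_cases h2 : x.out⁻¹ * h * (h' • z).out ∈ D
          · have h3 : x.out⁻¹ * (h * h') * z.out ∈ D := by
              have := D.mul_mem h2 h1
              have e : x.out⁻¹ * h * (h' • z).out * ((h' • z).out⁻¹ * h' * z.out) =
                x.out⁻¹ * (h * h') * z.out := by group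
              rwa [e] at this
            rw [dif_pos h2, dif_pos h3, MonoidAlgebra.single_mul_single, one_mul]
            refine congrArg (fun g : D => MonoidAlgebra.single g (1 : R)) (Subtype.ext ?_)
            simp only [Subgroup.coe_mul]
            group
          · have h3 : ¬ x.out⁻¹ * (h * h') * z.out ∈ D := by
              intro h3
              apply h2
              rw [out_mem_iff] at h3 ⊢
              rw [h3, mul_smul]
            rw [dif_neg h2, dif_neg h3, zero_mul]
        · intro y _ hy
          simp only [resMat, of_apply]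
          have : ¬ y.out⁻¹ * h' * z.out ∈ D := by
            rw [out_mem_iff]
            exact hy
          rw [dif_neg this, mul_zero]
        · intro h1
          exact absurd (Finset.mem_univ _) h1 }

theorem resA_single (D : Subgroup F) [Fintype (F ⧸ D)] (h : F) (r : R) (x y : F ⧸ D) :
    resA R D (MonoidAlgebra.single h r) x y = if hh : x.out⁻¹ * h * y.out ∈ D then
      MonoidAlgebra.single (⟨x.out⁻¹ * h * y.out, hh⟩ : D) r else 0 := by
  rw [resA, MonoidAlgebra.lift_single]
  change r • (resMat R D h) x y = _
  rw [resMat, of_apply]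
  split_ifs
  · rw [MonoidAlgebra.smul_single, smul_eq_mul, mul_one]
  · rw [smul_zero]

/-- the restriction as a ring homomorphism -/
noncomputable def resR (D : Subgroup F) [Fintype (F ⧸ D)] :
    MonoidAlgebra R F →+* Matrix (F ⧸ D) (F ⧸ D) (MonoidAlgebra R D) := (resA R D).toRingHom

theorem resR_map {S : Type t} [CommRing S] (φ : R →+* S) (D : Subgroup F) [Fintype (F ⧸ D)]
    (x : MonoidAlgebra R F) : resR S D (MonoidAlgebra.mapRingHom F φ x) =
      (resR R D x).map (MonoidAlgebra.mapRingHom D φ) := by
  induction x using MonoidAlgebra.induction_linear with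
  | zero =>
    rw [map_zero, map_zero, map_zero]
    exact (Matrix.map_zero _ (map_zero _)).symm
  | add x y hx hy =>
    rw [map_add, map_add, map_add, hx, hy, Matrix.map_add _ (map_add _)]
  | single h r =>
    refine Matrix.ext fun a b => ?_
    rw [MonoidAlgebra.mapRingHom_single, Matrix.map_apply]
    change resA S D (MonoidAlgebra.single h (φ r)) a b =
      MonoidAlgebra.mapRingHom D φ (resA R D (MonoidAlgebra.single h r) a b)
    rw [resA_single, resA_single]
    split_ifs
    · rw [MonoidAlgebra.mapRingHom_single]
    · rw [map_zero]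

end Lam

section Comm

variable {R : Type u} [CommRing R] {H : Type w} [CommGroup H]

/-- The restriction of units, given by the determinant. -/
noncomputable def resU (E : Subgroup H) [Fintype (H ⧸ E)] :
    (MonoidAlgebra R H)ˣ →* (MonoidAlgebra R E)ˣ :=
  (Units.map (detMonoidHom : Matrix (H ⧸ E) (H ⧸ E) (MonoidAlgebra R E) →* MonoidAlgebra R E)).comp
    (Units.map (resR R E).toMonoidHom)

theorem resU_val (E : Subgroup H) [Fintype (H ⧸ E)] (x : (MonoidAlgebra R H)ˣ) :
    (resU E x : MonoidAlgebra R E) = det (resR R E (x : MonoidAlgebra R H)) := rfl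

theorem uMap_resU {S : Type t} [CommRing S] (φ : R →+* S) (E : Subgroup H) [Fintype (H ⧸ E)]
    (x : (MonoidAlgebra R H)ˣ) : uMap φ E (resU E x) = resU E (uMap φ H x) := by
  apply Units.ext
  rw [uMap_val, resU_val, resU_val, uMap_val, resR_map, RingHom.map_det]
  rfl

/-- the product of the restriction and the induction -/
noncomputable def ir (E : Subgroup H) [Fintype (H ⧸ E)] (x : (MonoidAlgebra R H)ˣ) :
    (MonoidAlgebra R H)ˣ := unitsMap E.subtype (resU E x)

end Comm

end Pool.Agent.H71.KP
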