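import Pool.Agent.H71.KP.Dlog
import Pool.Agent.H71.KP.Res

/-!
# The residue functionals on `K₁` in positive characteristic
-/

set_option autoImplicit false
set_option linter.unusedSectionVars false
set_option linter.unusedSimpArgs false

open Matrix

universe u v w t

namespace Pool.Agent.H71.KP

open Pool.Agent.H71.WH (emb emb_apply unitExt unitExt_val emb_comp emb_map blockOne_eq InvMat
  K1 K1.mk K1.unit K1Rel genK1 addOne oneByOne blockOne CycSub conjHom K1.mk_mul K1.unit_mul
  emb_zero_left eq_emb emb_zero_right)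

section Mat

variable {M : Type u} [Ring M] {B : Type v} [AddCommGroup B] (t : DT M B)

/-- the structure on matrices -/
def DT.mat (ι : Type w) [Fintype ι] [DecidableEq ι] : DT (Matrix ι ι M) B where
  D :=
    { toFun := fun x => x.map t.D
      map_zero' := Matrix.map_zero _ (map_zero t.D)
      map_add' := fun x y => Matrix.map_add _ (map_add t.D) x y }
  leib x y := by
    refine Matrix.ext fun i j => ?_
    change t.D ((x * y) i j) = (x.map t.D * y + x * y.map t.D) i j
    rw [Matrix.mul_apply, map_sum, Matrix.add_apply, Matrix.mul_apply, Matrix.mul_apply,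
      ← Finset.sum_add_distrib]
    exact Finset.sum_congr rfl fun k _ => t.leib _ _
  τ :=
    { toFun := fun x => ∑ i, t.τ (x i i)
      map_zero' := by simp
      map_add' := fun x y => by simp [Finset.sum_add_distrib] }
  comm x y := by
    change ∑ i, t.τ ((x * y) i i) = ∑ i, t.τ ((y * x) i i)
    simp only [Matrix.mul_apply, map_sum]
    rw [Finset.sum_comm]
    exact Finset.sum_congr rfl fun i _ => Finset.sum_congr rfl fun k _ => t.comm _ _
  τD x := Finset.sum_eq_zero fun i _ => t.τD (x i i)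

theorem DT.mat_D {ι : Type w} [Fintype ι] [DecidableEq ι] (x : Matrix ι ι M) :
    (t.mat ι).D x = x.map t.D := rfl

theorem DT.mat_τ {ι : Type w} [Fintype ι] [DecidableEq ι] (x : Matrix ι ι M) :
    (t.mat ι).τ x = ∑ i, t.τ (x i i) := rfl

theorem emb_map_D {ι κ : Type*} [Fintype ι] [DecidableEq ι] [Fintype κ] [DecidableEq κ]
    (ε : ι ↪ κ) (w : Matrix ι ι M) : (emb ε w).map t.D = emb ε (w.map t.D) := by
  apply eq_emb
  · intro i k
    rw [Matrix.map_apply, emb_apply, Matrix.map_apply]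
  · intro a b h
    rw [Matrix.map_apply, emb_zero_left _ _ h, map_zero]
  · intro a b h
    rw [Matrix.map_apply, emb_zero_right _ _ _ h, map_zero]

theorem τ_emb {ι κ : Type*} [Fintype ι] [DecidableEq ι] [Fintype κ] [DecidableEq κ]
    (ε : ι ↪ κ) (w : Matrix ι ι M) : (t.mat κ).τ (emb ε w) = (t.mat ι).τ w := by
  rw [t.mat_τ, t.mat_τ]
  have h1 : ∑ i, t.τ (w i i) = ∑ i, t.τ (emb ε w (ε i) (ε i)) := by
    simp only [emb_apply]
  rw [h1, ← Finset.sum_map Finset.univ ε (fun j => t.τ (emb ε w j j))]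
  symm
  apply Finset.sum_subset (Finset.subset_univ _)
  intro j _ hj
  rw [emb_zero_left, map_zero]
  intro i hi
  exact hj (Finset.mem_map.2 ⟨i, Finset.mem_univ _, hi.symm⟩)

theorem dlog_addOne {n : ℕ} (x : (Matrix (Fin n) (Fin n) M)ˣ) :
    (t.mat (Fin (n + 1))).dlog (addOne x) = (t.mat (Fin n)).dlog x := by
  have h0 : (t.mat (Fin n)).D 1 = 0 := (t.mat (Fin n)).D_one
  have h1 : (t.mat (Fin (n + 1))).D (addOne x : Matrix (Fin (n + 1)) (Fin (n + 1)) M) =
      emb (Fin.castAddEmb 1) ((t.mat (Fin n)).D (x : Matrix (Fin n) (Fin n) M)) := by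
    have e1 : (addOne x : Matrix (Fin (n + 1)) (Fin (n + 1)) M) =
      emb (Fin.castAddEmb 1) (x : Matrix (Fin n) (Fin n) M) +
        (1 - emb (Fin.castAddEmb 1) 1) := blockOne_eq _
    rw [e1, map_add, map_sub, (t.mat (Fin (n + 1))).D_one, t.mat_D, t.mat_D, emb_map_D, emb_map_D,
      ← t.mat_D, ← t.mat_D, h0, map_zero, sub_zero, add_zero]
  have h2 : (((addOne x)⁻¹ : (Matrix (Fin (n + 1)) (Fin (n + 1)) M)ˣ) :
      Matrix (Fin (n + 1)) (Fin (n + 1)) M) =
      emb (Fin.castAddEmb 1) ((x⁻¹ : (Matrix (Fin n) (Fin n) M)ˣ) : Matrix (Fin n) (Fin n) M) +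
        (1 - emb (Fin.castAddEmb 1) 1) := blockOne_eq _
  rw [DT.dlog, DT.dlog, h1, h2, add_mul, sub_mul, one_mul, ← map_mul, ← map_mul, one_mul, sub_self,
    add_zero, τ_emb]

theorem dlog_oneByOne (x : Mˣ) : (t.mat (Fin 1)).dlog (oneByOne x) = t.dlog x := by
  refine dlog_map t (t.mat (Fin 1)) (scalar (Fin 1)) (AddMonoidHom.id B) ?_ ?_ x
  · intro x
    rw [t.mat_D]
    refine Matrix.ext fun i j => ?_
    have hij : i = j := Subsingleton.elim _ _
    subst hij
    rw [Matrix.map_apply]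
    change t.D (Matrix.diagonal (fun _ => x) i i) = Matrix.diagonal (fun _ => t.D x) i i
    rw [Matrix.diagonal_apply_eq, Matrix.diagonal_apply_eq]
  · intro x
    rw [t.mat_τ]
    simp

end Mat

section Lift

/-- Units lift along surjections with nilpotent kernel. -/
theorem exists_unit_lift_nil {A : Type u} {k : Type v} [Ring A] [Ring k] (φ : A →+* k)
    (hs : Function.Surjective φ) (hn : ∀ a, φ a = 0 → IsNilpotent a) (u : kˣ) :
    ∃ x : Aˣ, Units.map φ.toMonoidHom x = u := by
  obtain ⟨a, ha⟩ := hs (u : k)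
  obtain ⟨b, hb⟩ := hs ((u⁻¹ : kˣ) : k)
  have h1 : IsUnit (a * b) := by
    have h2 : IsNilpotent (a * b - 1) := hn _ (by
      rw [map_sub, map_mul, ha, hb, map_one, Units.mul_inv, sub_self])
    have := h2.isUnit_one_add
    rwa [add_sub_cancel] at this
  have h2 : IsUnit (b * a) := by
    have h2 : IsNilpotent (b * a - 1) := hn _ (by
      rw [map_sub, map_mul, ha, hb, map_one, Units.inv_mul, sub_self])
    have := h2.isUnit_one_add
    rwa [add_sub_cancel] at this
  obtain ⟨c, hc⟩ := h1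
  obtain ⟨d, hd⟩ := h2
  have h3 : a * (b * ((c⁻¹ : Aˣ) : A)) = 1 := by rw [← mul_assoc, ← hc, Units.mul_inv]
  have h4 : ((d⁻¹ : Aˣ) : A) * b * a = 1 := by rw [mul_assoc, ← hd, Units.inv_mul]
  have h5 : ((d⁻¹ : Aˣ) : A) * b = b * ((c⁻¹ : Aˣ) : A) := left_inv_eq_right_inv h4 h3
  refine ⟨⟨a, b * ((c⁻¹ : Aˣ) : A), h3, by rw [← h5, h4]⟩, ?_⟩
  apply Units.ext
  exact ha

end Lift

end Pool.Agent.H71.KP
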