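import Pool.Agent.H71.KP.ResDat

/-!
# The residue functionals on `Wh` in positive characteristic
-/

set_option autoImplicit false
set_option linter.unusedSectionVars false
set_option linter.unusedSimpArgs false

open Matrix

universe u v w t

namespace Pool.Agent.H71.KP

open Pool.Agent.H71.WH (InvMat K1 K1.mk K1.unit K1Rel genK1 addOne oneByOne CycSub conjHom
  K1.mk_mul K1.unit_mul)

/-- Residue data for a commutative ring `k`: a lift `A` of `k` with a derivation `θ`, constants `B`
and a residue `A → B` vanishing on `θ`. -/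
structure ResDat (p : ℕ) (k : Type u) [CommRing k] where
  /-- the lift -/
  A : Type u
  instA : CommRing A
  /-- the constants -/
  B : Type u
  instB : CommRing B
  /-- the reduction -/
  π : A →+* k
  surj : Function.Surjective π
  ker : ∀ a, π a = 0 → ∃ b, a = (p : A) * b
  /-- the exponent -/
  n : ℕ
  nilA : (p : A) ^ n = 0
  nilB : ∀ b : B, p ^ n • b = 0
  /-- the derivation -/
  θ : A →+ A
  leib : ∀ a b, θ (a * b) = θ a * b + a * θ b
  /-- the inclusion of the constants -/
  ι : B →+* A
  θι : ∀ b, θ (ι b) = 0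
  /-- the residue -/
  res : A →+ B
  res_θ : ∀ a, res (θ a) = 0
  res_ι : ∀ b a, res (ι b * a) = b * res a

namespace ResDat

variable {p : ℕ} [hp : Fact p.Prime] {k : Type u} [CommRing k] (d : ResDat p k)

instance : CommRing d.A := d.instA
instance : CommRing d.B := d.instB

section Grp

variable {G : Type v} [Group G]

/-- the coefficientwise derivation -/
noncomputable def gD (G : Type v) [Group G] : MonoidAlgebra d.A G →+ MonoidAlgebra d.A G where
  toFun x := MonoidAlgebra.map d.θ x
  map_zero' := MonoidAlgebra.map_zero _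
  map_add' := MonoidAlgebra.map_add _

theorem gD_single (g : G) (a : d.A) :
    d.gD G (MonoidAlgebra.single g a) = MonoidAlgebra.single g (d.θ a) :=
  MonoidAlgebra.map_single _ _ _

/-- the residue of the value of a class function -/
noncomputable def gf (f : G → d.B) : MonoidAlgebra d.A G →+ d.B where
  toFun x := x.coeff.sum fun g a => f g * d.res a
  map_zero' := by simp
  map_add' x y := by
    classical
    rw [MonoidAlgebra.coeff_add, Finsupp.sum_add_index'] <;> simp [mul_add]

theorem gf_single (f : G → d.B) (g : G) (a : d.A) :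
    d.gf f (MonoidAlgebra.single g a) = f g * d.res a := by
  change (MonoidAlgebra.single g a).coeff.sum (fun g a => f g * d.res a) = _
  rw [MonoidAlgebra.coeff_single, Finsupp.sum_single_index (by simp)]

/-- the structure on the group ring -/
noncomputable def grp (f : G → d.B) (hf : ∀ x y, f (x * y) = f (y * x)) :
    DT (MonoidAlgebra d.A G) d.B where
  D := d.gD G
  leib x y := by
    induction x using MonoidAlgebra.induction_linear with
    | zero => simp
    | add x x' hx hx' => rw [add_mul, map_add, hx, hx', map_add, add_mul, add_mul]; abel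
    | single g a =>
      induction y using MonoidAlgebra.induction_linear with
      | zero => simp
      | add y y' hy hy' => rw [mul_add, map_add, hy, hy', map_add, mul_add, mul_add]; abel
      | single h b =>
        rw [MonoidAlgebra.single_mul_single, gD_single, gD_single, gD_single,
          MonoidAlgebra.single_mul_single, MonoidAlgebra.single_mul_single, d.leib,
          MonoidAlgebra.single_add]
  τ := d.gf f
  comm x y := by
    induction x using MonoidAlgebra.induction_linear with
    | zero => simp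
    | add x x' hx hx' => rw [add_mul, map_add, hx, hx', mul_add, map_add]
    | single g a =>
      induction y using MonoidAlgebra.induction_linear with
      | zero => simp
      | add y y' hy hy' => rw [mul_add, map_add, hy, hy', add_mul, map_add]
      | single h b =>
        rw [MonoidAlgebra.single_mul_single, MonoidAlgebra.single_mul_single, gf_single,
          gf_single, hf, mul_comm a b]
  τD x := by
    induction x using MonoidAlgebra.induction_linear with
    | zero => simp
    | add x x' hx hx' => rw [map_add, map_add, hx, hx', add_zero]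
    | single g a => rw [gD_single, gf_single, d.res_θ, mul_zero]

/-- reduction of group rings -/
noncomputable def red (G : Type v) [Group G] : MonoidAlgebra d.A G →+* MonoidAlgebra k G :=
  MonoidAlgebra.mapRingHom G d.π

theorem red_surjective : Function.Surjective (d.red G) := by
  intro x
  induction x using MonoidAlgebra.induction_linear with
  | zero => exact ⟨0, map_zero _⟩
  | add x y hx hy =>
    obtain ⟨x', rfl⟩ := hx
    obtain ⟨y', rfl⟩ := hy
    exact ⟨x' + y', map_add _ _ _⟩
  | single g a =>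
    obtain ⟨a', rfl⟩ := d.surj a
    exact ⟨MonoidAlgebra.single g a', MonoidAlgebra.mapRingHom_single _ _ _⟩

theorem red_ker (x : MonoidAlgebra d.A G) (hx : d.red G x = 0) :
    ∃ y, x = (p : MonoidAlgebra d.A G) * y := by
  classical
  have h1 : ∀ g, d.π (x.coeff g) = 0 := by
    intro g
    have h2 := congrArg (fun z : MonoidAlgebra k G => z.coeff g) hx
    have h3 : (d.red G x).coeff g = d.π (x.coeff g) := MonoidAlgebra.coeff_mapRingHom _ _ _
    rw [← h3, hx]
    rfl
  choose y hy using fun g => d.ker _ (h1 g)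
  refine ⟨MonoidAlgebra.ofCoeff (Finsupp.onFinset x.coeff.support
    (fun c => if x.coeff c = 0 then 0 else y c) ?_), ?_⟩
  · intro c hc
    rw [Finsupp.mem_support_iff]
    intro h0
    exact hc (if_pos h0)
  · rw [← nsmul_eq_mul]
    ext c
    rw [MonoidAlgebra.coeff_smul, Finsupp.smul_apply, MonoidAlgebra.coeff_ofCoeff,
      Finsupp.onFinset_apply, nsmul_eq_mul]
    split_ifs with h0
    · rw [h0, mul_zero]
    · exact hy c

/-- reduction of matrices -/
noncomputable def redM (G : Type v) [Group G] (n : ℕ) :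
    Matrix (Fin n) (Fin n) (MonoidAlgebra d.A G) →+* Matrix (Fin n) (Fin n) (MonoidAlgebra k G) :=
  RingHom.mapMatrix (d.red G)

theorem redM_surjective (n : ℕ) : Function.Surjective (d.redM G n) := by
  intro x
  choose y hy using fun i j => d.red_surjective (x i j)
  exact ⟨Matrix.of y, Matrix.ext fun i j => hy i j⟩

theorem redM_ker {n : ℕ} (x : Matrix (Fin n) (Fin n) (MonoidAlgebra d.A G))
    (hx : d.redM G n x = 0) : ∃ y, x = (p : Matrix (Fin n) (Fin n) (MonoidAlgebra d.A G)) * y := by
  choose y hy using fun i j => d.red_ker (x i j) (congrFun (congrFun hx i) j)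
  refine ⟨Matrix.of y, ?_⟩
  rw [← nsmul_eq_mul]
  refine Matrix.ext fun i j => ?_
  rw [Matrix.smul_apply, nsmul_eq_mul]
  exact hy i j

theorem p_pow_ga : (p : MonoidAlgebra d.A G) ^ d.n = 0 := by
  have h : (p : MonoidAlgebra d.A G) = MonoidAlgebra.singleOneRingHom (p : d.A) :=
    (map_natCast _ _).symm
  rw [h, ← map_pow, d.nilA, map_zero]

theorem p_pow_mat (n : ℕ) : (p : Matrix (Fin n) (Fin n) (MonoidAlgebra d.A G)) ^ d.n = 0 := by
  have h : (p : Matrix (Fin n) (Fin n) (MonoidAlgebra d.A G)) =
      scalar (Fin n) (p : MonoidAlgebra d.A G) := (map_natCast _ _).symm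
  rw [h, ← map_pow, d.p_pow_ga, map_zero]

theorem exists_lift {n : ℕ} (u : (Matrix (Fin n) (Fin n) (MonoidAlgebra k G))ˣ) :
    ∃ x : (Matrix (Fin n) (Fin n) (MonoidAlgebra d.A G))ˣ, mapGL (d.red G) n x = u := by
  refine exists_unit_lift_nil (d.redM G n) (d.redM_surjective n) ?_ u
  intro a ha
  obtain ⟨y, rfl⟩ := d.redM_ker a ha
  refine ⟨d.n, ?_⟩
  rw [(Nat.cast_commute p y).mul_pow, d.p_pow_mat, zero_mul]

theorem exists_lift_unit (u : (MonoidAlgebra k G)ˣ) :
    ∃ x : (MonoidAlgebra d.A G)ˣ, uMap d.π G x = u := by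
  refine exists_unit_lift_nil (d.red G) d.red_surjective ?_ u
  intro a ha
  obtain ⟨y, rfl⟩ := d.red_ker a ha
  refine ⟨d.n, ?_⟩
  rw [(Nat.cast_commute p y).mul_pow, d.p_pow_ga, zero_mul]

end Grp

section Lam

variable {G : Type v} [Group G] (f : G → d.B) (hf : ∀ x y, f (x * y) = f (y * x))

theorem dlog_ker {n : ℕ} (x : (Matrix (Fin n) (Fin n) (MonoidAlgebra d.A G))ˣ)
    (hx : mapGL (d.red G) n x = 1) : ((d.grp f hf).mat (Fin n)).dlog x = 0 := by
  obtain ⟨y, hy⟩ := d.redM_ker ((x : Matrix (Fin n) (Fin n) (MonoidAlgebra d.A G)) - 1) (by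
    rw [map_sub, map_one, sub_eq_zero]
    exact congrArg Units.val hx)
  exact DT.dlog_eq_zero _ d.nilB (d.p_pow_mat n) x y (by rw [← hy, add_sub_cancel])

/-- the functional on invertible matrices -/
noncomputable def lam {n : ℕ} (u : (Matrix (Fin n) (Fin n) (MonoidAlgebra k G))ˣ) : d.B :=
  ((d.grp f hf).mat (Fin n)).dlog (d.exists_lift u).choose

theorem lam_eq {n : ℕ} (x : (Matrix (Fin n) (Fin n) (MonoidAlgebra d.A G))ˣ) :
    d.lam f hf (mapGL (d.red G) n x) = ((d.grp f hf).mat (Fin n)).dlog x := by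
  have h1 := (d.exists_lift (mapGL (d.red G) n x)).choose_spec
  have h2 := d.dlog_ker f hf ((d.exists_lift (mapGL (d.red G) n x)).choose * x⁻¹) (by
    rw [map_mul, h1, map_inv, mul_inv_cancel])
  have h3 := DT.dlog_mul ((d.grp f hf).mat (Fin n))
    ((d.exists_lift (mapGL (d.red G) n x)).choose * x⁻¹) x
  rw [h2, zero_add, inv_mul_cancel_right] at h3
  exact h3

theorem lam_mul {n : ℕ} (u w : (Matrix (Fin n) (Fin n) (MonoidAlgebra k G))ˣ) :
    d.lam f hf (u * w) = d.lam f hf u + d.lam f hf w := by
  obtain ⟨u, rfl⟩ := d.exists_lift u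
  obtain ⟨w, rfl⟩ := d.exists_lift w
  rw [← map_mul, lam_eq, lam_eq, lam_eq, DT.dlog_mul]

theorem lam_addOne {n : ℕ} (u : (Matrix (Fin n) (Fin n) (MonoidAlgebra k G))ˣ) :
    d.lam f hf (addOne u) = d.lam f hf u := by
  obtain ⟨u, rfl⟩ := d.exists_lift u
  rw [← mapGL_addOne, lam_eq, lam_eq, dlog_addOne]

/-- the functional on units of the group ring -/
noncomputable def elp (x : (MonoidAlgebra k G)ˣ) : d.B := d.lam f hf (oneByOne x)

theorem elp_eq (x : (MonoidAlgebra d.A G)ˣ) :
    d.elp f hf (uMap d.π G x) = (d.grp f hf).dlog x := by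
  rw [elp]
  have h1 : oneByOne (uMap d.π G x) = mapGL (d.red G) 1 (oneByOne x) :=
    (mapGL_oneByOne _ x).symm
  rw [h1, lam_eq, dlog_oneByOne]

theorem elp_mul (x y : (MonoidAlgebra k G)ˣ) :
    d.elp f hf (x * y) = d.elp f hf x + d.elp f hf y := by
  obtain ⟨x, rfl⟩ := d.exists_lift_unit x
  obtain ⟨y, rfl⟩ := d.exists_lift_unit y
  rw [← map_mul, elp_eq, elp_eq, elp_eq, DT.dlog_mul]

theorem elp_trivial (x : (MonoidAlgebra k G)ˣ) (hx : x ∈ trivialUnits k G) :
    d.elp f hf x = 0 := by
  obtain ⟨g, e, he, hx⟩ := hx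
  have h1 : ∃ e' : d.A, d.π e' = e ∧ e' * e' = 1 ∧ d.θ e' = 0 := by
    have h0 : d.θ 1 = 0 := by
      rw [← map_one d.ι, d.θι]
    rcases he with rfl | rfl
    · exact ⟨1, map_one _, one_mul _, h0⟩
    · exact ⟨-1, by rw [map_neg, map_one], by ring, by rw [map_neg, h0, neg_zero]⟩
  obtain ⟨e', h2, h3, h4⟩ := h1
  let y : (MonoidAlgebra d.A G)ˣ := ⟨MonoidAlgebra.single g e', MonoidAlgebra.single g⁻¹ e',
    by rw [MonoidAlgebra.single_mul_single, mul_inv_cancel, h3]; rfl,
    by rw [MonoidAlgebra.single_mul_single, inv_mul_cancel, h3]; rfl⟩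
  have h5 : uMap d.π G y = x := by
    apply Units.ext
    rw [hx]
    change MonoidAlgebra.mapRingHom G d.π (MonoidAlgebra.single g e') = _
    rw [MonoidAlgebra.mapRingHom_single, h2]
  rw [← h5, elp_eq, DT.dlog]
  have h6 : (d.grp f hf).D (y : MonoidAlgebra d.A G) = 0 := by
    change d.gD G (MonoidAlgebra.single g e') = 0
    rw [gD_single, h4, MonoidAlgebra.single_zero]
  rw [h6, mul_zero, map_zero]

/-- the functional on the free abelian group -/
noncomputable def lamFree : FreeAbelianGroup (InvMat (MonoidAlgebra k G)) →+ d.B :=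
  FreeAbelianGroup.lift fun a => d.lam f hf a.mat

theorem lamFree_le : K1Rel (MonoidAlgebra k G) ≤ (d.lamFree f hf).ker := by
  rw [K1Rel, AddSubgroup.closure_le]
  rintro z (⟨n, x, y, rfl⟩ | ⟨n, x, rfl⟩)
  · change d.lamFree f hf (genK1 (x * y) - (genK1 x + genK1 y)) = 0
    rw [lamFree, map_sub, map_add, genK1, genK1, genK1, FreeAbelianGroup.lift_apply_of,
      FreeAbelianGroup.lift_apply_of, FreeAbelianGroup.lift_apply_of]
    exact sub_eq_zero.2 (d.lam_mul f hf x y)
  · change d.lamFree f hf (genK1 (addOne x) - genK1 x) = 0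
    rw [lamFree, map_sub, genK1, genK1, FreeAbelianGroup.lift_apply_of,
      FreeAbelianGroup.lift_apply_of]
    exact sub_eq_zero.2 (d.lam_addOne f hf x)

/-- the functional on `K₁` -/
noncomputable def lamK1 : K1 (MonoidAlgebra k G) →+ d.B :=
  QuotientAddGroup.lift (K1Rel _) (d.lamFree f hf) (d.lamFree_le f hf)

theorem lamK1_unit (x : (MonoidAlgebra k G)ˣ) : d.lamK1 f hf (K1.unit x) = d.elp f hf x :=
  FreeAbelianGroup.lift_apply_of _ _

theorem lamK1_le : trivialK1 k G ≤ (d.lamK1 f hf).ker := by
  rw [trivialK1, AddSubgroup.closure_le]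
  rintro z ⟨x, hx, rfl⟩
  change d.lamK1 f hf (K1.unit x) = 0
  rw [lamK1_unit, elp_trivial d f hf x hx]

/-- the functional on `Wh` -/
noncomputable def lamWh : Wh k G →+ d.B :=
  QuotientAddGroup.lift (trivialK1 k G) (d.lamK1 f hf) (d.lamK1_le f hf)

theorem lamWh_unit (x : (MonoidAlgebra k G)ˣ) : d.lamWh f hf (Wh.unit x) = d.elp f hf x :=
  d.lamK1_unit f hf x

end Lam

section Map

variable {G : Type v} [Group G] {H : Type w} [Group H] (ψ : H →* G)

theorem gD_map (x : MonoidAlgebra d.A H) :
    d.gD G (MonoidAlgebra.mapDomainRingHom d.A ψ x) =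
      MonoidAlgebra.mapDomainRingHom d.A ψ (d.gD H x) := by
  induction x using MonoidAlgebra.induction_linear with
  | zero => simp
  | add x y hx hy => rw [map_add, map_add, hx, hy, map_add, map_add]
  | single g a =>
    rw [gD_single]
    change d.gD G (MonoidAlgebra.mapDomain ψ (MonoidAlgebra.single g a)) =
      MonoidAlgebra.mapDomain ψ (MonoidAlgebra.single g (d.θ a))
    rw [MonoidAlgebra.mapDomain_single, MonoidAlgebra.mapDomain_single, gD_single]

theorem gf_map (f : G → d.B) (x : MonoidAlgebra d.A H) :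
    d.gf f (MonoidAlgebra.mapDomainRingHom d.A ψ x) = d.gf (fun h => f (ψ h)) x := by
  induction x using MonoidAlgebra.induction_linear with
  | zero => simp
  | add x y hx hy => rw [map_add, map_add, hx, hy, map_add]
  | single g a =>
    rw [gf_single]
    change d.gf f (MonoidAlgebra.mapDomain ψ (MonoidAlgebra.single g a)) = _
    rw [MonoidAlgebra.mapDomain_single, gf_single]

theorem elp_map (f : G → d.B) (hf : ∀ x y, f (x * y) = f (y * x)) (f' : H → d.B)
    (hf' : ∀ x y, f' (x * y) = f' (y * x)) (h : ∀ x, f (ψ x) = f' x)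
    (x : (MonoidAlgebra k H)ˣ) : d.elp f hf (unitsMap ψ x) = d.elp f' hf' x := by
  obtain ⟨x, rfl⟩ := d.exists_lift_unit x
  rw [← uMap_unitsMap, elp_eq, elp_eq]
  refine dlog_map (d.grp f' hf') (d.grp f hf) (MonoidAlgebra.mapDomainRingHom d.A ψ)
    (AddMonoidHom.id d.B) ?_ ?_ x
  · exact fun x => d.gD_map ψ x
  · intro x
    have h1 : (fun x => f (ψ x)) = f' := funext h
    change d.gf f (MonoidAlgebra.mapDomainRingHom d.A ψ x) = d.gf f' x
    rw [gf_map, h1]

end Map

end ResDat

end Pool.Agent.H71.KP
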