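import Mathlib

/-!
# Primes modulo which a polynomial has a root (Schur)

PROOF. Let `f` be nonconstant in `ℤ[X]`. If `f.eval 0 = 0` take `a = 0` and any prime `p > N`.
Otherwise put `c = f.eval 0 ≠ 0`. Then `f.eval (c * M * t) = c * (1 + M * g(t))` for every integer
`M` and a polynomial `g` (all terms of positive degree of `f (c M t)` are divisible by `c M`),
e.g. via `Polynomial.sub_dvd_eval_sub`. Take `M = N !` and an integer `t` such that
`f.eval (c * M * t) ≠ c, -c` (finitely many `t` are excluded, as `f` is nonconstant). Then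
`1 + M g(t) ≠ 1, -1`, so (it is also nonzero or any prime works) it has a prime divisor `p`; `p`
does not divide `M = N !`, hence `p > N`, and `p ∣ f.eval (c * M * t)`.
-/

set_option autoImplicit false

open Polynomial

namespace Pool.Agent.H71.KP

/-- For every nonconstant integral polynomial there are arbitrarily large primes modulo which it
has a root. -/
theorem exists_prime_root (f : ℤ[X]) (hf : 0 < f.natDegree) (N : ℕ) :
    ∃ p : ℕ, p.Prime ∧ N < p ∧ ∃ a : ℤ, (p : ℤ) ∣ f.eval a := by
  by_cases hc : f.eval 0 = 0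
  · obtain ⟨p, hp, hprime⟩ := Nat.exists_infinite_primes (N + 1)
    refine ⟨p, hprime, by omega, 0, ?_⟩
    rw [hc]
    exact dvd_zero _
  set c := f.eval 0 with hcdef
  -- a good argument
  have hfin : ∀ e : ℤ, {x : ℤ | f.eval x = e}.Finite := by
    intro e
    have hne : f - C e ≠ 0 := by
      intro h0
      have h1 : f = C e := sub_eq_zero.1 h0
      rw [h1, natDegree_C] at hf
      exact absurd hf (lt_irrefl _)
    refine Set.Finite.subset (f - C e).roots.toFinset.finite_toSet ?_
    intro x hx
    have hx' : f.eval x = e := hx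
    simp only [Finset.mem_coe, Multiset.mem_toFinset, mem_roots hne, IsRoot.def, eval_sub, eval_C,
      hx', sub_self]
  have hM : ((N.factorial : ℕ) : ℤ) ≠ 0 := by exact_mod_cast N.factorial_ne_zero
  have hinj : Function.Injective fun t : ℤ => c * N.factorial * t := by
    intro t t' h
    exact mul_left_cancel₀ (mul_ne_zero hc hM) h
  have hbad : ({t : ℤ | f.eval (c * N.factorial * t) = c} ∪
      {t : ℤ | f.eval (c * N.factorial * t) = -c}).Finite :=
    ((hfin c).preimage hinj.injOn).union ((hfin (-c)).preimage hinj.injOn)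
  obtain ⟨t, ht⟩ := hbad.infinite_compl.nonempty
  have ht1 : f.eval (c * N.factorial * t) ≠ c := fun h => ht (Or.inl h)
  have ht2 : f.eval (c * N.factorial * t) ≠ -c := fun h => ht (Or.inr h)
  obtain ⟨k, hk⟩ := sub_dvd_eval_sub (c * N.factorial * t) 0 f
  rw [sub_zero, ← hcdef] at hk
  have hval : f.eval (c * N.factorial * t) = c * (1 + N.factorial * (t * k)) := by
    linear_combination hk
  have hne : (1 + (N.factorial : ℤ) * (t * k)).natAbs ≠ 1 := by
    intro h
    rcases Int.natAbs_eq_iff.1 h with h | h
    · apply ht1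
      rw [hval, h]
      simp
    · apply ht2
      rw [hval, h]
      simp
  obtain ⟨p, hp, hpd⟩ := Nat.exists_prime_and_dvd hne
  have hpd' : (p : ℤ) ∣ 1 + (N.factorial : ℤ) * (t * k) := Int.natCast_dvd.2 hpd
  refine ⟨p, hp, ?_, c * N.factorial * t, ?_⟩
  · by_contra hle
    rw [not_lt] at hle
    have h1 : (p : ℤ) ∣ (N.factorial : ℤ) := by
      exact_mod_cast (hp.dvd_factorial).2 hle
    have h2 : (p : ℤ) ∣ 1 := (Int.dvd_iff_dvd_of_dvd_add hpd').2 (h1.mul_right _)
    have h3 : p ∣ 1 := by exact_mod_cast h2
    exact hp.one_lt.ne' (Nat.dvd_one.1 h3)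
  · rw [hval]
    exact hpd'.mul_left c

end Pool.Agent.H71.KP
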