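import Pool.Agent.H71.KP.Log2

/-!
# The skew ring and the homomorphism `lam`

Let `C_p` act on a ring `M` and let `κ : M → ℤ_[p]` satisfy `κ (a b) = κ (b α(a))`, `α` the action of
the generator. The skew ring `M * C_p` is realised as a ring of matrices. The homomorphism
`θ(σ) = σ s` to the group ring `(M * C_p)[C_p]` gives the homomorphism
`lam (v) = τ₁ (log (v⁻¹ θ(v)))` on the units of `M * C_p`.
-/

set_option autoImplicit false
set_option linter.unusedSectionVars false

open Matrix

universe u v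

namespace Pool.Agent.H71.KP

section Central

variable {p : ℕ} [hp : Fact p.Prime] {R : Type u} [Ring R]

/-- `s - 1` for a central `s` with `s ^ p = 1` -/
theorem cen_sub_one {s : R} (hs : ∀ x, s * x = x * s) (h : s ^ p = 1) : Cen p (s - 1) := by
  have hcomm : ∀ x, (s - 1) * x = x * (s - 1) := by
    intro x
    rw [sub_mul, mul_sub, hs, one_mul, mul_one]
  refine ⟨hcomm, ?_⟩
  obtain ⟨r, hr⟩ := Commute.exists_add_pow_prime_eq hp.out
    (show Commute (s - 1) 1 from Commute.one_right _)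
  rw [sub_add_cancel, h, one_pow, mul_one] at hr
  set c := s - 1 with hc
  have h1 : c ^ p = (p : R) * (c * (-r)) := by
    have : c ^ p + (p : R) * c * r = 0 := by
      have e : c ^ p + 1 + (p : R) * c * r = 1 + (c ^ p + (p : R) * c * r) := by abel
      rw [e] at hr
      exact (add_eq_left.1 hr.symm)
    rw [mul_neg, mul_neg, ← mul_assoc]
    exact eq_neg_of_add_eq_zero_left this
  have hq : 0 < p - 1 := Nat.sub_pos_of_lt hp.out.one_lt
  have h2 : ∀ q : ℕ, ∃ w, c ^ (q * (p - 1) + 1) = (p : R) ^ q * (c * w) := by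
    intro q
    induction q with
    | zero => exact ⟨1, by simp⟩
    | succ q ih =>
      obtain ⟨w, hw⟩ := ih
      refine ⟨-r * w, ?_⟩
      have e1 : (q + 1) * (p - 1) + 1 = (p - 1) + (q * (p - 1) + 1) := by ring
      rw [e1, pow_add, hw, ← mul_assoc, ← p_pow_comm, mul_assoc, ← mul_assoc (c ^ (p - 1)),
        ← pow_succ]
      have e2 : p - 1 + 1 = p := by omega
      rw [e2, h1, pow_succ]
      simp only [mul_assoc]
  intro k
  obtain ⟨w, hw⟩ := h2 (k / (p - 1))
  refine ⟨c * w * c ^ (k % (p - 1)), ?_⟩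
  have e1 : k + 1 = (k / (p - 1)) * (p - 1) + 1 + k % (p - 1) := by
    have := Nat.div_add_mod k (p - 1)
    rw [mul_comm] at this
    omega
  conv_lhs => rw [e1]
  rw [pow_add, hw, mul_assoc]

end Central

/-- A ring with an action of `C_p` and a twisted trace. -/
structure TwTr (p : ℕ) [Fact p.Prime] (M : Type u) [Ring M] where
  /-- the action -/
  act : ZMod p → M →+* M
  act_zero : ∀ a, act 0 a = a
  act_add : ∀ i j a, act (i + j) a = act i (act j a)
  /-- the twisted trace -/
  κ : M →+ ℤ_[p]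
  tw : ∀ a b, κ (a * b) = κ (b * act 1 a)

namespace TwTr

variable {p : ℕ} [hp : Fact p.Prime] {M : Type u} [Ring M] (t : TwTr p M)

theorem κ_one (a : M) : t.κ (t.act 1 a) = t.κ a := by
  have := t.tw a 1
  rw [mul_one, one_mul] at this
  exact this.symm

theorem κ_act (i : ZMod p) (a : M) : t.κ (t.act i a) = t.κ a := by
  have h : ∀ n : ℕ, t.κ (t.act (n : ZMod p) a) = t.κ a := by
    intro n
    induction n with
    | zero => rw [Nat.cast_zero, t.act_zero]
    | succ n ih => rw [Nat.cast_succ, add_comm, t.act_add, t.κ_one, ih]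
  have := h i.val
  rwa [ZMod.natCast_zmod_val] at this

section Sk

variable {A : Type} [AddCommGroup A] [Fintype A] [DecidableEq A] (π : A →+ ZMod p)

/-- The skew ring as a ring of matrices. -/
def sk : Subring (Matrix A A M) where
  carrier := {V | ∀ a b l, V (a + l) (b + l) = t.act (π l) (V a b)}
  mul_mem' := by
    intro V W hV hW a b l
    rw [Matrix.mul_apply, Matrix.mul_apply, map_sum,
      ← Equiv.sum_comp (Equiv.addRight l) (fun x => V (a + l) x * W x (b + l))]
    apply Finset.sum_congr rfl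
    intro x _
    rw [Equiv.coe_addRight, hV, hW, map_mul]
  add_mem' := by
    intro V W hV hW a b l
    rw [Matrix.add_apply, Matrix.add_apply, hV, hW, map_add]
  neg_mem' := by
    intro V hV a b l
    rw [Matrix.neg_apply, Matrix.neg_apply, hV, map_neg]
  one_mem' := by
    intro a b l
    rw [Matrix.one_apply, Matrix.one_apply]
    simp only [add_left_inj]
    split_ifs <;> simp
  zero_mem' := by
    intro a b l
    rw [Matrix.zero_apply, Matrix.zero_apply, map_zero]

/-- the trace -/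
noncomputable def tr0 (x : A) : t.sk π →+ ℤ_[p] where
  toFun V := t.κ (V.1 0 x)
  map_zero' := by
    change t.κ (0 : M) = 0
    rw [map_zero]
  map_add' V W := by
    change t.κ (V.1 0 x + W.1 0 x) = _
    rw [map_add]

theorem tr0_apply (x : A) (V : t.sk π) : t.tr0 π x V = t.κ (V.1 0 x) := rfl

theorem tr0_comm {x : A} (hx : π x = 1) (V W : t.sk π) :
    t.tr0 π x (V * W) = t.tr0 π x (W * V) := by
  change t.κ ((V.1 * W.1) 0 x) = t.κ ((W.1 * V.1) 0 x)
  rw [Matrix.mul_apply, Matrix.mul_apply, map_sum, map_sum]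
  rw [← Equiv.sum_comp (Equiv.subLeft x) (fun y => t.κ (V.1 0 y * W.1 y x))]
  apply Finset.sum_congr rfl
  intro a _
  rw [Equiv.subLeft_apply]
  have h1 : W.1 x (a + x) = t.act 1 (W.1 0 a) := by
    have := W.2 0 a x
    rwa [zero_add, hx] at this
  have h2 : V.1 a x = t.act (π a) (V.1 0 (x - a)) := by
    have := V.2 0 (x - a) a
    rwa [zero_add, sub_add_cancel] at this
  have h3 : W.1 x (a + x) = t.act (π a) (W.1 (x - a) x) := by
    have := W.2 (x - a) x a
    rwa [sub_add_cancel, add_comm x a] at this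
  rw [t.tw (W.1 0 a), ← h1, h2, h3, ← map_mul, t.κ_act]

end Sk

/-- the skew ring -/
abbrev S : Subring (Matrix (ZMod p) (ZMod p) M) := t.sk (AddMonoidHom.id (ZMod p))

/-- the group ring of `C_p` over the skew ring -/
abbrev B : Subring (Matrix (ZMod p × ZMod p) (ZMod p × ZMod p) M) :=
  t.sk (AddMonoidHom.fst (ZMod p) (ZMod p))

/-- the trace of the skew ring -/
noncomputable def τ : t.S →+ ℤ_[p] := t.tr0 _ 1

/-- the trace of the group ring -/
noncomputable def τ₁ : t.B →+ ℤ_[p] := t.tr0 _ (1, 1)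

theorem τ_comm (V W : t.S) : t.τ (V * W) = t.τ (W * V) := t.tr0_comm _ rfl V W

theorem τ₁_comm (V W : t.B) : t.τ₁ (V * W) = t.τ₁ (W * V) := t.tr0_comm _ rfl V W

theorem S_apply (V : t.S) (i j l : ZMod p) : V.1 (i + l) (j + l) = t.act l (V.1 i j) := V.2 i j l

/-- the inclusion -/
def ι : t.S →+* t.B where
  toFun V := ⟨Matrix.of fun a b => if b.2 = a.2 then V.1 a.1 b.1 else 0, by
    rintro a b l
    simp only [Matrix.of_apply, Prod.fst_add, Prod.snd_add, add_left_inj]
    split_ifs
    · exact V.2 _ _ _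
    · rw [map_zero]⟩
  map_one' := by
    apply Subtype.ext
    ext a b
    change (if b.2 = a.2 then (1 : Matrix (ZMod p) (ZMod p) M) a.1 b.1 else 0) =
      (1 : Matrix (ZMod p × ZMod p) (ZMod p × ZMod p) M) a b
    rw [Matrix.one_apply, Matrix.one_apply]
    by_cases h : a = b
    · subst h
      simp
    · by_cases h2 : b.2 = a.2
      · have h1 : a.1 ≠ b.1 := fun h1 => h (Prod.ext h1 h2.symm)
        simp [h, h1]
      · simp [h, h2]
  map_zero' := by
    apply Subtype.ext
    ext a b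
    change (if b.2 = a.2 then (0 : M) else 0) = 0
    split_ifs <;> rfl
  map_add' V W := by
    apply Subtype.ext
    ext a b
    change (if b.2 = a.2 then V.1 a.1 b.1 + W.1 a.1 b.1 else 0) =
      (if b.2 = a.2 then V.1 a.1 b.1 else 0) + (if b.2 = a.2 then W.1 a.1 b.1 else 0)
    split_ifs <;> simp
  map_mul' V W := by
    apply Subtype.ext
    ext a b
    change (if b.2 = a.2 then (V.1 * W.1) a.1 b.1 else 0) = ((Matrix.of fun a b =>
      if b.2 = a.2 then V.1 a.1 b.1 else 0) * (Matrix.of fun a b =>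
      if b.2 = a.2 then W.1 a.1 b.1 else 0) : Matrix (ZMod p × ZMod p) (ZMod p × ZMod p) M) a b
    rw [Matrix.mul_apply, Matrix.mul_apply, Fintype.sum_prod_type]
    split_ifs with h
    · apply Finset.sum_congr rfl
      intro x _
      rw [Finset.sum_eq_single a.2]
      · simp [h]
      · intro y _ hy
        simp [hy]
      · intro h1
        exact absurd (Finset.mem_univ _) h1
    · symm
      apply Finset.sum_eq_zero
      intro x _
      apply Finset.sum_eq_zero
      intro y _
      simp only [Matrix.of_apply]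
      by_cases h1 : y = a.2
      · subst h1
        simp [h]
      · simp [h1]

theorem ι_apply (V : t.S) (a b : ZMod p × ZMod p) :
    (t.ι V).1 a b = if b.2 = a.2 then V.1 a.1 b.1 else 0 := rfl

/-- the homomorphism `σ ↦ σ s` -/
def θ : t.S →+* t.B where
  toFun V := ⟨Matrix.of fun a b => if b.2 - a.2 = b.1 - a.1 then V.1 a.1 b.1 else 0, by
    rintro a b l
    simp only [Matrix.of_apply, Prod.fst_add, Prod.snd_add, add_sub_add_right_eq_sub]
    split_ifs
    · exact V.2 _ _ _
    · rw [map_zero]⟩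
  map_one' := by
    apply Subtype.ext
    ext a b
    change (if b.2 - a.2 = b.1 - a.1 then (1 : Matrix (ZMod p) (ZMod p) M) a.1 b.1 else 0) =
      (1 : Matrix (ZMod p × ZMod p) (ZMod p × ZMod p) M) a b
    rw [Matrix.one_apply, Matrix.one_apply]
    by_cases h : a = b
    · subst h
      simp
    · by_cases h1 : a.1 = b.1
      · have h2 : a.2 ≠ b.2 := fun h2 => h (Prod.ext h1 h2)
        have h3 : ¬ (b.2 - a.2 = b.1 - a.1) := by
          rw [h1, sub_self, sub_eq_zero]
          exact fun h4 => h2 h4.symm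
        simp [h, h3]
      · simp [h, h1]
  map_zero' := by
    apply Subtype.ext
    ext a b
    change (if b.2 - a.2 = b.1 - a.1 then (0 : M) else 0) = 0
    split_ifs <;> rfl
  map_add' V W := by
    apply Subtype.ext
    ext a b
    change (if b.2 - a.2 = b.1 - a.1 then V.1 a.1 b.1 + W.1 a.1 b.1 else 0) =
      (if b.2 - a.2 = b.1 - a.1 then V.1 a.1 b.1 else 0) +
      (if b.2 - a.2 = b.1 - a.1 then W.1 a.1 b.1 else 0)
    split_ifs <;> simp
  map_mul' V W := by
    apply Subtype.ext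
    ext a b
    change (if b.2 - a.2 = b.1 - a.1 then (V.1 * W.1) a.1 b.1 else 0) = ((Matrix.of fun a b =>
      if b.2 - a.2 = b.1 - a.1 then V.1 a.1 b.1 else 0) * (Matrix.of fun a b =>
      if b.2 - a.2 = b.1 - a.1 then W.1 a.1 b.1 else 0) :
      Matrix (ZMod p × ZMod p) (ZMod p × ZMod p) M) a b
    rw [Matrix.mul_apply, Matrix.mul_apply, Fintype.sum_prod_type]
    split_ifs with h
    · apply Finset.sum_congr rfl
      intro x _
      rw [Finset.sum_eq_single (a.2 + (x - a.1))]
      · have h1 : b.2 - (a.2 + (x - a.1)) = b.1 - x := by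
          linear_combination h
        simp [h1]
      · intro y _ hy
        have h1 : ¬ (y - a.2 = x - a.1) := by
          intro h1
          apply hy
          rw [← h1]
          ring
        simp [h1]
      · intro h1
        exact absurd (Finset.mem_univ _) h1
    · symm
      apply Finset.sum_eq_zero
      intro x _
      apply Finset.sum_eq_zero
      intro y _
      simp only [Matrix.of_apply]
      by_cases h1 : y - a.2 = x - a.1
      · have h2 : ¬ (b.2 - y = b.1 - x) := by
          intro h2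
          apply h
          linear_combination h1 + h2
        simp [h2]
      · simp [h1]

theorem θ_apply (V : t.S) (a b : ZMod p × ZMod p) :
    (t.θ V).1 a b = if b.2 - a.2 = b.1 - a.1 then V.1 a.1 b.1 else 0 := rfl

theorem τ₁_ι (V : t.S) : t.τ₁ (t.ι V) = 0 := by
  change t.κ ((t.ι V).1 0 (1, 1)) = 0
  rw [ι_apply, if_neg, map_zero]
  exact one_ne_zero

theorem τ₁_θ (V : t.S) : t.τ₁ (t.θ V) = t.τ V := by
  change t.κ ((t.θ V).1 0 (1, 1)) = t.κ (V.1 0 1)
  rw [θ_apply, if_pos]
  · rfl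
  · rfl

/-- the central element `s` -/
def s : t.B := ⟨Matrix.of fun a b => if b.1 = a.1 ∧ b.2 = a.2 + 1 then 1 else 0, by
  intro a b l
  simp only [Matrix.of_apply, Prod.fst_add, Prod.snd_add, add_left_inj]
  have : (b.2 + l.2 = a.2 + l.2 + 1) = (b.2 = a.2 + 1) := by
    rw [add_right_comm, add_left_inj]
  simp only [this]
  split_ifs <;> simp⟩

theorem s_apply (a b : ZMod p × ZMod p) :
    (t.s).1 a b = if b.1 = a.1 ∧ b.2 = a.2 + 1 then 1 else 0 := rfl

theorem s_mul (V : t.B) (a b : ZMod p × ZMod p) : (t.s * V).1 a b = V.1 (a.1, a.2 + 1) b := by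
  change ((t.s).1 * V.1) a b = _
  rw [Matrix.mul_apply, Finset.sum_eq_single (a.1, a.2 + 1)]
  · rw [s_apply, if_pos ⟨rfl, rfl⟩, one_mul]
  · intro x _ hx
    rw [s_apply, if_neg, zero_mul]
    rintro ⟨h1, h2⟩
    exact hx (Prod.ext h1 h2)
  · intro h
    exact absurd (Finset.mem_univ _) h

theorem mul_s (V : t.B) (a b : ZMod p × ZMod p) : (V * t.s).1 a b = V.1 a (b.1, b.2 - 1) := by
  change (V.1 * (t.s).1) a b = _
  rw [Matrix.mul_apply, Finset.sum_eq_single (b.1, b.2 - 1)]
  · rw [s_apply, if_pos ⟨rfl, by ring⟩, mul_one]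
  · intro x _ hx
    rw [s_apply, if_neg, mul_zero]
    rintro ⟨h1, h2⟩
    apply hx
    refine Prod.ext h1.symm ?_
    change x.2 = b.2 - 1
    rw [h2]
    ring
  · intro h
    exact absurd (Finset.mem_univ _) h

theorem s_comm (V : t.B) : t.s * V = V * t.s := by
  apply Subtype.ext
  ext a b
  rw [s_mul, mul_s]
  have h := V.2 a (b.1, b.2 - 1) (0, 1)
  have h1 : (a + (0, 1) : ZMod p × ZMod p) = (a.1, a.2 + 1) := Prod.ext (add_zero _) rfl
  have h2 : ((b.1, b.2 - 1) + (0, 1) : ZMod p × ZMod p) = b :=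
    Prod.ext (add_zero _) (sub_add_cancel _ _)
  rw [h1, h2] at h
  rw [h]
  exact t.act_zero _

theorem s_pow (n : ℕ) (a b : ZMod p × ZMod p) :
    (t.s ^ n).1 a b = if b.1 = a.1 ∧ b.2 = a.2 + n then 1 else 0 := by
  induction n generalizing a b with
  | zero =>
    rw [pow_zero]
    change (1 : Matrix (ZMod p × ZMod p) (ZMod p × ZMod p) M) a b = _
    rw [Matrix.one_apply, Nat.cast_zero, add_zero]
    by_cases h : a = b
    · subst h
      simp
    · rw [if_neg h, if_neg]
      rintro ⟨h1, h2⟩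
      exact h (Prod.ext h1.symm h2.symm)
  | succ n ih =>
    rw [pow_succ', s_mul, ih]
    have : a.2 + 1 + (n : ZMod p) = a.2 + ((n + 1 : ℕ) : ZMod p) := by
      push_cast
      ring
    simp only [this]

theorem s_pow_p : t.s ^ p = 1 := by
  apply Subtype.ext
  ext a b
  rw [s_pow]
  change _ = (1 : Matrix (ZMod p × ZMod p) (ZMod p × ZMod p) M) a b
  rw [Matrix.one_apply, ZMod.natCast_self, add_zero]
  by_cases h : a = b
  · subst h
    simp
  · rw [if_neg h, if_neg]
    rintro ⟨h1, h2⟩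
    exact h (Prod.ext h1.symm h2.symm)

/-- the central element `s - 1` -/
def c : t.B := t.s - 1

theorem cen_c : Cen p t.c := cen_sub_one t.s_comm t.s_pow_p

theorem val_sub_one {m : ZMod p} (hm : m ≠ 0) : (m - 1).val = m.val - 1 := by
  have h1 : (1 : ZMod p).val = 1 := by
    have : Fact (1 < p) := ⟨hp.out.one_lt⟩
    exact ZMod.val_one p
  have h2 : 0 < m.val := Nat.pos_of_ne_zero (fun h => hm ((ZMod.val_eq_zero m).1 h))
  rw [ZMod.val_sub (by rw [h1]; omega), h1]

theorem val_neg_one' : ((0 : ZMod p) - 1).val = p - 1 := by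
  have : (0 : ZMod p) - 1 = ((p - 1 : ℕ) : ZMod p) := by
    rw [Nat.cast_sub hp.out.one_le, ZMod.natCast_self, Nat.cast_one]
  rw [this, ZMod.val_natCast, Nat.mod_eq_of_lt]
  have := hp.out.pos
  omega

theorem ite_aux (x : M) (m n : ZMod p) :
    (if (m - 1).val < n.val then x else 0) - (if m.val < n.val then x else 0) =
      (if m = n then x else 0) - (if m = 0 then x else 0) := by
  have hn := ZMod.val_lt n
  by_cases hm : m = 0
  · subst hm
    rw [val_neg_one', if_neg (by omega), if_pos (rfl : (0 : ZMod p) = 0), ZMod.val_zero]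
    by_cases h : n = 0
    · subst h
      simp
    · have h2 : 0 < n.val := Nat.pos_of_ne_zero (fun h' => h ((ZMod.val_eq_zero n).1 h'))
      rw [if_pos h2, if_neg (fun h' => h h'.symm)]
  · rw [val_sub_one hm, if_neg hm, sub_zero]
    have h2 : 0 < m.val := Nat.pos_of_ne_zero (fun h => hm ((ZMod.val_eq_zero m).1 h))
    by_cases h : m = n
    · subst h
      rw [if_pos (by omega), if_neg (lt_irrefl _), if_pos rfl, sub_zero]
    · have h3 : m.val ≠ n.val := fun h' => h (ZMod.val_injective p h')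
      rw [if_neg h]
      by_cases h4 : m.val < n.val
      · rw [if_pos (by omega), if_pos h4, sub_self]
      · rw [if_neg (by omega), if_neg h4, sub_self]

/-- the quotient of `θ V - ι V` by `c` -/
def quo (V : t.S) : t.B :=
  ⟨Matrix.of fun a b => if (b.2 - a.2).val < (b.1 - a.1).val then V.1 a.1 b.1 else 0, by
    intro a b l
    simp only [Matrix.of_apply, Prod.fst_add, Prod.snd_add, add_sub_add_right_eq_sub]
    split_ifs
    · exact V.2 _ _ _
    · rw [map_zero]⟩

theorem θ_sub_ι (V : t.S) : t.θ V - t.ι V = t.c * t.quo V := by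
  rw [c, sub_mul, one_mul]
  apply Subtype.ext
  ext a b
  change (t.θ V).1 a b - (t.ι V).1 a b = (t.s * t.quo V).1 a b - (t.quo V).1 a b
  rw [s_mul, θ_apply, ι_apply]
  change _ = (if (b.2 - (a.2 + 1)).val < (b.1 - a.1).val then V.1 a.1 b.1 else 0) -
    (if (b.2 - a.2).val < (b.1 - a.1).val then V.1 a.1 b.1 else 0)
  rw [← sub_sub, ite_aux]
  simp only [sub_eq_zero]

theorem cong_θ (v : t.Sˣ) : Cong t.c (((Units.map t.ι.toMonoidHom v)⁻¹ : t.Bˣ) * t.θ v) := by
  refine ⟨((Units.map t.ι.toMonoidHom v)⁻¹ : t.Bˣ) * t.quo v, ?_⟩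
  have h1 : t.θ v = t.ι v + t.c * t.quo v := by rw [← θ_sub_ι]; abel
  have h2 : (((Units.map t.ι.toMonoidHom v)⁻¹ : t.Bˣ) : t.B) * t.ι v = 1 :=
    Units.inv_mul (Units.map t.ι.toMonoidHom v)
  rw [h1, mul_add, h2, ← mul_assoc, ← t.cen_c.comm, mul_assoc]

/-- the homomorphism on the units of the skew ring -/
noncomputable def lam (v : t.Sˣ) : ℚ_[p] :=
  L t.τ₁ (((Units.map t.ι.toMonoidHom v)⁻¹ : t.Bˣ) * t.θ v)

theorem lam_mul (v w : t.Sˣ) : t.lam (v * w) = t.lam v + t.lam w := by
  set V := Units.map t.ι.toMonoidHom v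
  set W := Units.map t.ι.toMonoidHom w
  have h1 : (((Units.map t.ι.toMonoidHom (v * w))⁻¹ : t.Bˣ) : t.B) * t.θ (v * w : t.Sˣ) =
      ((W⁻¹ : t.Bˣ) * (((V⁻¹ : t.Bˣ) : t.B) * t.θ v) * W) *
        (((W⁻¹ : t.Bˣ) : t.B) * t.θ w) := by
    rw [map_mul, _root_.mul_inv_rev, Units.val_mul, Units.val_mul, map_mul]
    calc ((W⁻¹ : t.Bˣ) : t.B) * (V⁻¹ : t.Bˣ) * (t.θ v * t.θ w)
        = (W⁻¹ : t.Bˣ) * ((V⁻¹ : t.Bˣ) * t.θ v) * 1 * t.θ w := by
          rw [mul_one]; simp only [mul_assoc]
      _ = (W⁻¹ : t.Bˣ) * ((V⁻¹ : t.Bˣ) * t.θ v) * (W * (W⁻¹ : t.Bˣ)) * t.θ w := by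
          rw [Units.mul_inv]
      _ = _ := by simp only [mul_assoc]
  rw [lam, h1, L_mul t.τ₁ t.τ₁_comm t.cen_c ((t.cong_θ v).conj t.cen_c W) (t.cong_θ w),
    L_conj t.τ₁ t.τ₁_comm]
  rfl

theorem lam_one : t.lam 1 = 0 := by
  have := t.lam_mul 1 1
  rw [mul_one] at this
  exact (add_eq_left.1 this.symm)

theorem lam_conj (v w : t.Sˣ) : t.lam (w⁻¹ * v * w) = t.lam v := by
  have h1 : t.lam w⁻¹ + t.lam w = 0 := by rw [← lam_mul, inv_mul_cancel, lam_one]
  rw [lam_mul, lam_mul]
  linear_combination h1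

/-- For units congruent to `1` modulo `p` the homomorphism `lam` is the logarithm. -/
theorem lam_eq {v : t.Sˣ} (h : Cong (p : t.S) (v : t.S)) : t.lam v = L t.τ (v : t.S) := by
  have h1 : Cong (p : t.B) (t.ι v) := by
    have := h.map t.ι
    rwa [map_natCast] at this
  have h2 : Cong (p : t.B) (t.θ v) := by
    have := h.map t.θ
    rwa [map_natCast] at this
  have h3 : (((Units.map t.ι.toMonoidHom v)⁻¹ : t.Bˣ) : t.B) * t.ι v = 1 :=
    Units.inv_mul (Units.map t.ι.toMonoidHom v)
  have h4 : L t.τ₁ (t.ι v) = 0 := by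
    rw [L_map]
    have : ∀ r, pull t.ι t.τ₁ r = (0 : t.S →+ ℤ_[p]) r := fun r => t.τ₁_ι r
    rw [L_congr_fun this, L]
    have h5 : tlTerm (0 : t.S →+ ℤ_[p]) ((v : t.S) - 1) = fun _ => 0 := by
      funext k
      simp [tlTerm]
    rw [tl, h5, tsum_zero]
  rw [lam, L_mul t.τ₁ t.τ₁_comm cen_p (h1.of_mul_eq_one cen_p h3) h2,
    L_inv t.τ₁ t.τ₁_comm cen_p h1 h3, h4, neg_zero, zero_add, L_map]
  exact L_congr_fun (fun r => t.τ₁_θ r) _

end TwTr

end Pool.Agent.H71.KP
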