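import Pool.Agent.H71.KP.Skew

/-!
# The homomorphism `Lam`
-/

set_option autoImplicit false
set_option linter.unusedSectionVars false

open Matrix

universe u v

namespace Pool.Agent.H71.KP

namespace TwTr

variable {p : ℕ} [hp : Fact p.Prime] {M : Type u} [Ring M] (t : TwTr p M)

/-- the norm (trace) of an element -/
def tr : M →+ M where
  toFun z := ∑ i, t.act i z
  map_zero' := by simp
  map_add' a b := by simp [Finset.sum_add_distrib]

theorem tr_apply (z : M) : t.tr z = ∑ i, t.act i z := rfl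

theorem act_tr (j : ZMod p) (z : M) : t.act j (t.tr z) = t.tr z := by
  rw [tr_apply, map_sum, ← Equiv.sum_comp (Equiv.addLeft j) (fun i => t.act i z)]
  apply Finset.sum_congr rfl
  intro i _
  rw [Equiv.coe_addLeft, t.act_add]

/-- elements fixed by the action -/
def Fix (x : M) : Prop := ∀ i, t.act i x = x

theorem Fix.one : t.Fix 1 := fun _ => map_one _

theorem Fix.mul {x y : M} (hx : t.Fix x) (hy : t.Fix y) : t.Fix (x * y) := fun i => by
  rw [map_mul, hx i, hy i]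

theorem Fix.add {x y : M} (hx : t.Fix x) (hy : t.Fix y) : t.Fix (x + y) := fun i => by
  rw [map_add, hx i, hy i]

theorem Fix.sub {x y : M} (hx : t.Fix x) (hy : t.Fix y) : t.Fix (x - y) := fun i => by
  rw [map_sub, hx i, hy i]

theorem Fix.natCast (n : ℕ) : t.Fix (n : M) := fun _ => map_natCast _ n

theorem Fix.inv {g : Mˣ} (h : t.Fix (g : M)) : t.Fix ((g⁻¹ : Mˣ) : M) := by
  intro i
  have h1 : t.act i ((g⁻¹ : Mˣ) : M) * g = 1 := by
    conv_lhs => rw [← h i]
    rw [← map_mul, Units.inv_mul, map_one]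
  calc t.act i ((g⁻¹ : Mˣ) : M) = t.act i ((g⁻¹ : Mˣ) : M) * (g * (g⁻¹ : Mˣ)) := by
        rw [Units.mul_inv, mul_one]
    _ = (g⁻¹ : Mˣ) := by rw [← mul_assoc, h1, one_mul]

theorem tr_mul_fix (z : M) {w : M} (hw : t.Fix w) : t.tr (z * w) = t.tr z * w := by
  rw [tr_apply, tr_apply, Finset.sum_mul]
  apply Finset.sum_congr rfl
  intro i _
  rw [map_mul, hw i]

theorem tr_fix_mul (z : M) {w : M} (hw : t.Fix w) : t.tr (w * z) = w * t.tr z := by
  rw [tr_apply, tr_apply, Finset.mul_sum]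
  apply Finset.sum_congr rfl
  intro i _
  rw [map_mul, hw i]

theorem tr_fix {x : M} (hx : t.Fix x) : t.tr x = (p : M) * x := by
  rw [tr_apply, Finset.sum_congr rfl (fun i _ => hx i), Finset.sum_const, Finset.card_univ,
    ZMod.card, nsmul_eq_mul]

theorem κ_tr (z : M) : t.κ (t.tr z) = p * t.κ z := by
  rw [tr_apply, map_sum, Finset.sum_congr rfl (fun i _ => t.κ_act i z), Finset.sum_const,
    Finset.card_univ, ZMod.card, nsmul_eq_mul]

/-- the element `z N` of the skew ring -/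
def Zm : M →+ t.S where
  toFun z := ⟨Matrix.of fun i _ => t.act i z, by
    intro a b l
    change t.act (a + l) z = t.act l (t.act a z)
    rw [← t.act_add, add_comm]⟩
  map_zero' := by
    apply Subtype.ext
    ext i j
    change t.act i 0 = 0
    rw [map_zero]
  map_add' a b := by
    apply Subtype.ext
    ext i j
    change t.act i (a + b) = t.act i a + t.act i b
    rw [map_add]

theorem Zm_apply (z : M) (i j : ZMod p) : (t.Zm z).1 i j = t.act i z := rfl

theorem Zm_mul (z w : M) : t.Zm z * t.Zm w = t.Zm (z * t.tr w) := by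
  apply Subtype.ext
  ext i j
  change ((t.Zm z).1 * (t.Zm w).1) i j = _
  rw [Matrix.mul_apply, Zm_apply, map_mul, t.act_tr, tr_apply, Finset.mul_sum]
  rfl

/-- the diagonal embedding -/
def em : M →+* t.S where
  toFun w := ⟨Matrix.diagonal fun i => t.act i w, by
    intro a b l
    by_cases h : a = b
    · subst h
      rw [Matrix.diagonal_apply_eq, Matrix.diagonal_apply_eq]
      change _ = t.act l _
      rw [← t.act_add, add_comm]
    · have h' : a + l ≠ b + l := fun h' => h (add_right_cancel h')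
      rw [Matrix.diagonal_apply_ne _ h', Matrix.diagonal_apply_ne _ h, map_zero]⟩
  map_one' := by
    apply Subtype.ext
    change (Matrix.diagonal fun i => t.act i 1) = 1
    simp
  map_zero' := by
    apply Subtype.ext
    change (Matrix.diagonal fun i => t.act i 0) = 0
    simp
  map_add' a b := by
    apply Subtype.ext
    change (Matrix.diagonal fun i => t.act i (a + b)) =
      (Matrix.diagonal fun i => t.act i a) + (Matrix.diagonal fun i => t.act i b)
    simp
  map_mul' a b := by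
    apply Subtype.ext
    change (Matrix.diagonal fun i => t.act i (a * b)) =
      (Matrix.diagonal fun i => t.act i a) * (Matrix.diagonal fun i => t.act i b)
    simp

theorem em_mul_Zm (w z : M) : t.em w * t.Zm z = t.Zm (w * z) := by
  apply Subtype.ext
  ext i j
  change ((Matrix.diagonal fun i => t.act i w) * (t.Zm z).1) i j = _
  rw [Matrix.diagonal_mul, Zm_apply, Zm_apply, map_mul]

theorem Zm_mul_em (z : M) {w : M} (hw : t.Fix w) : t.Zm z * t.em w = t.Zm (z * w) := by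
  apply Subtype.ext
  ext i j
  change ((t.Zm z).1 * (Matrix.diagonal fun i => t.act i w)) i j = _
  rw [Matrix.mul_diagonal, Zm_apply, Zm_apply, map_mul, hw i, hw j]

theorem fix_of_cond {z : M} {g : Mˣ} (h : (g : M) = 1 + t.tr z) : t.Fix (g : M) := by
  intro i
  rw [h, map_add, map_one, t.act_tr]

/-- the unit `1 + z N` of the skew ring, for a unit `g = 1 + tr z` -/
def vU (z : M) (g : Mˣ) (h : (g : M) = 1 + t.tr z) : t.Sˣ where
  val := 1 + t.Zm z
  inv := 1 - t.Zm (z * (g⁻¹ : Mˣ))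
  val_inv := by
    have hs : t.Fix ((g⁻¹ : Mˣ) : M) := (t.fix_of_cond h).inv
    have h1 : (1 + t.tr z) * ((g⁻¹ : Mˣ) : M) = 1 := by rw [← h, Units.mul_inv]
    have h2 : t.tr z * ((g⁻¹ : Mˣ) : M) = 1 - (g⁻¹ : Mˣ) := by
      rw [add_mul, one_mul] at h1
      exact eq_sub_of_add_eq' h1
    rw [add_mul, one_mul, mul_sub, mul_one, Zm_mul, t.tr_mul_fix _ hs, h2, mul_sub, mul_one,
      map_sub]
    abel
  inv_val := by
    have hs : t.Fix ((g⁻¹ : Mˣ) : M) := (t.fix_of_cond h).inv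
    have h1 : ((g⁻¹ : Mˣ) : M) * (1 + t.tr z) = 1 := by rw [← h, Units.inv_mul]
    have h2 : ((g⁻¹ : Mˣ) : M) * t.tr z = 1 - (g⁻¹ : Mˣ) := by
      rw [mul_add, mul_one] at h1
      exact eq_sub_of_add_eq' h1
    rw [sub_mul, one_mul, mul_add, mul_one, Zm_mul, mul_assoc, h2, mul_sub, mul_one,
      map_sub]
    abel

theorem vU_val (z : M) (g : Mˣ) (h : (g : M) = 1 + t.tr z) :
    (t.vU z g h : t.S) = 1 + t.Zm z := rfl

theorem mul_add_cond {z1 z2 : M} {g1 g2 : Mˣ} (h1 : (g1 : M) = 1 + t.tr z1)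
    (h2 : (g2 : M) = 1 + t.tr z2) :
    ((g1 * g2 : Mˣ) : M) = 1 + t.tr (z1 * g2 + z2) := by
  rw [map_add, t.tr_mul_fix _ (t.fix_of_cond h2), Units.val_mul, h1, add_mul, one_mul]
  conv_lhs => arg 1; rw [h2]
  abel

theorem vU_mul {z1 z2 : M} {g1 g2 : Mˣ} (h1 : (g1 : M) = 1 + t.tr z1)
    (h2 : (g2 : M) = 1 + t.tr z2)
    (h : ((g1 * g2 : Mˣ) : M) = 1 + t.tr (z1 * g2 + z2)) :
    t.vU z1 g1 h1 * t.vU z2 g2 h2 = t.vU (z1 * g2 + z2) (g1 * g2) h := by
  apply Units.ext
  rw [Units.val_mul, vU_val, vU_val, vU_val, add_mul, one_mul, mul_add, mul_one, Zm_mul]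
  conv_rhs => rw [h2, mul_add, mul_one, map_add, map_add]
  abel

theorem cond_one {y : M} (hy : t.tr y = 0) : ((1 : Mˣ) : M) = 1 + t.tr y := by
  rw [hy, add_zero, Units.val_one]

/-- the value of `lam` on `1 + y N` for `tr y = 0` -/
noncomputable def lamY (y : M) (hy : t.tr y = 0) : ℚ_[p] := t.lam (t.vU y 1 (t.cond_one hy))

theorem lam_congr {z z' : M} {g g' : Mˣ} (h : (g : M) = 1 + t.tr z)
    (h' : (g' : M) = 1 + t.tr z') (hz : z = z') : t.lam (t.vU z g h) = t.lam (t.vU z' g' h') := by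
  subst hz
  have : g = g' := Units.ext (h.trans h'.symm)
  subst this
  rfl

theorem lamY_add {y y' : M} (hy : t.tr y = 0) (hy' : t.tr y' = 0)
    (h : t.tr (y + y') = 0) : t.lamY (y + y') h = t.lamY y hy + t.lamY y' hy' := by
  rw [lamY, lamY, lamY, ← lam_mul,
    t.vU_mul (t.cond_one hy) (t.cond_one hy') (t.mul_add_cond (t.cond_one hy) (t.cond_one hy'))]
  apply t.lam_congr
  rw [Units.val_one, mul_one]

theorem lamY_nsmul {y : M} (hy : t.tr y = 0) (n : ℕ) (h : t.tr (n • y) = 0) :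
    t.lamY (n • y) h = n * t.lamY y hy := by
  induction n with
  | zero =>
    have h0 : t.tr (0 : M) = 0 := map_zero _
    have e : t.lamY (0 • y) h = t.lamY 0 h0 := by
      rw [lamY, lamY]
      apply t.lam_congr
      rw [zero_smul]
    have e2 : t.lamY 0 h0 = 0 := by
      rw [lamY]
      have : t.vU 0 1 (t.cond_one h0) = 1 := by
        apply Units.ext
        rw [vU_val, map_zero, add_zero, Units.val_one]
      rw [this, lam_one]
    rw [e, e2, Nat.cast_zero, zero_mul]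
  | succ n ih =>
    have hn : t.tr (n • y) = 0 := by rw [map_nsmul, hy, smul_zero]
    have h2 : t.tr (n • y + y) = 0 := by rw [map_add, hn, hy, add_zero]
    have h3 : t.lamY ((n + 1) • y) h = t.lamY (n • y + y) h2 := by
      rw [lamY, lamY]
      exact t.lam_congr _ _ (succ_nsmul y n)
    rw [h3, t.lamY_add hn hy, ih hn]
    push_cast
    ring

theorem κ_eq_zero {y : M} (hy : t.tr y = 0) : t.κ y = 0 := by
  have h1 := t.κ_tr y
  rw [hy, map_zero] at h1
  have hp0 : (p : ℤ_[p]) ≠ 0 := by exact_mod_cast hp.out.ne_zero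
  exact (mul_eq_zero.1 h1.symm).resolve_left hp0

theorem τ_Zm (z : M) : t.τ (t.Zm z) = t.κ z := by
  change t.κ ((t.Zm z).1 0 1) = _
  rw [Zm_apply, t.act_zero]

theorem lamY_eq_zero {y : M} (hy : t.tr y = 0) : t.lamY y hy = 0 := by
  have h1 : t.tr (p • y) = 0 := by rw [map_nsmul, hy, smul_zero]
  have h2 := t.lamY_nsmul hy p h1
  have h3 : t.lamY (p • y) h1 = 0 := by
    have e1 : (t.vU (p • y) 1 (t.cond_one h1) : t.S) = 1 + (p : t.S) * t.Zm y := by
      rw [vU_val, map_nsmul, nsmul_eq_mul]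
    rw [lamY, t.lam_eq ⟨_, e1⟩, e1, L_one_add]
    have e2 : tl t.τ ((p : t.S) * t.Zm y) = tl t.τ 0 := by
      apply tl_congr
      intro k
      rcases k with _ | k
      · rw [zero_add, pow_one, pow_one, map_p_mul, τ_Zm, t.κ_eq_zero hy, mul_zero, map_zero]
      · have e3 : ((p : t.S) * t.Zm y) * ((p : t.S) * t.Zm y) = 0 := by
          rw [mul_assoc, ← mul_assoc (t.Zm y), ← p_comm, mul_assoc, Zm_mul, hy, mul_zero, map_zero,
            mul_zero, mul_zero]
        rw [pow_succ, pow_succ, mul_assoc, e3, mul_zero, zero_pow (by omega)]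
    rw [e2, tl_zero]
  rw [h3] at h2
  have hp0 : (p : ℚ_[p]) ≠ 0 := by exact_mod_cast hp.out.ne_zero
  exact (mul_eq_zero.1 h2.symm).resolve_left hp0

/-- `lam (1 + z N)` does not depend on `z` -/
theorem lam_indep {z z' : M} {g g' : Mˣ} (h : (g : M) = 1 + t.tr z)
    (h' : (g' : M) = 1 + t.tr z') (hg : g = g') : t.lam (t.vU z g h) = t.lam (t.vU z' g' h') := by
  subst hg
  have hs : t.Fix ((g⁻¹ : Mˣ) : M) := (t.fix_of_cond h).inv
  set y := (z' - z) * ((g⁻¹ : Mˣ) : M) with hy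
  have hy0 : t.tr y = 0 := by
    rw [hy, t.tr_mul_fix _ hs, map_sub]
    have : t.tr z' - t.tr z = 0 := by
      rw [h] at h'
      rw [sub_eq_zero]
      exact (add_left_cancel h').symm
    rw [this, zero_mul]
  have h1 := t.vU_mul (t.cond_one hy0) h (t.mul_add_cond (t.cond_one hy0) h)
  have h2 : t.lam (t.vU z' g h') = t.lam (t.vU (y * g + z) (1 * g)
      (t.mul_add_cond (t.cond_one hy0) h)) := by
    apply t.lam_congr
    rw [hy, mul_assoc, Units.inv_mul, mul_one]
    abel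
  rw [h2, ← h1, lam_mul]
  have h3 := t.lamY_eq_zero hy0
  rw [lamY] at h3
  rw [h3, zero_add]

/-- units of the form `1 + tr z` -/
def Adm (g : Mˣ) : Prop := ∃ z, (g : M) = 1 + t.tr z

open scoped Classical in
/-- the homomorphism `Lam` -/
noncomputable def Lam (g : Mˣ) : ℚ_[p] :=
  if h : t.Adm g then t.lam (t.vU h.choose g h.choose_spec) else 0

theorem Lam_eq {z : M} {g : Mˣ} (h : (g : M) = 1 + t.tr z) : t.Lam g = t.lam (t.vU z g h) := by
  have h' : t.Adm g := ⟨z, h⟩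
  rw [Lam, dif_pos h']
  exact t.lam_indep _ _ rfl

theorem Adm.mul {g g' : Mˣ} (h : t.Adm g) (h' : t.Adm g') : t.Adm (g * g') := by
  obtain ⟨z, hz⟩ := h
  obtain ⟨z', hz'⟩ := h'
  exact ⟨_, t.mul_add_cond hz hz'⟩

theorem Lam_mul {g g' : Mˣ} (h : t.Adm g) (h' : t.Adm g') :
    t.Lam (g * g') = t.Lam g + t.Lam g' := by
  obtain ⟨z, hz⟩ := h
  obtain ⟨z', hz'⟩ := h'
  rw [t.Lam_eq (t.mul_add_cond hz hz'), ← t.vU_mul hz hz', lam_mul, t.Lam_eq hz, t.Lam_eq hz']

theorem Lam_one : t.Lam 1 = 0 := by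
  have h1 : t.Adm 1 := ⟨0, by rw [map_zero, add_zero, Units.val_one]⟩
  have h2 := t.Lam_mul h1 h1
  rw [mul_one] at h2
  exact (add_eq_left.1 h2.symm)

theorem conj_cond {z : M} {g w : Mˣ} (hz : (g : M) = 1 + t.tr z) (hw : t.Fix (w : M)) :
    ((w⁻¹ * g * w : Mˣ) : M) = 1 + t.tr ((w⁻¹ : Mˣ) * z * w) := by
  rw [t.tr_mul_fix _ hw, t.tr_fix_mul _ hw.inv, Units.val_mul, Units.val_mul, hz, mul_add, mul_one,
    add_mul, Units.inv_mul]

theorem Adm.conj {g w : Mˣ} (h : t.Adm g) (hw : t.Fix (w : M)) : t.Adm (w⁻¹ * g * w) := by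
  obtain ⟨z, hz⟩ := h
  exact ⟨_, t.conj_cond hz hw⟩

theorem Lam_conj {g w : Mˣ} (h : t.Adm g) (hw : t.Fix (w : M)) :
    t.Lam (w⁻¹ * g * w) = t.Lam g := by
  obtain ⟨z, hz⟩ := h
  rw [t.Lam_eq (t.conj_cond hz hw), t.Lam_eq hz,
    ← t.lam_conj (t.vU z g hz) (Units.map t.em.toMonoidHom w)]
  congr 1
  apply Units.ext
  rw [Units.val_mul, Units.val_mul, vU_val, vU_val, ← map_inv]
  change _ = t.em ((w⁻¹ : Mˣ) : M) * (1 + t.Zm z) * t.em (w : M)
  rw [mul_add, mul_one, add_mul, ← map_mul, Units.inv_mul, map_one, em_mul_Zm,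
    t.Zm_mul_em _ hw]

/-- The value of `Lam` on units `1 + p ^ 2 x` with `x` fixed. -/
theorem Lam_sq {x : M} (hx : t.Fix x) {g : Mˣ} (h : (g : M) = 1 + (p : M) ^ 2 * x) :
    p * t.Lam g = L t.κ (g : M) := by
  have hz : (g : M) = 1 + t.tr ((p : M) * x) := by
    rw [t.tr_fix_mul _ (Fix.natCast t p), t.tr_fix hx, h, pow_two, mul_assoc]
  have e1 : (t.vU ((p : M) * x) g hz : t.S) = 1 + (p : t.S) * t.Zm x := by
    rw [vU_val, ← nsmul_eq_mul, map_nsmul, nsmul_eq_mul]
  rw [t.Lam_eq hz, t.lam_eq ⟨_, e1⟩, e1, h, L_one_add, L_one_add]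
  have hpow : ∀ k : ℕ, ((p : t.S) * t.Zm x) ^ (k + 1) = (p : t.S) ^ (2 * k + 1) *
      t.Zm (x ^ (k + 1)) := by
    intro k
    induction k with
    | zero => simp
    | succ k ih =>
      have e2 : t.Zm (x ^ (k + 1)) * t.Zm x = (p : t.S) * t.Zm (x ^ (k + 1 + 1)) := by
        rw [Zm_mul, t.tr_fix hx, ← mul_assoc, ← p_comm (x ^ (k + 1)), mul_assoc, ← pow_succ,
          ← nsmul_eq_mul, map_nsmul, nsmul_eq_mul]
      rw [pow_succ, ih, mul_assoc, ← mul_assoc (t.Zm (x ^ (k + 1))), ← p_comm, mul_assoc, e2,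
        ← mul_assoc, ← mul_assoc, ← pow_succ, ← pow_succ]
      congr 2
  rw [tl, tl, ← tsum_mul_left]
  congr 1
  funext k
  rw [tlTerm, tlTerm, hpow, map_p_pow_mul, τ_Zm]
  have h4 : ((p : M) ^ 2 * x) ^ (k + 1) = (p : M) ^ (2 * (k + 1)) * x ^ (k + 1) := by
    rw [((Nat.cast_commute p x).pow_left 2).mul_pow, pow_mul]
  rw [h4, map_p_pow_mul]
  push_cast
  rw [show 2 * (k + 1) = 2 * k + 1 + 1 by ring, pow_succ (p : ℚ_[p]) (2 * k + 1)]
  ring

end TwTr

end Pool.Agent.H71.KP
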