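import Pool.Agent.H71.KP.U
import Pool.Agent.H71.KP.Defs
import Pool.Agent.H71.WH.Fun

/-!
# Stabilisation, change of rings for `K₁`, and the functionals on `K₁(ℤ_[p][G])`
-/

set_option autoImplicit false
set_option linter.unusedSectionVars false
set_option linter.unusedSimpArgs false

open Matrix Filter
open scoped Classical

universe u v w

namespace Pool.Agent.H71.KP

open Pool.Agent.H71.WH (emb emb_apply unitExt unitExt_val emb_comp emb_map blockOne_eq InvMat
  K1 K1.mk K1.unit K1Rel genK1 addOne oneByOne blockOne CycSub conjHom K1.mk_mul K1.unit_mul)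

section Stab

variable {A : Type u} [Ring A] {n N : ℕ}

/-- stabilisation of invertible matrices -/
def stU (h : n ≤ N) : (Matrix (Fin n) (Fin n) A)ˣ →* (Matrix (Fin N) (Fin N) A)ˣ :=
  unitExt (emb (Fin.castLEEmb h))

theorem stU_val (h : n ≤ N) (x : (Matrix (Fin n) (Fin n) A)ˣ) :
    (stU h x : Matrix (Fin N) (Fin N) A) =
      emb (Fin.castLEEmb h) (x : Matrix (Fin n) (Fin n) A) + (1 - emb (Fin.castLEEmb h) 1) := rfl

theorem stU_addOne (h : n + 1 ≤ N) (x : (Matrix (Fin n) (Fin n) A)ˣ) :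
    stU h (addOne x) = stU ((Nat.le_succ n).trans h) x := by
  have h1 : (Fin.castAddEmb 1 : Fin n ↪ Fin (n + 1)).trans (Fin.castLEEmb h) =
      Fin.castLEEmb ((Nat.le_succ n).trans h) := by
    ext i
    rfl
  apply Units.ext
  rw [stU_val, stU_val]
  change emb (Fin.castLEEmb h) (blockOne (x : Matrix (Fin n) (Fin n) A)) + _ = _
  rw [blockOne_eq, map_add, map_sub, emb_comp, emb_comp, h1]
  abel

variable {B : Type v} [Ring B] (φ : A →+* B)

/-- change of rings for invertible matrices -/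
def mapGL (φ : A →+* B) (n : ℕ) : (Matrix (Fin n) (Fin n) A)ˣ →* (Matrix (Fin n) (Fin n) B)ˣ :=
  Units.map (RingHom.mapMatrix φ).toMonoidHom

theorem mapGL_val (x : (Matrix (Fin n) (Fin n) A)ˣ) :
    (mapGL φ n x : Matrix (Fin n) (Fin n) B) = (x : Matrix (Fin n) (Fin n) A).map φ := rfl

theorem mapGL_stU (h : n ≤ N) (x : (Matrix (Fin n) (Fin n) A)ˣ) :
    mapGL φ N (stU h x) = stU h (mapGL φ n x) := by
  apply Units.ext
  rw [mapGL_val, stU_val, stU_val, mapGL_val, ← emb_map]
  have h1 : emb (R := B) (Fin.castLEEmb h) 1 =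
      ((emb (R := A) (Fin.castLEEmb h) 1).map φ) := by
    rw [emb_map, Matrix.map_one φ (map_zero φ) (map_one φ)]
  rw [h1, Matrix.map_add φ (map_add φ), Matrix.map_sub φ (map_sub φ),
    Matrix.map_one φ (map_zero φ) (map_one φ)]

theorem mapGL_addOne (x : (Matrix (Fin n) (Fin n) A)ˣ) :
    mapGL φ (n + 1) (addOne x) = addOne (mapGL φ n x) := by
  apply Units.ext
  change (blockOne (x : Matrix (Fin n) (Fin n) A)).map φ =
    blockOne ((x : Matrix (Fin n) (Fin n) A).map φ)
  rw [blockOne, blockOne, ← Matrix.submatrix_map, Matrix.fromBlocks_map,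
    Matrix.map_one φ (map_zero φ) (map_one φ), Matrix.map_zero φ (map_zero φ),
    Matrix.map_zero φ (map_zero φ)]

theorem mapGL_oneByOne (x : Aˣ) : mapGL φ 1 (oneByOne x) = oneByOne (Units.map φ.toMonoidHom x) := by
  apply Units.ext
  refine Matrix.ext fun i j => ?_
  have hij : i = j := Subsingleton.elim _ _
  subst hij
  rw [mapGL_val, Matrix.map_apply]
  change φ (Matrix.diagonal (fun _ => (x : A)) i i) = Matrix.diagonal (fun _ => φ (x : A)) i i
  rw [Matrix.diagonal_apply_eq, Matrix.diagonal_apply_eq]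

/-- the map on the free abelian group -/
def K1mapFree (φ : A →+* B) : FreeAbelianGroup (InvMat A) →+ K1 B :=
  FreeAbelianGroup.lift fun a => K1.mk (mapGL φ a.n a.mat)

theorem K1.mk_addOne (x : (Matrix (Fin n) (Fin n) A)ˣ) : K1.mk (addOne x) = K1.mk x := by
  rw [K1.mk, K1.mk, ← sub_eq_zero]
  exact (QuotientAddGroup.eq_zero_iff _).2 (AddSubgroup.subset_closure (Or.inr ⟨n, x, rfl⟩))

theorem K1mapFree_le (φ : A →+* B) : K1Rel A ≤ (K1mapFree φ).ker := by
  rw [K1Rel, AddSubgroup.closure_le]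
  rintro z (⟨n, x, y, rfl⟩ | ⟨n, x, rfl⟩)
  · change K1mapFree φ (genK1 (x * y) - (genK1 x + genK1 y)) = 0
    rw [K1mapFree, map_sub, map_add, genK1, genK1, genK1, FreeAbelianGroup.lift_apply_of,
      FreeAbelianGroup.lift_apply_of, FreeAbelianGroup.lift_apply_of]
    refine sub_eq_zero.2 ?_
    rw [← K1.mk_mul, ← map_mul]
  · change K1mapFree φ (genK1 (addOne x) - genK1 x) = 0
    rw [K1mapFree, map_sub, genK1, genK1, FreeAbelianGroup.lift_apply_of,
      FreeAbelianGroup.lift_apply_of]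
    refine sub_eq_zero.2 ?_
    rw [← K1.mk_addOne (mapGL φ n x), ← mapGL_addOne]

/-- The map `K₁(A) → K₁(B)` induced by a ring homomorphism. -/
def K1map (φ : A →+* B) : K1 A →+ K1 B :=
  QuotientAddGroup.lift (K1Rel A) (K1mapFree φ) (K1mapFree_le φ)

theorem K1map_mk (x : (Matrix (Fin n) (Fin n) A)ˣ) :
    K1map φ (K1.mk x) = K1.mk (mapGL φ n x) := FreeAbelianGroup.lift_apply_of _ _

theorem K1map_unit (x : Aˣ) : K1map φ (K1.unit x) = K1.unit (Units.map φ.toMonoidHom x) := by
  rw [K1.unit, K1map_mk, mapGL_oneByOne]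
  rfl

end Stab

end Pool.Agent.H71.KP
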