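import Pool.Agent.H71.KP.Res
import Pool.Agent.H71.WH.Prim

/-!
# Systems of logarithms and the decomposition into primitive classes
-/

set_option autoImplicit false
set_option linter.unusedSectionVars false
set_option linter.unusedSimpArgs false

open Matrix
open scoped Classical

universe u v w t

namespace Pool.Agent.H71.KP

open Pool.Agent.H71.WH (exists_nu Sat Sat_of_smul mem_Sat CycSub conjHom)

/-- A system of logarithms for the units of the group rings of finite cyclic groups of good
order. -/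
structure LogSys (R : Type u) [CommRing R] (A : Type w) [AddCommGroup A] where
  /-- the good orders -/
  good : ℕ → Prop
  good_dvd : ∀ {m n : ℕ}, m ∣ n → good n → good m
  /-- the coefficient at an element of the logarithm of a unit -/
  ell : ∀ (H : Type v) [Group H] [Finite H] [IsCyclic H], H → (MonoidAlgebra R H)ˣ → A
  ell_mul : ∀ (H : Type v) [Group H] [Finite H] [IsCyclic H] (c : H) (x y : (MonoidAlgebra R H)ˣ),
    good (Nat.card H) → ell H c (x * y) = ell H c x + ell H c y
  ell_map : ∀ (H H' : Type v) [Group H] [Finite H] [IsCyclic H] [Group H'] [Finite H']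
    [IsCyclic H'] (φ : H →* H') (_ : Function.Injective φ) (c : H) (x : (MonoidAlgebra R H)ˣ),
    good (Nat.card H') → ell H' (φ c) (unitsMap φ x) = ell H c x
  ell_map_zero : ∀ (H H' : Type v) [Group H] [Finite H] [IsCyclic H] [Group H'] [Finite H']
    [IsCyclic H'] (φ : H →* H') (_ : Function.Injective φ) (c' : H') (_ : ∀ c, φ c ≠ c')
    (x : (MonoidAlgebra R H)ˣ), good (Nat.card H') → ell H' c' (unitsMap φ x) = 0
  ell_res : ∀ (H : Type v) [CommGroup H] [Finite H] [IsCyclic H] (E : Subgroup H)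
    [Fintype (H ⧸ E)] (c : E) (x : (MonoidAlgebra R H)ˣ), good (Nat.card H) →
    ell E c (resU E x) = (Nat.card (H ⧸ E) : ℤ) • ell H (c : H) x
  detect : ∀ (H : Type v) [Group H] [Finite H] [IsCyclic H] (x : (MonoidAlgebra R H)ˣ),
    good (Nat.card H) → (∀ c, ell H c x = 0) → ∃ m : ℕ, m ≠ 0 ∧ x ^ m = 1

theorem unitsMap_comp {R : Type t} [CommRing R] {A : Type u} {B : Type v} {C : Type w} [Group A]
    [Group B] [Group C] (φ : A →* B) (ψ : B →* C) (x : (MonoidAlgebra R A)ˣ) :
    unitsMap ψ (unitsMap φ x) = unitsMap (ψ.comp φ) x := by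
  have h : ((MonoidAlgebra.mapDomainRingHom R ψ).comp (MonoidAlgebra.mapDomainRingHom R φ))
      (x : MonoidAlgebra R A) = MonoidAlgebra.mapDomainRingHom R (ψ.comp φ)
      (x : MonoidAlgebra R A) := by
    rw [MonoidAlgebra.mapDomainRingHom_comp]
  exact Units.ext h

namespace LogSys

variable {R : Type u} [CommRing R] {A : Type w} [AddCommGroup A] (S : LogSys.{u, v, w} R A)

section H

variable {H : Type v} [Group H] [Finite H] [IsCyclic H]

/-- the logarithm as a homomorphism -/
noncomputable def ellM (c : H) (hg : S.good (Nat.card H)) :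
    (MonoidAlgebra R H)ˣ →* Multiplicative A :=
  MonoidHom.mk' (fun x => Multiplicative.ofAdd (S.ell H c x)) (fun x y => S.ell_mul H c x y hg)

theorem ell_one (c : H) (hg : S.good (Nat.card H)) : S.ell H c 1 = 0 := map_one (S.ellM c hg)

theorem ell_inv (c : H) (hg : S.good (Nat.card H)) (x : (MonoidAlgebra R H)ˣ) :
    S.ell H c x⁻¹ = -S.ell H c x := map_inv (S.ellM c hg) x

theorem ell_zpow (c : H) (hg : S.good (Nat.card H)) (x : (MonoidAlgebra R H)ˣ) (n : ℤ) :
    S.ell H c (x ^ n) = n • S.ell H c x := map_zpow (S.ellM c hg) x n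

theorem ell_list (c : H) (hg : S.good (Nat.card H)) (l : List (MonoidAlgebra R H)ˣ) :
    S.ell H c l.prod = (l.map (S.ell H c)).sum := by
  induction l with
  | nil => exact S.ell_one c hg
  | cons a l ih => rw [List.prod_cons, S.ell_mul H c _ _ hg, ih, List.map_cons, List.sum_cons]

end H

section C

variable {H : Type v} [CommGroup H] [Finite H] [IsCyclic H]

theorem ell_prod (c : H) (hg : S.good (Nat.card H)) {ι : Type*} (s : Finset ι)
    (x : ι → (MonoidAlgebra R H)ˣ) :
    S.ell H c (∏ i ∈ s, x i) = ∑ i ∈ s, S.ell H c (x i) := by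
  induction s using Finset.induction_on with
  | empty =>
    rw [Finset.prod_empty, Finset.sum_empty]
    exact S.ell_one c hg
  | insert a s ha ih =>
    rw [Finset.prod_insert ha, Finset.sum_insert ha, S.ell_mul H c _ _ hg, ih]

theorem ell_ir (E : Subgroup H) [Fintype (H ⧸ E)] (x : (MonoidAlgebra R H)ˣ) (c : H)
    (hg : S.good (Nat.card H)) :
    S.ell H c (ir E x) = if c ∈ E then (Nat.card (H ⧸ E) : ℤ) • S.ell H c x else 0 := by
  split_ifs with hc
  · have h1 := S.ell_map E H E.subtype E.subtype_injective ⟨c, hc⟩ (resU E x) hg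
    exact h1.trans (S.ell_res H E ⟨c, hc⟩ x hg)
  · exact S.ell_map_zero E H E.subtype E.subtype_injective c
      (fun e he => hc (he ▸ e.2)) (resU E x) hg

end C

/-- Units whose logarithm is supported at the generators of the cyclic group. -/
def IsPrim {D : Type v} [Group D] [Finite D] [IsCyclic D] (y : (MonoidAlgebra R D)ˣ) : Prop :=
  ∀ c : D, Subgroup.zpowers c ≠ ⊤ → S.ell D c y = 0

theorem exists_prim (D : Type v) [CommGroup D] [Fintype D] [IsCyclic D]
    (hg : S.good (Nat.card D)) :
    ∃ κ : Subgroup D → ℤ, ∀ x : (MonoidAlgebra R D)ˣ,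
      S.IsPrim (x ^ (Nat.card D : ℤ) *
        ∏ E ∈ (Finset.univ : Finset (Subgroup D)).erase ⊤, ir E x ^ (κ E * (Nat.card E : ℤ))) := by
  obtain ⟨κ, hκ⟩ := exists_nu ((Finset.univ : Finset (Subgroup D)).erase ⊤) (fun _ => -1)
  refine ⟨κ, fun x c hc => ?_⟩
  have h0 := hκ (Subgroup.zpowers c) (Finset.mem_erase.2 ⟨hc, Finset.mem_univ _⟩)
  simp only [Subgroup.zpowers_le] at h0
  rw [S.ell_mul D c _ _ hg, S.ell_prod c hg, S.ell_zpow c hg]
  have h1 : ∀ E : Subgroup D, S.ell D c (ir E x ^ (κ E * (Nat.card E : ℤ))) =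
      (if c ∈ E then κ E else 0 : ℤ) • ((Nat.card D : ℤ) • S.ell D c x) := by
    intro E
    rw [S.ell_zpow c hg, S.ell_ir E x c hg]
    split_ifs
    · have h2 : (Nat.card D : ℤ) = (Nat.card (D ⧸ E) : ℤ) * (Nat.card E : ℤ) := by
        rw [← Nat.cast_mul, ← Subgroup.card_eq_card_quotient_mul_card_subgroup]
      rw [h2, smul_smul, smul_smul]
      congr 1
      ring
    · rw [smul_zero, zero_smul]
  rw [Finset.sum_congr rfl (fun E _ => h1 E), ← Finset.sum_smul, ← Finset.sum_filter, h0,
    neg_one_smul, add_neg_cancel]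

end LogSys

section Clh

variable {R : Type u} [CommRing R] {G : Type v} [Group G]

/-- the range of a homomorphism from a finite cyclic group -/
def rangeSub {H : Type w} [Group H] [Finite H] [IsCyclic H] (ι : H →* G) : CycSub G :=
  ⟨ι.range, Set.finite_range ι, isCyclic_of_surjective ι.rangeRestrict ι.rangeRestrict_surjective⟩

/-- `ι` as a homomorphism onto its range -/
def toRange {H : Type w} [Group H] [Finite H] [IsCyclic H] (ι : H →* G) : H →* (rangeSub ι).1 :=
  ι.rangeRestrict

/-- The class of a unit of `R[H]` for a homomorphism from a finite cyclic group `H` to `G`. -/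
noncomputable def clh {H : Type w} [Group H] [Finite H] [IsCyclic H] (ι : H →* G)
    (x : (MonoidAlgebra R H)ˣ) : ColimU R G := cl (rangeSub ι) (unitsMap (toRange ι) x)

/-- `clh` as a homomorphism -/
noncomputable def clhM {H : Type w} [Group H] [Finite H] [IsCyclic H] (ι : H →* G) :
    (MonoidAlgebra R H)ˣ →* Multiplicative (ColimU R G) :=
  (clM (rangeSub ι)).comp (unitsMap (toRange ι))

theorem clh_mul {H : Type w} [Group H] [Finite H] [IsCyclic H] (ι : H →* G)
    (x y : (MonoidAlgebra R H)ˣ) : clh ι (x * y) = clh ι x + clh ι y := map_mul (clhM ι) x y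

theorem clh_zpow {H : Type w} [Group H] [Finite H] [IsCyclic H] (ι : H →* G)
    (x : (MonoidAlgebra R H)ˣ) (n : ℤ) : clh ι (x ^ n) = n • clh ι x := map_zpow (clhM ι) x n

theorem clh_prod {H : Type w} [CommGroup H] [Finite H] [IsCyclic H] (ι : H →* G)
    {κ : Type*} (s : Finset κ) (x : κ → (MonoidAlgebra R H)ˣ) :
    clh ι (∏ i ∈ s, x i) = ∑ i ∈ s, clh ι (x i) := by
  induction s using Finset.induction_on with
  | empty =>
    rw [Finset.prod_empty, Finset.sum_empty]
    exact map_one (clhM ι)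
  | insert a s ha ih => rw [Finset.prod_insert ha, Finset.sum_insert ha, clh_mul, ih]

theorem clh_map {H : Type w} {H' : Type t} [Group H] [Finite H] [IsCyclic H] [Group H']
    [Finite H'] [IsCyclic H'] (ι : H →* G) (ι' : H' →* G) (φ : H →* H')
    (h : ∀ a, ι' (φ a) = ι a) (x : (MonoidAlgebra R H)ˣ) :
    clh ι' (unitsMap φ x) = clh ι x := by
  have hr : ∀ y ∈ (rangeSub ι).1, (1 : G) * y * 1⁻¹ ∈ (rangeSub ι').1 := by
    rintro y ⟨a, rfl⟩
    refine ⟨φ a, ?_⟩
    rw [h, one_mul, inv_one, mul_one]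
  have h1 := cl_conj (rangeSub ι) (rangeSub ι') 1 hr (unitsMap (toRange ι) x)
  refine Eq.trans ?_ h1
  have h2 : (toRange ι').comp φ =
      (conjHom 1 (rangeSub ι).1 (rangeSub ι').1 hr).comp (toRange ι) := by
    apply MonoidHom.ext
    intro a
    apply Subtype.ext
    change ι' (φ a) = 1 * ι a * 1⁻¹
    rw [h, one_mul, inv_one, mul_one]
  rw [clh, unitsMap_comp, unitsMap_comp, h2]

theorem clh_subtype (C : CycSub G) [Finite C.1] [IsCyclic C.1] (x : (MonoidAlgebra R C.1)ˣ) :
    clh C.1.subtype x = cl C x := by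
  have hr : ∀ y ∈ C.1, (1 : G) * y * 1⁻¹ ∈ (rangeSub C.1.subtype).1 := by
    intro y hy
    refine ⟨⟨y, hy⟩, ?_⟩
    rw [one_mul, inv_one, mul_one]
    rfl
  have h2 : toRange C.1.subtype = conjHom 1 C.1 (rangeSub C.1.subtype).1 hr := by
    apply MonoidHom.ext
    intro a
    apply Subtype.ext
    change (a : G) = 1 * (a : G) * 1⁻¹
    rw [one_mul, inv_one, mul_one]
  have h3 := cl_conj C (rangeSub C.1.subtype) 1 hr x
  rw [← h2] at h3
  exact h3

end Clh

namespace LogSys

variable {R : Type u} [CommRing R] {A : Type w} [AddCommGroup A] (S : LogSys.{u, v, w} R A)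
  {G : Type v} [Group G]

theorem isPrim_map {D D' : Type v} [Group D] [Finite D] [IsCyclic D] [Group D'] [Finite D']
    [IsCyclic D'] (φ : D ≃* D') (hg : S.good (Nat.card D')) {y : (MonoidAlgebra R D)ˣ}
    (hy : S.IsPrim y) : S.IsPrim (unitsMap φ.toMonoidHom y) := by
  intro c hc
  have h1 := S.ell_map D D' φ.toMonoidHom φ.injective (φ.symm c) y hg
  have h0 : φ.toMonoidHom (φ.symm c) = c := φ.apply_symm_apply c
  rw [h0] at h1
  rw [h1]
  apply hy
  intro htop
  apply hc
  rw [eq_top_iff]
  intro d _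
  have h2 : φ.symm d ∈ Subgroup.zpowers (φ.symm c) := by rw [htop]; trivial
  obtain ⟨m, hm⟩ := Subgroup.mem_zpowers_iff.1 h2
  refine Subgroup.mem_zpowers_iff.2 ⟨m, ?_⟩
  apply φ.symm.injective
  rw [map_zpow, hm]

/-- The classes in the colimit represented by primitive units. -/
def PrimSet (G : Type v) [Group G] : Set (ColimU R G) :=
  {z | ∃ (D : CycSub G) (_ : Finite D.1) (_ : IsCyclic D.1) (y : (MonoidAlgebra R D.1)ˣ),
    S.good (Nat.card D.1) ∧ S.IsPrim y ∧ z = cl D y}

theorem clh_prim {H : Type v} [Group H] [Finite H] [IsCyclic H] (ι : H →* G)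
    (hι : Function.Injective ι) (hg : S.good (Nat.card H)) (y : (MonoidAlgebra R H)ˣ)
    (hy : S.IsPrim y) : clh ι y ∈ S.PrimSet G := by
  let e : H ≃* (rangeSub ι).1 := MonoidHom.ofInjective hι
  have he : e.toMonoidHom = toRange ι := rfl
  have i1 := (rangeSub ι).2.1
  have i2 := (rangeSub ι).2.2
  have hc : Nat.card (rangeSub ι).1 = Nat.card H := (Nat.card_congr e.toEquiv).symm
  refine ⟨rangeSub ι, i1, i2, unitsMap (toRange ι) y, by rwa [hc], ?_, rfl⟩
  rw [← he]
  exact S.isPrim_map e (by rwa [hc]) hy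

theorem prim_decomp (N : ℕ) : ∀ (H : Type v) [CommGroup H] [Finite H] [IsCyclic H],
    Nat.card H = N → S.good (Nat.card H) → ∀ ι : H →* G, Function.Injective ι →
    ∀ x : (MonoidAlgebra R H)ˣ, clh ι x ∈ Sat (AddSubgroup.closure (S.PrimSet G)) := by
  induction N using Nat.strong_induction_on with
  | _ N ih =>
    intro H _ _ _ hN hg ι hι x
    have : Fintype H := Fintype.ofFinite H
    obtain ⟨κ, hκ⟩ := S.exists_prim H hg
    have h1 := S.clh_prim ι hι hg _ (hκ x)
    have h2 : ∀ E ∈ (Finset.univ : Finset (Subgroup H)).erase ⊤,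
        clh ι (ir E x) ∈ Sat (AddSubgroup.closure (S.PrimSet G)) := by
      intro E hE
      have hE' : E ≠ ⊤ := (Finset.mem_erase.1 hE).1
      rw [ir, clh_map (ι.comp E.subtype) ι E.subtype (fun a => rfl)]
      refine ih (Nat.card E) ?_ E rfl (S.good_dvd (Subgroup.card_subgroup_dvd_card E) hg) _ ?_ _
      · rw [← hN]
        refine lt_of_le_of_ne (Nat.le_of_dvd Nat.card_pos (Subgroup.card_subgroup_dvd_card E)) ?_
        intro h
        exact hE' (Subgroup.eq_top_of_card_eq E h)
      · exact hι.comp E.subtype_injective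
    have hc : ((Nat.card H : ℕ) : ℤ) ≠ 0 := by exact_mod_cast Nat.card_pos.ne'
    refine Sat_of_smul hc ?_
    have h3 : (Nat.card H : ℤ) • clh ι x = clh ι (x ^ (Nat.card H : ℤ) *
        ∏ E ∈ (Finset.univ : Finset (Subgroup H)).erase ⊤, ir E x ^ (κ E * (Nat.card E : ℤ))) -
        ∑ E ∈ (Finset.univ : Finset (Subgroup H)).erase ⊤,
          (κ E * (Nat.card E : ℤ)) • clh ι (ir E x) := by
      rw [clh_mul, clh_prod, clh_zpow]
      simp only [clh_zpow]
      abel
    rw [h3]
    refine AddSubgroup.sub_mem _ (mem_Sat (AddSubgroup.subset_closure h1)) ?_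
    exact AddSubgroup.sum_mem _ fun E hE => AddSubgroup.zsmul_mem _ (h2 E hE) _

/-- Every class has a nonzero multiple which is a sum of primitive classes. -/
theorem mem_sat (C : CycSub G) (hg : S.good (Nat.card C.1)) (x : (MonoidAlgebra R C.1)ˣ) :
    cl C x ∈ Sat (AddSubgroup.closure (S.PrimSet G)) := by
  have := C.2.1
  have := C.2.2
  let e : ULift.{v} (Multiplicative (ZMod (Nat.card C.1))) ≃* C.1 :=
    MulEquiv.ulift.trans (zmodCyclicMulEquiv C.2.2)
  have hfin : Finite (ULift.{v} (Multiplicative (ZMod (Nat.card C.1)))) :=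
    Finite.of_equiv _ e.toEquiv.symm
  have hcyc : IsCyclic (ULift.{v} (Multiplicative (ZMod (Nat.card C.1)))) :=
    isCyclic_of_surjective e.symm e.symm.surjective
  rw [← clh_subtype, ← clh_map C.1.subtype (C.1.subtype.comp e.toMonoidHom) e.symm.toMonoidHom
    (by
      intro a
      change C.1.subtype (e (e.symm a)) = _
      rw [e.apply_symm_apply])]
  refine S.prim_decomp _ _ rfl ?_ _ (C.1.subtype_injective.comp e.injective) _
  rw [Nat.card_congr e.toEquiv]
  exact hg

end LogSys

end Pool.Agent.H71.KP
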