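import Pool.Agent.H71.KP.Sys
import Pool.Agent.H71.WH.Main

/-!
# Sums of primitive classes with vanishing logarithms are torsion
-/

set_option autoImplicit false
set_option linter.unusedSectionVars false
set_option linter.unusedSimpArgs false

open Matrix
open scoped Classical

universe u v w t

namespace Pool.Agent.H71.KP

open Pool.Agent.H71.WH (exists_nu Sat Sat_of_smul mem_Sat CycSub conjHom mulAut_finite IsInd
  zpowers_aut sum_ind)

namespace LogSys

variable {R : Type u} [CommRing R] {A : Type w} [AddCommGroup A] (S : LogSys.{u, v, w} R A)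
  {G : Type v} [Group G]

section D

variable {D : Type v} [Group D] [Finite D] [IsCyclic D] (hg : S.good (Nat.card D))

theorem isPrim_one (hg : S.good (Nat.card D)) : S.IsPrim (1 : (MonoidAlgebra R D)ˣ) :=
  fun c _ => S.ell_one c hg

theorem isPrim_mul (hg : S.good (Nat.card D)) {x y : (MonoidAlgebra R D)ˣ}
    (hx : S.IsPrim x) (hy : S.IsPrim y) : S.IsPrim (x * y) := by
  intro c hc
  rw [S.ell_mul D c x y hg, hx c hc, hy c hc, add_zero]

theorem isPrim_inv (hg : S.good (Nat.card D)) {x : (MonoidAlgebra R D)ˣ}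
    (hx : S.IsPrim x) : S.IsPrim x⁻¹ := by
  intro c hc
  rw [S.ell_inv c hg, hx c hc, neg_zero]

theorem ell_aut (hg : S.good (Nat.card D)) (w : MulAut D) (c : D) (y : (MonoidAlgebra R D)ˣ) :
    S.ell D c (unitsMap w.toMonoidHom y) = S.ell D (w.symm c) y := by
  have h1 := S.ell_map D D w.toMonoidHom w.injective (w.symm c) y hg
  have h0 : w.toMonoidHom (w.symm c) = c := w.apply_symm_apply c
  rwa [h0] at h1

end D

theorem primSet_neg {z : ColimU R G} (hz : z ∈ S.PrimSet G) : -z ∈ S.PrimSet G := by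
  obtain ⟨D, i1, i2, y, hg, hy, rfl⟩ := hz
  exact ⟨D, i1, i2, y⁻¹, hg, S.isPrim_inv hg hy, (cl_inv D y).symm⟩

/-- The coefficient at the conjugacy class of `c`. -/
noncomputable def val (c : G) (D : Subgroup G) [Finite D] [IsCyclic D]
    (y : (MonoidAlgebra R D)ˣ) : A :=
  letI := Fintype.ofFinite D
  ∑ d ∈ Finset.univ.filter (fun d : D => IsConj c (d : G)), S.ell D d y

theorem val_mul (c : G) (D : Subgroup G) [Finite D] [IsCyclic D] (hg : S.good (Nat.card D))
    (x y : (MonoidAlgebra R D)ˣ) : S.val c D (x * y) = S.val c D x + S.val c D y := by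
  rw [val, val, val, ← Finset.sum_add_distrib]
  exact Finset.sum_congr rfl fun d _ => S.ell_mul D d x y hg

/-- A class from a cyclic subgroup `D₀`. -/
def Over (D₀ : CycSub G) (z : ColimU R G) : Prop :=
  ∃ (_ : Finite D₀.1) (_ : IsCyclic D₀.1) (y : (MonoidAlgebra R D₀.1)ˣ),
    S.IsPrim y ∧ z = cl D₀ y

theorem over_of_conj (D₀ D : CycSub G) [Finite D₀.1] [IsCyclic D₀.1] [Finite D.1] [IsCyclic D.1]
    (hg : S.good (Nat.card D₀.1)) (c : D₀.1) (d : D.1)
    (hc : Subgroup.zpowers c = ⊤) (hd : Subgroup.zpowers d = ⊤) (h : IsConj (c : G) (d : G))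
    (y : (MonoidAlgebra R D.1)ˣ) (hy : S.IsPrim y) : S.Over D₀ (cl D y) := by
  obtain ⟨g, hg'⟩ := isConj_iff.1 h
  have hg'' : g⁻¹ * (d : G) * g⁻¹⁻¹ = c := by rw [← hg']; group
  have h1 : ∀ x ∈ D₀.1, g * x * g⁻¹ ∈ D.1 := by
    intro x hx
    have : (⟨x, hx⟩ : D₀.1) ∈ Subgroup.zpowers c := by rw [hc]; trivial
    obtain ⟨m, hm⟩ := Subgroup.mem_zpowers_iff.1 this
    have hm' : (c : G) ^ m = x := by
      rw [← Subgroup.coe_zpow, hm]
    rw [← hm', ← conj_zpow, hg']
    exact D.1.zpow_mem d.2 m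
  have h2 : ∀ x ∈ D.1, g⁻¹ * x * g⁻¹⁻¹ ∈ D₀.1 := by
    intro x hx
    have : (⟨x, hx⟩ : D.1) ∈ Subgroup.zpowers d := by rw [hd]; trivial
    obtain ⟨m, hm⟩ := Subgroup.mem_zpowers_iff.1 this
    have hm' : (d : G) ^ m = x := by
      rw [← Subgroup.coe_zpow, hm]
    rw [← hm', ← conj_zpow, hg'']
    exact D₀.1.zpow_mem c.2 m
  let e : D.1 ≃* D₀.1 :=
    { toFun := conjHom g⁻¹ D.1 D₀.1 h2
      invFun := conjHom g D₀.1 D.1 h1
      left_inv := by
        intro x
        apply Subtype.ext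
        change g * (g⁻¹ * (x : G) * g⁻¹⁻¹) * g⁻¹ = x
        group
      right_inv := by
        intro x
        apply Subtype.ext
        change g⁻¹ * (g * (x : G) * g⁻¹) * g⁻¹⁻¹ = x
        group
      map_mul' := map_mul _ }
  refine ⟨inferInstance, inferInstance, unitsMap e.toMonoidHom y, S.isPrim_map e hg hy, ?_⟩
  exact (cl_conj D D₀ g⁻¹ h2 y).symm

theorem val_not_over (D₀ D : CycSub G) [Finite D₀.1] [IsCyclic D₀.1] [Finite D.1] [IsCyclic D.1]
    (hg : S.good (Nat.card D₀.1)) (c : D₀.1) (hc : Subgroup.zpowers c = ⊤)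
    (y : (MonoidAlgebra R D.1)ˣ) (hy : S.IsPrim y) (h : ¬ S.Over D₀ (cl D y)) :
    S.val (c : G) D.1 y = 0 := by
  rw [val]
  apply Finset.sum_eq_zero
  intro d hd
  apply hy
  intro hd'
  exact h (S.over_of_conj D₀ D hg c d hc hd' (Finset.mem_filter.1 hd).2 y hy)

theorem split_list (D₀ : CycSub G) [Finite D₀.1] [IsCyclic D₀.1] (hg : S.good (Nat.card D₀.1))
    (l : List (ColimU R G)) (hl : ∀ z ∈ l, z ∈ S.PrimSet G) :
    ∃ y : (MonoidAlgebra R D₀.1)ˣ, S.IsPrim y ∧ ∃ l' : List (ColimU R G),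
      (∀ z ∈ l', z ∈ S.PrimSet G ∧ ¬ S.Over D₀ z) ∧ l'.length ≤ l.length ∧
        l.sum = cl D₀ y + l'.sum := by
  induction l with
  | nil => exact ⟨1, S.isPrim_one hg, [], by simp, le_rfl, by rw [cl_one]; simp⟩
  | cons z l ih =>
    obtain ⟨y, hy, l', h1, h2, h3⟩ := ih (fun z hz => hl z (List.mem_cons_of_mem _ hz))
    by_cases hz : S.Over D₀ z
    · obtain ⟨_, _, y', hy', rfl⟩ := hz
      refine ⟨y' * y, S.isPrim_mul hg hy' hy, l', h1, h2.trans (by simp), ?_⟩
      rw [List.sum_cons, h3, cl_mul, add_assoc]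
    · refine ⟨y, hy, z :: l', ?_, by simpa using h2, ?_⟩
      · intro z' hz'
        rcases List.mem_cons.1 hz' with rfl | hz'
        · exact ⟨hl _ List.mem_cons_self, hz⟩
        · exact h1 _ hz'
      · rw [List.sum_cons, List.sum_cons, h3]
        abel

/-- If the coefficients at the conjugacy classes of the generators vanish on a primitive class of a
cyclic subgroup, then its class in the colimit is torsion. -/
theorem torsion_of_vanish (D₀ : CycSub G) [Finite D₀.1] [IsCyclic D₀.1]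
    (hg : S.good (Nat.card D₀.1)) (y : (MonoidAlgebra R D₀.1)ˣ) (hy : S.IsPrim y)
    (h : ∀ c : D₀.1, Subgroup.zpowers c = ⊤ → S.val (c : G) D₀.1 y = 0) :
    ∃ m : ℤ, m ≠ 0 ∧ m • cl D₀ y = 0 := by
  have : Fintype D₀.1 := Fintype.ofFinite D₀.1
  have := mulAut_finite D₀.1
  have : Fintype (MulAut D₀.1) := Fintype.ofFinite _
  let W := Finset.univ.filter (fun w : MulAut D₀.1 => IsInd D₀.1 w)
  let F : MulAut D₀.1 → (MonoidAlgebra R D₀.1)ˣ := fun w => unitsMap w.toMonoidHom y
  obtain ⟨m, hm, h0⟩ := S.detect D₀.1 (W.toList.map F).prod hg (by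
    intro c
    rw [S.ell_list c hg, List.map_map, Finset.sum_map_toList]
    have e1 : ∀ w : MulAut D₀.1, (S.ell D₀.1 c ∘ F) w = S.ell D₀.1 (w.symm c) y :=
      fun w => S.ell_aut hg w c y
    rw [Finset.sum_congr rfl (fun w _ => e1 w)]
    by_cases hc : Subgroup.zpowers c = ⊤
    · have e2 := h c hc
      rw [LogSys.val] at e2
      rw [← e2]
      refine (sum_ind D₀.1 c hc (fun d => S.ell D₀.1 d y)).trans ?_
      exact Finset.sum_congr (by ext; simp) (fun _ _ => rfl)
    · apply Finset.sum_eq_zero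
      intro w _
      exact hy _ (zpowers_aut w.symm c hc))
  have h1 : ∀ w ∈ W, (cl D₀ ∘ F) w = cl D₀ y := by
    intro w hw
    obtain ⟨g, hg⟩ := (Finset.mem_filter.1 hw).2
    have hr : ∀ x ∈ D₀.1, g * x * g⁻¹ ∈ D₀.1 := by
      intro x hx
      rw [← hg ⟨x, hx⟩]
      exact (w ⟨x, hx⟩).2
    have e1 : w.toMonoidHom = conjHom g D₀.1 D₀.1 hr := by
      apply MonoidHom.ext
      intro a
      exact Subtype.ext (hg a)
    change cl D₀ (unitsMap w.toMonoidHom y) = cl D₀ y
    rw [e1]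
    exact cl_conj D₀ D₀ g hr y
  have h2 : m • (W.card • cl D₀ y) = 0 := by
    have e1 := congrArg (cl D₀) h0
    rw [cl_pow, cl_one, cl_list, List.map_map, Finset.sum_map_toList,
      Finset.sum_congr rfl h1, Finset.sum_const] at e1
    exact e1
  refine ⟨(m * W.card : ℕ), ?_, ?_⟩
  · have : (1 : MulAut D₀.1) ∈ W := by
      rw [Finset.mem_filter]
      exact ⟨Finset.mem_univ _, 1, fun d => by simp⟩
    have h3 := (Finset.card_pos.2 ⟨_, this⟩).ne'
    have h4 : m * W.card ≠ 0 := Nat.mul_ne_zero hm h3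
    exact_mod_cast h4
  · rw [natCast_zsmul, mul_smul, h2]

section V

variable (V : G → ColimU R G →+ A) (hV : ∀ (c : G) (D : CycSub G) (_ : Finite D.1)
  (_ : IsCyclic D.1) (y : (MonoidAlgebra R D.1)ˣ), S.good (Nat.card D.1) →
  V c (cl D y) = S.val c D.1 y)

theorem val_congr (D : Subgroup G) [Finite D] [IsCyclic D] {c c' : G} (h : IsConj c c')
    (y : (MonoidAlgebra R D)ˣ) : S.val c D y = S.val c' D y := by
  rw [LogSys.val, LogSys.val]
  refine Finset.sum_congr ?_ (fun _ _ => rfl)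
  ext d
  rw [Finset.mem_filter, Finset.mem_filter]
  exact ⟨fun h1 => ⟨h1.1, h.symm.trans h1.2⟩, fun h1 => ⟨h1.1, h.trans h1.2⟩⟩

theorem val_eq_zero (D : Subgroup G) [Finite D] [IsCyclic D] (y : (MonoidAlgebra R D)ˣ)
    (hy : S.IsPrim y) (h : ∀ c : D, Subgroup.zpowers c = ⊤ → S.val (c : G) D y = 0) (c : G) :
    S.val c D y = 0 := by
  by_cases hc : ∃ d : D, Subgroup.zpowers d = ⊤ ∧ IsConj c (d : G)
  · obtain ⟨d, hd, h1⟩ := hc
    rw [S.val_congr D h1, h d hd]
  · push Not at hc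
    rw [LogSys.val]
    apply Finset.sum_eq_zero
    intro d hd
    exact hy d fun hd' => hc d hd' (Finset.mem_filter.1 hd).2

include hV in
/-- A sum of primitive classes with vanishing functionals is torsion. -/
theorem torsion_list (N : ℕ) : ∀ l : List (ColimU R G), l.length = N →
    (∀ z ∈ l, z ∈ S.PrimSet G) → (∀ c : G, V c l.sum = 0) →
    ∃ m : ℤ, m ≠ 0 ∧ m • l.sum = 0 := by
  induction N using Nat.strong_induction_on with
  | _ N ih =>
    intro l hN hl h
    rcases l with _ | ⟨z, l⟩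
    · exact ⟨1, one_ne_zero, by simp⟩
    obtain ⟨D₀, i1, i2, y₀, hg, hy₀, rfl⟩ := hl z List.mem_cons_self
    obtain ⟨y₁, hy₁, l', h1, h2, h3⟩ := S.split_list D₀ hg l
      (fun z hz => hl z (List.mem_cons_of_mem _ hz))
    have e1 : (cl D₀ y₀ :: l).sum = cl D₀ (y₀ * y₁) + l'.sum := by
      rw [List.sum_cons, h3, cl_mul, add_assoc]
    have hy : S.IsPrim (y₀ * y₁) := S.isPrim_mul hg hy₀ hy₁
    rw [e1] at h ⊢
    have hvan : ∀ c : D₀.1, Subgroup.zpowers c = ⊤ → V (c : G) l'.sum = 0 := by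
      intro c hc
      rw [map_list_sum]
      apply List.sum_eq_zero
      intro x hx
      obtain ⟨z, hz, rfl⟩ := List.mem_map.1 hx
      obtain ⟨⟨D, j1, j2, y, hgD, hy, rfl⟩, hz2⟩ := h1 z hz
      rw [hV (c : G) D j1 j2 y hgD]
      exact S.val_not_over D₀ D hg c hc y hy hz2
    have hval : ∀ c : D₀.1, Subgroup.zpowers c = ⊤ → S.val (c : G) D₀.1 (y₀ * y₁) = 0 := by
      intro c hc
      have e2 := h (c : G)
      rw [map_add, hvan c hc, add_zero, hV (c : G) D₀ i1 i2 _ hg] at e2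
      exact e2
    obtain ⟨m, hm, hm'⟩ := S.torsion_of_vanish D₀ hg (y₀ * y₁) hy hval
    have h4 : ∀ c : G, V c l'.sum = 0 := by
      intro c
      have e2 := h c
      rw [map_add, hV c D₀ i1 i2 _ hg, S.val_eq_zero D₀.1 _ hy hval c, zero_add] at e2
      exact e2
    obtain ⟨m', hm1, hm2⟩ := ih l'.length (by rw [← hN, List.length_cons]; omega) l' rfl
      (fun z hz => (h1 z hz).1) h4
    refine ⟨m * m', mul_ne_zero hm hm1, ?_⟩
    rw [smul_add, mul_smul m m' l'.sum, hm2, smul_zero, add_zero, mul_comm, mul_smul, hm',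
      smul_zero]

/-- Elements of the subgroup generated by the primitive classes are sums of primitive classes. -/
theorem exists_list {z : ColimU R G} (hz : z ∈ AddSubgroup.closure (S.PrimSet G)) :
    ∃ l : List (ColimU R G), (∀ z ∈ l, z ∈ S.PrimSet G) ∧ l.sum = z := by
  induction hz using AddSubgroup.closure_induction with
  | mem x hx => exact ⟨[x], by simpa using hx, by simp⟩
  | zero => exact ⟨[], by simp, rfl⟩
  | add x y _ _ hx hy =>
    obtain ⟨l, h1, rfl⟩ := hx
    obtain ⟨l', h1', rfl⟩ := hy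
    refine ⟨l ++ l', ?_, List.sum_append⟩
    intro z hz
    rcases List.mem_append.1 hz with h | h
    · exact h1 z h
    · exact h1' z h
  | neg x _ hx =>
    obtain ⟨l, h1, rfl⟩ := hx
    refine ⟨l.map (- ·), ?_, ?_⟩
    · intro z hz
      obtain ⟨y, hy, rfl⟩ := List.mem_map.1 hz
      exact S.primSet_neg (h1 y hy)
    · have hneg : ∀ l : List (ColimU R G), (l.map (- ·)).sum = - l.sum := by
        intro l
        induction l with
        | nil => simp
        | cons a l ih => rw [List.map_cons, List.sum_cons, List.sum_cons, ih, neg_add]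
      exact hneg l

/-- The classes of units of good cyclic subgroups. -/
def GoodSet (G : Type v) [Group G] : Set (ColimU R G) :=
  {z | ∃ (D : CycSub G) (y : (MonoidAlgebra R D.1)ˣ), S.good (Nat.card D.1) ∧ z = cl D y}

include hV in
/-- Classes with vanishing functionals are torsion. -/
theorem torsion_of_V (z : ColimU R G)
    (hz : z ∈ Sat (AddSubgroup.closure (S.GoodSet G))) (M : ℤ) (hM : M ≠ 0)
    (h : ∀ c, V c (M • z) = 0) : ∃ m : ℤ, m ≠ 0 ∧ m • z = 0 := by
  have h0 : AddSubgroup.closure (S.GoodSet G) ≤ Sat (AddSubgroup.closure (S.PrimSet G)) := by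
    rw [AddSubgroup.closure_le]
    rintro z ⟨D, y, hg, rfl⟩
    exact S.mem_sat D hg y
  obtain ⟨m₀, hm₀, hz⟩ := hz
  obtain ⟨m, hm, hz⟩ := h0 hz
  obtain ⟨l, h1, hl'⟩ := S.exists_list (AddSubgroup.zsmul_mem _ hz M)
  have e1 : M • m • m₀ • z = (m * m₀) • (M • z) := by
    rw [smul_smul, smul_smul, smul_smul]
    congr 1
    ring
  obtain ⟨m', hm', h2⟩ := S.torsion_list V hV l.length l rfl h1 (by
    intro c
    rw [hl', e1, map_zsmul, h c, smul_zero])
  exact ⟨m' * (M * (m * m₀)), mul_ne_zero hm' (mul_ne_zero hM (mul_ne_zero hm hm₀)),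
    by rw [mul_smul, mul_smul, mul_smul, ← hl', h2]⟩

end V

end LogSys

end Pool.Agent.H71.KP
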