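import Pool.Agent.H71.KP.Skew2

/-!
# The `p`-th tensor power of an algebra with a trace
-/

set_option autoImplicit false
set_option linter.unusedSectionVars false

open scoped TensorProduct

universe u v

namespace Pool.Agent.H71.KP

variable (p : ℕ) [hp : Fact p.Prime] (A : Type u) [Ring A] [Algebra ℤ_[p] A]

/-- the `p`-th tensor power -/
abbrev TP : Type u := PiTensorProduct ℤ_[p] (fun _ : ZMod p => A)

variable {A}

/-- pure tensors -/
noncomputable abbrev tp (m : ZMod p → A) : TP p A := PiTensorProduct.tprod ℤ_[p] m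

theorem tp_mul (m n : ZMod p → A) : tp p m * tp p n = tp p (fun i => m i * n i) :=
  PiTensorProduct.tprod_mul_tprod m n

theorem tp_one : tp p (fun _ => (1 : A)) = 1 := rfl

/-- the cyclic shift -/
noncomputable def sh (i : ZMod p) : TP p A →ₐ[ℤ_[p]] TP p A :=
  PiTensorProduct.liftAlgHom
    ((PiTensorProduct.tprod ℤ_[p] (s := fun _ : ZMod p => A)).domDomCongr (Equiv.addRight i))
    rfl (by
      intro x y
      change tp p (fun j => x (j + i) * y (j + i)) =
        tp p (fun j => x (j + i)) * tp p (fun j => y (j + i))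
      rw [tp_mul])

theorem sh_tp (i : ZMod p) (m : ZMod p → A) : sh p i (tp p m) = tp p (fun j => m (j + i)) := by
  change PiTensorProduct.lift _ (PiTensorProduct.tprod ℤ_[p] m) = _
  rw [PiTensorProduct.lift.tprod]
  rfl

variable {p} in
theorem tp_induction {P : TP p A → Prop} (h1 : ∀ (r : ℤ_[p]) (m : ZMod p → A), P (r • tp p m))
    (h2 : ∀ x y, P x → P y → P (x + y)) (x : TP p A) : P x :=
  PiTensorProduct.induction_on x h1 h2

theorem sh_zero (x : TP p A) : sh p 0 x = x := by
  induction x using tp_induction with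
  | h1 r m =>
    rw [map_smul, sh_tp]
    simp
  | h2 x y hx hy => rw [map_add, hx, hy]

theorem sh_add (i j : ZMod p) (x : TP p A) : sh p (i + j) x = sh p i (sh p j x) := by
  induction x using tp_induction with
  | h1 r m =>
    rw [map_smul, map_smul, map_smul, sh_tp, sh_tp, sh_tp]
    simp only [add_assoc]
  | h2 x y hx hy => rw [map_add, map_add, map_add, hx, hy]

/-- the bijection of `Fin p` and `ZMod p` -/
def fz : Fin p ≃ ZMod p where
  toFun i := ((i.val : ℕ) : ZMod p)
  invFun j := ⟨j.val, ZMod.val_lt j⟩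
  left_inv i := Fin.ext (by
    change ((i.val : ℕ) : ZMod p).val = i.val
    rw [ZMod.val_natCast, Nat.mod_eq_of_lt i.2])
  right_inv j := ZMod.natCast_zmod_val j

/-- ordered products -/
def oprod (f : ℕ → A) (n : ℕ) : A := (List.ofFn (fun i : Fin n => f i.val)).prod

theorem oprod_zero (f : ℕ → A) : oprod f 0 = 1 := by simp [oprod]

theorem oprod_succ (f : ℕ → A) (n : ℕ) : oprod f (n + 1) = oprod f n * f n := by
  rw [oprod, List.ofFn_succ_last, List.prod_append, List.prod_singleton, oprod]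
  rfl

theorem oprod_pred (f : ℕ → A) {n : ℕ} (hn : 0 < n) :
    oprod f n = oprod f (n - 1) * f (n - 1) := by
  obtain ⟨q, rfl⟩ : ∃ q, n = q + 1 := ⟨n - 1, by omega⟩
  exact oprod_succ f q

theorem oprod_shift (a b : ℕ → A) (n : ℕ) :
    oprod (fun i => a i * b i) n * a n = a 0 * oprod (fun i => b i * a (i + 1)) n := by
  induction n with
  | zero => rw [oprod_zero, oprod_zero, one_mul, mul_one]
  | succ n ih =>
    rw [oprod_succ, oprod_succ, ← mul_assoc, ih]
    simp only [mul_assoc]

theorem oprod_one (n : ℕ) : oprod (fun _ => (1 : A)) n = 1 := by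
  induction n with
  | zero => exact oprod_zero _
  | succ n ih => rw [oprod_succ, ih, mul_one]

theorem oprod_const (a : A) (n : ℕ) : oprod (fun _ => a) n = a ^ n := by
  induction n with
  | zero => rw [oprod_zero, pow_zero]
  | succ n ih => rw [oprod_succ, ih, pow_succ]

theorem oprod_first (f : ℕ → A) (h : ∀ i, 0 < i → f i = 1) (n : ℕ) : oprod f (n + 1) = f 0 := by
  induction n with
  | zero => rw [oprod_succ, oprod_zero, one_mul]
  | succ n ih => rw [oprod_succ, ih, h _ (Nat.succ_pos n), mul_one]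

/-- the functional `a₀ ⊗ ... ⊗ a_{p-1} ↦ τ (a₀ ... a_{p-1})` -/
noncomputable def kap (τ : A →ₗ[ℤ_[p]] ℤ_[p]) : TP p A →ₗ[ℤ_[p]] ℤ_[p] :=
  PiTensorProduct.lift (τ.compMultilinearMap
    ((MultilinearMap.mkPiAlgebraFin ℤ_[p] p A).domDomCongr (fz p)))

theorem kap_tp (τ : A →ₗ[ℤ_[p]] ℤ_[p]) (m : ZMod p → A) :
    kap p τ (tp p m) = τ (oprod (fun n => m n) p) := by
  rw [kap, PiTensorProduct.lift.tprod]
  rfl

theorem kap_tw (τ : A →ₗ[ℤ_[p]] ℤ_[p]) (hτ : ∀ a b, τ (a * b) = τ (b * a)) (x y : TP p A) :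
    kap p τ (x * y) = kap p τ (y * sh p 1 x) := by
  induction x using tp_induction with
  | h1 r m =>
    induction y using tp_induction with
    | h1 s n =>
      rw [map_smul, smul_mul_assoc, smul_mul_assoc, mul_smul_comm, mul_smul_comm, map_smul,
        map_smul, map_smul, map_smul, sh_tp, tp_mul, tp_mul, kap_tp, kap_tp,
        smul_comm r s]
      congr 2
      have e1 := oprod_shift (fun i => m (i : ZMod p)) (fun i => n (i : ZMod p)) (p - 1)
      have e2 : oprod (fun i => m (i : ZMod p) * n (i : ZMod p)) p =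
          m 0 * (oprod (fun i => n (i : ZMod p) * m ((i + 1 : ℕ) : ZMod p)) (p - 1) *
            n ((p - 1 : ℕ) : ZMod p)) := by
        rw [oprod_pred _ hp.out.pos, ← mul_assoc, e1]
        simp only [Nat.cast_zero, mul_assoc]
      have e3 : oprod (fun i => n (i : ZMod p) * m ((i : ZMod p) + 1)) p =
          oprod (fun i => n (i : ZMod p) * m ((i + 1 : ℕ) : ZMod p)) (p - 1) *
            n ((p - 1 : ℕ) : ZMod p) * m 0 := by
        rw [oprod_pred _ hp.out.pos]
        have : (((p - 1 : ℕ) : ZMod p) + 1) = 0 := by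
          have h : ((p - 1 + 1 : ℕ) : ZMod p) = 0 := by
            rw [Nat.sub_add_cancel hp.out.pos]; exact ZMod.natCast_self p
          rwa [Nat.cast_succ] at h
        rw [this, mul_assoc]
        simp only [Nat.cast_succ]
      rw [e2, e3, hτ]
    | h2 y y' hy hy' => rw [mul_add, map_add, hy, hy', add_mul, map_add]
  | h2 x x' hx hx' => rw [add_mul, map_add, hx, hx', map_add, mul_add, map_add]

/-- The structure on the tensor power. -/
noncomputable def tG (τ : A →ₗ[ℤ_[p]] ℤ_[p]) (hτ : ∀ a b, τ (a * b) = τ (b * a)) :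
    TwTr p (TP p A) where
  act i := (sh p i).toRingHom
  act_zero := sh_zero p
  act_add := sh_add p
  κ := (kap p τ).toAddMonoidHom
  tw := kap_tw p τ hτ

theorem tG_act (τ : A →ₗ[ℤ_[p]] ℤ_[p]) (hτ : ∀ a b, τ (a * b) = τ (b * a)) (i : ZMod p)
    (x : TP p A) : (tG p τ hτ).act i x = sh p i x := rfl

theorem tG_κ (τ : A →ₗ[ℤ_[p]] ℤ_[p]) (hτ : ∀ a b, τ (a * b) = τ (b * a))
    (x : TP p A) : (tG p τ hτ).κ x = kap p τ x := rfl

/-- `a ↦ a ⊗ ... ⊗ a` -/
noncomputable def TT (a : A) : TP p A := tp p (fun _ => a)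

theorem TT_mul (a b : A) : TT p (a * b) = TT p a * TT p b := (tp_mul p _ _).symm

theorem TT_one : TT p (1 : A) = 1 := rfl

theorem sh_TT (i : ZMod p) (a : A) : sh p i (TT p a) = TT p a := sh_tp p i _

theorem TT_smul (r : ℤ_[p]) (a : A) : TT p (r • a) = r ^ p • TT p a := by
  have h := (PiTensorProduct.tprod ℤ_[p] (s := fun _ : ZMod p => A)).map_smul_univ
    (fun _ => r) (fun _ => a)
  rw [Finset.prod_const, Finset.card_univ, ZMod.card] at h
  exact h

/-- `TT` on units -/
noncomputable def TU : Aˣ →* (TP p A)ˣ where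
  toFun u :=
    { val := TT p (u : A)
      inv := TT p ((u⁻¹ : Aˣ) : A)
      val_inv := by rw [← TT_mul, Units.mul_inv, TT_one]
      inv_val := by rw [← TT_mul, Units.inv_mul, TT_one] }
  map_one' := Units.ext (TT_one p)
  map_mul' u w := Units.ext (TT_mul p _ _)

theorem TU_val (u : Aˣ) : (TU p u : TP p A) = TT p (u : A) := rfl

end Pool.Agent.H71.KP
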