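import Pool.Agent.H71.KP.Place

/-!
# Units of group rings in characteristic `p` with vanishing valuations are torsion

PROOF. Let `n` be the order of `H`, `g` a generator, `Ω` an algebraic closure of the fraction field
of `R`. As `p ∤ n` there is a primitive `n`-th root of unity `ζ` in `Ω`. For `j < n` let
`χ_j : H → Ω`, `g ↦ ζ ^ j`, and let `x_j ∈ Ω` be the image of `x` under
`R[H] → Ω`, `∑ r_h h ↦ ∑ r_h χ_j(h)`. Let `k` be the subfield of `Ω` generated by `ζ` and the
image of `R`: a finitely generated field over `ZMod p` (`Algebra.EssFiniteType (ZMod p) k`), and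
`x_j ∈ k`. If `x_j` were transcendental over `ZMod p`, `exists_place` would give an algebraically
closed field `F` and `φ' : k → F((t))` with `(φ' x_j).order ≠ 0`. The elements `φ' (ζ ^ i)` are
`n`-th roots of unity of the field `F((t))`; as `F` is algebraically closed and `n` is not zero in
`F` (`p = 0` in `F`), there are already `n` of them in `F`, so `φ' (χ_j h) = C (χ h)` for a
homomorphism `χ : H → F`. With `φ = φ'` restricted to `R` this contradicts `h`. So all `x_j` are
algebraic over `ZMod p`, nonzero, hence of finite order: `x_j ^ m = 1` for a common `m ≠ 0`. So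
`x ^ m - 1` is killed by all the `χ_j`; writing `x ^ m - 1 = ∑_{i < n} a_i g ^ i`, the polynomial
`∑ a_i X ^ i` of degree `< n` has the `n` distinct roots `ζ ^ j`, so it is zero.
-/

set_option autoImplicit false

universe u v

namespace Pool.Agent.H71.KP

/-- The evaluation `R[H] → F((t))` given by an embedding of `R` and a character of `H`. -/
noncomputable def evF {R : Type u} [CommRing R] {F : Type u} [Field F] {H : Type v} [Group H]
    (φ : R →+* LaurentSeries F) (χ : H →* F) : MonoidAlgebra R H →+* LaurentSeries F :=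
  MonoidAlgebra.liftNCRingHom φ
    (((HahnSeries.C : F →+* HahnSeries ℤ F) : F →* HahnSeries ℤ F).comp χ)
    (fun _ _ => Commute.all _ _)

/-- The evaluation `R[H] → A` given by a homomorphism of `R` and a character of `H`. -/
private noncomputable def TorsP_ev {R A H : Type*} [CommRing R] [CommRing A] [Group H]
    (φ : R →+* A) (χ : H →* A) : MonoidAlgebra R H →+* A :=
  MonoidAlgebra.liftNCRingHom φ χ (fun _ _ => Commute.all _ _)

private theorem TorsP_ev_single {R A H : Type*} [CommRing R] [CommRing A] [Group H]
    (φ : R →+* A) (χ : H →* A) (h : H) (r : R) :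
    TorsP_ev φ χ (MonoidAlgebra.single h r) = φ r * χ h :=
  MonoidAlgebra.liftNCRingHom_single _ _ _ _ _

private theorem TorsP_ev_apply {R A H : Type*} [CommRing R] [CommRing A] [Group H] [Fintype H]
    (φ : R →+* A) (χ : H →* A) (y : MonoidAlgebra R H) :
    TorsP_ev φ χ y = ∑ h, φ (y.coeff h) * χ h := by
  classical
  induction y using MonoidAlgebra.induction_linear with
  | zero => simp
  | add a b ha hb =>
    rw [map_add, ha, hb, ← Finset.sum_add_distrib]
    refine Finset.sum_congr rfl fun h _ => ?_
    rw [MonoidAlgebra.coeff_add, Finsupp.add_apply, map_add, add_mul]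
  | single g r =>
    rw [TorsP_ev_single, Finset.sum_eq_single g]
    · rw [MonoidAlgebra.coeff_single, Finsupp.single_eq_same]
    · intro h _ hh
      rw [MonoidAlgebra.coeff_single, Finsupp.single_eq_of_ne hh, map_zero, zero_mul]
    · intro hg
      exact absurd (Finset.mem_univ _) hg

/-- A group ring element killed by all the characters is zero. -/
private theorem TorsP_sep {R Ω H : Type*} [CommRing R] [Field Ω] [Group H] [Finite H] [IsCyclic H]
    [HasEnoughRootsOfUnity Ω (Nat.card H)] (φ : R →+* Ω) (hφ : Function.Injective φ)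
    (y : MonoidAlgebra R H) (hy : ∀ χ : H →* Ωˣ, TorsP_ev φ ((Units.coeHom Ω).comp χ) y = 0) :
    y = 0 := by
  classical
  have : Fintype H := Fintype.ofFinite H
  let : CommGroup H := IsCyclic.commGroup
  obtain ⟨e⟩ := IsCyclic.monoidHom_equiv_self H Ω
  have : Finite (H →* Ωˣ) := Finite.of_equiv H e.toEquiv.symm
  have : Fintype (H →* Ωˣ) := Fintype.ofFinite _
  have hinj : Function.Injective (fun χ : H →* Ωˣ => (Units.coeHom Ω).comp χ) := by
    intro a b hab
    apply MonoidHom.ext
    intro h
    apply Units.ext
    exact DFunLike.congr_fun hab h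
  have hli : LinearIndependent Ω (fun χ : H →* Ωˣ => (((Units.coeHom Ω).comp χ : H →* Ω) : H → Ω)) :=
    (linearIndependent_monoidHom H Ω).comp _ hinj
  have hcard : Fintype.card (H →* Ωˣ) = Module.finrank Ω (H → Ω) := by
    rw [Module.finrank_fintype_fun_eq_card]
    exact Fintype.card_congr e.toEquiv
  have hspan := hli.span_eq_top_of_card_eq_finrank' hcard
  -- the functional
  let L : (H → Ω) →ₗ[Ω] Ω := ∑ h : H, (φ (y.coeff h)) • LinearMap.proj h
  have hL : ∀ f : H → Ω, L f = ∑ h, φ (y.coeff h) * f h := by
    intro f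
    simp only [L, LinearMap.sum_apply, LinearMap.smul_apply, LinearMap.proj_apply, smul_eq_mul]
  have hL0 : L = 0 := by
    apply LinearMap.ext_on_range hspan
    intro χ
    rw [hL, LinearMap.zero_apply, ← TorsP_ev_apply φ ((Units.coeHom Ω).comp χ) y]
    exact hy χ
  apply MonoidAlgebra.ext
  apply Finsupp.ext
  intro h
  have h1 := hL (Pi.single h 1)
  rw [hL0, LinearMap.zero_apply, Finset.sum_eq_single h] at h1
  · rw [Pi.single_eq_same, mul_one] at h1
    apply hφ
    rw [MonoidAlgebra.coeff_zero, Finsupp.zero_apply, map_zero]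
    exact h1.symm
  · intro h' _ hh
    rw [Pi.single_eq_of_ne hh, mul_zero]
  · intro hh
    exact absurd (Finset.mem_univ _) hh

/-- A nonzero algebraic element over a finite field has finite order. -/
private theorem TorsP_fin (p : ℕ) [Fact p.Prime] {Ω : Type*} [Field Ω] [Algebra (ZMod p) Ω] (x : Ω)
    (hx : IsAlgebraic (ZMod p) x) (h0 : x ≠ 0) : ∃ m : ℕ, m ≠ 0 ∧ x ^ m = 1 := by
  have := IntermediateField.adjoin.finiteDimensional hx.isIntegral
  have : Finite (IntermediateField.adjoin (ZMod p) {x}) := Module.finite_of_finite (ZMod p)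
  have : Fintype (IntermediateField.adjoin (ZMod p) {x}) := Fintype.ofFinite _
  let y : (IntermediateField.adjoin (ZMod p) {x}) :=
    ⟨x, IntermediateField.mem_adjoin_simple_self (ZMod p) x⟩
  have hy : y ≠ 0 := fun h => h0 (congrArg Subtype.val h)
  let u : (IntermediateField.adjoin (ZMod p) {x})ˣ := Units.mk0 y hy
  refine ⟨Nat.card (IntermediateField.adjoin (ZMod p) {x})ˣ, Nat.card_pos.ne', ?_⟩
  have h1 : u ^ Nat.card (IntermediateField.adjoin (ZMod p) {x})ˣ = 1 := pow_card_eq_one'
  have h2 : ((u ^ Nat.card (IntermediateField.adjoin (ZMod p) {x})ˣ :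
      (IntermediateField.adjoin (ZMod p) {x})ˣ) : (IntermediateField.adjoin (ZMod p) {x})) = 1 := by
    rw [h1, Units.val_one]
  rw [Units.val_pow_eq_pow_val] at h2
  exact congrArg Subtype.val h2

/-- The roots of unity of `F((t))` are constant. -/
private theorem TorsP_const {F : Type u} [Field F] (n : ℕ) [NeZero n] (ζ : F)
    (hζ : IsPrimitiveRoot ζ n) (y : LaurentSeries F) (hy : y ^ n = 1) :
    ∃ c : F, (HahnSeries.C c : LaurentSeries F) = y := by
  have h1 : IsPrimitiveRoot ((HahnSeries.C : F →+* LaurentSeries F) ζ) n :=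
    hζ.map_of_injective (HahnSeries.C : F →+* LaurentSeries F).injective
  obtain ⟨i, _, hi⟩ := h1.eq_pow_of_pow_eq_one hy
  exact ⟨ζ ^ i, by rw [map_pow]; exact hi⟩

/-- A unit of `R[H]`, `H` cyclic of order prime to `p`, all of whose valuations vanish is
torsion. -/
theorem torsion_of_places (p : ℕ) [Fact p.Prime] {R : Type u} [CommRing R] [IsDomain R] [CharP R p]
    [Algebra.FiniteType ℤ R] {H : Type v} [Group H] [Finite H] [IsCyclic H]
    (hH : ¬ p ∣ Nat.card H) (x : (MonoidAlgebra R H)ˣ)
    (h : ∀ (F : Type u) [Field F] [IsAlgClosed F] (φ : R →+* LaurentSeries F),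
      Function.Injective φ → ∀ χ : H →* F, (evF φ χ (x : MonoidAlgebra R H)).order = 0) :
    ∃ m : ℕ, m ≠ 0 ∧ x ^ m = 1 := by
  classical
  obtain ⟨n, hn⟩ : ∃ n, n = Nat.card H := ⟨_, rfl⟩
  have hn0 : NeZero n := ⟨by rw [hn]; exact Nat.card_pos.ne'⟩
  rw [← hn] at hH
  let Ω := AlgebraicClosure (FractionRing R)
  let i : R →+* Ω := (algebraMap (FractionRing R) Ω).comp (algebraMap R (FractionRing R))
  have hi : Function.Injective i :=
    (algebraMap (FractionRing R) Ω).injective.comp (IsFractionRing.injective R (FractionRing R))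
  have : CharP Ω p := charP_of_injective_ringHom hi p
  have : NeZero (n : Ω) := ⟨fun h0 => hH ((CharP.cast_eq_zero_iff Ω p n).1 h0)⟩
  let : Algebra (ZMod p) Ω := ZMod.algebra Ω p
  have hr : HasEnoughRootsOfUnity Ω n := IsSepClosed.hasEnoughRootsOfUnity Ω n
  have hr' : HasEnoughRootsOfUnity Ω (Nat.card H) := hn ▸ hr
  obtain ⟨ζ, hζ⟩ := HasEnoughRootsOfUnity.exists_primitiveRoot Ω n
  obtain ⟨s, hs⟩ := (inferInstance : Algebra.FiniteType ℤ R).out
  obtain ⟨k, hk⟩ : ∃ k : IntermediateField (ZMod p) Ω,
      k = IntermediateField.adjoin (ZMod p) ((insert ζ (s.image i) : Finset Ω) : Set Ω) := ⟨_, rfl⟩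
  have hkfg : Algebra.EssFiniteType (ZMod p) k := by
    rw [IntermediateField.essFiniteType_iff, hk]
    exact IntermediateField.fg_adjoin_finset _
  have hζk : ζ ∈ k := by
    rw [hk]
    apply IntermediateField.subset_adjoin
    rw [Finset.coe_insert]
    exact Set.mem_insert _ _
  have hik : ∀ r : R, i r ∈ k := by
    intro r
    have hr : r ∈ Algebra.adjoin ℤ (s : Set R) := by rw [hs]; trivial
    induction hr using Algebra.adjoin_induction with
    | mem r hr =>
      rw [hk]
      apply IntermediateField.subset_adjoin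
      rw [Finset.coe_insert]
      apply Set.mem_insert_of_mem
      rw [Finset.coe_image]
      exact Set.mem_image_of_mem _ hr
    | algebraMap r =>
      have : i (algebraMap ℤ R r) = ((r : ℤ) : Ω) := by simp
      rw [this]
      exact intCast_mem k r
    | add a b _ _ ha hb => rw [map_add]; exact add_mem ha hb
    | mul a b _ _ ha hb => rw [map_mul]; exact mul_mem ha hb
  let ik : R →+* k := i.codRestrict k.toSubring hik
  have hiki : Function.Injective ik := by
    intro a b hab
    apply hi
    exact congrArg Subtype.val hab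
  -- the images under characters are algebraic
  have halg : ∀ χ : H →* Ωˣ,
      IsAlgebraic (ZMod p) (TorsP_ev i ((Units.coeHom Ω).comp χ) (x : MonoidAlgebra R H)) := by
    intro χ
    by_contra hcon
    have hχn : ∀ g : H, ((χ g : Ωˣ) : Ω) ^ n = 1 := by
      intro g
      have h1 : g ^ n = 1 := by rw [hn]; exact pow_card_eq_one'
      rw [← Units.val_pow_eq_pow_val, ← map_pow, h1, map_one, Units.val_one]
    have hχk : ∀ g : H, ((χ g : Ωˣ) : Ω) ∈ k := by
      intro g
      obtain ⟨j, _, hj⟩ := hζ.eq_pow_of_pow_eq_one (hχn g)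
      rw [← hj]
      exact pow_mem hζk j
    let χk : H →* k :=
      { toFun := fun g => ⟨((χ g : Ωˣ) : Ω), hχk g⟩
        map_one' := by
          apply Subtype.ext
          simp
        map_mul' := by
          intro a b
          apply Subtype.ext
          simp }
    have hev : ∀ y : MonoidAlgebra R H,
        ((TorsP_ev ik χk y : k) : Ω) = TorsP_ev i ((Units.coeHom Ω).comp χ) y := by
      have h1 : (k.val.toRingHom).comp (TorsP_ev ik χk) = TorsP_ev i ((Units.coeHom Ω).comp χ) := by
        apply MonoidAlgebra.ringHom_ext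
        · intro r
          rw [RingHom.comp_apply, TorsP_ev_single, TorsP_ev_single, map_one, map_one]
          simp only [mul_one]
          rfl
        · intro g
          rw [RingHom.comp_apply, TorsP_ev_single, TorsP_ev_single, map_one, map_one]
          simp only [one_mul]
          rfl
      intro y
      exact RingHom.congr_fun h1 y
    have htr : Transcendental (ZMod p) (TorsP_ev ik χk (x : MonoidAlgebra R H)) := by
      intro hal
      apply hcon
      rw [← hev]
      exact hal.algebraMap (A := Ω)
    obtain ⟨F, hF1, hF2, φ', hφ'⟩ := exists_place p k _ htr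
    have : CharP k p := charP_of_injective_ringHom hiki p
    have : CharP (LaurentSeries F) p := charP_of_injective_ringHom φ'.injective p
    have : CharP F p := (RingHom.charP_iff (HahnSeries.C : F →+* LaurentSeries F)
      (HahnSeries.C : F →+* LaurentSeries F).injective p).2 inferInstance
    have : NeZero (n : F) := ⟨fun h0 => hH ((CharP.cast_eq_zero_iff F p n).1 h0)⟩
    have hrF : HasEnoughRootsOfUnity F n := IsSepClosed.hasEnoughRootsOfUnity F n
    obtain ⟨ζF, hζF⟩ := HasEnoughRootsOfUnity.exists_primitiveRoot F n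
    have hc : ∀ g : H, ∃ c : F, (HahnSeries.C c : LaurentSeries F) = φ' (χk g) := by
      intro g
      apply TorsP_const n ζF hζF
      rw [← map_pow]
      have h1 : (χk g) ^ n = 1 := by
        apply Subtype.ext
        exact hχn g
      rw [h1, map_one]
    choose c hc using hc
    have hCinj : Function.Injective (HahnSeries.C : F →+* LaurentSeries F) :=
      (HahnSeries.C : F →+* LaurentSeries F).injective
    let χF : H →* F :=
      { toFun := c
        map_one' := by
          apply hCinj
          rw [hc, map_one, map_one, map_one]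
        map_mul' := by
          intro a b
          apply hCinj
          rw [hc, map_mul, map_mul, map_mul, hc, hc] }
    have h1 := h F (φ'.comp ik) (φ'.injective.comp hiki) χF
    apply hφ'
    rw [← h1]
    congr 1
    have h2 : φ'.comp (TorsP_ev ik χk) = evF (φ'.comp ik) χF := by
      apply MonoidAlgebra.ringHom_ext
      · intro r
        rw [RingHom.comp_apply, TorsP_ev_single, evF, MonoidAlgebra.liftNCRingHom_single, map_one,
          map_one, mul_one, mul_one]
        rfl
      · intro g
        rw [RingHom.comp_apply, TorsP_ev_single, evF, MonoidAlgebra.liftNCRingHom_single, map_one,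
          map_one, one_mul, one_mul]
        exact (hc g).symm
    exact RingHom.congr_fun h2 _
  -- finite order of the images
  have hfin : ∀ χ : H →* Ωˣ, ∃ m : ℕ, m ≠ 0 ∧
      (TorsP_ev i ((Units.coeHom Ω).comp χ) (x : MonoidAlgebra R H)) ^ m = 1 := by
    intro χ
    refine TorsP_fin p _ (halg χ) ?_
    exact (x.isUnit.map (TorsP_ev i ((Units.coeHom Ω).comp χ))).ne_zero
  choose m hm0 hm using hfin
  have : Finite (H →* Ωˣ) := by
    let : CommGroup H := IsCyclic.commGroup
    obtain ⟨e⟩ := IsCyclic.monoidHom_equiv_self H Ω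
    exact Finite.of_equiv H e.toEquiv.symm
  have : Fintype (H →* Ωˣ) := Fintype.ofFinite _
  refine ⟨∏ χ, m χ, Finset.prod_ne_zero_iff.2 fun χ _ => hm0 χ, ?_⟩
  apply Units.ext
  rw [Units.val_pow_eq_pow_val, Units.val_one, ← sub_eq_zero]
  apply TorsP_sep i hi
  intro χ
  rw [map_sub, map_pow, map_one]
  obtain ⟨d, hd⟩ := Finset.dvd_prod_of_mem m (Finset.mem_univ χ)
  rw [hd, pow_mul, hm, one_pow, sub_self]

end Pool.Agent.H71.KP
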