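import Pool.Agent.H71.KP.Laur
import Pool.Agent.H71.KP.TorsP
import Pool.Agent.H71.KP.Sys2
import Pool.Agent.H71.FJ.Coeff

/-!
# Places and truncated Witt vectors
-/

set_option autoImplicit false
set_option linter.unusedSectionVars false
set_option linter.unusedSimpArgs false

open Matrix HahnSeries
open scoped Classical

universe u v w t

namespace Pool.Agent.H71.KP

section WB

variable (p : ℕ) [hp : Fact p.Prime] (F : Type u) [Field F]

/-- Witt vectors modulo `p ^ (n + 1)` -/
abbrev WB (n : ℕ) : Type u := WittVector p F ⧸ Ideal.span {(p : WittVector p F) ^ (n + 1)}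

variable [CharP F p]

/-- the projection -/
noncomputable def wπ (n : ℕ) : WB p F n →+* F :=
  Ideal.Quotient.lift _ (WittVector.constantCoeff : WittVector p F →+* F) (by
    intro a ha
    obtain ⟨c, rfl⟩ := Ideal.mem_span_singleton'.1 ha
    rw [map_mul, map_pow, map_natCast, CharP.cast_eq_zero, zero_pow (Nat.succ_ne_zero n), mul_zero])

theorem wπ_mk (n : ℕ) (x : WittVector p F) :
    wπ p F n (Ideal.Quotient.mk _ x) = WittVector.constantCoeff x := Ideal.Quotient.lift_mk _ _ _

/-- the multiplicative section -/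
noncomputable def wτ (n : ℕ) : F →* WB p F n :=
  ((Ideal.Quotient.mk (Ideal.span {(p : WittVector p F) ^ (n + 1)}) : WittVector p F →+* WB p F n) :
    WittVector p F →* WB p F n).comp (WittVector.teichmuller p)

theorem wπ_wτ (n : ℕ) (x : F) : wπ p F n (wτ p F n x) = x := by
  change wπ p F n (Ideal.Quotient.mk _ (WittVector.teichmuller p x)) = x
  rw [wπ_mk]
  exact WittVector.teichmuller_coeff_zero p x

theorem wπ_surjective (n : ℕ) : Function.Surjective (wπ p F n) := fun x => ⟨_, wπ_wτ p F n x⟩

variable [PerfectRing F p]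

theorem wπ_ker (n : ℕ) (b : WB p F n) (hb : wπ p F n b = 0) :
    ∃ c, b = (p : WB p F n) * c := by
  obtain ⟨w, rfl⟩ := Ideal.Quotient.mk_surjective b
  rw [wπ_mk] at hb
  have hw : w ∈ RingHom.ker (WittVector.constantCoeff : WittVector p F →+* F) := hb
  rw [WittVector.ker_constantCoeff] at hw
  obtain ⟨c, rfl⟩ := Ideal.mem_span_singleton'.1 hw
  refine ⟨Ideal.Quotient.mk _ c, ?_⟩
  rw [map_mul, map_natCast, mul_comm]

omit [CharP F p] [PerfectRing F p] in
theorem w_nil (n : ℕ) : (p : WB p F n) ^ (n + 1) = 0 := by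
  rw [← map_natCast (Ideal.Quotient.mk (Ideal.span {(p : WittVector p F) ^ (n + 1)})) p,
    ← map_pow]
  exact Ideal.Quotient.eq_zero_iff_mem.2 (Ideal.mem_span_singleton_self _)

theorem w_int (m : ℤ) (h : ∀ n, (m : WB p F n) = 0) : m = 0 := by
  apply Pool.Agent.H71.FJ.witt_int p F m
  intro n
  have h1 := h n
  rw [← map_intCast (Ideal.Quotient.mk (Ideal.span {(p : WittVector p F) ^ (n + 1)})) m] at h1
  exact Ideal.mem_span_singleton.1 (Ideal.Quotient.eq_zero_iff_mem.1 h1)

/-- the residue data of Laurent series over a perfect field -/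
noncomputable def wDat (n : ℕ) : ResDat p (LaurentSeries F) :=
  laurDat p (wπ p F n) (wπ_surjective p F n) (wπ_ker p F n) (n + 1) (w_nil p F n)

end WB

section Lin

variable {p : ℕ} [hp : Fact p.Prime] {k : Type u} [CommRing k] (d : ResDat p k)
  {H : Type v} [Group H]

theorem ResDat.gf_del [Fintype H] (f : H → d.B) (x : MonoidAlgebra d.A H) :
    d.gf f x = ∑ c, f c * d.gf (d.del c) x := by
  induction x using MonoidAlgebra.induction_linear with
  | zero => simp
  | add x y hx hy =>
    rw [map_add, hx, hy, ← Finset.sum_add_distrib]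
    exact Finset.sum_congr rfl fun c _ => by rw [map_add, mul_add]
  | single g a =>
    rw [d.gf_single, Finset.sum_eq_single g]
    · rw [d.gf_single, ResDat.del, if_pos rfl, one_mul]
    · intro c _ hc
      rw [d.gf_single, ResDat.del, if_neg (Ne.symm hc), zero_mul, mul_zero]
    · intro h
      exact absurd (Finset.mem_univ _) h

theorem ResDat.elp_del [Fintype H] (hc : ∀ a b : H, a * b = b * a) (f : H → d.B)
    (x : (MonoidAlgebra k H)ˣ) :
    d.elp f (fun a b => by rw [hc]) x = ∑ c, f c * d.elp (d.del c) (fun a b => by rw [hc]) x := by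
  obtain ⟨x, rfl⟩ := d.exists_lift_unit x
  rw [d.elp_eq]
  simp only [d.elp_eq]
  exact d.gf_del f _

/-- evaluation at a character -/
noncomputable def ResDat.evd (χ : H →* d.B) : MonoidAlgebra d.A H →+* d.A :=
  MonoidAlgebra.liftNCRingHom (RingHom.id d.A) ((d.ι : d.B →* d.A).comp χ)
    (fun _ _ => Commute.all _ _)

theorem ResDat.evd_single (χ : H →* d.B) (h : H) (a : d.A) :
    d.evd χ (MonoidAlgebra.single h a) = a * d.ι (χ h) :=
  MonoidAlgebra.liftNCRingHom_single _ _ _ _ _

theorem ResDat.θ_evd (χ : H →* d.B) (x : MonoidAlgebra d.A H) :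
    d.θ (d.evd χ x) = d.evd χ (d.gD H x) := by
  induction x using MonoidAlgebra.induction_linear with
  | zero => simp
  | add x y hx hy => rw [map_add, map_add, hx, hy, map_add, map_add]
  | single h a => rw [d.evd_single, d.leib, d.θι, mul_zero, add_zero, d.gD_single, d.evd_single]

theorem ResDat.res_evd (χ : H →* d.B) (x : MonoidAlgebra d.A H) :
    d.res (d.evd χ x) = d.gf χ x := by
  induction x using MonoidAlgebra.induction_linear with
  | zero => simp
  | add x y hx hy => rw [map_add, map_add, hx, hy, map_add]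
  | single h a => rw [d.evd_single, mul_comm, d.res_ι, d.gf_single]

theorem ResDat.base_evd [Finite H] (hc : ∀ a b : H, a * b = b * a) (χ : H →* d.B)
    (x : (MonoidAlgebra d.A H)ˣ)
    (h : ∀ c, d.elp (d.del c) (fun a b => by rw [hc]) (uMap d.π H x) = 0) :
    d.base.dlog (Units.map (d.evd χ).toMonoidHom x) = 0 := by
  have := Fintype.ofFinite H
  have h1 := dlog_map (d.grp χ (fun a b => by rw [hc])) d.base (d.evd χ) (AddMonoidHom.id d.B)
    (fun x => d.θ_evd χ x) (fun x => d.res_evd χ x) x
  rw [h1]
  change (d.grp χ (fun a b => by rw [hc])).dlog x = 0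
  rw [← d.elp_eq, d.elp_del hc]
  apply Finset.sum_eq_zero
  intro c _
  rw [h c, mul_zero]

end Lin

end Pool.Agent.H71.KP
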